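import Pool.Agent.VP.Defs2

set_option autoImplicit false
open MeasureTheory ProbabilityTheory
open scoped ENNReal Matrix

namespace Pool.Agent.VP

/-- the density of `(a, b)` as an integral over the cube -/
noncomputable def KD (n : ℕ) (a b : ℝ) : ℝ≥0∞ :=
  (2⁻¹ : ℝ≥0∞) ^ n * ∫⁻ z in Set.Icc (fun _ : Fin n => (-1 : ℝ)) (fun _ => 1),
    ENNReal.ofReal (√(n : ℝ) / √(2 * Real.pi) * s2 z * b *
      Real.exp (-(∑ i, (a + z i * b) ^ 2) / 2))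

lemma dens_meas (n : ℕ) : Measurable (fun t : (Fin n → ℝ) × ℝ × ℝ =>
    ENNReal.ofReal (√(n : ℝ) / √(2 * Real.pi) * s2 t.1 * t.2.2 *
      Real.exp (-(∑ i, (t.2.1 + t.1 i * t.2.2) ^ 2) / 2))) := by
  apply ENNReal.measurable_ofReal.comp
  apply Continuous.measurable
  unfold s2 zb
  fun_prop

theorem swap_z
    (QQ_measurable : Measurable (fun t : ℝ × ℝ × ℝ => QQ t.1 t.2.1 t.2.2))
    (n m : ℕ) :
    ∫⁻ x, (∫⁻ b in Set.Ioi (0 : ℝ), ∫⁻ a : ℝ, QQ (|x| / √(n : ℝ)) a b ^ m * KD n a b)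
      ∂(gaussianReal 0 1) =
    ((2 : ℝ≥0∞) ^ n)⁻¹ * ∫⁻ z in Set.pi Set.univ (fun _ : Fin n => Set.Icc (-1 : ℝ) 1),
      ∫⁻ x, (∫⁻ b in Set.Ioi (0 : ℝ), ∫⁻ a : ℝ, QQ (|x| / √(n : ℝ)) a b ^ m *
        ENNReal.ofReal (√(n : ℝ) / √(2 * Real.pi) * s2 z * b *
          Real.exp (-(∑ i, (a + z i * b) ^ 2) / 2))) ∂(gaussianReal 0 1) := by
  set μz : Measure (Fin n → ℝ) :=
    volume.restrict (Set.pi Set.univ (fun _ : Fin n => Set.Icc (-1 : ℝ) 1)) with hμz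
  set D : (Fin n → ℝ) → ℝ → ℝ → ℝ≥0∞ := fun z a b =>
    ENNReal.ofReal (√(n : ℝ) / √(2 * Real.pi) * s2 z * b *
          Real.exp (-(∑ i, (a + z i * b) ^ 2) / 2)) with hD
  have hDm : Measurable (fun t : (Fin n → ℝ) × ℝ × ℝ => D t.1 t.2.1 t.2.2) := dens_meas n
  have hQm : Measurable (fun t : ℝ × ℝ × ℝ => QQ (|t.1| / √(n : ℝ)) t.2.1 t.2.2 ^ m) := by
    apply Measurable.pow_const
    have : Measurable (fun t : ℝ × ℝ × ℝ => (|t.1| / √(n : ℝ), t.2.1, t.2.2)) := by fun_prop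
    exact QQ_measurable.comp this
  have hc : ((2 : ℝ≥0∞) ^ n)⁻¹ ≠ ∞ := by simp
  have hKD : ∀ a b, KD n a b = ((2 : ℝ≥0∞) ^ n)⁻¹ * ∫⁻ z, D z a b ∂μz := by
    intro a b
    unfold KD
    rw [← ENNReal.inv_pow]
    congr 1
    have : (Set.Icc (fun _ : Fin n => (-1 : ℝ)) (fun _ => 1)) =
        Set.pi Set.univ (fun _ : Fin n => Set.Icc (-1 : ℝ) 1) := (Set.pi_univ_Icc _ _).symm
    rw [this]
  -- joint measurability
  have hΦ : Measurable (fun t : ℝ × ℝ × ℝ × (Fin n → ℝ) =>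
      QQ (|t.1| / √(n : ℝ)) t.2.2.1 t.2.1 ^ m * D t.2.2.2 t.2.2.1 t.2.1) := by
    apply Measurable.mul
    · exact hQm.comp (f := fun t : ℝ × ℝ × ℝ × (Fin n → ℝ) => (t.1, t.2.2.1, t.2.1)) (by fun_prop)
    · exact hDm.comp (f := fun t : ℝ × ℝ × ℝ × (Fin n → ℝ) => (t.2.2.2, t.2.2.1, t.2.1))
        (by fun_prop)
  calc ∫⁻ x, (∫⁻ b in Set.Ioi (0 : ℝ), ∫⁻ a : ℝ, QQ (|x| / √(n : ℝ)) a b ^ m * KD n a b)
      ∂(gaussianReal 0 1)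
      = ∫⁻ x, (∫⁻ b in Set.Ioi (0 : ℝ), ∫⁻ a : ℝ, ((2 : ℝ≥0∞) ^ n)⁻¹ *
          (∫⁻ z, QQ (|x| / √(n : ℝ)) a b ^ m * D z a b ∂μz)) ∂(gaussianReal 0 1) := by
        congr 1; ext x; congr 1; ext b; congr 1; ext a
        rw [hKD, mul_left_comm]
        congr 1
        rw [lintegral_const_mul]
        exact hDm.comp (f := fun z : Fin n → ℝ => (z, a, b)) (by fun_prop)
    _ = ((2 : ℝ≥0∞) ^ n)⁻¹ * ∫⁻ x, (∫⁻ b in Set.Ioi (0 : ℝ), ∫⁻ a : ℝ,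
          (∫⁻ z, QQ (|x| / √(n : ℝ)) a b ^ m * D z a b ∂μz)) ∂(gaussianReal 0 1) := by
        rw [← lintegral_const_mul' _ _ hc]
        congr 1; ext x
        rw [← lintegral_const_mul' _ _ hc]
        congr 1; ext b
        rw [← lintegral_const_mul' _ _ hc]
    _ = ((2 : ℝ≥0∞) ^ n)⁻¹ * ∫⁻ z, (∫⁻ x, (∫⁻ b in Set.Ioi (0 : ℝ), ∫⁻ a : ℝ,
          QQ (|x| / √(n : ℝ)) a b ^ m * D z a b) ∂(gaussianReal 0 1)) ∂μz := by
        congr 1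
        -- swap a and z
        have e1 : ∀ x b : ℝ, ∫⁻ a : ℝ, (∫⁻ z, QQ (|x| / √(n : ℝ)) a b ^ m * D z a b ∂μz) =
            ∫⁻ z, (∫⁻ a : ℝ, QQ (|x| / √(n : ℝ)) a b ^ m * D z a b) ∂μz := by
          intro x b
          apply lintegral_lintegral_swap
          apply Measurable.aemeasurable
          exact hΦ.comp (f := fun t : ℝ × (Fin n → ℝ) => (x, b, t.1, t.2)) (by fun_prop)
        simp_rw [e1]
        -- swap b and z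
        have e2 : ∀ x : ℝ, ∫⁻ b in Set.Ioi (0 : ℝ), (∫⁻ z, (∫⁻ a : ℝ,
            QQ (|x| / √(n : ℝ)) a b ^ m * D z a b) ∂μz) =
            ∫⁻ z, (∫⁻ b in Set.Ioi (0 : ℝ), ∫⁻ a : ℝ, QQ (|x| / √(n : ℝ)) a b ^ m * D z a b) ∂μz := by
          intro x
          apply lintegral_lintegral_swap
          apply Measurable.aemeasurable
          have h1 : Measurable (fun q : (ℝ × (Fin n → ℝ)) × ℝ =>
              QQ (|x| / √(n : ℝ)) q.2 q.1.1 ^ m * D q.1.2 q.2 q.1.1) :=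
            hΦ.comp (f := fun t : (ℝ × (Fin n → ℝ)) × ℝ => (x, t.1.1, t.2, t.1.2)) (by fun_prop)
          exact h1.lintegral_prod_right'
        simp_rw [e2]
        apply lintegral_lintegral_swap
        apply Measurable.aemeasurable
        have h1 : Measurable (fun q : ((ℝ × (Fin n → ℝ)) × ℝ) × ℝ =>
              QQ (|q.1.1.1| / √(n : ℝ)) q.2 q.1.2 ^ m * D q.1.1.2 q.2 q.1.2) :=
            hΦ.comp (f := fun t : ((ℝ × (Fin n → ℝ)) × ℝ) × ℝ => (t.1.1.1, t.1.2, t.2, t.1.1.2))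
              (by fun_prop)
        have h2 : Measurable (fun q : (ℝ × (Fin n → ℝ)) × ℝ => ∫⁻ a : ℝ,
              QQ (|q.1.1| / √(n : ℝ)) a q.2 ^ m * D q.1.2 a q.2) := h1.lintegral_prod_right'
        exact h2.lintegral_prod_right'

theorem geom_core
    (QQ_measurable : Measurable (fun t : ℝ × ℝ × ℝ => QQ t.1 t.2.1 t.2.2))
    (ab_law : ∀ (n : ℕ), 2 ≤ n → ∀ (z : Fin n → ℝ), 0 < s2 z → ∀ (F : ℝ → ℝ → ℝ≥0∞),
      Measurable (fun t : ℝ × ℝ => F t.1 t.2) →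
      ∫⁻ x', ∫⁻ p : ℝ × ℝ, F (x' / √(n : ℝ) - zb z * √(p.1 ^ 2 + p.2 ^ 2) / √(s2 z))
        (√(p.1 ^ 2 + p.2 ^ 2) / √(s2 z))
        ∂((gaussianReal 0 1).prod (gaussianReal 0 1)) ∂(gaussianReal 0 1) =
      ∫⁻ b in Set.Ioi (0 : ℝ), ∫⁻ a : ℝ, F a b *
        ENNReal.ofReal (√(n : ℝ) / √(2 * Real.pi) * s2 z * b *
        Real.exp (-(∑ i, (a + z i * b) ^ 2) / 2)))
    (T3 : ∀ (n m : ℕ), 2 ≤ n → ∀ (z : Fin n → ℝ), 0 < s2 z → J3 m z ≤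
      ∫⁻ G : Fin n → Fin n → ℝ,
        qq ((Matrix.of G)⁻¹ *ᵥ 1) ((Matrix.of G)⁻¹ *ᵥ z) ^ m
          ∂(Measure.pi (fun _ : Fin n => gam n)))
    (n m : ℕ) (hn : 2 ≤ n) :
    ∫⁻ x, (∫⁻ b in Set.Ioi (0 : ℝ), ∫⁻ a : ℝ, QQ (|x| / √(n : ℝ)) a b ^ m * KD n a b)
      ∂(gaussianReal 0 1) ≤
    ((2 : ℝ≥0∞) ^ n)⁻¹ * ∫⁻ z in Set.pi Set.univ (fun _ : Fin n => Set.Icc (-1 : ℝ) 1),
        ∫⁻ G : Fin n → Fin n → ℝ, qq ((Matrix.of G)⁻¹ *ᵥ 1) ((Matrix.of G)⁻¹ *ᵥ z) ^ m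
          ∂(Measure.pi (fun _ : Fin n => gam n)) := by
  rw [swap_z QQ_measurable n m]
  gcongr with z
  have hs0 : 0 ≤ s2 z := by unfold s2; positivity
  rcases hs0.eq_or_lt with h | h
  · simp [← h]
  · refine le_trans (le_of_eq ?_) (T3 n m hn z h)
    unfold J3
    congr 1; ext x
    symm
    apply ab_law n hn z h (fun a b => QQ (|x| / √(n : ℝ)) a b ^ m)
    apply Measurable.pow_const
    exact QQ_measurable.comp (f := fun t : ℝ × ℝ => (|x| / √(n : ℝ), t.1, t.2)) (by fun_prop)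

end Pool.Agent.VP
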