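import Pool.Agent.VP.Defs

set_option autoImplicit false
open MeasureTheory ProbabilityTheory
open scoped ENNReal Matrix

namespace Pool.Agent.VP.A1

open Pool.Agent.VP



theorem vol_simplex_aux (n : ℕ) : ∀ r : ℝ, 0 < r →
    volume {c : Fin n → ℝ | (∀ i, 0 < c i) ∧ ∑ i, c i < r} =
      ENNReal.ofReal (r ^ n / (n.factorial : ℝ)) := by
  induction n with
  | zero =>
    intro r hr
    have : {c : Fin 0 → ℝ | (∀ i, 0 < c i) ∧ ∑ i, c i < r} = Set.univ := by
      ext c; simp [hr]
    rw [this]
    simp [MeasureTheory.Measure.volume_pi_eq_dirac (0 : Fin 0 → ℝ)]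
  | succ n ih =>
    intro r hr
    let T : Set (ℝ × (Fin n → ℝ)) := {q | 0 < q.1 ∧ (∀ i, 0 < q.2 i) ∧ q.1 + ∑ i, q.2 i < r}
    have hT : MeasurableSet T := by
      have h1 : IsOpen T := by
        have e1 : T = {q | 0 < q.1} ∩ (⋂ i, {q : ℝ × (Fin n → ℝ) | 0 < q.2 i}) ∩
            {q | q.1 + ∑ i, q.2 i < r} := by
          ext q; simp [T, and_assoc]
        rw [e1]
        refine IsOpen.inter (IsOpen.inter ?_ ?_) ?_
        · exact isOpen_lt continuous_const continuous_fst
        · refine isOpen_iInter_of_finite fun i => ?_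
          exact isOpen_lt continuous_const ((continuous_apply i).comp continuous_snd)
        · refine isOpen_lt ?_ continuous_const
          fun_prop
      exact h1.measurableSet
    have hmp := MeasureTheory.volume_preserving_piFinSuccAbove (fun _ : Fin (n + 1) => ℝ) 0
    have hpre : {c : Fin (n + 1) → ℝ | (∀ i, 0 < c i) ∧ ∑ i, c i < r} =
        (MeasurableEquiv.piFinSuccAbove (fun _ : Fin (n + 1) => ℝ) 0) ⁻¹' T := by
      ext c
      simp only [Set.mem_setOf_eq, Set.mem_preimage, T, MeasurableEquiv.piFinSuccAbove_apply,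
        Fin.insertNthEquiv_zero]
      rw [Fin.forall_fin_succ, Fin.sum_univ_succ, and_assoc]
      rfl
    rw [hpre, hmp.measure_preimage hT.nullMeasurableSet]
    rw [Measure.volume_eq_prod, Measure.prod_apply hT]
    have hsec : ∀ t : ℝ, volume (Prod.mk t ⁻¹' T) =
        (Set.Ioo 0 r).indicator (fun t => ENNReal.ofReal ((r - t) ^ n / (n.factorial : ℝ))) t := by
      intro t
      by_cases ht : t ∈ Set.Ioo 0 r
      · rw [Set.indicator_of_mem ht, ← ih (r - t) (by linarith [ht.2])]
        congr 1
        ext c
        simp only [Set.mem_preimage, T, Set.mem_setOf_eq]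
        constructor
        · rintro ⟨_, h2, h3⟩
          exact ⟨h2, by linarith⟩
        · rintro ⟨h2, h3⟩
          exact ⟨ht.1, h2, by linarith⟩
      · rw [Set.indicator_of_notMem ht]
        have : Prod.mk t ⁻¹' T = ∅ := by
          ext c
          simp only [Set.mem_preimage, T, Set.mem_setOf_eq, Set.mem_empty_iff_false, iff_false]
          rintro ⟨h1, h2, h3⟩
          apply ht
          refine ⟨h1, ?_⟩
          have : 0 ≤ ∑ i, c i := Finset.sum_nonneg fun i _ => (h2 i).le
          linarith
        rw [this, measure_empty]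
    simp_rw [hsec]
    rw [lintegral_indicator measurableSet_Ioo]
    have hint : IntervalIntegrable (fun t : ℝ => (r - t) ^ n / (n.factorial : ℝ)) volume 0 r := by
      apply Continuous.intervalIntegrable
      fun_prop
    have hIoc : IntegrableOn (fun t : ℝ => (r - t) ^ n / (n.factorial : ℝ)) (Set.Ioo 0 r) volume :=
      ((intervalIntegrable_iff_integrableOn_Ioo_of_le hr.le).1 hint)
    rw [← ofReal_integral_eq_lintegral_ofReal hIoc]
    · congr 1
      rw [← integral_Ioc_eq_integral_Ioo, ← intervalIntegral.integral_of_le hr.le]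
      have : ∫ t in (0:ℝ)..r, (r - t) ^ n / (n.factorial : ℝ) = (∫ t in (0:ℝ)..r, t ^ n) / (n.factorial : ℝ) := by
        rw [intervalIntegral.integral_div]
        congr 1
        have := intervalIntegral.integral_comp_sub_left (fun t : ℝ => t ^ n) r (a := 0) (b := r)
        rw [this]; simp
      rw [this, integral_pow, Nat.factorial_succ]
      push_cast
      have h1 : (n.factorial : ℝ) ≠ 0 := by exact_mod_cast n.factorial_ne_zero
      have h2 : (n : ℝ) + 1 ≠ 0 := by positivity
      field_simp
      simp
    · rw [Filter.EventuallyLE, ae_restrict_iff' measurableSet_Ioo]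
      refine Filter.Eventually.of_forall fun t ht => ?_
      simp only [Pi.zero_apply]
      have : 0 ≤ r - t := by linarith [ht.2]
      positivity

theorem vol_simplex (n : ℕ) :
    volume {c : Fin n → ℝ | (∀ i, 0 < c i) ∧ ∑ i, c i < 1} =
      ENNReal.ofReal (1 / (n.factorial : ℝ)) := by
  rw [vol_simplex_aux n 1 one_pos, one_pow]


end Pool.Agent.VP.A1
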