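import Pool.Agent.VP.Defs

set_option autoImplicit false
open MeasureTheory ProbabilityTheory
open scoped ENNReal Matrix

namespace Pool.Agent.VP.A4

open Pool.Agent.VP


theorem pi_ac480 {α : Type} [MeasurableSpace α] (μ ν : Measure α) [SigmaFinite μ]
    [SigmaFinite ν] (h : μ ≪ ν) (n : ℕ) :
    Measure.pi (fun _ : Fin n => μ) ≪ Measure.pi (fun _ : Fin n => ν) := by
  induction n with
  | zero =>
    rw [Measure.pi_of_empty, Measure.pi_of_empty]
  | succ n ih =>
    have h1 := measurePreserving_piFinSuccAbove (fun _ : Fin (n + 1) => μ) 0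
    have h2 := measurePreserving_piFinSuccAbove (fun _ : Fin (n + 1) => ν) 0
    have h3 := (h1.symm (MeasurableEquiv.piFinSuccAbove (fun _ => α) 0)).map_eq
    have h4 := (h2.symm (MeasurableEquiv.piFinSuccAbove (fun _ => α) 0)).map_eq
    rw [← h3, ← h4]
    exact (h.prod ih).map (MeasurableEquiv.measurable _)

theorem det_ne_zero_vol480 (n : ℕ) :
    ∀ᵐ G : Fin n → Fin n → ℝ ∂(volume : Measure (Fin n → Fin n → ℝ)),
      (Matrix.of G).det ≠ 0 := by
  let L : ℝ →ₗ[ℝ] (Fin n → Fin n → ℝ) :=
    LinearMap.toSpanSingleton ℝ (Fin n → Fin n → ℝ) (fun i j => (1 : Matrix (Fin n) (Fin n) ℝ) i j)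
  have hs : MeasurableSet {G : Fin n → Fin n → ℝ | (Matrix.of G).det ≠ 0} := by
    have hc : Continuous fun G : Fin n → Fin n → ℝ => (Matrix.of G).det := by
      apply Continuous.matrix_det
      exact continuous_id
    exact (hc.measurable (measurableSet_singleton 0)).compl
  refine ae_mem_of_ae_add_linearMap_mem L (volume : Measure ℝ) volume hs ?_
  intro G
  have hfin : {t : ℝ | ((-(Matrix.of G)).charpoly).eval t = 0}.Finite := by
    have hne : (-(Matrix.of G)).charpoly ≠ 0 := (Matrix.charpoly_monic _).ne_zero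
    refine Set.Finite.subset (Multiset.finite_toSet ((-(Matrix.of G)).charpoly.roots)) ?_
    intro t ht
    exact (Polynomial.mem_roots hne).2 ht
  have h0 : volume {t : ℝ | ((-(Matrix.of G)).charpoly).eval t = 0} = 0 :=
    hfin.measure_zero volume
  have h1 : ∀ᵐ t : ℝ, ((-(Matrix.of G)).charpoly).eval t ≠ 0 := by
    rw [ae_iff]
    simpa using h0
  filter_upwards [h1] with t ht
  rw [Matrix.eval_charpoly] at ht
  have h2 : Matrix.scalar (Fin n) t - -(Matrix.of G) = Matrix.of (G + L t) := by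
    ext i j
    simp only [L, LinearMap.toSpanSingleton_apply, Matrix.scalar_apply, Matrix.of_apply,
      Pi.add_apply, Pi.smul_apply, smul_eq_mul, Matrix.sub_apply, Matrix.neg_apply,
      sub_neg_eq_add, Matrix.diagonal_apply, Matrix.one_apply]
    split_ifs <;> ring
  rw [h2] at ht
  exact ht

theorem det_ne_zero_ae (n : ℕ) :
    ∀ᵐ G : Fin n → Fin n → ℝ ∂(Measure.pi (fun _ : Fin n => Measure.pi (fun _ : Fin n => gaussianReal 0 1))),
      (Matrix.of G).det ≠ 0 := by
  have h1 : gaussianReal 0 1 ≪ (volume : Measure ℝ) :=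
    gaussianReal_absolutelyContinuous 0 one_ne_zero
  have h2 := pi_ac480 _ _ (pi_ac480 _ _ h1 n) n
  exact h2.ae_le (det_ne_zero_vol480 n)


end Pool.Agent.VP.A4
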