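import Pool.Agent.VP.Facets

set_option autoImplicit false
open MeasureTheory ProbabilityTheory
open scoped ENNReal Matrix

namespace Pool.Agent.VP.A5

open Pool.Agent.VP





theorem sg_sq_vp (b : Bool) : |sg b| = 1 := by
  unfold sg; cases b <;> simp

theorem gam_neg_vp (n : ℕ) :
    MeasurePreserving (fun x : Fin n → ℝ => -x) (gam n) (gam n) := by
  have h1 : MeasurePreserving (fun x : ℝ => -x) (gaussianReal 0 1) (gaussianReal 0 1) := by
    refine ⟨measurable_neg, ?_⟩
    rw [gaussianReal_map_neg, neg_zero]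
  exact measurePreserving_pi (fun _ : Fin n => gaussianReal 0 1) (fun _ : Fin n => gaussianReal 0 1)
    (f := fun _ x => -x) (fun _ => h1)

theorem gam_sg_vp (n : ℕ) (b : Bool) :
    MeasurePreserving (fun x : Fin n → ℝ => sg b • x) (gam n) (gam n) := by
  cases b
  · have h : (fun x : Fin n → ℝ => sg false • x) = fun x => -x := by
      funext x; simp [sg]
    rw [h]; exact gam_neg_vp n
  · have h : (fun x : Fin n → ℝ => sg true • x) = id := by
      funext x; simp [sg]
    rw [h]; exact MeasurePreserving.id _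

/-- the rearrangement -/
theorem Psi_mp_vp (n m : ℕ) (e : Fin n ⊕ Fin m ≃ Fin (n + m)) (ε : Fin n → Bool) :
    MeasurePreserving (fun ω : Fin (n + m) → Fin n → ℝ =>
      ((fun i => sg (ε i) • ω (e (Sum.inl i)) : Fin n → Fin n → ℝ),
        (fun k => ω (e (Sum.inr k)) : Fin m → Fin n → ℝ)))
      (Measure.pi (fun _ : Fin (n + m) => gam n))
      ((Measure.pi (fun _ : Fin n => gam n)).prod (Measure.pi (fun _ : Fin m => gam n))) := by
  have h1 := (measurePreserving_piCongrLeft (fun _ : Fin (n + m) => gam n) e).symm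
  have h2 := measurePreserving_sumPiEquivProdPi (X := fun _ : Fin n ⊕ Fin m => Fin n → ℝ)
    (fun _ : Fin n ⊕ Fin m => gam n)
  have h3 : MeasurePreserving (fun (a : Fin n → Fin n → ℝ) i => sg (ε i) • a i)
      (Measure.pi (fun _ : Fin n => gam n)) (Measure.pi (fun _ : Fin n => gam n)) :=
    measurePreserving_pi (fun _ : Fin n => gam n) (fun _ : Fin n => gam n)
      (f := fun i x => sg (ε i) • x) (fun i => gam_sg_vp n (ε i))
  have h4 := h3.prod (MeasurePreserving.id (Measure.pi (fun _ : Fin m => gam n)))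
  have h5 := h4.comp (h2.comp h1)
  have h6 : (Prod.map (fun (a : Fin n → Fin n → ℝ) i => sg (ε i) • a i) id ∘
      (⇑(MeasurableEquiv.sumPiEquivProdPi fun _ : Fin n ⊕ Fin m => Fin n → ℝ)) ∘
        ⇑(MeasurableEquiv.piCongrLeft (fun _ : Fin (n + m) => Fin n → ℝ) e).symm) =
      (fun ω : Fin (n + m) → Fin n → ℝ =>
      ((fun i => sg (ε i) • ω (e (Sum.inl i)) : Fin n → Fin n → ℝ),
        (fun k => ω (e (Sum.inr k)) : Fin m → Fin n → ℝ))) := by
    funext ω
    rfl
  rw [h6] at h5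
  exact h5

theorem meas_inv_vp (n : ℕ) (i j : Fin n) :
    Measurable (fun G : Fin n → Fin n → ℝ => (Matrix.of G)⁻¹ i j) := by
  have hA : Continuous (fun G : Fin n → Fin n → ℝ => (Matrix.of G : Matrix (Fin n) (Fin n) ℝ)) :=
    continuous_id
  have h1 : Continuous (fun G : Fin n → Fin n → ℝ => (Matrix.of G).det) := hA.matrix_det
  have h2 : Continuous (fun G : Fin n → Fin n → ℝ => (Matrix.of G).adjugate i j) :=
    hA.matrix_adjugate.matrix_elem i j
  have h3 : (fun G : Fin n → Fin n → ℝ => (Matrix.of G)⁻¹ i j) =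
      fun G => ((Matrix.of G).det)⁻¹ * (Matrix.of G).adjugate i j := by
    funext G
    rw [Matrix.inv_def, Ring.inverse_eq_inv', Matrix.smul_apply, smul_eq_mul]
  rw [h3]
  exact h1.measurable.inv.mul h2.measurable

theorem meas_quad_vp (n m : ℕ) (k : Fin m) :
    Measurable (fun p : ((Fin n → Fin n → ℝ) × (Fin m → Fin n → ℝ)) × (Fin n → ℝ) =>
      p.1.2 k ⬝ᵥ ((Matrix.of p.1.1)⁻¹ *ᵥ p.2)) := by
  unfold Matrix.mulVec dotProduct
  refine Finset.measurable_sum _ fun i _ => ?_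
  refine Measurable.mul ?_ ?_
  · exact (measurable_pi_apply i).comp ((measurable_pi_apply k).comp
      (measurable_snd.comp measurable_fst))
  · refine Finset.measurable_sum _ fun j _ => ?_
    refine Measurable.mul ?_ ?_
    · exact (meas_inv_vp n i j).comp (measurable_fst.comp measurable_fst)
    · exact (measurable_pi_apply j).comp measurable_snd

/-- the set of good triples -/
def CS_vp (n m : ℕ) : Set (((Fin n → Fin n → ℝ) × (Fin m → Fin n → ℝ)) × (Fin n → ℝ)) :=
  {p | (∀ k, |p.1.2 k ⬝ᵥ ((Matrix.of p.1.1)⁻¹ *ᵥ 1)| < 1) ∧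
    ∀ k, |p.1.2 k ⬝ᵥ ((Matrix.of p.1.1)⁻¹ *ᵥ p.2)| ≤ 1}

theorem meas_CS_vp (n m : ℕ) : MeasurableSet (CS_vp n m) := by
  have h1 : ∀ k : Fin m, Measurable
      (fun p : ((Fin n → Fin n → ℝ) × (Fin m → Fin n → ℝ)) × (Fin n → ℝ) =>
      |p.1.2 k ⬝ᵥ ((Matrix.of p.1.1)⁻¹ *ᵥ p.2)|) := fun k => (meas_quad_vp n m k).abs
  have h2 : ∀ k : Fin m, Measurable
      (fun p : ((Fin n → Fin n → ℝ) × (Fin m → Fin n → ℝ)) × (Fin n → ℝ) =>
      |p.1.2 k ⬝ᵥ ((Matrix.of p.1.1)⁻¹ *ᵥ 1)|) := by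
    intro k
    have h3 : Measurable
      (fun p : ((Fin n → Fin n → ℝ) × (Fin m → Fin n → ℝ)) × (Fin n → ℝ) =>
        (p.1, (1 : Fin n → ℝ))) := measurable_fst.prodMk measurable_const
    exact (h1 k).comp h3
  have h4 : CS_vp n m = (⋂ k : Fin m, {p | |p.1.2 k ⬝ᵥ ((Matrix.of p.1.1)⁻¹ *ᵥ 1)| < 1}) ∩
      (⋂ k : Fin m, {p | |p.1.2 k ⬝ᵥ ((Matrix.of p.1.1)⁻¹ *ᵥ p.2)| ≤ 1}) := by
    ext p
    simp [CS_vp]
  rw [h4]
  refine MeasurableSet.inter (MeasurableSet.iInter fun k => ?_) (MeasurableSet.iInter fun k => ?_)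
  · exact measurableSet_lt (h2 k) measurable_const
  · exact measurableSet_le (h1 k) measurable_const

/-- the cube -/
abbrev cube_vp (n : ℕ) : Set (Fin n → ℝ) :=
  Set.pi Set.univ (fun _ : Fin n => Set.Icc (-1 : ℝ) 1)

theorem qq_pow_vp (n m : ℕ) (G : Fin n → Fin n → ℝ) (z : Fin n → ℝ) :
    qq ((Matrix.of G)⁻¹ *ᵥ 1) ((Matrix.of G)⁻¹ *ᵥ z) ^ m =
      (Measure.pi (fun _ : Fin m => gam n)) {w | ((G, w), z) ∈ CS_vp n m} := by
  have h1 : {w : Fin m → Fin n → ℝ | ((G, w), z) ∈ CS_vp n m} = Set.pi Set.univ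
      (fun _ : Fin m => {h : Fin n → ℝ | |∑ j, h j * ((Matrix.of G)⁻¹ *ᵥ 1) j| < 1 ∧
        |∑ j, h j * ((Matrix.of G)⁻¹ *ᵥ z) j| ≤ 1}) := by
    ext w
    simp only [CS_vp, dotProduct, Set.mem_pi, Set.mem_univ, forall_true_left, Set.mem_ofPred_eq]
    exact forall_and.symm
  rw [h1, Measure.pi_pi, Finset.prod_const, Finset.card_univ, Fintype.card_fin]
  rfl

theorem pointwise_vp (n m : ℕ) (F : Sub n (n + m)) (hF : F.1ᶜ.card = m) (ε : Fin n → Bool)
    (ω : Fin (n + m) → Fin n → ℝ)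
    (hdet : (Matrix.of (fun i => sg (ε i) • ω (finSumEquivOfFinset F.2 hF (Sum.inl i)))).det ≠ 0) :
    (volume.restrict (cube_vp n)) {z |
      (((fun i => sg (ε i) • ω (finSumEquivOfFinset F.2 hF (Sum.inl i)) : Fin n → Fin n → ℝ),
        (fun k => ω (finSumEquivOfFinset F.2 hF (Sum.inr k)) : Fin m → Fin n → ℝ)), z) ∈
          CS_vp n m} ≤
      Set.indicator {ω | Facet ω F ε} (fun ω => ENNReal.ofReal |(MF ω F ε).det|) ω *
      volume {y : Fin n → ℝ | ∀ x ∈ KK ω, ∑ j, x j * y j ≤ 1} := by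
  set e := finSumEquivOfFinset F.2 hF with he
  set G : Fin n → Fin n → ℝ := fun i => sg (ε i) • ω (e (Sum.inl i)) with hG
  set w : Fin m → Fin n → ℝ := fun k => ω (e (Sum.inr k)) with hw
  have hMF : MF ω F ε = Matrix.of G := by
    unfold MF
    congr 1
  by_cases hfac : ∀ k, |w k ⬝ᵥ ((Matrix.of G)⁻¹ *ᵥ 1)| < 1
  swap
  · have hempty : {z | ((G, w), z) ∈ CS_vp n m} = ∅ := by
      ext z
      simp only [CS_vp, Set.mem_ofPred_eq, Set.mem_empty_iff_false, iff_false]
      intro h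
      exact hfac h.1
    rw [hempty, measure_empty]
    exact zero_le
  have hFacet : Facet ω F ε := by
    refine ⟨by rw [hMF]; exact hdet, fun j hj => ?_⟩
    rw [hMF]
    rcases hc : e.symm j with i | k
    · exfalso
      apply hj
      have h1 : j = e (Sum.inl i) := by rw [← hc, Equiv.apply_symm_apply]
      rw [h1, he, finSumEquivOfFinset_inl]
      exact Finset.orderEmbOfFin_mem _ _ _
    · have h1 : j = e (Sum.inr k) := by rw [← hc, Equiv.apply_symm_apply]
      rw [h1]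
      exact hfac k
  rw [Set.indicator_of_mem (show ω ∈ {ω | Facet ω F ε} from hFacet)]
  rw [hMF]
  set S : Set (Fin n → ℝ) := {z | z ∈ cube_vp n ∧ ∀ k, |w k ⬝ᵥ ((Matrix.of G)⁻¹ *ᵥ z)| ≤ 1} with hS
  have hL : (volume.restrict (cube_vp n)) {z | ((G, w), z) ∈ CS_vp n m} ≤ volume S := by
    have hms : MeasurableSet (cube_vp n) := MeasurableSet.univ_pi fun _ => measurableSet_Icc
    rw [Measure.restrict_apply' hms]
    refine measure_mono ?_
    rintro z ⟨hz1, hz2⟩
    exact ⟨hz2, hz1.2⟩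
  refine hL.trans ?_
  have hlin : LinearMap.det (Matrix.toLin' (Matrix.of G)) ≠ 0 := by
    rw [LinearMap.det_toLin']; exact hdet
  have hpre := Measure.addHaar_preimage_linearMap (volume : Measure (Fin n → ℝ)) hlin S
  rw [LinearMap.det_toLin'] at hpre
  have hsub : (Matrix.toLin' (Matrix.of G)) ⁻¹' S ⊆
      {y : Fin n → ℝ | ∀ x ∈ KK ω, ∑ j, x j * y j ≤ 1} := by
    intro y hy
    have hy1 : (Matrix.of G) *ᵥ y ∈ cube_vp n := hy.1
    have hy2 : ∀ k, |w k ⬝ᵥ ((Matrix.of G)⁻¹ *ᵥ ((Matrix.of G) *ᵥ y))| ≤ 1 := hy.2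
    have hunit : IsUnit (Matrix.of G).det := isUnit_iff_ne_zero.2 hdet
    have hinv : (Matrix.of G)⁻¹ *ᵥ ((Matrix.of G) *ᵥ y) = y := by
      rw [Matrix.mulVec_mulVec, Matrix.nonsing_inv_mul _ hunit, Matrix.one_mulVec]
    rw [hinv] at hy2
    have hall : ∀ j, |ω j ⬝ᵥ y| ≤ 1 := by
      intro j
      rcases hc : e.symm j with i | k
      · have h1 : j = e (Sum.inl i) := by rw [← hc, Equiv.apply_symm_apply]
        have h2 := hy1 i (Set.mem_univ i)
        have h3 : ((Matrix.of G) *ᵥ y) i = sg (ε i) * (ω j ⬝ᵥ y) := by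
          rw [h1]
          show (sg (ε i) • ω (e (Sum.inl i))) ⬝ᵥ y = _
          rw [smul_dotProduct, smul_eq_mul]
        rw [h3] at h2
        have h4 : |sg (ε i) * (ω j ⬝ᵥ y)| ≤ 1 := abs_le.2 h2
        rw [abs_mul, sg_sq_vp, one_mul] at h4
        exact h4
      · have h1 : j = e (Sum.inr k) := by rw [← hc, Equiv.apply_symm_apply]
        rw [h1]
        exact hy2 k
    have hconv : Convex ℝ {x : Fin n → ℝ | ∑ j, x j * y j ≤ 1} := by
      have hl : IsLinearMap ℝ (fun x : Fin n → ℝ => ∑ j, x j * y j) := by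
        constructor
        · intro a b
          rw [← Finset.sum_add_distrib]
          refine Finset.sum_congr rfl fun j _ => ?_
          rw [Pi.add_apply]; ring
        · intro a b
          rw [smul_eq_mul, Finset.mul_sum]
          refine Finset.sum_congr rfl fun j _ => ?_
          rw [Pi.smul_apply, smul_eq_mul]; ring
      exact convex_halfSpace_le hl 1
    have hmin : KK ω ⊆ {x : Fin n → ℝ | ∑ j, x j * y j ≤ 1} := by
      refine convexHull_min ?_ hconv
      rintro x (⟨j, rfl⟩ | ⟨j, rfl⟩)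
      · exact (abs_le.1 (hall j)).2
      · have h5 := (abs_le.1 (hall j)).1
        have h6 : ∑ i, (-ω j) i * y i = -(ω j ⬝ᵥ y) := by
          rw [← neg_dotProduct]; rfl
        show ∑ i, (-ω j) i * y i ≤ 1
        rw [h6]; linarith
    intro x hx
    exact hmin hx
  calc volume S = ENNReal.ofReal |(Matrix.of G).det| *
        (ENNReal.ofReal |((Matrix.of G).det)⁻¹| * volume S) := by
        rw [← mul_assoc, ← ENNReal.ofReal_mul (abs_nonneg _), ← abs_mul, mul_inv_cancel₀ hdet,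
          abs_one, ENNReal.ofReal_one, one_mul]
    _ = ENNReal.ofReal |(Matrix.of G).det| * volume ((Matrix.toLin' (Matrix.of G)) ⁻¹' S) := by
        rw [hpre]
    _ ≤ _ := mul_le_mul_right (measure_mono hsub) _

theorem facet_integral
    (det_ne_zero_ae : ∀ n : ℕ, ∀ᵐ G : Fin n → Fin n → ℝ
      ∂(Measure.pi (fun _ : Fin n => gam n)), (Matrix.of G).det ≠ 0)
    (n m : ℕ) (F : Sub n (n + m)) (ε : Fin n → Bool) :
    ∫⁻ z in Set.pi Set.univ (fun _ : Fin n => Set.Icc (-1 : ℝ) 1),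
        ∫⁻ G : Fin n → Fin n → ℝ, qq ((Matrix.of G)⁻¹ *ᵥ 1) ((Matrix.of G)⁻¹ *ᵥ z) ^ m
          ∂(Measure.pi (fun _ : Fin n => gam n)) ≤
    ∫⁻ ω : Fin (n + m) → (Fin n → ℝ),
      Set.indicator {ω | Facet ω F ε} (fun ω => ENNReal.ofReal |(MF ω F ε).det|) ω *
      volume {y : Fin n → ℝ | ∀ x ∈ KK ω, ∑ j, x j * y j ≤ 1}
        ∂(Measure.pi (fun _ : Fin (n + m) => gam n)) := by
  have hF : F.1ᶜ.card = m := by
    rw [Finset.card_compl, Fintype.card_fin, F.2]; omega
  set e := finSumEquivOfFinset F.2 hF with he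
  have hΨ := Psi_mp_vp n m e ε
  set μG := (Measure.pi (fun _ : Fin n => gam n)) with hμG
  set μW := (Measure.pi (fun _ : Fin m => gam n)) with hμW
  set lam := (volume : Measure (Fin n → ℝ)).restrict (cube_vp n) with hlam
  have hCS := meas_CS_vp n m
  -- the function H'
  set H : (Fin n → Fin n → ℝ) × (Fin m → Fin n → ℝ) → ℝ≥0∞ := fun p =>
    Set.indicator {p : (Fin n → Fin n → ℝ) × (Fin m → Fin n → ℝ) | (Matrix.of p.1).det ≠ 0}
      (fun p => lam {z | (p, z) ∈ CS_vp n m}) p with hH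
  have hm1 : Measurable (fun p : (Fin n → Fin n → ℝ) × (Fin m → Fin n → ℝ) =>
      lam {z | (p, z) ∈ CS_vp n m}) := measurable_measure_prodMk_left hCS
  have hdetm : Measurable (fun G : Fin n → Fin n → ℝ => (Matrix.of G).det) := by
    have hA : Continuous (fun G : Fin n → Fin n → ℝ => (Matrix.of G : Matrix (Fin n) (Fin n) ℝ)) :=
      continuous_id
    exact hA.matrix_det.measurable
  have hHm : Measurable H := by
    refine hm1.indicator ?_
    have h1 : MeasurableSet {G : Fin n → Fin n → ℝ | (Matrix.of G).det ≠ 0} :=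
      (hdetm (measurableSet_singleton 0)).compl
    exact measurable_fst h1
  -- lower bound
  have hlow : ∫⁻ ω, H ((fun i => sg (ε i) • ω (e (Sum.inl i)) : Fin n → Fin n → ℝ),
        (fun k => ω (e (Sum.inr k)) : Fin m → Fin n → ℝ))
        ∂(Measure.pi (fun _ : Fin (n + m) => gam n)) ≤ ∫⁻ ω : Fin (n + m) → (Fin n → ℝ),
      Set.indicator {ω | Facet ω F ε} (fun ω => ENNReal.ofReal |(MF ω F ε).det|) ω *
      volume {y : Fin n → ℝ | ∀ x ∈ KK ω, ∑ j, x j * y j ≤ 1}
        ∂(Measure.pi (fun _ : Fin (n + m) => gam n)) := by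
    refine lintegral_mono fun ω => ?_
    rw [hH]
    simp only
    by_cases hdet : (Matrix.of (fun i => sg (ε i) • ω (e (Sum.inl i)))).det ≠ 0
    · rw [Set.indicator_of_mem (by exact hdet)]
      exact pointwise_vp n m F hF ε ω hdet
    · rw [Set.indicator_of_notMem (by exact hdet)]
      exact zero_le
  refine le_trans (le_of_eq ?_) hlow
  have hcomp := hΨ.lintegral_comp hHm
  rw [hcomp, lintegral_prod _ hHm.aemeasurable]
  -- left side
  have hS2 : MeasurableSet {p : ((Fin n → ℝ) × (Fin n → Fin n → ℝ)) × (Fin m → Fin n → ℝ) |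
      ((p.1.2, p.2), p.1.1) ∈ CS_vp n m} := by
    have h1 : Measurable (fun p : ((Fin n → ℝ) × (Fin n → Fin n → ℝ)) × (Fin m → Fin n → ℝ) =>
      ((p.1.2, p.2), p.1.1)) :=
      ((measurable_snd.comp measurable_fst).prodMk measurable_snd).prodMk
        (measurable_fst.comp measurable_fst)
    exact h1 hCS
  have hm2 : Measurable (fun p : (Fin n → ℝ) × (Fin n → Fin n → ℝ) =>
      μW {w | ((p.2, w), p.1) ∈ CS_vp n m}) := measurable_measure_prodMk_left hS2
  simp only [qq_pow_vp]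
  rw [lintegral_lintegral_swap (by exact hm2.aemeasurable)]
  refine lintegral_congr_ae ?_
  filter_upwards [det_ne_zero_ae n] with G hG
  have hH2 : ∀ w, H (G, w) = lam {z | ((G, w), z) ∈ CS_vp n m} := by
    intro w
    rw [hH]
    simp only
    rw [Set.indicator_of_mem (by exact hG)]
  simp only [hH2]
  -- now the symmetric product measure
  have hS3 : MeasurableSet {p : (Fin m → Fin n → ℝ) × (Fin n → ℝ) |
      ((G, p.1), p.2) ∈ CS_vp n m} := by
    have h1 : Measurable (fun p : (Fin m → Fin n → ℝ) × (Fin n → ℝ) =>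
      ((G, p.1), p.2)) := (measurable_const.prodMk measurable_fst).prodMk measurable_snd
    exact h1 hCS
  have h1 := Measure.prod_apply (μ := μW) (ν := lam) hS3
  have h2 := Measure.prod_apply_symm (μ := μW) (ν := lam) hS3
  exact h2.symm.trans h1


end Pool.Agent.VP.A5
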