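import Pool.Agent.VP.Defs

set_option autoImplicit false
open MeasureTheory ProbabilityTheory
open scoped ENNReal Matrix

namespace Pool.Agent.VP.B1

open Pool.Agent.VP



namespace RotAux

theorem gen {ι : Type} [Fintype ι] (L : (ι → ℝ) →ₗ[ℝ] (ι → ℝ))
    (hL : ∀ x, ∑ i, (L x i) ^ 2 = ∑ i, x i ^ 2) :
    MeasurePreserving L (Measure.pi (fun _ : ι => gaussianReal 0 1))
      (Measure.pi (fun _ : ι => gaussianReal 0 1)) := by
  classical
  have hLm : Measurable L := L.continuous_of_finiteDimensional.measurable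
  refine ⟨hLm, ?_⟩
  let li : EuclideanSpace ℝ ι →ₗᵢ[ℝ] EuclideanSpace ℝ ι :=
    { toLinearMap := (WithLp.linearEquiv 2 ℝ (ι → ℝ)).symm.toLinearMap ∘ₗ L ∘ₗ
        (WithLp.linearEquiv 2 ℝ (ι → ℝ)).toLinearMap
      norm_map' := fun x => by
        rw [EuclideanSpace.norm_eq, EuclideanSpace.norm_eq]
        congr 1
        simp only [Real.norm_eq_abs, sq_abs]
        exact hL (WithLp.ofLp x) }
  let f : EuclideanSpace ℝ ι ≃ₗᵢ[ℝ] EuclideanSpace ℝ ι := li.toLinearIsometryEquiv rfl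
  have hf : ∀ x, f x = WithLp.toLp 2 (L (WithLp.ofLp x)) := fun x => rfl
  have h1 := stdGaussian_map f
  have h2 := map_pi_eq_stdGaussian (ι := ι)
  have e1 : Measurable (WithLp.toLp 2 : (ι → ℝ) → EuclideanSpace ℝ ι) := by fun_prop
  have e2 : Measurable (WithLp.ofLp : EuclideanSpace ℝ ι → (ι → ℝ)) := by fun_prop
  have e3 : Measurable f := f.continuous.measurable
  rw [← h2] at h1
  have h3 := congrArg (Measure.map (WithLp.ofLp : EuclideanSpace ℝ ι → (ι → ℝ))) h1
  rw [Measure.map_map e2 e3, Measure.map_map (e2.comp e3) e1, Measure.map_map e2 e1] at h3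
  have h4 : ((WithLp.ofLp : EuclideanSpace ℝ ι → (ι → ℝ)) ∘ (WithLp.toLp 2)) = id := rfl
  rw [h4, Measure.map_id] at h3
  exact h3

theorem curry_pi (n k : ℕ) :
    (Measure.pi (fun _ : Fin n × Fin k => gaussianReal 0 1)).map
      (MeasurableEquiv.curry (Fin n) (Fin k) ℝ) = Measure.pi (fun _ : Fin n => gam k) := by
  have h := Measure.infinitePi_map_curry (ι := Fin n) (κ := Fin k) (X := ℝ)
    (μ := fun _ _ => gaussianReal 0 1)
  simp only [Measure.infinitePi_eq_pi] at h
  exact h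

theorem orth_sum {n : ℕ} (O : Matrix (Fin n) (Fin n) ℝ) (hO : O ∈ Matrix.orthogonalGroup (Fin n) ℝ)
    (x : Fin n → ℝ) : ∑ i, (O *ᵥ x) i ^ 2 = ∑ i, x i ^ 2 := by
  have h1 : ∀ y : Fin n → ℝ, ∑ i, y i ^ 2 = y ⬝ᵥ y := by
    intro y
    simp [dotProduct, sq]
  rw [h1, h1, Matrix.dotProduct_mulVec, ← Matrix.mulVec_transpose, Matrix.mulVec_mulVec]
  have h2 : O.transpose * O = 1 := by
    have := (Matrix.mem_orthogonalGroup_iff' (Fin n) ℝ).1 hO
    exact this
  rw [h2, Matrix.one_mulVec]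

end RotAux

theorem rot (n : ℕ) (O : Matrix (Fin n) (Fin n) ℝ) (hO : O ∈ Matrix.orthogonalGroup (Fin n) ℝ) :
    MeasurePreserving (fun x : Fin n → ℝ => O *ᵥ x) (gam n) (gam n) :=
  RotAux.gen O.mulVecLin (RotAux.orth_sum O hO)

theorem rot_rows (n k : ℕ) (O : Matrix (Fin n) (Fin n) ℝ)
    (hO : O ∈ Matrix.orthogonalGroup (Fin n) ℝ) :
    MeasurePreserving (fun (G : Fin n → Fin k → ℝ) (i : Fin n) (j : Fin k) => ∑ l, O i l * G l j)
      (Measure.pi (fun _ : Fin n => gam k)) (Measure.pi (fun _ : Fin n => gam k)) := by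
  let L : (Fin n × Fin k → ℝ) →ₗ[ℝ] (Fin n × Fin k → ℝ) :=
    { toFun := fun G p => ∑ l, O p.1 l * G (l, p.2)
      map_add' := fun G H => by
        funext p
        simp only [Pi.add_apply, mul_add, Finset.sum_add_distrib]
      map_smul' := fun c G => by
        funext p
        simp only [Pi.smul_apply, smul_eq_mul, RingHom.id_apply, Finset.mul_sum]
        refine Finset.sum_congr rfl fun l _ => ?_
        ring }
  have hL : ∀ G, ∑ p, (L G p) ^ 2 = ∑ p, G p ^ 2 := by
    intro G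
    rw [Fintype.sum_prod_type_right, Fintype.sum_prod_type_right]
    refine Finset.sum_congr rfl fun j _ => ?_
    exact RotAux.orth_sum O hO (fun l => G (l, j))
  have h1 := RotAux.gen L hL
  have hc : MeasurePreserving (MeasurableEquiv.curry (Fin n) (Fin k) ℝ)
      (Measure.pi (fun _ : Fin n × Fin k => gaussianReal 0 1))
      (Measure.pi (fun _ : Fin n => gam k)) :=
    ⟨(MeasurableEquiv.curry (Fin n) (Fin k) ℝ).measurable, RotAux.curry_pi n k⟩
  have hs := hc.symm
  have h2 := hc.comp (h1.comp hs)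
  exact h2


end Pool.Agent.VP.B1
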