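import Pool.Agent.VP.Defs

set_option autoImplicit false
open MeasureTheory ProbabilityTheory
open scoped ENNReal Matrix

namespace Pool.Agent.VP.B2

open Pool.Agent.VP



theorem exists_orth (k : ℕ) (z : Fin (k + 2) → ℝ) (hs : 0 < s2 z) :
    ∃ O ∈ Matrix.orthogonalGroup (Fin (k + 2)) ℝ,
      O *ᵥ (1 : Fin (k + 2) → ℝ) = Pi.single 0 (√((k + 2 : ℕ) : ℝ)) ∧
      O *ᵥ z = Pi.single 0 (√((k + 2 : ℕ) : ℝ) * zb z) + Pi.single 1 (√(s2 z)) := by
  classical
  set n : ℝ := ((k + 2 : ℕ) : ℝ) with hn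
  have hn0 : 0 < n := by rw [hn]; positivity
  have hsn : 0 < √n := Real.sqrt_pos.2 hn0
  have hss : 0 < √(s2 z) := Real.sqrt_pos.2 hs
  have hsn2 : √n * √n = n := Real.mul_self_sqrt hn0.le
  have hss2 : √(s2 z) * √(s2 z) = s2 z := Real.mul_self_sqrt hs.le
  set f0 : EuclideanSpace ℝ (Fin (k + 2)) := WithLp.toLp 2 (fun _ => 1 / √n) with hf0
  set f1 : EuclideanSpace ℝ (Fin (k + 2)) := WithLp.toLp 2 (fun i => (z i - zb z) / √(s2 z)) with hf1
  have hin : ∀ u v : EuclideanSpace ℝ (Fin (k + 2)), inner ℝ u v = ∑ l, u l * v l := by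
    intro u v
    rw [PiLp.inner_apply]
    apply Finset.sum_congr rfl
    intro l _
    simp [mul_comm]
  have h00 : inner ℝ f0 f0 = (1 : ℝ) := by
    rw [hin]
    simp only [hf0]
    rw [Finset.sum_const, Finset.card_univ, Fintype.card_fin, nsmul_eq_mul, ← hn]
    field_simp
    rw [sq, hsn2]
  have h11 : inner ℝ f1 f1 = (1 : ℝ) := by
    rw [hin]
    simp only [hf1]
    have : ∀ l, (z l - zb z) / √(s2 z) * ((z l - zb z) / √(s2 z)) = (z l - zb z) ^ 2 / s2 z := by
      intro l
      rw [div_mul_div_comm, hss2, sq]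
    simp only [this]
    rw [← Finset.sum_div]
    exact div_self hs.ne'
  have hz0 : ∑ l, (z l - zb z) = 0 := by
    rw [Finset.sum_sub_distrib, Finset.sum_const, Finset.card_univ, Fintype.card_fin, nsmul_eq_mul, ← hn]
    unfold zb
    rw [← hn]
    field_simp
    ring
  have h01 : inner ℝ f0 f1 = (0 : ℝ) := by
    rw [hin]
    simp only [hf0, hf1]
    rw [← Finset.mul_sum, ← Finset.sum_div, hz0]
    simp
  have h10 : inner ℝ f1 f0 = (0 : ℝ) := by
    rw [real_inner_comm]; exact h01
  have hnorm : ∀ v : EuclideanSpace ℝ (Fin (k + 2)), inner ℝ v v = (1 : ℝ) → ‖v‖ = 1 := by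
    intro v hv
    rw [real_inner_self_eq_norm_sq] at hv
    have := norm_nonneg v
    nlinarith
  set v : Fin (k + 2) → EuclideanSpace ℝ (Fin (k + 2)) := fun i => if i = 0 then f0 else f1 with hv
  have h10' : (1 : Fin (k + 2)) ≠ 0 := by
    intro h
    have := congrArg Fin.val h
    simp at this
  have hv0 : v 0 = f0 := by simp [hv]
  have hv1 : v 1 = f1 := by simp only [hv, if_neg h10']
  obtain ⟨b, hb⟩ := Orthonormal.exists_orthonormalBasis_extension_of_card_eq (𝕜 := ℝ)
    (E := EuclideanSpace ℝ (Fin (k + 2))) (ι := Fin (k + 2)) (by simp) (v := v) (s := {0, 1}) (by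
      constructor
      · rintro ⟨i, hi⟩
        rcases hi with rfl | rfl
        · show ‖v 0‖ = 1
          rw [hv0]; exact hnorm _ h00
        · show ‖v 1‖ = 1
          rw [hv1]; exact hnorm _ h11
      · rintro ⟨i, hi⟩ ⟨j, hj⟩ hij
        rcases hi with rfl | rfl
        · rcases hj with rfl | rfl
          · exact absurd rfl hij
          · show inner ℝ (v 0) (v 1) = (0 : ℝ)
            rw [hv0, hv1]; exact h01
        · rcases hj with rfl | rfl
          · show inner ℝ (v 1) (v 0) = (0 : ℝ)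
            rw [hv0, hv1]; exact h10
          · exact absurd rfl hij)
  have hb0 : ∀ l, b 0 l = 1 / √n := by
    intro l
    rw [hb 0 (by simp), hv0]
  have hb1 : ∀ l, b 1 l = (z l - zb z) / √(s2 z) := by
    intro l
    rw [hb 1 (by simp), hv1]
  have horth : ∀ i j, ∑ l, b i l * b j l = if i = j then (1 : ℝ) else 0 := by
    intro i j
    rw [← hin]
    exact orthonormal_iff_ite.1 b.orthonormal i j
  refine ⟨Matrix.of (fun i j => b i j), ?_, ?_, ?_⟩
  · rw [Matrix.mem_orthogonalGroup_iff]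
    ext i j
    rw [Matrix.mul_apply, Matrix.one_apply]
    exact horth i j
  · ext i
    show ∑ j, b i j * (1 : Fin (k + 2) → ℝ) j = _
    have e : ∀ j, b i j * (1 : Fin (k + 2) → ℝ) j = √n * (b i j * b 0 j) := by
      intro j
      rw [hb0, Pi.one_apply]
      field_simp
    simp only [e]
    rw [← Finset.mul_sum, horth, Pi.single_apply]
    split_ifs <;> simp
  · ext i
    show ∑ j, b i j * z j = _
    have e : ∀ j, b i j * z j = (√n * zb z) * (b i j * b 0 j) + √(s2 z) * (b i j * b 1 j) := by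
      intro j
      rw [hb0, hb1]
      field_simp
      ring
    simp only [e]
    rw [Finset.sum_add_distrib, ← Finset.mul_sum, ← Finset.mul_sum, horth, horth, Pi.add_apply,
      Pi.single_apply, Pi.single_apply]
    congr 1
    · split_ifs <;> simp
    · split_ifs <;> simp



end Pool.Agent.VP.B2
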