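import Pool.Agent.VP.Defs

set_option autoImplicit false
open MeasureTheory ProbabilityTheory
open scoped ENNReal Matrix

namespace Pool.Agent.VP.B3

open Pool.Agent.VP



theorem law_pair (n : ℕ) (w₁ w₂ : Fin n → ℝ) (h11 : ∑ j, w₁ j * w₁ j = 1)
    (h22 : ∑ j, w₂ j * w₂ j = 1) (h12 : ∑ j, w₁ j * w₂ j = 0) :
    MeasurePreserving (fun h : Fin n → ℝ => (∑ j, h j * w₁ j, ∑ j, h j * w₂ j)) (gam n)
      ((gaussianReal 0 1).prod (gaussianReal 0 1)) := by
  have hmeas : Measurable (fun h : Fin n → ℝ => (∑ j, h j * w₁ j, ∑ j, h j * w₂ j)) := by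
    fun_prop
  refine ⟨hmeas, ?_⟩
  haveI : IsProbabilityMeasure ((gam n).map (fun h : Fin n → ℝ => (∑ j, h j * w₁ j, ∑ j, h j * w₂ j))) :=
    Measure.isProbabilityMeasure_map hmeas.aemeasurable
  rw [← charFun_eq_prod_iff]
  intro t
  have e1 : charFun (((gam n).map (fun h : Fin n → ℝ => (∑ j, h j * w₁ j, ∑ j, h j * w₂ j))).map
      (WithLp.toLp 2)) t = ∫ h, Complex.exp (((∑ j, h j * (w₁ j * (WithLp.ofLp t).1 + w₂ j * (WithLp.ofLp t).2) : ℝ) : ℂ)
        * Complex.I) ∂(gam n) := by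
    rw [charFun_apply, ← MeasurableEquiv.coe_toLp, integral_map_equiv, integral_map hmeas.aemeasurable]
    · apply integral_congr_ae
      refine Filter.Eventually.of_forall fun h => ?_
      simp only
      congr 3
      rw [MeasurableEquiv.coe_toLp, WithLp.prod_inner_apply]
      simp only [RCLike.inner_apply, conj_trivial]
      rw [Finset.mul_sum, Finset.mul_sum, ← Finset.sum_add_distrib]
      apply Finset.sum_congr rfl
      intro j _
      ring
    · apply Continuous.aestronglyMeasurable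
      have : Continuous (fun x : ℝ × ℝ => inner ℝ (WithLp.toLp 2 x) t) := by fun_prop
      exact Complex.continuous_exp.comp ((Complex.continuous_ofReal.comp this).mul continuous_const)
  have e2 : ∫ h, Complex.exp (((∑ j, h j * (w₁ j * (WithLp.ofLp t).1 + w₂ j * (WithLp.ofLp t).2) : ℝ) : ℂ)
        * Complex.I) ∂(gam n) = ∏ j, charFun (gaussianReal 0 1) (w₁ j * (WithLp.ofLp t).1 + w₂ j * (WithLp.ofLp t).2) := by
    have h1 : ∀ h : Fin n → ℝ, Complex.exp (((∑ j, h j * (w₁ j * (WithLp.ofLp t).1 + w₂ j * (WithLp.ofLp t).2) : ℝ) : ℂ)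
        * Complex.I) = ∏ j, Complex.exp (((h j * (w₁ j * (WithLp.ofLp t).1 + w₂ j * (WithLp.ofLp t).2) : ℝ) : ℂ) * Complex.I) := by
      intro h
      rw [← Complex.exp_sum, ← Finset.sum_mul]
      push_cast
      rfl
    simp only [h1]
    rw [integral_fintype_prod_eq_prod (𝕜 := ℂ) (f := fun (j : Fin n) (x : ℝ) =>
      Complex.exp (((x * (w₁ j * (WithLp.ofLp t).1 + w₂ j * (WithLp.ofLp t).2) : ℝ) : ℂ) * Complex.I))]
    apply Finset.prod_congr rfl
    intro j _
    rw [charFun_apply_real]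
    congr 1
    ext x
    congr 2
    push_cast
    ring
  rw [e1, e2]
  simp only [charFun_gaussianReal]
  rw [← Complex.exp_sum, ← Complex.exp_add]
  congr 1
  have h1 : ∑ j, (w₁ j * (WithLp.ofLp t).1 + w₂ j * (WithLp.ofLp t).2) ^ 2 =
      (WithLp.ofLp t).1 ^ 2 + (WithLp.ofLp t).2 ^ 2 := by
    have : ∀ j, (w₁ j * (WithLp.ofLp t).1 + w₂ j * (WithLp.ofLp t).2) ^ 2 =
        (w₁ j * w₁ j) * (WithLp.ofLp t).1 ^ 2 + (w₂ j * w₂ j) * (WithLp.ofLp t).2 ^ 2 +
          (w₁ j * w₂ j) * (2 * (WithLp.ofLp t).1 * (WithLp.ofLp t).2) := fun j => by ring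
    simp only [this]
    rw [Finset.sum_add_distrib, Finset.sum_add_distrib, ← Finset.sum_mul, ← Finset.sum_mul, ← Finset.sum_mul,
      h11, h22, h12]
    ring
  have h2 : ∑ j, (((w₁ j * (WithLp.ofLp t).1 + w₂ j * (WithLp.ofLp t).2 : ℝ) : ℂ)) ^ 2 =
      ((WithLp.ofLp t).1 : ℂ) ^ 2 + ((WithLp.ofLp t).2 : ℂ) ^ 2 := by
    exact_mod_cast h1
  simp only [Complex.ofReal_zero, mul_zero, zero_mul, zero_sub, NNReal.coe_one, Complex.ofReal_one, one_mul]
  rw [Finset.sum_neg_distrib, ← Finset.sum_div, h2]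
  ring



end Pool.Agent.VP.B3
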