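import Pool.Agent.VP.Defs

set_option autoImplicit false
open MeasureTheory ProbabilityTheory
open scoped ENNReal Matrix

namespace Pool.Agent.VP.B5b

open Pool.Agent.VP



theorem B5_rot (θ : ℝ) :
    ((gaussianReal 0 1).prod (gaussianReal 0 1)).map
      (fun Y : ℝ × ℝ => (Real.cos θ * Y.1 + Real.sin θ * Y.2, -Real.sin θ * Y.1 + Real.cos θ * Y.2)) =
      (gaussianReal 0 1).prod (gaussianReal 0 1) := by
  have h := IsGaussian.map_rotation_eq_self (μ := gaussianReal 0 1)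
    (by simp) θ
  have h2 : (fun Y : ℝ × ℝ => (Real.cos θ * Y.1 + Real.sin θ * Y.2,
      -Real.sin θ * Y.1 + Real.cos θ * Y.2)) = ⇑(ContinuousLinearMap.rotation θ : ℝ × ℝ →L[ℝ] ℝ × ℝ) := by
    funext Y
    rw [ContinuousLinearMap.rotation_apply]
    simp [smul_eq_mul]
  rw [h2]
  exact h

theorem B5_inner (F : ℝ × ℝ × ℝ → ℝ≥0∞) (hF : Measurable F) (Y1 : ℝ × ℝ) (h : Y1 ≠ 0) :
    ∫⁻ Y0 : ℝ × ℝ, F (|Y0.1 * Y1.2 - Y0.2 * Y1.1| / √(Y1.1 ^ 2 + Y1.2 ^ 2),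
          (Y0.1 * Y1.1 + Y0.2 * Y1.2) / √(Y1.1 ^ 2 + Y1.2 ^ 2), √(Y1.1 ^ 2 + Y1.2 ^ 2))
        ∂((gaussianReal 0 1).prod (gaussianReal 0 1)) =
      ∫⁻ x, ∫⁻ x', F (|x|, x', √(Y1.1 ^ 2 + Y1.2 ^ 2)) ∂(gaussianReal 0 1) ∂(gaussianReal 0 1) := by
  obtain ⟨z, hz⟩ : ∃ z : ℂ, z = ⟨Y1.1, Y1.2⟩ := ⟨_, rfl⟩
  have hz0 : z ≠ 0 := by
    intro h0
    apply h
    rw [hz, Complex.ext_iff] at h0
    exact Prod.ext h0.1 h0.2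
  have hn : ‖z‖ = √(Y1.1 ^ 2 + Y1.2 ^ 2) := by
    rw [Complex.norm_eq_sqrt_sq_add_sq, hz]
  have hc := Complex.cos_arg hz0
  have hs := Complex.sin_arg z
  rw [hn] at hc hs
  have hre : z.re = Y1.1 := by rw [hz]
  have him : z.im = Y1.2 := by rw [hz]
  rw [hre] at hc
  rw [him] at hs
  obtain ⟨r, hr⟩ : ∃ r, r = √(Y1.1 ^ 2 + Y1.2 ^ 2) := ⟨_, rfl⟩
  rw [← hr] at hc hs ⊢
  have hr0 : 0 ≤ r := by rw [hr]; exact Real.sqrt_nonneg _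
  obtain ⟨θ, hθ⟩ : ∃ θ, θ = z.arg := ⟨_, rfl⟩
  rw [← hθ] at hc hs
  have e1 : ∀ Y0 : ℝ × ℝ, F (|Y0.1 * Y1.2 - Y0.2 * Y1.1| / r,
      (Y0.1 * Y1.1 + Y0.2 * Y1.2) / r, r) =
      (fun Y : ℝ × ℝ => F (|Y.2|, Y.1, r))
        ((fun Y : ℝ × ℝ => (Real.cos θ * Y.1 + Real.sin θ * Y.2,
          -Real.sin θ * Y.1 + Real.cos θ * Y.2)) Y0) := by
    intro Y0
    simp only
    congr 2
    · rw [hc, hs]
      have : -(Y1.2 / r) * Y0.1 + Y1.1 / r * Y0.2 = -((Y0.1 * Y1.2 - Y0.2 * Y1.1) / r) := by ring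
      rw [this, abs_neg, abs_div, abs_of_nonneg hr0]
    · rw [hc, hs]
      congr 1
      ring
  have hm : Measurable (fun Y : ℝ × ℝ => F (|Y.2|, Y.1, r)) := by fun_prop
  rw [lintegral_congr e1, ← lintegral_map hm (by fun_prop), B5_rot θ,
    lintegral_prod_symm _ hm.aemeasurable]

theorem planar_law (F : ℝ × ℝ × ℝ → ℝ≥0∞) (hF : Measurable F) :
      ∫⁻ Y0 : ℝ × ℝ, ∫⁻ Y1 : ℝ × ℝ,
        F (|Y0.1 * Y1.2 - Y0.2 * Y1.1| / √(Y1.1 ^ 2 + Y1.2 ^ 2),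
          (Y0.1 * Y1.1 + Y0.2 * Y1.2) / √(Y1.1 ^ 2 + Y1.2 ^ 2), √(Y1.1 ^ 2 + Y1.2 ^ 2))
        ∂((gaussianReal 0 1).prod (gaussianReal 0 1)) ∂((gaussianReal 0 1).prod (gaussianReal 0 1)) =
      ∫⁻ x, ∫⁻ x', ∫⁻ p : ℝ × ℝ, F (|x|, x', √(p.1 ^ 2 + p.2 ^ 2))
        ∂((gaussianReal 0 1).prod (gaussianReal 0 1)) ∂(gaussianReal 0 1) ∂(gaussianReal 0 1) := by
  rw [lintegral_lintegral_swap (by unfold Function.uncurry; fun_prop)]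
  have h0 : ∀ᵐ Y1 : ℝ × ℝ ∂((gaussianReal 0 1).prod (gaussianReal 0 1)), Y1 ≠ 0 := by
    have hnull : ((gaussianReal 0 1).prod (gaussianReal 0 1)) {(0 : ℝ × ℝ)} = 0 := by
      have : ({(0 : ℝ × ℝ)} : Set (ℝ × ℝ)) = {(0 : ℝ)} ×ˢ {(0 : ℝ)} := by
        ext ⟨x, y⟩
        simp
      rw [this, Measure.prod_prod]
      have h1 : NullSingletonClass (gaussianReal 0 1) := nullSingletonClass_gaussianReal (by simp)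
      rw [measure_singleton, zero_mul]
    rw [ae_iff]
    simpa using hnull
  have h1 : ∀ᵐ Y1 : ℝ × ℝ ∂((gaussianReal 0 1).prod (gaussianReal 0 1)),
      ∫⁻ Y0 : ℝ × ℝ, F (|Y0.1 * Y1.2 - Y0.2 * Y1.1| / √(Y1.1 ^ 2 + Y1.2 ^ 2),
          (Y0.1 * Y1.1 + Y0.2 * Y1.2) / √(Y1.1 ^ 2 + Y1.2 ^ 2), √(Y1.1 ^ 2 + Y1.2 ^ 2))
        ∂((gaussianReal 0 1).prod (gaussianReal 0 1)) =
      ∫⁻ x, ∫⁻ x', F (|x|, x', √(Y1.1 ^ 2 + Y1.2 ^ 2)) ∂(gaussianReal 0 1) ∂(gaussianReal 0 1) := by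
    filter_upwards [h0] with Y1 hY1
    exact B5_inner F hF Y1 hY1
  rw [lintegral_congr_ae h1]
  have h2 : ∀ x : ℝ, ∫⁻ x', ∫⁻ p : ℝ × ℝ, F (|x|, x', √(p.1 ^ 2 + p.2 ^ 2))
        ∂((gaussianReal 0 1).prod (gaussianReal 0 1)) ∂(gaussianReal 0 1) =
      ∫⁻ p : ℝ × ℝ, ∫⁻ x', F (|x|, x', √(p.1 ^ 2 + p.2 ^ 2)) ∂(gaussianReal 0 1)
        ∂((gaussianReal 0 1).prod (gaussianReal 0 1)) := by
    intro x
    rw [lintegral_lintegral_swap (by unfold Function.uncurry; fun_prop)]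
  rw [lintegral_congr h2]
  rw [lintegral_lintegral_swap]
  apply Measurable.aemeasurable
  unfold Function.uncurry
  exact Measurable.lintegral_prod_right' (ν := gaussianReal 0 1) (f := fun q : ((ℝ × ℝ) × ℝ) × ℝ =>
    F (|q.1.2|, q.2, √(q.1.1.1 ^ 2 + q.1.1.2 ^ 2))) (by fun_prop)


end Pool.Agent.VP.B5b
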