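import Pool.Agent.VP.Defs2

set_option autoImplicit false
open MeasureTheory ProbabilityTheory
open scoped ENNReal Matrix

namespace Pool.Agent.VP.F1

open Pool.Agent.VP



theorem f1_om_neg (c b : ℝ) : om (-c) b = om c b := by
  unfold om
  have h1 : (gaussianReal 0 1).map (fun x : ℝ => -x) = gaussianReal 0 1 := by
    rw [gaussianReal_map_neg, neg_zero]
  have hms : MeasurableSet {t : ℝ | |t - c| ≤ b} := by
    apply measurableSet_le
    · fun_prop
    · fun_prop
  conv_rhs => rw [← h1]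
  rw [Measure.map_apply measurable_neg hms]
  congr 1
  ext t
  simp only [Set.mem_preimage, Set.mem_ofPred_eq]
  have h2 : |t - -c| = |-t - c| := by
    rw [← abs_neg]; congr 1; ring
  rw [h2]

theorem f1_om_abs (c b : ℝ) : om |c| b = om c b := by
  rcases abs_choice c with h | h
  · rw [h]
  · rw [h, f1_om_neg]

theorem f1_om_congr_abs (c c' b : ℝ) (h : |c| = |c'|) : om c b = om c' b := by
  rw [← f1_om_abs c, ← f1_om_abs c', h]

theorem f1_om_meas : Measurable (fun p : ℝ × ℝ => om p.1 p.2) := by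
  have hc : IsClosed {q : (ℝ × ℝ) × ℝ | |q.2 - q.1.1| ≤ q.1.2} :=
    isClosed_le (by fun_prop) (by fun_prop)
  exact measurable_measure_prodMk_left (ν := gaussianReal 0 1) hc.measurableSet

theorem qq_eq_QQ
    (law_pair : ∀ (n : ℕ) (w₁ w₂ : Fin n → ℝ), ∑ j, w₁ j * w₁ j = 1 →
      ∑ j, w₂ j * w₂ j = 1 → ∑ j, w₁ j * w₂ j = 0 →
      MeasurePreserving (fun h : Fin n → ℝ => (∑ j, h j * w₁ j, ∑ j, h j * w₂ j)) (gam n)
        ((gaussianReal 0 1).prod (gaussianReal 0 1)))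
    (n : ℕ) (w₁ w₂ : Fin n → ℝ) (h11 : ∑ j, w₁ j * w₁ j = 1)
    (h22 : ∑ j, w₂ j * w₂ j = 1) (h12 : ∑ j, w₁ j * w₂ j = 0)
    (α β c : ℝ) (hα : α ≠ 0) (hc : 0 < c) :
    QQ (1 / |α|) (β / (α * c)) (1 / c) =
      qq (fun j => α * w₁ j) (fun j => β * w₁ j + c * w₂ j) := by
  have hαp : 0 < |α| := abs_pos.mpr hα
  have hmp := law_pair n w₁ w₂ h11 h22 h12
  set B : Set (ℝ × ℝ) := {p | |α * p.1| < 1 ∧ |β * p.1 + c * p.2| ≤ 1} with hB
  have hmB : MeasurableSet B := by
    have m1 : MeasurableSet {p : ℝ × ℝ | |α * p.1| < 1} := by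
      apply measurableSet_lt
      · fun_prop
      · fun_prop
    have m2 : MeasurableSet {p : ℝ × ℝ | |β * p.1 + c * p.2| ≤ 1} := by
      apply measurableSet_le
      · fun_prop
      · fun_prop
    exact m1.inter m2
  have hqq : qq (fun j => α * w₁ j) (fun j => β * w₁ j + c * w₂ j)
      = ((gaussianReal 0 1).prod (gaussianReal 0 1)) B := by
    rw [← hmp.measure_preimage hmB.nullMeasurableSet]
    unfold qq
    congr 1
    ext h
    simp only [Set.mem_ofPred_eq, Set.mem_preimage, hB]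
    have e1 : ∑ j, h j * (α * w₁ j) = α * ∑ j, h j * w₁ j := by
      rw [Finset.mul_sum]; exact Finset.sum_congr rfl fun j _ => by ring
    have e2 : ∑ j, h j * (β * w₁ j + c * w₂ j) = β * ∑ j, h j * w₁ j + c * ∑ j, h j * w₂ j := by
      rw [Finset.mul_sum, Finset.mul_sum, ← Finset.sum_add_distrib]
      exact Finset.sum_congr rfl fun j _ => by ring
    rw [e1, e2]
  rw [hqq, Measure.prod_apply hmB]
  have hmS : MeasurableSet {t : ℝ | |t| < 1 / |α|} := by
    apply measurableSet_lt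
    · fun_prop
    · fun_prop
  unfold QQ
  rw [← lintegral_indicator hmS]
  refine lintegral_congr fun x => ?_
  by_cases hx : |x| < 1 / |α|
  · rw [Set.indicator_of_mem (show x ∈ {t : ℝ | |t| < 1 / |α|} from hx)]
    have hset : Prod.mk x ⁻¹' B = {t : ℝ | |t - (-(β / c) * x)| ≤ 1 / c} := by
      ext y
      simp only [Set.mem_preimage, Set.mem_ofPred_eq, hB]
      have h1 : |α * x| < 1 := by
        rw [abs_mul]
        calc |α| * |x| < |α| * (1 / |α|) := mul_lt_mul_of_pos_left hx hαp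
          _ = 1 := by field_simp
      have h2 : β * x + c * y = c * (y - (-(β / c) * x)) := by
        field_simp
        ring
      rw [h2, abs_mul c, abs_of_pos hc, le_div_iff₀ hc, mul_comm c]
      exact ⟨fun h => h.2, fun h => ⟨h1, h⟩⟩
    rw [hset]
    refine f1_om_congr_abs _ _ _ ?_
    rw [abs_div, abs_mul, abs_div, abs_mul, abs_div, abs_abs, abs_one, abs_mul, abs_neg, abs_div]
    field_simp
  · rw [Set.indicator_of_notMem (show x ∉ {t : ℝ | |t| < 1 / |α|} from hx)]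
    have hset : Prod.mk x ⁻¹' B = ∅ := by
      ext y
      simp only [Set.mem_preimage, Set.mem_ofPred_eq, hB, Set.mem_empty_iff_false, iff_false,
        not_and]
      intro h1
      exfalso
      apply hx
      rw [abs_mul] at h1
      rw [lt_div_iff₀ hαp]
      linarith
    rw [hset, measure_empty]

theorem qq_ge_QQ
    (law_pair : ∀ (n : ℕ) (w₁ w₂ : Fin n → ℝ), ∑ j, w₁ j * w₁ j = 1 →
      ∑ j, w₂ j * w₂ j = 1 → ∑ j, w₁ j * w₂ j = 0 →
      MeasurePreserving (fun h : Fin n → ℝ => (∑ j, h j * w₁ j, ∑ j, h j * w₂ j)) (gam n)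
        ((gaussianReal 0 1).prod (gaussianReal 0 1)))
    (n : ℕ) (w₁ w₂ : Fin n → ℝ) (h11 : ∑ j, w₁ j * w₁ j = 1)
    (h22 : ∑ j, w₂ j * w₂ j = 1) (h12 : ∑ j, w₁ j * w₂ j = 0)
    (α β c : ℝ) (hα : α ≠ 0) (hc : 0 < c) :
    QQ (1 / |α|) (β / (α * c)) (1 / c) ≤
      qq (fun j => α * w₁ j) (fun j => β * w₁ j + c * w₂ j) :=
  (qq_eq_QQ law_pair n w₁ w₂ h11 h22 h12 α β c hα hc).le

theorem QQ_le_one (H a b : ℝ) : QQ H a b ≤ 1 := by
  unfold QQ
  calc ∫⁻ x in {x : ℝ | |x| < H}, om (a * x / H) b ∂(gaussianReal 0 1)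
      ≤ ∫⁻ x in {x : ℝ | |x| < H}, 1 ∂(gaussianReal 0 1) :=
        lintegral_mono fun x => prob_le_one
    _ = gaussianReal 0 1 {x : ℝ | |x| < H} := by
        rw [setLIntegral_const, one_mul]
    _ ≤ 1 := prob_le_one

theorem QQ_neg (H a b : ℝ) : QQ H (-a) b = QQ H a b := by
  unfold QQ
  refine lintegral_congr fun x => ?_
  have : -a * x / H = -(a * x / H) := by ring
  rw [this, f1_om_neg]

theorem QQ_measurable : Measurable (fun t : ℝ × ℝ × ℝ => QQ t.1 t.2.1 t.2.2) := by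
  have hS : MeasurableSet {p : (ℝ × ℝ × ℝ) × ℝ | |p.2| < p.1.1} := by
    apply measurableSet_lt
    · fun_prop
    · fun_prop
  have hF : Measurable (fun p : (ℝ × ℝ × ℝ) × ℝ =>
      Set.indicator {p : (ℝ × ℝ × ℝ) × ℝ | |p.2| < p.1.1}
        (fun p => om (p.1.2.1 * p.2 / p.1.1) p.1.2.2) p) := by
    refine Measurable.indicator ?_ hS
    exact f1_om_meas.comp (g := fun p : ℝ × ℝ => om p.1 p.2)
      (f := fun p : (ℝ × ℝ × ℝ) × ℝ => (p.1.2.1 * p.2 / p.1.1, p.1.2.2)) (by fun_prop)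
  have h1 := hF.lintegral_prod_right' (ν := gaussianReal 0 1)
  have h2 : (fun t : ℝ × ℝ × ℝ => QQ t.1 t.2.1 t.2.2) = fun t : ℝ × ℝ × ℝ =>
      ∫⁻ x, Set.indicator {p : (ℝ × ℝ × ℝ) × ℝ | |p.2| < p.1.1}
        (fun p => om (p.1.2.1 * p.2 / p.1.1) p.1.2.2) (t, x) ∂(gaussianReal 0 1) := by
    funext t
    have hmS : MeasurableSet {x : ℝ | |x| < t.1} := by
      apply measurableSet_lt
      · fun_prop
      · fun_prop
    unfold QQ
    rw [← lintegral_indicator hmS]
    refine lintegral_congr fun x => ?_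
    by_cases hx : |x| < t.1
    · rw [Set.indicator_of_mem (show x ∈ {x : ℝ | |x| < t.1} from hx),
        Set.indicator_of_mem (show (t, x) ∈ {p : (ℝ × ℝ × ℝ) × ℝ | |p.2| < p.1.1} from hx)]
    · rw [Set.indicator_of_notMem (show x ∉ {x : ℝ | |x| < t.1} from hx),
        Set.indicator_of_notMem (show (t, x) ∉ {p : (ℝ × ℝ × ℝ) × ℝ | |p.2| < p.1.1} from hx)]
  rw [h2]
  exact h1


end Pool.Agent.VP.F1
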