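import Pool.Agent.VP.Defs

set_option autoImplicit false
open MeasureTheory ProbabilityTheory
open scoped ENNReal Matrix

namespace Pool.Agent.VP.B5c

open Pool.Agent.VP



theorem j6563_qq_meas (n : ℕ) :
    Measurable (fun p : (Fin n → ℝ) × (Fin n → ℝ) => qq p.1 p.2) := by
  have hS : MeasurableSet {x : ((Fin n → ℝ) × (Fin n → ℝ)) × (Fin n → ℝ) |
      |∑ j, x.2 j * x.1.1 j| < 1 ∧ |∑ j, x.2 j * x.1.2 j| ≤ 1} := by
    have c1 : Continuous (fun x : ((Fin n → ℝ) × (Fin n → ℝ)) × (Fin n → ℝ) =>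
        |∑ j, x.2 j * x.1.1 j|) := by fun_prop
    have c2 : Continuous (fun x : ((Fin n → ℝ) × (Fin n → ℝ)) × (Fin n → ℝ) =>
        |∑ j, x.2 j * x.1.2 j|) := by fun_prop
    exact (isOpen_lt c1 continuous_const).measurableSet.inter
      (isClosed_le c2 continuous_const).measurableSet
  exact measurable_measure_prodMk_left hS

theorem j6563_inv_meas (n : ℕ) (w : Fin n → ℝ) :
    Measurable (fun G : Fin n → Fin n → ℝ => (Matrix.of G)⁻¹ *ᵥ w) := by
  have hof : Continuous (fun G : Fin n → Fin n → ℝ => (Matrix.of G : Matrix (Fin n) (Fin n) ℝ)) :=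
    continuous_id
  rw [measurable_pi_iff]
  intro i
  have e : (fun G : Fin n → Fin n → ℝ => ((Matrix.of G)⁻¹ *ᵥ w) i)
      = fun G => ∑ j, ((Matrix.of G).det)⁻¹ * (Matrix.of G).adjugate i j * w j := by
    funext G
    rw [Matrix.inv_def, Ring.inverse_eq_inv']
    simp only [Matrix.mulVec, dotProduct, Matrix.smul_apply, smul_eq_mul]
  rw [e]
  refine Finset.measurable_sum _ fun j _ => ?_
  have h1 : Measurable (fun G : Fin n → Fin n → ℝ => (Matrix.of G).det) :=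
    (Continuous.matrix_det hof).measurable
  have h2 : Measurable (fun G : Fin n → Fin n → ℝ => (Matrix.of G).adjugate i j) :=
    ((Continuous.matrix_adjugate hof).matrix_elem i j).measurable
  exact (h1.inv.mul h2).mul_const _

theorem j6563_F_meas (n m : ℕ) (v w : Fin n → ℝ) :
    Measurable (fun G : Fin n → Fin n → ℝ =>
      qq ((Matrix.of G)⁻¹ *ᵥ v) ((Matrix.of G)⁻¹ *ᵥ w) ^ m) :=
  ((j6563_qq_meas n).comp ((j6563_inv_meas n v).prodMk (j6563_inv_meas n w))).pow_const m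

theorem j6563_split {E : Type} [MeasurableSpace E] (μ : Measure E) [IsProbabilityMeasure μ] (k : ℕ)
    (F : (Fin (k + 1) → E) → ℝ≥0∞) (hF : Measurable F) :
    ∫⁻ G, F G ∂(Measure.pi fun _ : Fin (k + 1) => μ)
      = ∫⁻ g, ∫⁻ R : Fin k → E, F (Fin.cons g R) ∂(Measure.pi fun _ : Fin k => μ) ∂μ := by
  have h := (measurePreserving_piFinSuccAbove (fun _ : Fin (k + 1) => μ) 0).symm
  rw [← h.lintegral_comp hF, lintegral_prod]
  · refine lintegral_congr fun g => lintegral_congr fun R => ?_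
    congr 1
    exact Fin.insertNth_zero' g R
  · exact (hF.comp (MeasurableEquiv.measurable _)).aemeasurable

theorem j6563_cons_meas {E : Type} [MeasurableSpace E] (k : ℕ) :
    Measurable (fun p : E × (Fin k → E) => (Fin.cons p.1 p.2 : Fin (k + 1) → E)) := by
  rw [measurable_pi_iff]
  intro i
  refine Fin.cases ?_ (fun i => ?_) i
  · exact measurable_fst
  · exact (measurable_pi_apply i).comp measurable_snd

theorem j6563_three {E : Type} [MeasurableSpace E] (μ : Measure E) [IsProbabilityMeasure μ] (k : ℕ)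
    (F : (Fin (k + 2) → E) → ℝ≥0∞) (hF : Measurable F) (c : ℝ≥0∞)
    (hc : ∀ R : Fin k → E, c ≤ ∫⁻ g0, ∫⁻ g1, F (Fin.cons g0 (Fin.cons g1 R)) ∂μ ∂μ) :
    c ≤ ∫⁻ G, F G ∂(Measure.pi fun _ : Fin (k + 2) => μ) := by
  have hcons : ∀ g0 : E, Measurable (fun G : Fin (k + 1) → E => F (Fin.cons g0 G)) := fun g0 =>
    hF.comp ((j6563_cons_meas (k + 1)).comp (measurable_const.prodMk measurable_id))
  have hT : Measurable (fun p : E × E × (Fin k → E) =>
      F (Fin.cons p.1 (Fin.cons p.2.1 p.2.2 : Fin (k + 1) → E))) :=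
    hF.comp ((j6563_cons_meas (k + 1)).comp
      (measurable_fst.prodMk ((j6563_cons_meas k).comp measurable_snd)))
  have e1 : ∫⁻ G, F G ∂(Measure.pi fun _ : Fin (k + 2) => μ)
      = ∫⁻ g0, ∫⁻ g1, ∫⁻ R : Fin k → E, F (Fin.cons g0 (Fin.cons g1 R))
          ∂(Measure.pi fun _ : Fin k => μ) ∂μ ∂μ := by
    rw [j6563_split μ (k + 1) F hF]
    refine lintegral_congr fun g0 => ?_
    exact j6563_split μ k (fun G => F (Fin.cons g0 G)) (hcons g0)
  have e2 : ∀ g0 : E, ∫⁻ g1, ∫⁻ R : Fin k → E, F (Fin.cons g0 (Fin.cons g1 R))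
          ∂(Measure.pi fun _ : Fin k => μ) ∂μ
      = ∫⁻ R : Fin k → E, ∫⁻ g1, F (Fin.cons g0 (Fin.cons g1 R)) ∂μ
          ∂(Measure.pi fun _ : Fin k => μ) := by
    intro g0
    refine lintegral_lintegral_swap (Measurable.aemeasurable ?_)
    exact hT.comp (measurable_const.prodMk measurable_id)
  have e3 : ∫⁻ g0, ∫⁻ R : Fin k → E, ∫⁻ g1, F (Fin.cons g0 (Fin.cons g1 R)) ∂μ
          ∂(Measure.pi fun _ : Fin k => μ) ∂μ
      = ∫⁻ R : Fin k → E, ∫⁻ g0, ∫⁻ g1, F (Fin.cons g0 (Fin.cons g1 R)) ∂μ ∂μ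
          ∂(Measure.pi fun _ : Fin k => μ) := by
    refine lintegral_lintegral_swap (Measurable.aemeasurable ?_)
    have h1 : Measurable (fun q : (E × (Fin k → E)) × E =>
        F (Fin.cons q.1.1 (Fin.cons q.2 q.1.2 : Fin (k + 1) → E))) :=
      hT.comp ((measurable_fst.comp measurable_fst).prodMk
        (measurable_snd.prodMk (measurable_snd.comp measurable_fst)))
    exact h1.lintegral_prod_right'
  rw [e1, lintegral_congr e2, e3]
  calc c = ∫⁻ _ : Fin k → E, c ∂(Measure.pi fun _ : Fin k => μ) := by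
        rw [lintegral_const, measure_univ, mul_one]
    _ ≤ _ := lintegral_mono hc

theorem j6563_rot {n : ℕ} {O : Matrix (Fin n) (Fin n) ℝ} (hO : O ∈ Matrix.orthogonalGroup (Fin n) ℝ)
    (G : Fin n → Fin n → ℝ) (w : Fin n → ℝ) :
    (Matrix.of (fun i j => ∑ l, O i l * G l j))⁻¹ *ᵥ (O *ᵥ w) = (Matrix.of G)⁻¹ *ᵥ w := by
  have e : (Matrix.of (fun i j => ∑ l, O i l * G l j) : Matrix (Fin n) (Fin n) ℝ)
      = O * Matrix.of G := by
    ext i j
    rw [Matrix.mul_apply]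
    rfl
  have h1 : O⁻¹ * O = 1 := by
    apply Matrix.nonsing_inv_mul
    have h2 : O * star O = 1 := (Matrix.mem_orthogonalGroup_iff _ _).1 hO
    have h3 := congrArg Matrix.det h2
    rw [Matrix.det_mul, Matrix.det_one] at h3
    exact IsUnit.of_mul_eq_one _ h3
  rw [e, Matrix.mul_inv_rev, Matrix.mulVec_mulVec, Matrix.mul_assoc, h1, Matrix.mul_one]

theorem T2
    (rot_rows : ∀ (n k : ℕ) (O : Matrix (Fin n) (Fin n) ℝ), O ∈ Matrix.orthogonalGroup (Fin n) ℝ →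
      MeasurePreserving (fun (G : Fin n → Fin k → ℝ) (i : Fin n) (j : Fin k) => ∑ l, O i l * G l j)
      (Measure.pi (fun _ : Fin n => gam k)) (Measure.pi (fun _ : Fin n => gam k)))
    (exists_orth : ∀ (k : ℕ) (z : Fin (k + 2) → ℝ), 0 < s2 z →
      ∃ O ∈ Matrix.orthogonalGroup (Fin (k + 2)) ℝ,
      O *ᵥ (1 : Fin (k + 2) → ℝ) = Pi.single 0 (√((k + 2 : ℕ) : ℝ)) ∧
      O *ᵥ z = Pi.single 0 (√((k + 2 : ℕ) : ℝ) * zb z) + Pi.single 1 (√(s2 z)))
    (T2_fixed : ∀ (k m : ℕ) (z : Fin (k + 2) → ℝ), 0 < s2 z → ∀ (R : Fin k → Fin (k + 2) → ℝ),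
    J1 (k + 2) m * J2 m z ≤
      ∫⁻ g0 : Fin (k + 2) → ℝ, ∫⁻ g1 : Fin (k + 2) → ℝ,
        qq ((Matrix.of (Fin.cons g0 (Fin.cons g1 R) : Fin (k + 2) → Fin (k + 2) → ℝ))⁻¹ *ᵥ
              (Pi.single 0 (√((k + 2 : ℕ) : ℝ))))
           ((Matrix.of (Fin.cons g0 (Fin.cons g1 R) : Fin (k + 2) → Fin (k + 2) → ℝ))⁻¹ *ᵥ
              (Pi.single 0 (√((k + 2 : ℕ) : ℝ) * zb z) + Pi.single 1 (√(s2 z)))) ^ m
        ∂(gam (k + 2)) ∂(gam (k + 2)))
    (k m : ℕ) (z : Fin (k + 2) → ℝ) (hs : 0 < s2 z) :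
    J1 (k + 2) m * J2 m z ≤
      ∫⁻ G : Fin (k + 2) → Fin (k + 2) → ℝ,
        qq ((Matrix.of G)⁻¹ *ᵥ 1) ((Matrix.of G)⁻¹ *ᵥ z) ^ m
          ∂(Measure.pi (fun _ : Fin (k + 2) => gam (k + 2))) := by
  rcases exists_orth k z hs with ⟨O, hO, h1, h2⟩
  have hrot := rot_rows (k + 2) (k + 2) O hO
  have hF := j6563_F_meas (k + 2) m (O *ᵥ (1 : Fin (k + 2) → ℝ)) (O *ᵥ z)
  have e := hrot.lintegral_comp hF
  simp only [j6563_rot hO] at e
  rw [e]
  refine j6563_three (gam (k + 2)) k _ hF _ ?_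
  intro R
  have := T2_fixed k m z hs R
  rw [h1, h2]
  exact this


end Pool.Agent.VP.B5c
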