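import Pool.Agent.VP.Defs2
import Pool.Agent.VP.JB5c

set_option autoImplicit false
open MeasureTheory ProbabilityTheory
open scoped ENNReal Matrix

namespace Pool.Agent.VP

theorem T3_of
    (rot_rows : ∀ (n k : ℕ) (O : Matrix (Fin n) (Fin n) ℝ), O ∈ Matrix.orthogonalGroup (Fin n) ℝ →
      MeasurePreserving (fun (G : Fin n → Fin k → ℝ) (i : Fin n) (j : Fin k) => ∑ l, O i l * G l j)
      (Measure.pi (fun _ : Fin n => gam k)) (Measure.pi (fun _ : Fin n => gam k)))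
    (exists_orth : ∀ (k : ℕ) (z : Fin (k + 2) → ℝ), 0 < s2 z →
      ∃ O ∈ Matrix.orthogonalGroup (Fin (k + 2)) ℝ,
      O *ᵥ (1 : Fin (k + 2) → ℝ) = Pi.single 0 (√((k + 2 : ℕ) : ℝ)) ∧
      O *ᵥ z = Pi.single 0 (√((k + 2 : ℕ) : ℝ) * zb z) + Pi.single 1 (√(s2 z)))
    (T3_fixed : ∀ (k m : ℕ) (z : Fin (k + 2) → ℝ), 0 < s2 z → ∀ (R : Fin k → Fin (k + 2) → ℝ),
    J3 m z ≤
      ∫⁻ g0 : Fin (k + 2) → ℝ, ∫⁻ g1 : Fin (k + 2) → ℝ,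
        qq ((Matrix.of (Fin.cons g0 (Fin.cons g1 R) : Fin (k + 2) → Fin (k + 2) → ℝ))⁻¹ *ᵥ
              (Pi.single 0 (√((k + 2 : ℕ) : ℝ))))
           ((Matrix.of (Fin.cons g0 (Fin.cons g1 R) : Fin (k + 2) → Fin (k + 2) → ℝ))⁻¹ *ᵥ
              (Pi.single 0 (√((k + 2 : ℕ) : ℝ) * zb z) + Pi.single 1 (√(s2 z)))) ^ m
        ∂(gam (k + 2)) ∂(gam (k + 2)))
    (n m : ℕ) (hn : 2 ≤ n) (z : Fin n → ℝ) (hs : 0 < s2 z) :
    J3 m z ≤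
      ∫⁻ G : Fin n → Fin n → ℝ,
        qq ((Matrix.of G)⁻¹ *ᵥ 1) ((Matrix.of G)⁻¹ *ᵥ z) ^ m
          ∂(Measure.pi (fun _ : Fin n => gam n)) := by
  obtain ⟨k, rfl⟩ : ∃ k, n = k + 2 := ⟨n - 2, by omega⟩
  rcases exists_orth k z hs with ⟨O, hO, h1, h2⟩
  have hrot := rot_rows (k + 2) (k + 2) O hO
  have hF := B5c.j6563_F_meas (k + 2) m (O *ᵥ (1 : Fin (k + 2) → ℝ)) (O *ᵥ z)
  have e := hrot.lintegral_comp hF
  simp only [B5c.j6563_rot hO] at e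
  rw [e]
  refine B5c.j6563_three (gam (k + 2)) k _ hF _ ?_
  intro R
  have := T3_fixed k m z hs R
  rw [h1, h2]
  exact this

end Pool.Agent.VP
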