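import Pool.Agent.VP.T1
import Pool.Agent.VP.T3
import Pool.Agent.VP.GeomOut
import Pool.Agent.VP.JA1
import Pool.Agent.VP.JA4
import Pool.Agent.VP.JA5
import Pool.Agent.VP.JB1
import Pool.Agent.VP.JB2
import Pool.Agent.VP.JB3
import Pool.Agent.VP.JB5b
import Pool.Agent.VP.JF1
import Pool.Agent.VP.JF2
import Pool.Agent.VP.JF3

set_option autoImplicit false
open MeasureTheory ProbabilityTheory
open scoped ENNReal Matrix

namespace Pool.Agent.VP

/-- Output of the geometric part: for all `n ≥ 2` and all `m`. -/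
theorem geom_out (n m : ℕ) (hn : 2 ≤ n) :
    (4 : ℝ≥0∞) ^ n / (n.factorial : ℝ≥0∞) * ((n + m).choose n : ℝ≥0∞) *
      ∫⁻ x, (∫⁻ b in Set.Ioi (0 : ℝ), ∫⁻ a : ℝ, QQ (|x| / √(n : ℝ)) a b ^ m * KD n a b)
        ∂(gaussianReal 0 1) ≤
    ∫⁻ ω : Fin (n + m) → (Fin n → ℝ),
          volume (convexHull ℝ (Set.range ω ∪ Set.range (fun i => -ω i))) *
          volume {y : Fin n → ℝ | ∀ x ∈ convexHull ℝ (Set.range ω ∪ Set.range (fun i => -ω i)),
                    ∑ j, x j * y j ≤ 1}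
        ∂(Measure.pi (fun _ : Fin (n + m) => gam n)) := by
  refine le_trans ?_ (T1_of A1.vol_simplex (A5.facet_integral A4.det_ne_zero_ae) n m (by omega))
  gcongr
  exact geom_core F1.QQ_measurable F3.ab_law
    (T3_of B1.rot_rows B2.exists_orth
      (F2.T3_fixed B3.law_pair (F1.qq_ge_QQ B3.law_pair) F1.QQ_le_one F1.QQ_neg F1.QQ_measurable
        B5b.planar_law)) n m hn

end Pool.Agent.VP
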