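import Mathlib

set_option autoImplicit false
open MeasureTheory ProbabilityTheory
open scoped ENNReal Matrix

namespace Pool.Agent.VP

/-- standard Gaussian measure on `Fin n → ℝ` -/
noncomputable abbrev gam (n : ℕ) : Measure (Fin n → ℝ) :=
  Measure.pi (fun _ : Fin n => gaussianReal 0 1)

/-- Gaussian measure of the intersection of the two slabs given by `v` and `y`. -/
noncomputable def qq {n : ℕ} (v y : Fin n → ℝ) : ℝ≥0∞ :=
  gam n {h | |∑ j, h j * v j| < 1 ∧ |∑ j, h j * y j| ≤ 1}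

/-- `P(|X| < x)` for a standard Gaussian variable `X` -/
noncomputable def SS (x : ℝ) : ℝ≥0∞ := gaussianReal 0 1 {t | |t| < x}

/-- `P(|X - a| ≤ b)` for a standard Gaussian variable `X` -/
noncomputable def om (a b : ℝ) : ℝ≥0∞ := gaussianReal 0 1 {t | |t - a| ≤ b}

/-- mean of the coordinates of `z` -/
noncomputable def zb {n : ℕ} (z : Fin n → ℝ) : ℝ := (∑ i, z i) / n

/-- `∑ (z_i - mean)^2` -/
noncomputable def s2 {n : ℕ} (z : Fin n → ℝ) : ℝ := ∑ i, (z i - zb z) ^ 2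

/-- `E[S(|X|/√n)^m]` -/
noncomputable def J1 (n m : ℕ) : ℝ≥0∞ :=
  ∫⁻ x, SS (|x| / √(n : ℝ)) ^ m ∂(gaussianReal 0 1)

/-- `E[om(X'/√n - zb ρ/s, ρ/s)^m]`, `ρ` the length of a planar Gaussian vector -/
noncomputable def J2 {n : ℕ} (m : ℕ) (z : Fin n → ℝ) : ℝ≥0∞ :=
  ∫⁻ x, ∫⁻ p : ℝ × ℝ,
    om (x / √(n : ℝ) - zb z * √(p.1 ^ 2 + p.2 ^ 2) / √(s2 z)) (√(p.1 ^ 2 + p.2 ^ 2) / √(s2 z)) ^ m
    ∂((gaussianReal 0 1).prod (gaussianReal 0 1)) ∂(gaussianReal 0 1)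

end Pool.Agent.VP
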