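import Pool.Agent.VP.Defs

set_option autoImplicit false
open MeasureTheory ProbabilityTheory
open scoped ENNReal Matrix

namespace Pool.Agent.VP

/-- Gaussian measure of the parallelogram `|x| < H`, `|y - a x / H| ≤ b` -/
noncomputable def QQ (H a b : ℝ) : ℝ≥0∞ :=
  ∫⁻ x in {x : ℝ | |x| < H}, om (a * x / H) b ∂(gaussianReal 0 1)

/-- moments of `exp (-(a + b z)^2 / 2)` on `[-1, 1]` -/
noncomputable def mu (k : ℕ) (a b : ℝ) : ℝ :=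
  ∫ z in (-1 : ℝ)..1, z ^ k * Real.exp (-(a + b * z) ^ 2 / 2)

/-- the density of `(a, b)` -/
noncomputable def Dn (n : ℕ) (a b : ℝ) : ℝ :=
  ((n : ℝ) - 1) * √(n : ℝ) / √(2 * Real.pi) * b *
    (mu 0 a b * mu 2 a b - mu 1 a b ^ 2) * mu 0 a b ^ (n - 2) / 2 ^ n

/-- the exact version of `J1 * J2` -/
noncomputable def J3 {n : ℕ} (m : ℕ) (z : Fin n → ℝ) : ℝ≥0∞ :=
  ∫⁻ x, ∫⁻ x', ∫⁻ p : ℝ × ℝ,
    QQ (|x| / √(n : ℝ)) (x' / √(n : ℝ) - zb z * √(p.1 ^ 2 + p.2 ^ 2) / √(s2 z))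
      (√(p.1 ^ 2 + p.2 ^ 2) / √(s2 z)) ^ m
    ∂((gaussianReal 0 1).prod (gaussianReal 0 1)) ∂(gaussianReal 0 1) ∂(gaussianReal 0 1)

end Pool.Agent.VP
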