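import Pool.Agent.VP.Defs

set_option autoImplicit false
open MeasureTheory ProbabilityTheory
open scoped ENNReal Matrix

namespace Pool.Agent.VP

/-- sign of a boolean -/
noncomputable def sg (b : Bool) : ℝ := if b then 1 else -1

lemma sg_mul_self (b : Bool) : sg b * sg b = 1 := by
  cases b <;> simp [sg]

lemma sg_inj {b c : Bool} (h : sg b = sg c) : b = c := by
  cases b <;> cases c <;> simp [sg] at h ⊢ <;> norm_num at h

lemma sg_cases (b : Bool) : sg b = 1 ∨ sg b = -1 := by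
  cases b <;> simp [sg]

/-- subsets of cardinality `n` -/
abbrev Sub (n N : ℕ) := {F : Finset (Fin N) // F.card = n}

/-- the matrix of the signed points of a facet -/
noncomputable def MF {n N : ℕ} (ω : Fin N → Fin n → ℝ) (F : Sub n N) (ε : Fin n → Bool) :
    Matrix (Fin n) (Fin n) ℝ :=
  Matrix.of (fun i => sg (ε i) • ω (F.1.orderEmbOfFin F.2 i))

/-- facet condition -/
def Facet {n N : ℕ} (ω : Fin N → Fin n → ℝ) (F : Sub n N) (ε : Fin n → Bool) : Prop :=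
  (MF ω F ε).det ≠ 0 ∧ ∀ j ∉ F.1, |ω j ⬝ᵥ ((MF ω F ε)⁻¹ *ᵥ 1)| < 1

/-- open simplex spanned by `0` and the rows of `M` -/
def Delta {n : ℕ} (M : Matrix (Fin n) (Fin n) ℝ) : Set (Fin n → ℝ) :=
  {x | (∀ i, 0 < (x ᵥ* M⁻¹) i) ∧ ∑ i, (x ᵥ* M⁻¹) i < 1}

lemma Delta_measurable {n : ℕ} (M : Matrix (Fin n) (Fin n) ℝ) : MeasurableSet (Delta M) := by
  have hc : ∀ i, Continuous (fun x : Fin n → ℝ => (x ᵥ* M⁻¹) i) := by
    intro i
    simp only [Matrix.vecMul, dotProduct]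
    fun_prop
  have : IsOpen (Delta M) := by
    unfold Delta
    rw [Set.ofPred_and]
    refine IsOpen.inter ?_ ?_
    · rw [Set.ofPred_forall]
      exact isOpen_iInter_of_finite (fun i => isOpen_lt continuous_const (hc i))
    · exact isOpen_lt (continuous_finsetSum _ (fun i _ => hc i)) continuous_const
  exact this.measurableSet

lemma Delta_volume {n : ℕ} (M : Matrix (Fin n) (Fin n) ℝ) (hM : M.det ≠ 0) :
    volume (Delta M) = ENNReal.ofReal |M.det| *
      volume {c : Fin n → ℝ | (∀ i, 0 < c i) ∧ ∑ i, c i < 1} := by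
  have hdet : LinearMap.det (Matrix.toLin' (M⁻¹)ᵀ) ≠ 0 := by
    rw [LinearMap.det_toLin', Matrix.det_transpose, Matrix.det_nonsing_inv]
    simpa using hM
  have h := Measure.addHaar_preimage_linearMap (volume : Measure (Fin n → ℝ)) hdet
    {c : Fin n → ℝ | (∀ i, 0 < c i) ∧ ∑ i, c i < 1}
  have hset : (Matrix.toLin' (M⁻¹)ᵀ) ⁻¹' {c : Fin n → ℝ | (∀ i, 0 < c i) ∧ ∑ i, c i < 1} =
      Delta M := by
    ext x
    simp [Delta, Matrix.toLin'_apply, Matrix.mulVec_transpose]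
  rw [hset] at h
  rw [h]
  congr 2
  rw [LinearMap.det_toLin', Matrix.det_transpose, Matrix.det_nonsing_inv]
  simp

lemma Delta_val {n : ℕ} (M : Matrix (Fin n) (Fin n) ℝ) (hM : M.det ≠ 0) (x : Fin n → ℝ) :
    x = (x ᵥ* M⁻¹) ᵥ* M := by
  rw [Matrix.vecMul_vecMul, Matrix.nonsing_inv_mul _ (isUnit_iff_ne_zero.mpr hM), Matrix.vecMul_one]

/-- row values of the facet functional -/
lemma facet_row {n N : ℕ} {ω : Fin N → Fin n → ℝ} {F : Sub n N} {ε : Fin n → Bool}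
    (h : Facet ω F ε) (i : Fin n) :
    ω (F.1.orderEmbOfFin F.2 i) ⬝ᵥ ((MF ω F ε)⁻¹ *ᵥ 1) = sg (ε i) := by
  have h1 : (MF ω F ε) *ᵥ ((MF ω F ε)⁻¹ *ᵥ 1) = 1 := by
    rw [Matrix.mulVec_mulVec, Matrix.mul_nonsing_inv _ (isUnit_iff_ne_zero.mpr h.1),
      Matrix.one_mulVec]
  have h2 := congrFun h1 i
  have h3 : (MF ω F ε *ᵥ ((MF ω F ε)⁻¹ *ᵥ 1)) i =
      sg (ε i) * (ω (F.1.orderEmbOfFin F.2 i) ⬝ᵥ ((MF ω F ε)⁻¹ *ᵥ 1)) := by
    simp only [Matrix.mulVec, MF, Matrix.of_apply]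
    rw [smul_dotProduct]
    simp
  rw [h3] at h2
  simp only [Pi.one_apply] at h2
  have h4 := sg_mul_self (ε i)
  calc ω (F.1.orderEmbOfFin F.2 i) ⬝ᵥ ((MF ω F ε)⁻¹ *ᵥ 1)
      = (sg (ε i) * sg (ε i)) * (ω (F.1.orderEmbOfFin F.2 i) ⬝ᵥ ((MF ω F ε)⁻¹ *ᵥ 1)) := by
        rw [h4, one_mul]
    _ = sg (ε i) * (sg (ε i) * (ω (F.1.orderEmbOfFin F.2 i) ⬝ᵥ ((MF ω F ε)⁻¹ *ᵥ 1))) := by ring
    _ = sg (ε i) := by rw [h2, mul_one]

/-- values of the facet functional on another set of signed vertices -/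
lemma facet_le {n N : ℕ} {ω : Fin N → Fin n → ℝ} {F F' : Sub n N} {ε ε' : Fin n → Bool}
    (h : Facet ω F ε) (i : Fin n) :
    (MF ω F' ε' *ᵥ ((MF ω F ε)⁻¹ *ᵥ 1)) i ≤ 1 := by
  have h3 : (MF ω F' ε' *ᵥ ((MF ω F ε)⁻¹ *ᵥ 1)) i =
      sg (ε' i) * (ω (F'.1.orderEmbOfFin F'.2 i) ⬝ᵥ ((MF ω F ε)⁻¹ *ᵥ 1)) := by
    simp only [Matrix.mulVec, MF, Matrix.of_apply]
    rw [smul_dotProduct]
    simp
  rw [h3]
  by_cases hj : F'.1.orderEmbOfFin F'.2 i ∈ F.1
  · obtain ⟨k, hk⟩ : ∃ k, F.1.orderEmbOfFin F.2 k = F'.1.orderEmbOfFin F'.2 i := by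
      have := F.1.range_orderEmbOfFin F.2
      have h5 : F'.1.orderEmbOfFin F'.2 i ∈ Set.range (F.1.orderEmbOfFin F.2) := by
        rw [this]; exact hj
      exact h5
    rw [← hk, facet_row h k]
    rcases sg_cases (ε' i) with h6 | h6 <;> rcases sg_cases (ε k) with h7 | h7 <;>
      rw [h6, h7] <;> norm_num
  · have h5 := h.2 _ hj
    have h6 := abs_lt.mp h5
    rcases sg_cases (ε' i) with h7 | h7 <;> rw [h7] <;> linarith [h6.1, h6.2]

lemma facet_eq {n N : ℕ} {ω : Fin N → Fin n → ℝ} {F F' : Sub n N} {ε ε' : Fin n → Bool}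
    (h : Facet ω F ε)
    (hall : ∀ i, (MF ω F' ε' *ᵥ ((MF ω F ε)⁻¹ *ᵥ 1)) i = 1) : F = F' ∧ ε = ε' := by
  have h3 : ∀ i, (MF ω F' ε' *ᵥ ((MF ω F ε)⁻¹ *ᵥ 1)) i =
      sg (ε' i) * (ω (F'.1.orderEmbOfFin F'.2 i) ⬝ᵥ ((MF ω F ε)⁻¹ *ᵥ 1)) := by
    intro i
    simp only [Matrix.mulVec, MF, Matrix.of_apply]
    rw [smul_dotProduct]
    simp
  have hmem : ∀ i, F'.1.orderEmbOfFin F'.2 i ∈ F.1 := by
    intro i
    by_contra hj
    have h5 := h.2 _ hj
    have h6 := abs_lt.mp h5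
    have h7 := hall i
    rw [h3 i] at h7
    rcases sg_cases (ε' i) with h8 | h8 <;> rw [h8] at h7 <;> linarith [h6.1, h6.2]
  have hsub : F'.1 ⊆ F.1 := by
    intro j hj
    have : j ∈ Set.range (F'.1.orderEmbOfFin F'.2) := by
      rw [F'.1.range_orderEmbOfFin F'.2]; exact hj
    obtain ⟨i, rfl⟩ := this
    exact hmem i
  have hFF : F'.1 = F.1 := Finset.eq_of_subset_of_card_le hsub (by rw [F.2, F'.2])
  have hF : F = F' := Subtype.ext hFF.symm
  subst hF
  refine ⟨rfl, ?_⟩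
  funext i
  have h7 := hall i
  rw [h3 i, facet_row h i] at h7
  apply sg_inj
  rcases sg_cases (ε' i) with h8 | h8 <;> rcases sg_cases (ε i) with h9 | h9 <;>
    rw [h8, h9] at h7 ⊢ <;> norm_num at h7

lemma Delta_sum {n : ℕ} (M : Matrix (Fin n) (Fin n) ℝ) (x : Fin n → ℝ) :
    x ⬝ᵥ (M⁻¹ *ᵥ 1) = ∑ i, (x ᵥ* M⁻¹) i := by
  rw [Matrix.dotProduct_mulVec]
  simp [dotProduct]

lemma Delta_lt {n N : ℕ} {ω : Fin N → Fin n → ℝ} {F F' : Sub n N} {ε ε' : Fin n → Bool}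
    (h : Facet ω F ε) (h' : Facet ω F' ε') (hne : ¬ (F = F' ∧ ε = ε')) (x : Fin n → ℝ)
    (hx' : x ∈ Delta (MF ω F' ε')) :
    ∑ i, (x ᵥ* (MF ω F ε)⁻¹) i < ∑ i, (x ᵥ* (MF ω F' ε')⁻¹) i := by
  rw [← Delta_sum (MF ω F ε) x]
  have hx : x ⬝ᵥ ((MF ω F ε)⁻¹ *ᵥ 1) =
      ∑ i, (x ᵥ* (MF ω F' ε')⁻¹) i * (MF ω F' ε' *ᵥ ((MF ω F ε)⁻¹ *ᵥ 1)) i := by
    conv_lhs => rw [Delta_val (MF ω F' ε') h'.1 x]
    rw [← Matrix.dotProduct_mulVec]
    rfl
  rw [hx]
  obtain ⟨i, hi⟩ : ∃ i, (MF ω F' ε' *ᵥ ((MF ω F ε)⁻¹ *ᵥ 1)) i ≠ 1 := by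
    by_contra hcon
    push Not at hcon
    exact hne (facet_eq h hcon)
  apply Finset.sum_lt_sum
  · intro j _
    have h1 := facet_le (F' := F') (ε' := ε') h j
    have h2 := hx'.1 j
    nlinarith
  · refine ⟨i, Finset.mem_univ i, ?_⟩
    have h1 := lt_of_le_of_ne (facet_le (F' := F') (ε' := ε') h i) hi
    have h2 := hx'.1 i
    nlinarith

lemma Delta_disjoint {n N : ℕ} {ω : Fin N → Fin n → ℝ} {F F' : Sub n N} {ε ε' : Fin n → Bool}
    (h : Facet ω F ε) (h' : Facet ω F' ε') (hne : ¬ (F = F' ∧ ε = ε')) :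
    Disjoint (Delta (MF ω F ε)) (Delta (MF ω F' ε')) := by
  rw [Set.disjoint_left]
  intro x hx hx'
  have h1 := Delta_lt h h' hne x hx'
  have h2 := Delta_lt h' h (fun hc => hne ⟨hc.1.symm, hc.2.symm⟩) x hx
  exact lt_asymm h1 h2

/-- The polytope. -/
abbrev KK {n N : ℕ} (ω : Fin N → Fin n → ℝ) : Set (Fin n → ℝ) :=
  convexHull ℝ (Set.range ω ∪ Set.range (fun i => -ω i))

lemma Delta_subset {n N : ℕ} (hn : 1 ≤ n) {ω : Fin N → Fin n → ℝ} {F : Sub n N}
    {ε : Fin n → Bool} (h : Facet ω F ε) : Delta (MF ω F ε) ⊆ KK ω := by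
  intro x hx
  have hconv : Convex ℝ (KK ω) := convex_convexHull ℝ _
  have hrow : ∀ i, MF ω F ε i ∈ KK ω := by
    intro i
    apply subset_convexHull
    have hM : MF ω F ε i = sg (ε i) • ω (F.1.orderEmbOfFin F.2 i) := rfl
    rw [hM]
    rcases sg_cases (ε i) with h8 | h8
    · left
      exact ⟨F.1.orderEmbOfFin F.2 i, by rw [h8, one_smul]⟩
    · right
      exact ⟨F.1.orderEmbOfFin F.2 i, by rw [h8]; simp⟩
  have hneg : ∀ y ∈ KK ω, -y ∈ KK ω := by
    intro y hy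
    have h1 : -(KK ω) = KK ω := by
      unfold KK
      rw [← convexHull_neg]
      congr 1
      ext t
      simp only [Set.mem_neg, Set.mem_union, Set.mem_range]
      constructor
      · rintro (⟨j, hj⟩ | ⟨j, hj⟩)
        · right; exact ⟨j, by rw [hj]; simp⟩
        · left; exact ⟨j, by have := congrArg Neg.neg hj; simpa using this⟩
      · rintro (⟨j, hj⟩ | ⟨j, hj⟩)
        · right; exact ⟨j, by rw [hj]⟩
        · left; exact ⟨j, by rw [← hj]; simp⟩
    rw [← h1]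
    simpa using hy
  have hzero : (0 : Fin n → ℝ) ∈ KK ω := by
    have h0 := hrow ⟨0, hn⟩
    have h1 := hneg _ h0
    have := hconv h0 h1 (a := 1/2) (b := 1/2) (by norm_num) (by norm_num) (by norm_num)
    convert this using 1
    simp
  set c := x ᵥ* (MF ω F ε)⁻¹ with hc
  have hxc : x = ∑ i, c i • MF ω F ε i := by
    rw [Delta_val (MF ω F ε) h.1 x]
    ext j
    simp [Matrix.vecMul, dotProduct, Finset.sum_apply, hc]
  -- convex combination with 0
  have hs : ∑ i, c i < 1 := hx.2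
  have hpos : ∀ i, 0 < c i := hx.1
  have hkey : (1 - ∑ i, c i) • (0 : Fin n → ℝ) + ∑ i, c i • MF ω F ε i ∈ KK ω := by
    have h1 : ∀ o : Option (Fin n), (match o with
        | none => (0 : Fin n → ℝ)
        | some i => MF ω F ε i) ∈ KK ω := by
      intro o
      cases o with
      | none => exact hzero
      | some i => exact hrow i
    have h2 := hconv.sum_mem (t := (Finset.univ : Finset (Option (Fin n))))
      (w := fun o => match o with
        | none => 1 - ∑ i, c i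
        | some i => c i)
      (z := fun o => match o with
        | none => (0 : Fin n → ℝ)
        | some i => MF ω F ε i)
      (by
        intro o _
        cases o with
        | none => simp; linarith
        | some i => exact (hpos i).le)
      (by
        rw [Fintype.sum_option]
        simp)
      (fun o _ => h1 o)
    rw [Fintype.sum_option] at h2
    simpa using h2
  rw [hxc]
  simpa using hkey

/-- Sum of the volumes of the facet simplices is at most the volume of the polytope. -/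
theorem facets_volume {n N : ℕ} (hn : 1 ≤ n) (ω : Fin N → Fin n → ℝ) :
    ∑ P : Sub n N × (Fin n → Bool),
      Set.indicator {P : Sub n N × (Fin n → Bool) | Facet ω P.1 P.2}
        (fun P => ENNReal.ofReal |(MF ω P.1 P.2).det|) P *
        volume {c : Fin n → ℝ | (∀ i, 0 < c i) ∧ ∑ i, c i < 1} ≤ volume (KK ω) := by
  classical
  have h1 : ∑ P : Sub n N × (Fin n → Bool),
      Set.indicator {P : Sub n N × (Fin n → Bool) | Facet ω P.1 P.2}
        (fun P => ENNReal.ofReal |(MF ω P.1 P.2).det|) P *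
        volume {c : Fin n → ℝ | (∀ i, 0 < c i) ∧ ∑ i, c i < 1} =
      ∑ P ∈ (Finset.univ : Finset (Sub n N × (Fin n → Bool))).filter
        (fun P => Facet ω P.1 P.2), volume (Delta (MF ω P.1 P.2)) := by
    rw [Finset.sum_filter]
    apply Finset.sum_congr rfl
    intro P _
    by_cases hP : Facet ω P.1 P.2
    · rw [if_pos hP, Set.indicator_of_mem (by exact hP), Delta_volume _ hP.1]
    · rw [if_neg hP, Set.indicator_of_notMem (by exact hP), zero_mul]
  rw [h1, ← measure_biUnion_finset]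
  · apply measure_mono
    intro x hx
    simp only [Set.mem_iUnion] at hx
    obtain ⟨P, hP, hx⟩ := hx
    exact Delta_subset hn (Finset.mem_filter.mp hP).2 hx
  · intro P hP Q hQ hPQ
    simp only [Finset.coe_filter, Finset.mem_univ, true_and, Set.mem_ofPred_eq] at hP hQ
    exact Delta_disjoint hP hQ (fun hc => hPQ (Prod.ext hc.1 hc.2))
  · intro P _
    exact Delta_measurable _

end Pool.Agent.VP
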