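import Pool.Agent.VP.Defs

set_option autoImplicit false
open MeasureTheory ProbabilityTheory
open scoped ENNReal Matrix

namespace Pool.Agent.VP.B4

open Pool.Agent.VP



theorem om_neg (c b : ℝ) : om (-c) b = om c b := by
  unfold om
  have h1 : (gaussianReal 0 1).map (fun x : ℝ => -x) = gaussianReal 0 1 := by
    rw [gaussianReal_map_neg, neg_zero]
  have hms : MeasurableSet {t : ℝ | |t - c| ≤ b} := by
    apply measurableSet_le
    · fun_prop
    · fun_prop
  conv_rhs => rw [← h1]
  rw [Measure.map_apply measurable_neg hms]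
  congr 1
  ext t
  simp only [Set.mem_preimage, Set.mem_ofPred_eq]
  have h2 : |t - -c| = |-t - c| := by
    rw [← abs_neg]; congr 1; ring
  rw [h2]

theorem om_mono_nonneg (c c' b : ℝ) (h0 : 0 ≤ c) (h : c ≤ c') : om c' b ≤ om c b := by
  unfold om
  set A : Set ℝ := {t : ℝ | |t - c| ≤ b} with hA
  set A' : Set ℝ := {t : ℝ | |t - c'| ≤ b} with hA'
  have hmA : MeasurableSet A := by
    apply measurableSet_le
    · fun_prop
    · fun_prop
  have hmA' : MeasurableSet A' := by
    apply measurableSet_le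
    · fun_prop
    · fun_prop
  have key : gaussianReal 0 1 (A' \ A) ≤ gaussianReal 0 1 (A \ A') := by
    rw [gaussianReal_apply _ one_ne_zero, gaussianReal_apply _ one_ne_zero]
    have hR : MeasurePreserving (fun x : ℝ => (c + c') - x) volume volume :=
      Measure.measurePreserving_sub_left volume (c + c')
    rw [← hR.setLIntegral_comp_preimage (hmA.diff hmA') (measurable_gaussianPDF 0 1)]
    have hsub : A' \ A ⊆ (fun x : ℝ => (c + c') - x) ⁻¹' (A \ A') := by
      intro t ht
      have h1 : |t - c'| ≤ b := ht.1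
      have h2 : ¬ |t - c| ≤ b := ht.2
      refine ⟨?_, ?_⟩
      · show |c + c' - t - c| ≤ b
        have : c + c' - t - c = -(t - c') := by ring
        rw [this, abs_neg]; exact h1
      · show ¬ |c + c' - t - c'| ≤ b
        have : c + c' - t - c' = -(t - c) := by ring
        rw [this, abs_neg]; exact h2
    refine le_trans ?_ (lintegral_mono_set hsub)
    refine setLIntegral_mono' (hmA'.diff hmA) fun t ht => ?_
    have h1 : |t - c'| ≤ b := ht.1
    have h2 : ¬ |t - c| ≤ b := ht.2
    have h3 := abs_le.mp h1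
    have h4 : c + b < t := by
      by_contra hcon
      push Not at hcon
      apply h2
      rw [abs_le]
      constructor <;> linarith [h3.1]
    have h5 : (c + c' - t) ^ 2 ≤ t ^ 2 := by nlinarith [h3.1]
    unfold gaussianPDF
    apply ENNReal.ofReal_le_ofReal
    unfold gaussianPDFReal
    refine mul_le_mul_of_nonneg_left ?_ (by positivity)
    apply Real.exp_le_exp.mpr
    simp only [sub_zero, NNReal.coe_one, mul_one]
    linarith
  calc gaussianReal 0 1 A' = gaussianReal 0 1 (A' ∩ A) + gaussianReal 0 1 (A' \ A) :=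
        (measure_inter_add_sdiff A' hmA).symm
    _ ≤ gaussianReal 0 1 (A' ∩ A) + gaussianReal 0 1 (A \ A') := by gcongr
    _ = gaussianReal 0 1 (A ∩ A') + gaussianReal 0 1 (A \ A') := by rw [Set.inter_comm]
    _ = gaussianReal 0 1 A := measure_inter_add_sdiff A hmA'

theorem om_abs (c b : ℝ) : om |c| b = om c b := by
  rcases abs_choice c with h | h
  · rw [h]
  · rw [h, om_neg]

theorem om_mono_abs (c c' b : ℝ) (h : |c| ≤ |c'|) : om c' b ≤ om c b := by
  rw [← om_abs c, ← om_abs c']
  exact om_mono_nonneg _ _ _ (abs_nonneg _) h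

theorem qq_lower
    (law_pair : ∀ (n : ℕ) (w₁ w₂ : Fin n → ℝ), ∑ j, w₁ j * w₁ j = 1 →
      ∑ j, w₂ j * w₂ j = 1 → ∑ j, w₁ j * w₂ j = 0 →
      MeasurePreserving (fun h : Fin n → ℝ => (∑ j, h j * w₁ j, ∑ j, h j * w₂ j)) (gam n)
        ((gaussianReal 0 1).prod (gaussianReal 0 1)))
    (n : ℕ) (w₁ w₂ : Fin n → ℝ) (h11 : ∑ j, w₁ j * w₁ j = 1)
    (h22 : ∑ j, w₂ j * w₂ j = 1) (h12 : ∑ j, w₁ j * w₂ j = 0)
    (α β c : ℝ) (hα : α ≠ 0) (hc : 0 < c) :
    SS (1 / |α|) * om (β / (α * c)) (1 / c) ≤
      qq (fun j => α * w₁ j) (fun j => β * w₁ j + c * w₂ j) := by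
  have hαp : 0 < |α| := abs_pos.mpr hα
  have hmp := law_pair n w₁ w₂ h11 h22 h12
  set B : Set (ℝ × ℝ) := {p | |α * p.1| < 1 ∧ |β * p.1 + c * p.2| ≤ 1} with hB
  have hmB : MeasurableSet B := by
    have m1 : MeasurableSet {p : ℝ × ℝ | |α * p.1| < 1} := by
      apply measurableSet_lt
      · fun_prop
      · fun_prop
    have m2 : MeasurableSet {p : ℝ × ℝ | |β * p.1 + c * p.2| ≤ 1} := by
      apply measurableSet_le
      · fun_prop
      · fun_prop
    exact m1.inter m2
  have hqq : qq (fun j => α * w₁ j) (fun j => β * w₁ j + c * w₂ j)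
      = ((gaussianReal 0 1).prod (gaussianReal 0 1)) B := by
    rw [← hmp.measure_preimage hmB.nullMeasurableSet]
    unfold qq
    congr 1
    ext h
    simp only [Set.mem_ofPred_eq, Set.mem_preimage, hB]
    have e1 : ∑ j, h j * (α * w₁ j) = α * ∑ j, h j * w₁ j := by
      rw [Finset.mul_sum]; exact Finset.sum_congr rfl fun j _ => by ring
    have e2 : ∑ j, h j * (β * w₁ j + c * w₂ j) = β * ∑ j, h j * w₁ j + c * ∑ j, h j * w₂ j := by
      rw [Finset.mul_sum, Finset.mul_sum, ← Finset.sum_add_distrib]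
      exact Finset.sum_congr rfl fun j _ => by ring
    rw [e1, e2]
  rw [hqq, Measure.prod_apply hmB]
  have hmS : MeasurableSet {t : ℝ | |t| < 1 / |α|} := by
    apply measurableSet_lt
    · fun_prop
    · fun_prop
  have hlow : ∫⁻ x, Set.indicator {t : ℝ | |t| < 1 / |α|} (fun _ => om (β / (α * c)) (1 / c)) x
      ∂(gaussianReal 0 1) = SS (1 / |α|) * om (β / (α * c)) (1 / c) := by
    rw [lintegral_indicator hmS, setLIntegral_const]
    unfold SS
    rw [mul_comm]
  rw [← hlow]
  refine lintegral_mono fun x => ?_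
  by_cases hx : |x| < 1 / |α|
  · rw [Set.indicator_of_mem (show x ∈ {t : ℝ | |t| < 1 / |α|} from hx)]
    have hset : Prod.mk x ⁻¹' B = {t : ℝ | |t - (-(β / c) * x)| ≤ 1 / c} := by
      ext y
      simp only [Set.mem_preimage, Set.mem_ofPred_eq, hB]
      have h1 : |α * x| < 1 := by
        rw [abs_mul]
        calc |α| * |x| < |α| * (1 / |α|) := mul_lt_mul_of_pos_left hx hαp
          _ = 1 := by field_simp
      have h2 : β * x + c * y = c * (y - (-(β / c) * x)) := by
        field_simp
        ring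
      rw [h2, abs_mul c, abs_of_pos hc, le_div_iff₀ hc, mul_comm c]
      exact ⟨fun h => h.2, fun h => ⟨h1, h⟩⟩
    rw [hset]
    refine om_mono_abs _ _ _ ?_
    rw [abs_mul, abs_neg, abs_div, abs_div, abs_mul, abs_of_pos hc]
    calc |β| / c * |x| ≤ |β| / c * (1 / |α|) := by gcongr
      _ = |β| / (|α| * c) := by field_simp
  · rw [Set.indicator_of_notMem (show x ∉ {t : ℝ | |t| < 1 / |α|} from hx)]
    exact bot_le


end Pool.Agent.VP.B4
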