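import Pool.Agent.VP.Defs

set_option autoImplicit false
open MeasureTheory ProbabilityTheory
open scoped ENNReal Matrix

namespace Pool.Agent.VP.B5a

open Pool.Agent.VP




lemma SS_mono {x y : ℝ} (h : x ≤ y) : SS x ≤ SS y :=
  measure_mono fun t (ht : |t| < x) => (lt_of_lt_of_le ht h : |t| < y)

lemma SS_meas : Measurable SS := Monotone.measurable fun _ _ h => SS_mono h

lemma SS_le_one (x : ℝ) : SS x ≤ 1 := prob_le_one
lemma om_le_one (a b : ℝ) : om a b ≤ 1 := prob_le_one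

lemma om_meas : Measurable (fun p : ℝ × ℝ => om p.1 p.2) := by
  have hS : MeasurableSet {q : (ℝ × ℝ) × ℝ | |q.2 - q.1.1| ≤ q.1.2} :=
    (isClosed_le (by fun_prop) (by fun_prop)).measurableSet
  exact measurable_measure_prodMk_left (ν := gaussianReal 0 1) hS

lemma om_neg (a b : ℝ) : om (-a) b = om a b := by
  unfold om
  have h : (gaussianReal 0 1).map (fun x => -x) = gaussianReal 0 1 := by
    rw [gaussianReal_map_neg]; simp
  have hS : MeasurableSet {t : ℝ | |t - a| ≤ b} := (isClosed_le (by fun_prop) (by fun_prop)).measurableSet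
  conv_rhs => rw [← h]
  rw [Measure.map_apply (by fun_prop) hS]
  congr 1
  ext t
  show |t - -a| ≤ b ↔ |-t - a| ≤ b
  rw [show t - -a = -(-t - a) by ring, abs_neg]

lemma exists_pair (k : ℕ) (R : Fin k → Fin (k + 2) → ℝ) :
    ∃ e1 e2 : Fin (k + 2) → ℝ, e1 ⬝ᵥ e1 = 1 ∧ e2 ⬝ᵥ e2 = 1 ∧ e1 ⬝ᵥ e2 = 0 ∧ (∀ i, R i ⬝ᵥ e1 = 0) ∧
      (∀ i, R i ⬝ᵥ e2 = 0) := by
  classical
  let W : Submodule ℝ (EuclideanSpace ℝ (Fin (k+2))) :=
    Submodule.span ℝ (Set.range fun i : Fin k => (WithLp.toLp 2 (R i) : EuclideanSpace ℝ (Fin (k+2))))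
  have h1 : Module.finrank ℝ W ≤ k := by
    have := finrank_range_le_card (R := ℝ) (fun i : Fin k => (WithLp.toLp 2 (R i) : EuclideanSpace ℝ (Fin (k+2))))
    rw [Fintype.card_fin] at this
    exact this
  have h2 := Submodule.finrank_add_finrank_orthogonal W
  rw [finrank_euclideanSpace_fin] at h2
  have h3 : 2 ≤ Module.finrank ℝ Wᗮ := by omega
  let b := stdOrthonormalBasis ℝ Wᗮ
  have hb := b.orthonormal
  let i0 : Fin (Module.finrank ℝ Wᗮ) := ⟨0, by omega⟩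
  let i1 : Fin (Module.finrank ℝ Wᗮ) := ⟨1, by omega⟩
  have hne : i0 ≠ i1 := by
    intro h
    have := congrArg Fin.val h
    simp [i0, i1] at this
  have hdot : ∀ x y : EuclideanSpace ℝ (Fin (k+2)), inner ℝ x y = WithLp.ofLp x ⬝ᵥ WithLp.ofLp y := by
    intro x y
    rw [EuclideanSpace.inner_eq_star_dotProduct, star_trivial, dotProduct_comm]
  have hb0 : inner ℝ (b i0 : EuclideanSpace ℝ (Fin (k+2))) (b i0 : EuclideanSpace ℝ (Fin (k+2))) = (1 : ℝ) := by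
    have := hb.1 i0
    rw [real_inner_self_eq_norm_sq]
    have h' : ‖(b i0 : EuclideanSpace ℝ (Fin (k+2)))‖ = 1 := this
    rw [h']; norm_num
  have hb1 : inner ℝ (b i1 : EuclideanSpace ℝ (Fin (k+2))) (b i1 : EuclideanSpace ℝ (Fin (k+2))) = (1 : ℝ) := by
    have := hb.1 i1
    rw [real_inner_self_eq_norm_sq]
    have h' : ‖(b i1 : EuclideanSpace ℝ (Fin (k+2)))‖ = 1 := this
    rw [h']; norm_num
  have hb01 : inner ℝ (b i0 : EuclideanSpace ℝ (Fin (k+2))) (b i1 : EuclideanSpace ℝ (Fin (k+2))) = (0 : ℝ) :=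
    hb.2 hne
  have hperp : ∀ (l : Fin (Module.finrank ℝ Wᗮ)) (i : Fin k),
      inner ℝ (WithLp.toLp 2 (R i) : EuclideanSpace ℝ (Fin (k+2))) (b l : EuclideanSpace ℝ (Fin (k+2))) = (0 : ℝ) := by
    intro l i
    exact (b l).2 _ (Submodule.subset_span ⟨i, rfl⟩)
  refine ⟨WithLp.ofLp (b i0 : EuclideanSpace ℝ (Fin (k+2))), WithLp.ofLp (b i1 : EuclideanSpace ℝ (Fin (k+2))),
    ?_, ?_, ?_, ?_, ?_⟩
  · rw [← hdot]; exact hb0
  · rw [← hdot]; exact hb1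
  · rw [← hdot]; exact hb01
  · intro i
    have := hperp i0 i
    rw [hdot] at this
    exact this
  · intro i
    have := hperp i1 i
    rw [hdot] at this
    exact this

lemma pointwise
    (qq_lower : ∀ (n : ℕ) (w₁ w₂ : Fin n → ℝ), ∑ j, w₁ j * w₁ j = 1 →
      ∑ j, w₂ j * w₂ j = 1 → ∑ j, w₁ j * w₂ j = 0 → ∀ (α β c : ℝ), α ≠ 0 → 0 < c →
      SS (1 / |α|) * om (β / (α * c)) (1 / c) ≤
        qq (fun j => α * w₁ j) (fun j => β * w₁ j + c * w₂ j))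
    {k : ℕ} (z : Fin (k + 2) → ℝ) (hs : 0 < s2 z) (R : Fin k → Fin (k + 2) → ℝ)
    (e1 e2 : Fin (k + 2) → ℝ) (h11 : e1 ⬝ᵥ e1 = 1) (h22 : e2 ⬝ᵥ e2 = 1) (h12 : e1 ⬝ᵥ e2 = 0)
    (hR1 : ∀ i, R i ⬝ᵥ e1 = 0) (hR2 : ∀ i, R i ⬝ᵥ e2 = 0) (g0 g1 : Fin (k + 2) → ℝ)
    (a b c d : ℝ) (ha : g0 ⬝ᵥ e1 = a) (hb : g0 ⬝ᵥ e2 = b) (hc : g1 ⬝ᵥ e1 = c) (hd : g1 ⬝ᵥ e2 = d) :
    SS (|a * d - b * c| / √(c ^ 2 + d ^ 2) / √((k + 2 : ℕ) : ℝ)) *
      om ((a * c + b * d) / √(c ^ 2 + d ^ 2) / √((k + 2 : ℕ) : ℝ) - zb z * √(c ^ 2 + d ^ 2) / √(s2 z))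
        (√(c ^ 2 + d ^ 2) / √(s2 z)) ≤
      qq ((Matrix.of (Fin.cons g0 (Fin.cons g1 R) : Fin (k + 2) → Fin (k + 2) → ℝ))⁻¹ *ᵥ
              (Pi.single 0 (√((k + 2 : ℕ) : ℝ))))
           ((Matrix.of (Fin.cons g0 (Fin.cons g1 R) : Fin (k + 2) → Fin (k + 2) → ℝ))⁻¹ *ᵥ
              (Pi.single 0 (√((k + 2 : ℕ) : ℝ) * zb z) + Pi.single 1 (√(s2 z)))) := by
  set M : Matrix (Fin (k + 2)) (Fin (k + 2)) ℝ :=
    Matrix.of (Fin.cons g0 (Fin.cons g1 R) : Fin (k + 2) → Fin (k + 2) → ℝ) with hM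
  set N : ℝ := √((k + 2 : ℕ) : ℝ) with hN
  have hN0 : 0 < N := Real.sqrt_pos.2 (by positivity)
  set s : ℝ := √(s2 z) with hsdef
  have hs0 : 0 < s := Real.sqrt_pos.2 hs
  by_cases hdet : IsUnit M.det
  swap
  · rw [Matrix.nonsing_inv_apply_not_isUnit _ hdet, Matrix.zero_mulVec, Matrix.zero_mulVec]
    have : qq (0 : Fin (k + 2) → ℝ) 0 = 1 := by
      unfold qq
      have : {h : Fin (k + 2) → ℝ | |∑ j, h j * (0 : Fin (k + 2) → ℝ) j| < 1 ∧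
          |∑ j, h j * (0 : Fin (k + 2) → ℝ) j| ≤ 1} = Set.univ := by
        ext h
        simp
      rw [this, measure_univ]
    rw [this]
    exact mul_le_one' (SS_le_one _) (om_le_one _ _)
  have hrow0 : ∀ v : Fin (k + 2) → ℝ, (M *ᵥ v) 0 = g0 ⬝ᵥ v := fun v => rfl
  have hrow1 : ∀ v : Fin (k + 2) → ℝ, (M *ᵥ v) 1 = g1 ⬝ᵥ v := by
    intro v
    rw [← Fin.succ_zero_eq_one]
    rfl
  have hrowR : ∀ (v : Fin (k + 2) → ℝ) (i : Fin k), (M *ᵥ v) i.succ.succ = R i ⬝ᵥ v := fun v i => rfl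
  have hext : ∀ f g : Fin (k + 2) → ℝ, f 0 = g 0 → f 1 = g 1 → (∀ i : Fin k, f i.succ.succ = g i.succ.succ) → f = g := by
    intro f g h0 h1 h2
    funext i
    refine Fin.cases h0 (fun i => ?_) i
    refine Fin.cases ?_ (fun i => h2 i) i
    rw [Fin.succ_zero_eq_one]; exact h1
  have hinj : ∀ v : Fin (k + 2) → ℝ, M *ᵥ v = 0 → v = 0 := by
    intro v hv
    have : M⁻¹ *ᵥ (M *ᵥ v) = v := by
      rw [Matrix.mulVec_mulVec, Matrix.nonsing_inv_mul M hdet, Matrix.one_mulVec]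
    rw [hv, Matrix.mulVec_zero] at this
    exact this.symm
  have hsolve : ∀ u r : Fin (k + 2) → ℝ, M *ᵥ u = r → M⁻¹ *ᵥ r = u := by
    intro u r h
    rw [← h, Matrix.mulVec_mulVec, Matrix.nonsing_inv_mul M hdet, Matrix.one_mulVec]
  have h21 : e2 ⬝ᵥ e1 = 0 := by rw [dotProduct_comm]; exact h12
  -- linear combination facts
  have hcomb : ∀ (x : Fin (k + 2) → ℝ) (p q : ℝ), x ⬝ᵥ (p • e1 + q • e2) = p * (x ⬝ᵥ e1) + q * (x ⬝ᵥ e2) := by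
    intro x p q
    rw [dotProduct_add, dotProduct_smul, dotProduct_smul, smul_eq_mul, smul_eq_mul]
  have hMcomb : ∀ p q : ℝ, p * a + q * b = 0 → p * c + q * d = 0 → p = 0 ∧ q = 0 := by
    intro p q h0 h1
    have hz : p • e1 + q • e2 = 0 := by
      apply hinj
      refine hext _ _ ?_ ?_ ?_
      · rw [hrow0, hcomb, ha, hb]; exact h0
      · rw [hrow1, hcomb, hc, hd]; exact h1
      · intro i
        rw [hrowR, hcomb, hR1, hR2]; simp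
    have hp : e1 ⬝ᵥ (p • e1 + q • e2) = p := by rw [hcomb, h11, h12]; ring
    have hq : e2 ⬝ᵥ (p • e1 + q • e2) = q := by rw [hcomb, h21, h22]; ring
    rw [hz, dotProduct_zero] at hp hq
    exact ⟨hp.symm, hq.symm⟩
  have hD : a * d - b * c ≠ 0 := by
    intro hD
    have h1 := hMcomb d (-c) (by linarith) (by ring)
    have hc0 : c = 0 := by linarith [h1.2]
    have hd0 : d = 0 := h1.1
    have h2 := hMcomb b (-a) (by ring) (by rw [hc0, hd0]; ring)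
    have h3 := hMcomb 1 0 (by linarith [h2.2]) (by rw [hc0]; ring)
    exact one_ne_zero h3.1
  have hcd : 0 < c ^ 2 + d ^ 2 := by
    rcases eq_or_ne c 0 with h | h
    · rcases eq_or_ne d 0 with h' | h'
      · exfalso; apply hD; rw [h, h']; ring
      · positivity
    · positivity
  set ρ : ℝ := √(c ^ 2 + d ^ 2) with hρ
  have hρ0 : 0 < ρ := Real.sqrt_pos.2 hcd
  have hρ2 : ρ * ρ = c ^ 2 + d ^ 2 := Real.mul_self_sqrt hcd.le
  set D : ℝ := a * d - b * c with hDdef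
  set w1 : Fin (k + 2) → ℝ := (d / ρ) • e1 + (-c / ρ) • e2 with hw1
  set w2 : Fin (k + 2) → ℝ := (c / ρ) • e1 + (d / ρ) • e2 with hw2
  have hcomb1 : ∀ (x : Fin (k + 2) → ℝ), x ⬝ᵥ w1 = (d / ρ) * (x ⬝ᵥ e1) + (-c / ρ) * (x ⬝ᵥ e2) := fun x => hcomb x _ _
  have hcomb2 : ∀ (x : Fin (k + 2) → ℝ), x ⬝ᵥ w2 = (c / ρ) * (x ⬝ᵥ e1) + (d / ρ) * (x ⬝ᵥ e2) := fun x => hcomb x _ _
  have hw11 : w1 ⬝ᵥ w1 = 1 := by
    rw [hcomb1, dotProduct_comm w1 e1, dotProduct_comm w1 e2, hcomb1, hcomb1, h11, h12, h21, h22]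
    field_simp
    nlinarith [hρ2]
  have hw22 : w2 ⬝ᵥ w2 = 1 := by
    rw [hcomb2, dotProduct_comm w2 e1, dotProduct_comm w2 e2, hcomb2, hcomb2, h11, h12, h21, h22]
    field_simp
    nlinarith [hρ2]
  have hw12 : w1 ⬝ᵥ w2 = 0 := by
    rw [hcomb2, dotProduct_comm w1 e1, dotProduct_comm w1 e2, hcomb1, hcomb1, h11, h12, h21, h22]
    field_simp
    ring
  have hX : g0 ⬝ᵥ w1 = D / ρ := by rw [hcomb1, ha, hb, hDdef]; ring
  have hX' : g0 ⬝ᵥ w2 = (a * c + b * d) / ρ := by rw [hcomb2, ha, hb]; ring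
  have hg1 : g1 ⬝ᵥ w1 = 0 := by rw [hcomb1, hc, hd]; ring
  have hg2 : g1 ⬝ᵥ w2 = ρ := by
    rw [hcomb2, hc, hd]
    field_simp
    nlinarith [hρ2]
  have hRw1 : ∀ i, R i ⬝ᵥ w1 = 0 := by intro i; rw [hcomb1, hR1, hR2]; ring
  have hRw2 : ∀ i, R i ⬝ᵥ w2 = 0 := by intro i; rw [hcomb2, hR1, hR2]; ring
  have h10 : (1 : Fin (k + 2)) ≠ 0 := by
    rw [← Fin.succ_zero_eq_one]; exact Fin.succ_ne_zero _
  have hss0 : ∀ i : Fin k, (i.succ.succ : Fin (k + 2)) ≠ 0 := fun i => Fin.succ_ne_zero _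
  have hss1 : ∀ i : Fin k, (i.succ.succ : Fin (k + 2)) ≠ 1 := by
    intro i h
    rw [← Fin.succ_zero_eq_one] at h
    exact Fin.succ_ne_zero _ (Fin.succ_injective _ h)
  set α : ℝ := N / (D / ρ) with hα
  set β : ℝ := (N * zb z - s * ((a * c + b * d) / ρ) / ρ) / (D / ρ) with hβ
  set cc : ℝ := s / ρ with hcc
  have hcc0 : 0 < cc := div_pos hs0 hρ0
  have hα0 : α ≠ 0 := div_ne_zero hN0.ne' (div_ne_zero hD hρ0.ne')
  have hv1 : M⁻¹ *ᵥ (Pi.single 0 N) = fun j => α * w1 j := by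
    apply hsolve
    have hfun : (fun j => α * w1 j) = α • w1 := rfl
    rw [hfun]
    refine hext _ _ ?_ ?_ ?_
    · rw [hrow0, dotProduct_smul, hX, Pi.single_eq_same, smul_eq_mul, hα]
      field_simp
    · rw [hrow1, dotProduct_smul, hg1, Pi.single_eq_of_ne h10, smul_zero]
    · intro i
      rw [hrowR, dotProduct_smul, hRw1, Pi.single_eq_of_ne (hss0 i), smul_zero]
  have hv2 : M⁻¹ *ᵥ (Pi.single 0 (N * zb z) + Pi.single 1 s) = fun j => β * w1 j + cc * w2 j := by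
    apply hsolve
    have hfun : (fun j => β * w1 j + cc * w2 j) = β • w1 + cc • w2 := rfl
    rw [hfun]
    refine hext _ _ ?_ ?_ ?_
    · rw [hrow0, dotProduct_add, dotProduct_smul, dotProduct_smul, hX, hX', Pi.add_apply, Pi.single_eq_same,
        Pi.single_eq_of_ne h10.symm, smul_eq_mul, smul_eq_mul, hβ, hcc]
      field_simp
      ring
    · rw [hrow1, dotProduct_add, dotProduct_smul, dotProduct_smul, hg1, hg2, Pi.add_apply, Pi.single_eq_same,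
        Pi.single_eq_of_ne h10, smul_eq_mul, smul_eq_mul, hcc]
      field_simp
      ring
    · intro i
      rw [hrowR, dotProduct_add, dotProduct_smul, dotProduct_smul, hRw1, hRw2, Pi.add_apply,
        Pi.single_eq_of_ne (hss0 i), Pi.single_eq_of_ne (hss1 i)]
      simp
  rw [hv1, hv2]
  have hmain := qq_lower (k + 2) w1 w2 hw11 hw22 hw12 α β cc hα0 hcc0
  refine le_trans (le_of_eq ?_) hmain
  have e1' : 1 / |α| = |D| / ρ / N := by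
    rw [hα, abs_div, abs_div, abs_of_pos hN0, abs_of_pos hρ0]
    have : |D| ≠ 0 := abs_ne_zero.2 hD
    field_simp
  have e2' : β / (α * cc) = -((a * c + b * d) / ρ / N - zb z * ρ / s) := by
    rw [hα, hβ, hcc]
    field_simp
    ring
  have e3' : 1 / cc = ρ / s := by
    rw [hcc]; field_simp
  rw [e1', e2', e3', om_neg]

theorem T2_fixed
    (law_pair : ∀ (n : ℕ) (w₁ w₂ : Fin n → ℝ), ∑ j, w₁ j * w₁ j = 1 →
      ∑ j, w₂ j * w₂ j = 1 → ∑ j, w₁ j * w₂ j = 0 →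
      MeasurePreserving (fun h : Fin n → ℝ => (∑ j, h j * w₁ j, ∑ j, h j * w₂ j)) (gam n)
        ((gaussianReal 0 1).prod (gaussianReal 0 1)))
    (qq_lower : ∀ (n : ℕ) (w₁ w₂ : Fin n → ℝ), ∑ j, w₁ j * w₁ j = 1 →
      ∑ j, w₂ j * w₂ j = 1 → ∑ j, w₁ j * w₂ j = 0 → ∀ (α β c : ℝ), α ≠ 0 → 0 < c →
      SS (1 / |α|) * om (β / (α * c)) (1 / c) ≤
        qq (fun j => α * w₁ j) (fun j => β * w₁ j + c * w₂ j))
    (planar_law : ∀ F : ℝ × ℝ × ℝ → ℝ≥0∞, Measurable F →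
      ∫⁻ Y0 : ℝ × ℝ, ∫⁻ Y1 : ℝ × ℝ,
        F (|Y0.1 * Y1.2 - Y0.2 * Y1.1| / √(Y1.1 ^ 2 + Y1.2 ^ 2),
          (Y0.1 * Y1.1 + Y0.2 * Y1.2) / √(Y1.1 ^ 2 + Y1.2 ^ 2), √(Y1.1 ^ 2 + Y1.2 ^ 2))
        ∂((gaussianReal 0 1).prod (gaussianReal 0 1)) ∂((gaussianReal 0 1).prod (gaussianReal 0 1)) =
      ∫⁻ x, ∫⁻ x', ∫⁻ p : ℝ × ℝ, F (|x|, x', √(p.1 ^ 2 + p.2 ^ 2))
        ∂((gaussianReal 0 1).prod (gaussianReal 0 1)) ∂(gaussianReal 0 1) ∂(gaussianReal 0 1))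
    (k m : ℕ) (z : Fin (k + 2) → ℝ) (hs : 0 < s2 z) (R : Fin k → Fin (k + 2) → ℝ) :
    J1 (k + 2) m * J2 m z ≤
      ∫⁻ g0 : Fin (k + 2) → ℝ, ∫⁻ g1 : Fin (k + 2) → ℝ,
        qq ((Matrix.of (Fin.cons g0 (Fin.cons g1 R) : Fin (k + 2) → Fin (k + 2) → ℝ))⁻¹ *ᵥ
              (Pi.single 0 (√((k + 2 : ℕ) : ℝ))))
           ((Matrix.of (Fin.cons g0 (Fin.cons g1 R) : Fin (k + 2) → Fin (k + 2) → ℝ))⁻¹ *ᵥ
              (Pi.single 0 (√((k + 2 : ℕ) : ℝ) * zb z) + Pi.single 1 (√(s2 z)))) ^ m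
        ∂(gam (k + 2)) ∂(gam (k + 2)) := by
  obtain ⟨e1, e2, h11, h22, h12, hR1, hR2⟩ := exists_pair k R
  have hlaw := law_pair (k + 2) e1 e2 h11 h22 h12
  set N : ℝ := √((k + 2 : ℕ) : ℝ) with hN
  set s : ℝ := √(s2 z) with hsdef
  let F : ℝ × ℝ × ℝ → ℝ≥0∞ := fun p =>
    (SS (p.1 / N) * om (p.2.1 / N - zb z * p.2.2 / s) (p.2.2 / s)) ^ m
  have hF : Measurable F := by
    refine Measurable.pow_const ?_ m
    refine (SS_meas.comp (by fun_prop)).mul ?_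
    have : Measurable (fun p : ℝ × ℝ × ℝ => ((p.2.1 / N - zb z * p.2.2 / s, p.2.2 / s) : ℝ × ℝ)) := by fun_prop
    exact om_meas.comp this
  let G : (ℝ × ℝ) × (ℝ × ℝ) → ℝ≥0∞ := fun q =>
    F (|q.1.1 * q.2.2 - q.1.2 * q.2.1| / √(q.2.1 ^ 2 + q.2.2 ^ 2),
          (q.1.1 * q.2.1 + q.1.2 * q.2.2) / √(q.2.1 ^ 2 + q.2.2 ^ 2), √(q.2.1 ^ 2 + q.2.2 ^ 2))
  have hG : Measurable G := by
    refine hF.comp ?_
    have h1 : Measurable (fun q : (ℝ × ℝ) × (ℝ × ℝ) => √(q.2.1 ^ 2 + q.2.2 ^ 2)) := by fun_prop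
    have h2 : Measurable (fun q : (ℝ × ℝ) × (ℝ × ℝ) => |q.1.1 * q.2.2 - q.1.2 * q.2.1|) := by
      have : Continuous (fun q : (ℝ × ℝ) × (ℝ × ℝ) => |q.1.1 * q.2.2 - q.1.2 * q.2.1|) := by fun_prop
      exact this.measurable
    have h3 : Measurable (fun q : (ℝ × ℝ) × (ℝ × ℝ) => q.1.1 * q.2.1 + q.1.2 * q.2.2) := by fun_prop
    exact (h2.div h1).prodMk ((h3.div h1).prodMk h1)
  have hstep : J1 (k + 2) m * J2 m z = ∫⁻ Y0 : ℝ × ℝ, ∫⁻ Y1 : ℝ × ℝ, G (Y0, Y1)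
      ∂((gaussianReal 0 1).prod (gaussianReal 0 1)) ∂((gaussianReal 0 1).prod (gaussianReal 0 1)) := by
    have hp := planar_law F hF
    show J1 (k + 2) m * J2 m z = ∫⁻ Y0 : ℝ × ℝ, ∫⁻ Y1 : ℝ × ℝ,
        F (|Y0.1 * Y1.2 - Y0.2 * Y1.1| / √(Y1.1 ^ 2 + Y1.2 ^ 2),
          (Y0.1 * Y1.1 + Y0.2 * Y1.2) / √(Y1.1 ^ 2 + Y1.2 ^ 2), √(Y1.1 ^ 2 + Y1.2 ^ 2))
        ∂((gaussianReal 0 1).prod (gaussianReal 0 1)) ∂((gaussianReal 0 1).prod (gaussianReal 0 1))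
    rw [hp]
    have hin : ∀ x : ℝ, (∫⁻ x', ∫⁻ p : ℝ × ℝ, F (|x|, x', √(p.1 ^ 2 + p.2 ^ 2))
        ∂((gaussianReal 0 1).prod (gaussianReal 0 1)) ∂(gaussianReal 0 1)) = SS (|x| / N) ^ m * J2 m z := by
      intro x
      unfold J2
      have hb : ∀ x' : ℝ, (∫⁻ p : ℝ × ℝ, F (|x|, x', √(p.1 ^ 2 + p.2 ^ 2))
        ∂((gaussianReal 0 1).prod (gaussianReal 0 1))) = SS (|x| / N) ^ m * ∫⁻ p : ℝ × ℝ,
          om (x' / √((k + 2 : ℕ) : ℝ) - zb z * √(p.1 ^ 2 + p.2 ^ 2) / √(s2 z)) (√(p.1 ^ 2 + p.2 ^ 2) / √(s2 z)) ^ m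
          ∂((gaussianReal 0 1).prod (gaussianReal 0 1)) := by
        intro x'
        rw [← lintegral_const_mul]
        · refine lintegral_congr fun p => ?_
          show (SS (|x| / N) * om (x' / N - zb z * √(p.1 ^ 2 + p.2 ^ 2) / s) (√(p.1 ^ 2 + p.2 ^ 2) / s)) ^ m = _
          rw [mul_pow]
        · refine Measurable.pow_const ?_ m
          have : Measurable (fun p : ℝ × ℝ => ((x' / √((k + 2 : ℕ) : ℝ) - zb z * √(p.1 ^ 2 + p.2 ^ 2) / √(s2 z),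
            √(p.1 ^ 2 + p.2 ^ 2) / √(s2 z)) : ℝ × ℝ)) := by fun_prop
          exact om_meas.comp this
      rw [lintegral_congr hb, lintegral_const_mul]
      have hmm : Measurable (fun q : ℝ × (ℝ × ℝ) =>
          om (q.1 / √((k + 2 : ℕ) : ℝ) - zb z * √(q.2.1 ^ 2 + q.2.2 ^ 2) / √(s2 z)) (√(q.2.1 ^ 2 + q.2.2 ^ 2) / √(s2 z)) ^ m) := by
        refine Measurable.pow_const ?_ m
        have : Measurable (fun q : ℝ × (ℝ × ℝ) => ((q.1 / √((k + 2 : ℕ) : ℝ) - zb z * √(q.2.1 ^ 2 + q.2.2 ^ 2) / √(s2 z),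
            √(q.2.1 ^ 2 + q.2.2 ^ 2) / √(s2 z)) : ℝ × ℝ)) := by fun_prop
        exact om_meas.comp this
      exact hmm.lintegral_prod_right'
    rw [lintegral_congr hin, lintegral_mul_const]
    · rfl
    · refine Measurable.pow_const ?_ m
      exact SS_meas.comp (by fun_prop)
  rw [hstep]
  have hY : Measurable (fun h : Fin (k + 2) → ℝ => (∑ j, h j * e1 j, ∑ j, h j * e2 j)) := hlaw.measurable
  have hGi : ∀ Y0 : ℝ × ℝ, Measurable (fun Y1 => G (Y0, Y1)) := fun Y0 => hG.comp measurable_prodMk_left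
  have hGo : Measurable (fun Y0 : ℝ × ℝ => ∫⁻ Y1 : ℝ × ℝ, G (Y0, Y1) ∂((gaussianReal 0 1).prod (gaussianReal 0 1))) :=
    hG.lintegral_prod_right'
  rw [← hlaw.lintegral_comp hGo]
  refine lintegral_mono fun g0 => ?_
  show (∫⁻ Y1 : ℝ × ℝ, G ((∑ j, g0 j * e1 j, ∑ j, g0 j * e2 j), Y1) ∂((gaussianReal 0 1).prod (gaussianReal 0 1))) ≤ _
  rw [← hlaw.lintegral_comp (hGi _)]
  refine lintegral_mono fun g1 => ?_
  have hpt := pointwise qq_lower z hs R e1 e2 h11 h22 h12 hR1 hR2 g0 g1 _ _ _ _ rfl rfl rfl rfl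
  exact pow_le_pow_left' hpt m


end Pool.Agent.VP.B5a
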