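import Pool.Agent.VP.Defs

set_option autoImplicit false
open MeasureTheory ProbabilityTheory
open scoped ENNReal Matrix

namespace Pool.Agent.VP.C1

open Pool.Agent.VP



theorem c1_core (a b : ℝ) (hb : 0 ≤ b) :
    √(2 / Real.pi) * b * Real.exp (-(a ^ 2 + b ^ 2 / 3) / 2)
      ≤ ∫ x in (a - b)..(a + b), gaussianPDFReal 0 1 x := by
  have hle : a - b ≤ a + b := by linarith
  have hpi := Real.pi_pos
  have hconst : √(2 / Real.pi) = 2 * (√(2 * Real.pi * 1))⁻¹ := by
    rw [mul_one, Real.sqrt_div' _ hpi.le, Real.sqrt_mul' _ hpi.le]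
    have h2 : √2 * √2 = 2 := Real.mul_self_sqrt (by norm_num)
    have h3 : √(2:ℝ) ≠ 0 := by positivity
    have h4 : √Real.pi ≠ 0 := by positivity
    field_simp
    nlinarith
  set μ : ℝ := (a ^ 2 + b ^ 2 / 3) / 2 with hμ
  set c : ℝ := (√(2 * Real.pi * 1))⁻¹ with hc
  have hc0 : 0 ≤ c := by positivity
  have hpt : ∀ x ∈ Set.Icc (a - b) (a + b),
      c * Real.exp (-μ) * (1 + μ - x ^ 2 / 2) ≤ gaussianPDFReal 0 1 x := by
    intro x _
    have h1 : gaussianPDFReal 0 1 x = c * Real.exp (-(x ^ 2 / 2)) := by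
      unfold gaussianPDFReal
      simp only [NNReal.coe_one, sub_zero, hc]
      congr 2
      ring
    rw [h1]
    have h2 : Real.exp (-(x ^ 2 / 2)) = Real.exp (-μ) * Real.exp (μ - x ^ 2 / 2) := by
      rw [← Real.exp_add]; congr 1; ring
    rw [h2, mul_assoc]
    apply mul_le_mul_of_nonneg_left _ hc0
    apply mul_le_mul_of_nonneg_left _ (Real.exp_pos _).le
    have := Real.add_one_le_exp (μ - x ^ 2 / 2)
    linarith
  have hint1 : IntervalIntegrable (fun x : ℝ => c * Real.exp (-μ) * (1 + μ - x ^ 2 / 2)) volume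
      (a - b) (a + b) := by
    apply Continuous.intervalIntegrable
    fun_prop
  have hint2 : IntervalIntegrable (fun x : ℝ => gaussianPDFReal 0 1 x) volume (a - b) (a + b) :=
    (integrable_gaussianPDFReal 0 1).intervalIntegrable
  have hmono := intervalIntegral.integral_mono_on hle hint1 hint2 hpt
  have hval : ∫ x in (a - b)..(a + b), c * Real.exp (-μ) * (1 + μ - x ^ 2 / 2)
      = c * Real.exp (-μ) * (2 * b) := by
    rw [intervalIntegral.integral_const_mul, intervalIntegral.integral_sub (by simp)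
      (by apply Continuous.intervalIntegrable; fun_prop), intervalIntegral.integral_const,
      intervalIntegral.integral_div, integral_pow]
    rw [hμ]
    simp only [smul_eq_mul]
    push_cast
    ring
  rw [hval] at hmono
  calc √(2 / Real.pi) * b * Real.exp (-(a ^ 2 + b ^ 2 / 3) / 2)
      = c * Real.exp (-μ) * (2 * b) := by
        rw [hconst, hμ]
        have : -(a ^ 2 + b ^ 2 / 3) / 2 = -((a ^ 2 + b ^ 2 / 3) / 2) := by ring
        rw [this]; ring
    _ ≤ _ := hmono

theorem om_lower (a b : ℝ) (hb : 0 ≤ b) :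
    ENNReal.ofReal (√(2 / Real.pi) * b * Real.exp (-(a ^ 2 + b ^ 2 / 3) / 2)) ≤ om a b := by
  unfold om
  have hset : {t : ℝ | |t - a| ≤ b} = Set.Icc (a - b) (a + b) := by
    ext t
    simp only [Set.mem_setOf_eq, Set.mem_Icc, abs_le]
    constructor
    · rintro ⟨h1, h2⟩; constructor <;> linarith
    · rintro ⟨h1, h2⟩; constructor <;> linarith
  rw [hset, gaussianReal_apply_eq_integral 0 one_ne_zero, integral_Icc_eq_integral_Ioc,
    ← intervalIntegral.integral_of_le (by linarith)]
  exact ENNReal.ofReal_le_ofReal (c1_core a b hb)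

theorem SS_lower (x : ℝ) (hx : 0 ≤ x) :
    ENNReal.ofReal (√(2 / Real.pi) * x * Real.exp (-x ^ 2 / 6)) ≤ SS x := by
  unfold SS
  have hset : {t : ℝ | |t| < x} = Set.Ioo (0 - x) (0 + x) := by
    ext t
    simp only [Set.mem_setOf_eq, Set.mem_Ioo, abs_lt]
    constructor
    · rintro ⟨h1, h2⟩; constructor <;> linarith
    · rintro ⟨h1, h2⟩; constructor <;> linarith
  rw [hset, gaussianReal_apply_eq_integral 0 one_ne_zero, ← integral_Ioc_eq_integral_Ioo,
    ← intervalIntegral.integral_of_le (by linarith)]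
  refine ENNReal.ofReal_le_ofReal (le_trans (le_of_eq ?_) (c1_core 0 x hx))
  congr 2
  ring


end Pool.Agent.VP.C1
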