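import Pool.Agent.VP.Defs

set_option autoImplicit false
open MeasureTheory ProbabilityTheory
open scoped ENNReal Matrix

namespace Pool.Agent.VP.C2

open Pool.Agent.VP



theorem J1_lower
    (SS_lower : ∀ x : ℝ, 0 ≤ x →
      ENNReal.ofReal (√(2 / Real.pi) * x * Real.exp (-x ^ 2 / 6)) ≤ SS x)
    (n m : ℕ) (hn : 1 ≤ n) :
    ENNReal.ofReal ((√(2 / (Real.pi * n))) ^ m * (√2) ^ m * Real.Gamma (((m : ℝ) + 1) / 2) / √Real.pi /
      (√(1 + (m : ℝ) / (3 * n))) ^ (m + 1)) ≤ J1 n m := by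
  have hn0 : (0:ℝ) < n := by exact_mod_cast hn
  have hκ0 : 0 < 1 + (m : ℝ) / (3 * n) := by positivity
  have ha : √(2 / (Real.pi * n)) = √(2 / Real.pi) / √(n:ℝ) := by
    rw [← Real.sqrt_div (by positivity), div_div]
  have h1 : ∀ x : ℝ, ENNReal.ofReal ((√(2 / (Real.pi * n))) ^ m * |x| ^ m *
      Real.exp (-(m : ℝ) * x ^ 2 / (6 * n))) ≤ SS (|x| / √(n:ℝ)) ^ m := by
    intro x
    have h := SS_lower (|x| / √(n:ℝ)) (by positivity)
    calc ENNReal.ofReal ((√(2 / (Real.pi * n))) ^ m * |x| ^ m *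
          Real.exp (-(m : ℝ) * x ^ 2 / (6 * n)))
        = ENNReal.ofReal ((√(2 / Real.pi) * (|x| / √(n:ℝ)) *
            Real.exp (-(|x| / √(n:ℝ)) ^ 2 / 6)) ^ m) := by
          congr 1
          rw [mul_pow, mul_pow, ← Real.exp_nat_mul, ha, div_pow, div_pow, div_pow,
            Real.sq_sqrt hn0.le, sq_abs]
          have e : -(m : ℝ) * x ^ 2 / (6 * n) = (m : ℝ) * (-(x ^ 2 / n) / 6) := by
            field_simp
          rw [e]
          ring
      _ = (ENNReal.ofReal (√(2 / Real.pi) * (|x| / √(n:ℝ)) *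
            Real.exp (-(|x| / √(n:ℝ)) ^ 2 / 6))) ^ m := ENNReal.ofReal_pow (by positivity) _
      _ ≤ _ := pow_le_pow_left' h m
  have h2 : ∫⁻ x, ENNReal.ofReal ((√(2 / (Real.pi * n))) ^ m * |x| ^ m *
      Real.exp (-(m : ℝ) * x ^ 2 / (6 * n))) ∂(gaussianReal 0 1) ≤ J1 n m := by
    unfold J1
    exact lintegral_mono h1
  refine le_trans (le_of_eq ?_) h2
  have hmeas : Measurable (fun x : ℝ => ENNReal.ofReal ((√(2 / (Real.pi * n))) ^ m * |x| ^ m *
      Real.exp (-(m : ℝ) * x ^ 2 / (6 * n)))) := by fun_prop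
  rw [gaussianReal_of_var_ne_zero 0 one_ne_zero,
    lintegral_withDensity_eq_lintegral_mul _ (measurable_gaussianPDF 0 1) hmeas]
  set b : ℝ := (1 + (m : ℝ) / (3 * n)) / 2 with hb
  have hb0 : 0 < b := by positivity
  have h3 : ∀ x : ℝ, (gaussianPDF 0 1 * fun x : ℝ => ENNReal.ofReal ((√(2 / (Real.pi * n))) ^ m * |x| ^ m *
      Real.exp (-(m : ℝ) * x ^ 2 / (6 * n)))) x =
      ENNReal.ofReal (((√(2 * Real.pi))⁻¹ * (√(2 / (Real.pi * n))) ^ m) *
        (|x| ^ (m : ℝ) * Real.exp (-b * |x| ^ (2 : ℝ)))) := by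
    intro x
    simp only [Pi.mul_apply, gaussianPDF]
    rw [← ENNReal.ofReal_mul (gaussianPDFReal_nonneg 0 1 x)]
    congr 1
    rw [gaussianPDFReal]
    simp only [NNReal.coe_one, mul_one, sub_zero, Real.rpow_natCast, Real.rpow_two, sq_abs]
    have e : Real.exp (-b * x ^ 2) = Real.exp (-x ^ 2 / 2) * Real.exp (-(m : ℝ) * x ^ 2 / (6 * n)) := by
      rw [← Real.exp_add]
      congr 1
      rw [hb]
      field_simp
      ring
    rw [e]
    ring
  simp_rw [h3]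
  have hint : Integrable (fun x : ℝ => ((√(2 * Real.pi))⁻¹ * (√(2 / (Real.pi * n))) ^ m) *
        (|x| ^ (m : ℝ) * Real.exp (-b * |x| ^ (2 : ℝ)))) := by
    apply Integrable.const_mul
    have h := (integrable_rpow_mul_exp_neg_mul_sq hb0 (s := (m : ℝ))
      (by have : (0:ℝ) ≤ m := by positivity
          linarith)).norm
    refine h.congr (Filter.Eventually.of_forall fun x => ?_)
    simp only [Real.rpow_natCast, Real.rpow_two, sq_abs, norm_mul, norm_pow, Real.norm_eq_abs,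
      Real.abs_exp]
  rw [← ofReal_integral_eq_lintegral_ofReal hint (Filter.Eventually.of_forall fun x => by positivity)]
  congr 1
  rw [integral_const_mul]
  have h4 : ∫ x : ℝ, |x| ^ (m : ℝ) * Real.exp (-b * |x| ^ (2 : ℝ)) =
      2 * (b ^ (-((m : ℝ) + 1) / 2) * (1 / 2) * Real.Gamma (((m : ℝ) + 1) / 2)) := by
    rw [integral_comp_abs (f := fun x : ℝ => x ^ (m : ℝ) * Real.exp (-b * x ^ (2 : ℝ)))]
    rw [integral_rpow_mul_exp_neg_mul_rpow (by norm_num) (by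
      have : (0:ℝ) ≤ m := by positivity
      linarith) hb0]
  rw [h4]
  have h5 : b ^ (-((m : ℝ) + 1) / 2) = (√2) ^ (m + 1) / (√(1 + (m : ℝ) / (3 * n))) ^ (m + 1) := by
    have e1 : b ^ (-((m : ℝ) + 1) / 2) = ((√b) ^ (m + 1))⁻¹ := by
      rw [Real.sqrt_eq_rpow, ← Real.rpow_natCast, ← Real.rpow_mul hb0.le, ← Real.rpow_neg hb0.le]
      congr 1
      push_cast
      ring
    rw [e1, hb, Real.sqrt_div hκ0.le, div_pow, inv_div]
  rw [h5, Real.sqrt_mul (by norm_num)]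
  have hs2 : √(2:ℝ) ≠ 0 := by positivity
  have hsp : √Real.pi ≠ 0 := by positivity
  have hsk : √(1 + (m : ℝ) / (3 * n)) ≠ 0 := by positivity
  field_simp
  ring


end Pool.Agent.VP.C2
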