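import Pool.Agent.VP.Defs

set_option autoImplicit false
open MeasureTheory ProbabilityTheory
open scoped ENNReal Matrix

namespace Pool.Agent.VP.C3

open Pool.Agent.VP




theorem dens (x : ℝ) :
    gaussianPDF 0 1 x = ENNReal.ofReal ((√(2 * Real.pi))⁻¹ * Real.exp (-x ^ 2 / 2)) := by
  rw [gaussianPDF, gaussianPDFReal]
  simp

theorem radial (h : ℝ → ℝ≥0∞) (hh : Measurable h) :
    ∫⁻ p : ℝ × ℝ, h (√(p.1 ^ 2 + p.2 ^ 2)) ∂((gaussianReal 0 1).prod (gaussianReal 0 1)) =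
      ∫⁻ r in Set.Ioi (0 : ℝ), ENNReal.ofReal (r * Real.exp (-r ^ 2 / 2)) * h r := by
  have hpdf : Measurable (gaussianPDF 0 1) := measurable_gaussianPDF 0 1
  have hm1 : Measurable (fun z : ℝ × ℝ => gaussianPDF 0 1 z.1 * gaussianPDF 0 1 z.2) :=
    (hpdf.comp measurable_fst).mul (hpdf.comp measurable_snd)
  have hm2 : Measurable (fun p : ℝ × ℝ => h (√(p.1 ^ 2 + p.2 ^ 2))) :=
    hh.comp (by fun_prop)
  rw [gaussianReal_of_var_ne_zero 0 one_ne_zero, prod_withDensity hpdf hpdf,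
    lintegral_withDensity_eq_lintegral_mul _ hm1 hm2, ← Measure.volume_eq_prod,
    ← lintegral_comp_polarCoord_symm, polarCoord_target, Measure.volume_eq_prod,
    setLIntegral_prod]
  · apply setLIntegral_congr_fun measurableSet_Ioi
    intro r hr
    have hr0 : 0 < r := hr
    have e1 : ∀ θ : ℝ, ENNReal.ofReal r • ((fun z : ℝ × ℝ => gaussianPDF 0 1 z.1 *
        gaussianPDF 0 1 z.2) * fun p : ℝ × ℝ => h (√(p.1 ^ 2 + p.2 ^ 2)))
        (polarCoord.symm (r, θ)) =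
        ENNReal.ofReal ((2 * Real.pi)⁻¹ * (r * Real.exp (-r ^ 2 / 2))) * h r := by
      intro θ
      rw [polarCoord_symm_apply]
      simp only [Pi.mul_apply, smul_eq_mul]
      have e2 : (r * Real.cos θ) ^ 2 + (r * Real.sin θ) ^ 2 = r ^ 2 := by
        have := Real.sin_sq_add_cos_sq θ
        linear_combination r ^ 2 * this
      rw [e2, Real.sqrt_sq hr0.le, dens, dens, ← mul_assoc, ← ENNReal.ofReal_mul (by positivity),
        ← ENNReal.ofReal_mul hr0.le]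
      congr 2
      have e3 : Real.exp (-(r * Real.cos θ) ^ 2 / 2) * Real.exp (-(r * Real.sin θ) ^ 2 / 2) =
          Real.exp (-r ^ 2 / 2) := by
        rw [← Real.exp_add]
        congr 1
        linear_combination (-1 / 2) * e2
      have e4 : (√(2 * Real.pi))⁻¹ * (√(2 * Real.pi))⁻¹ = (2 * Real.pi)⁻¹ := by
        rw [← mul_inv, Real.mul_self_sqrt (by positivity)]
      calc r * ((√(2 * Real.pi))⁻¹ * Real.exp (-(r * Real.cos θ) ^ 2 / 2) *
            ((√(2 * Real.pi))⁻¹ * Real.exp (-(r * Real.sin θ) ^ 2 / 2))) =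
            r * (((√(2 * Real.pi))⁻¹ * (√(2 * Real.pi))⁻¹) *
              (Real.exp (-(r * Real.cos θ) ^ 2 / 2) * Real.exp (-(r * Real.sin θ) ^ 2 / 2))) := by
              ring
        _ = _ := by
              rw [e3, e4]
              ring
    simp only [e1]
    rw [setLIntegral_const, Real.volume_Ioo]
    rw [mul_comm, ← mul_assoc, ← ENNReal.ofReal_mul (by linarith [Real.pi_pos])]
    congr 2
    field_simp
    ring
  · apply Measurable.aemeasurable
    exact (ENNReal.measurable_ofReal.comp measurable_fst).mul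
      ((hm1.mul hm2).comp continuous_polarCoord_symm.measurable)

theorem inner_gauss (n m : ℕ) (hn : 2 ≤ n) (c : ℝ) :
    ∫⁻ x, ENNReal.ofReal (Real.exp (-((m : ℝ) / 2 * (x / √(n : ℝ) - c) ^ 2)))
      ∂(gaussianReal 0 1) =
    ENNReal.ofReal (√((n : ℝ) / (n + m)) *
      Real.exp (-((m : ℝ) * n * c ^ 2 / (2 * (n + m))))) := by
  have hn0 : (0 : ℝ) < n := by
    have : 0 < n := by omega
    positivity
  have hm0 : (0 : ℝ) ≤ m := by positivity
  have hsn : √(n : ℝ) ≠ 0 := (Real.sqrt_pos.2 hn0).ne'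
  have hsq : √(n : ℝ) ^ 2 = n := Real.sq_sqrt hn0.le
  rw [gaussianReal_of_var_ne_zero 0 one_ne_zero,
    lintegral_withDensity_eq_lintegral_mul _ (measurable_gaussianPDF 0 1) (by fun_prop)]
  set A : ℝ := ((n : ℝ) + m) / n with hA
  have hA0 : 0 < A := by positivity
  set μ : ℝ := m * c * √(n : ℝ) / (n + m) with hμ
  have e1 : ∀ x : ℝ, (gaussianPDF 0 1 * fun x => ENNReal.ofReal
      (Real.exp (-((m : ℝ) / 2 * (x / √(n : ℝ) - c) ^ 2)))) x =
      ENNReal.ofReal (((√(2 * Real.pi))⁻¹ * Real.exp (-((m : ℝ) * n * c ^ 2 / (2 * (n + m))))) *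
        Real.exp (-(A / 2) * (x - μ) ^ 2)) := by
    intro x
    rw [Pi.mul_apply, dens, ← ENNReal.ofReal_mul (by positivity)]
    congr 1
    rw [mul_assoc, mul_assoc, ← Real.exp_add, ← Real.exp_add]
    congr 2
    have hs3 : (x / √(n : ℝ)) = x * √(n : ℝ) / n := by
      rw [div_eq_div_iff hsn hn0.ne', mul_assoc, ← sq, hsq]
    rw [hs3, hA, hμ]
    field_simp
    linear_combination (-(x ^ 2 * m * (n + m)) + c ^ 2 * m ^ 2 * n) * hsq
  rw [lintegral_congr e1, ← ofReal_integral_eq_lintegral_ofReal]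
  · congr 1
    rw [integral_const_mul, integral_sub_right_eq_self (fun x => Real.exp (-(A / 2) * x ^ 2)),
      integral_gaussian]
    have e2 : (√(2 * Real.pi))⁻¹ * √(Real.pi / (A / 2)) = √((n : ℝ) / (n + m)) := by
      rw [← Real.sqrt_inv, ← Real.sqrt_mul (by positivity)]
      congr 1
      rw [hA]
      field_simp
    rw [← e2]
    ring
  · apply Integrable.const_mul
    exact (integrable_exp_neg_mul_sq (by positivity : 0 < A / 2)).comp_sub_right μ
  · exact Filter.Eventually.of_forall (fun x => by positivity)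

theorem J2_lower
    (om_lower : ∀ a b : ℝ, 0 ≤ b →
      ENNReal.ofReal (√(2 / Real.pi) * b * Real.exp (-(a ^ 2 + b ^ 2 / 3) / 2)) ≤ om a b)
    (n m : ℕ) (hn : 2 ≤ n) (z : Fin n → ℝ) (hs : 0 < s2 z) :
    ENNReal.ofReal ((√(4 / Real.pi)) ^ m * √((n : ℝ) / (n + m)) * Real.Gamma ((m : ℝ) / 2 + 1) *
      s2 z / (√(s2 z + m / 3 + m * n * zb z ^ 2 / (n + m))) ^ (m + 2)) ≤ J2 m z := by
  have hn0 : (0 : ℝ) < n := by
    have : 0 < n := by omega
    positivity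
  set s := √(s2 z) with hsdef
  have hs0 : 0 < s := Real.sqrt_pos.2 hs
  have hss : s ^ 2 = s2 z := Real.sq_sqrt hs.le
  set c0 := zb z with hc0
  set D : ℝ := s2 z + m / 3 + m * n * c0 ^ 2 / (n + m) with hD
  have hD0 : 0 < D := by positivity
  -- pointwise bound
  have hpt : ∀ (x : ℝ) (p : ℝ × ℝ),
      ENNReal.ofReal ((√(2 / Real.pi) * (√(p.1 ^ 2 + p.2 ^ 2) / s)) ^ m *
        Real.exp (-((m : ℝ) * (√(p.1 ^ 2 + p.2 ^ 2) / s) ^ 2 / 6))) *
      ENNReal.ofReal (Real.exp (-((m : ℝ) / 2 *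
        (x / √(n : ℝ) - c0 * √(p.1 ^ 2 + p.2 ^ 2) / s) ^ 2))) ≤
      om (x / √(n : ℝ) - c0 * √(p.1 ^ 2 + p.2 ^ 2) / s) (√(p.1 ^ 2 + p.2 ^ 2) / s) ^ m := by
    intro x p
    refine le_trans (le_of_eq ?_) (pow_le_pow_left'
      (om_lower _ (√(p.1 ^ 2 + p.2 ^ 2) / s) (by positivity)) m)
    have e1 : ∀ K E : ℝ, (K * Real.exp E) ^ m = K ^ m * Real.exp (m * E) := by
      intro K E
      rw [mul_pow, ← Real.exp_nat_mul]
    rw [← ENNReal.ofReal_mul (by positivity), ← ENNReal.ofReal_pow (by positivity), e1,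
      mul_assoc, ← Real.exp_add]
    congr 3
    ring
  have hmeas : Measurable (Function.uncurry (fun (x : ℝ) (p : ℝ × ℝ) =>
      ENNReal.ofReal ((√(2 / Real.pi) * (√(p.1 ^ 2 + p.2 ^ 2) / s)) ^ m *
        Real.exp (-((m : ℝ) * (√(p.1 ^ 2 + p.2 ^ 2) / s) ^ 2 / 6))) *
      ENNReal.ofReal (Real.exp (-((m : ℝ) / 2 *
        (x / √(n : ℝ) - c0 * √(p.1 ^ 2 + p.2 ^ 2) / s) ^ 2))))) := by
    unfold Function.uncurry
    fun_prop
  have hJ : J2 m z ≥ ∫⁻ x, ∫⁻ p : ℝ × ℝ,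
      ENNReal.ofReal ((√(2 / Real.pi) * (√(p.1 ^ 2 + p.2 ^ 2) / s)) ^ m *
        Real.exp (-((m : ℝ) * (√(p.1 ^ 2 + p.2 ^ 2) / s) ^ 2 / 6))) *
      ENNReal.ofReal (Real.exp (-((m : ℝ) / 2 *
        (x / √(n : ℝ) - c0 * √(p.1 ^ 2 + p.2 ^ 2) / s) ^ 2)))
      ∂((gaussianReal 0 1).prod (gaussianReal 0 1)) ∂(gaussianReal 0 1) :=
    lintegral_mono (fun x => lintegral_mono (fun p => hpt x p))
  refine le_trans (le_of_eq ?_) hJ
  rw [lintegral_lintegral_swap hmeas.aemeasurable]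
  let hf : ℝ → ℝ≥0∞ := fun ρ : ℝ => ENNReal.ofReal ((√(2 / Real.pi) * (ρ / s)) ^ m *
        Real.exp (-((m : ℝ) * (ρ / s) ^ 2 / 6))) * ENNReal.ofReal (√((n : ℝ) / (n + m)) *
      Real.exp (-((m : ℝ) * n * (c0 * ρ / s) ^ 2 / (2 * (n + m)))))
  have hin : ∀ p : ℝ × ℝ, ∫⁻ x, ENNReal.ofReal ((√(2 / Real.pi) * (√(p.1 ^ 2 + p.2 ^ 2) / s)) ^ m *
        Real.exp (-((m : ℝ) * (√(p.1 ^ 2 + p.2 ^ 2) / s) ^ 2 / 6))) *
      ENNReal.ofReal (Real.exp (-((m : ℝ) / 2 *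
        (x / √(n : ℝ) - c0 * √(p.1 ^ 2 + p.2 ^ 2) / s) ^ 2))) ∂(gaussianReal 0 1) =
      hf (√(p.1 ^ 2 + p.2 ^ 2)) := by
    intro p
    rw [lintegral_const_mul' _ _ ENNReal.ofReal_ne_top, inner_gauss n m hn]
  rw [lintegral_congr hin, radial hf (by fun_prop)]
  set B : ℝ := D / (2 * s ^ 2) with hB
  have hB0 : 0 < B := by positivity
  set C : ℝ := √((n : ℝ) / (n + m)) * (√(2 / Real.pi) / s) ^ m with hC
  have hC0 : 0 ≤ C := by positivity
  have hlast : ∀ r ∈ Set.Ioi (0 : ℝ), ENNReal.ofReal (r * Real.exp (-r ^ 2 / 2)) *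
      (ENNReal.ofReal ((√(2 / Real.pi) * (r / s)) ^ m *
        Real.exp (-((m : ℝ) * (r / s) ^ 2 / 6))) * ENNReal.ofReal (√((n : ℝ) / (n + m)) *
      Real.exp (-((m : ℝ) * n * (c0 * r / s) ^ 2 / (2 * (n + m)))))) =
      ENNReal.ofReal (C * (r ^ ((m : ℝ) + 1) * Real.exp (-B * r ^ (2 : ℝ)))) := by
    intro r hr
    have hr0 : (0 : ℝ) < r := hr
    rw [← ENNReal.ofReal_mul (by positivity), ← ENNReal.ofReal_mul (by positivity)]
    congr 1
    have e1 : r ^ ((m : ℝ) + 1) = r ^ (m + 1) := by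
      rw [← Real.rpow_natCast]
      push_cast
      rfl
    have e2 : r ^ (2 : ℝ) = r ^ 2 := Real.rpow_two r
    rw [e1, e2]
    have e3 : Real.exp (-r ^ 2 / 2) * (Real.exp (-((m : ℝ) * (r / s) ^ 2 / 6)) *
        Real.exp (-((m : ℝ) * n * (c0 * r / s) ^ 2 / (2 * (n + m))))) =
        Real.exp (-B * r ^ 2) := by
      rw [← Real.exp_add, ← Real.exp_add]
      congr 1
      rw [hB, hD, ← hss]
      have : (n : ℝ) + m ≠ 0 := by positivity
      field_simp
      ring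
    rw [← e3, hC]
    have e4 : (√(2 / Real.pi) * (r / s)) ^ m = (√(2 / Real.pi) / s) ^ m * r ^ m := by
      rw [← mul_pow]
      congr 1
      ring
    rw [e4, pow_succ]
    ring
  rw [setLIntegral_congr_fun measurableSet_Ioi hlast, ← ofReal_integral_eq_lintegral_ofReal]
  · congr 1
    rw [integral_const_mul, integral_rpow_mul_exp_neg_mul_rpow two_pos
      (by have : (0 : ℝ) ≤ m := by positivity
          linarith) hB0]
    have e1 : ((m : ℝ) + 1 + 1) / 2 = (m : ℝ) / 2 + 1 := by ring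
    have e2 : B ^ (-((m : ℝ) + 1 + 1) / 2) = ((√B) ^ (m + 2))⁻¹ := by
      rw [← Real.rpow_natCast, Real.sqrt_eq_rpow, ← Real.rpow_mul hB0.le, ← Real.rpow_neg hB0.le]
      congr 1
      push_cast
      ring
    have e3 : √B = √D / (√2 * s) := by
      rw [hB, Real.sqrt_div hD0.le, Real.sqrt_mul zero_le_two, Real.sqrt_sq hs0.le]
    have e4 : √(4 / Real.pi) = √(2 / Real.pi) * √2 := by
      rw [← Real.sqrt_mul (by positivity)]
      congr 1
      ring
    have e5 : (√2) ^ 2 = (2 : ℝ) := Real.sq_sqrt zero_le_two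
    rw [e1, e2, e3, e4, hC, ← hss]
    have hsD : √D ≠ 0 := (Real.sqrt_pos.2 hD0).ne'
    have h2 : √(2 : ℝ) ≠ 0 := (Real.sqrt_pos.2 two_pos).ne'
    rw [div_pow (√(2 / Real.pi)) s, mul_pow (√(2 / Real.pi)) (√2), div_pow (√D), mul_pow (√2) s, pow_add (√2) m 2, e5, pow_add s m 2]
    field_simp
  · apply Integrable.const_mul
    have h1 : (-1 : ℝ) < (m : ℝ) + 1 := by
      have : (0 : ℝ) ≤ m := by positivity
      linarith
    exact integrableOn_rpow_mul_exp_neg_mul_rpow h1 two_pos hB0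
  · refine (ae_restrict_mem measurableSet_Ioi).mono (fun r hr => ?_)
    have hr0 : (0 : ℝ) < r := hr
    show 0 ≤ C * (r ^ ((m : ℝ) + 1) * Real.exp (-B * r ^ (2 : ℝ)))
    positivity


end Pool.Agent.VP.C3
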