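import Pool.Agent.VP.Defs

set_option autoImplicit false
open MeasureTheory ProbabilityTheory
open scoped ENNReal Matrix

namespace Pool.Agent.VP.C4

open Pool.Agent.VP



/-- the cube measure -/
noncomputable abbrev j6550_cube (n : ℕ) : Measure (Fin n → ℝ) :=
  volume.restrict (Set.pi Set.univ (fun _ : Fin n => Set.Icc (-1 : ℝ) 1))

theorem j6550_mom (k : ℕ) :
    ∫ x, x ^ k ∂((volume : Measure ℝ).restrict (Set.Icc (-1 : ℝ) 1)) =
      2 * ((1 - (-1 : ℝ) ^ (k + 1)) / (2 * (k + 1))) := by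
  rw [integral_Icc_eq_integral_Ioc, ← intervalIntegral.integral_of_le (by norm_num), integral_pow]
  have : (k : ℝ) + 1 ≠ 0 := by positivity
  field_simp
  simp

theorem j6550_prod {n : ℕ} (e : Fin n → ℕ) :
    ∫ z, ∏ l, z l ^ e l ∂(j6550_cube n) =
      2 ^ n * ∏ l, ((1 - (-1 : ℝ) ^ (e l + 1)) / (2 * (e l + 1))) := by
  have h1 : j6550_cube n = Measure.pi
      (fun _ : Fin n => (volume : Measure ℝ).restrict (Set.Icc (-1 : ℝ) 1)) := by
    unfold j6550_cube
    rw [volume_pi, Measure.restrict_pi_pi]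
  rw [h1, integral_fintype_prod_eq_prod (fun l (x : ℝ) => x ^ e l)]
  simp_rw [j6550_mom]
  rw [Finset.prod_mul_distrib]
  simp

theorem j6550_int {n : ℕ} {f : (Fin n → ℝ) → ℝ} (hf : Continuous f) :
    Integrable f (j6550_cube n) :=
  hf.continuousOn.integrableOn_compact (isCompact_univ_pi fun _ => isCompact_Icc)

theorem j6550_pt {n : ℕ} (z : Fin n → ℝ) (i : Fin n) (a : ℕ) :
    ∏ l, z l ^ (if l = i then a else 0) = z i ^ a := by
  rw [Finset.prod_eq_single i]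
  · simp
  · intro b _ hb; simp [hb]
  · simp

theorem j6550_I3 {n : ℕ} (i j k : Fin n) :
    ∫ z, z i * z j * z k ^ 2 ∂(j6550_cube n) =
      if i = j then (if i = k then 2 ^ n / 5 else 2 ^ n / 9) else 0 := by
  have h : ∀ z : Fin n → ℝ, z i * z j * z k ^ 2 = ∏ l, z l ^
      ((if l = i then 1 else 0) + (if l = j then 1 else 0) + (if l = k then 2 else 0)) := by
    intro z
    simp_rw [pow_add]
    rw [Finset.prod_mul_distrib, Finset.prod_mul_distrib, j6550_pt, j6550_pt, j6550_pt]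
    simp
  simp_rw [h]
  rw [j6550_prod]
  split_ifs with hij hik
  · subst hij; subst hik
    rw [Finset.prod_eq_single i]
    · simp; norm_num; ring
    · intro b _ hb; simp [hb]
    · simp
  · subst hij
    rw [Finset.prod_eq_mul i k hik]
    · simp [hik, Ne.symm hik]; norm_num; ring
    · intro b _ hb; simp [hb.1, hb.2]
    · simp
    · simp
  · rw [Finset.prod_eq_zero (Finset.mem_univ i)]
    · simp
    · by_cases hik : i = k
      · simp [hij, hik]
        left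
        have : ¬ k = j := by rintro rfl; exact hij hik
        simp [this]; norm_num
      · simp [hij, hik]

theorem j6550_I2 {n : ℕ} (i j : Fin n) :
    ∫ z, z i * z j ∂(j6550_cube n) = if i = j then 2 ^ n / 3 else 0 := by
  have h : ∀ z : Fin n → ℝ, z i * z j = ∏ l, z l ^
      ((if l = i then 1 else 0) + (if l = j then 1 else 0)) := by
    intro z
    simp_rw [pow_add]
    rw [Finset.prod_mul_distrib, j6550_pt, j6550_pt]
    simp
  simp_rw [h]
  rw [j6550_prod]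
  split_ifs with hij
  · subst hij
    rw [Finset.prod_eq_single i]
    · simp; norm_num; ring
    · intro b _ hb; simp [hb]
    · simp
  · rw [Finset.prod_eq_zero (Finset.mem_univ i)]
    · simp
    · simp [hij]

theorem j6550_total {n : ℕ} (hn : 2 ≤ n) (a b : ℝ) :
    ∫ z, s2 z * (a - b * ∑ k, z k ^ 2) ∂(j6550_cube n) =
      2 ^ n * ((n - 1) / 3 * a - b * ((n - 1) / 3 * (n / 3 + 4 / 15))) := by
  have hn0 : (n : ℝ) ≠ 0 := by positivity
  have hs2 : ∀ z : Fin n → ℝ, s2 z = (∑ k, z k ^ 2) - (∑ i, ∑ j, z i * z j) / n := by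
    intro z
    unfold s2 zb
    have h1 : ∀ i, (z i - (∑ i, z i) / n) ^ 2 =
        z i ^ 2 - 2 * ((∑ i, z i) / n) * z i + ((∑ i, z i) / n) ^ 2 := fun i => by ring
    simp_rw [h1]
    rw [Finset.sum_add_distrib, Finset.sum_sub_distrib, ← Finset.mul_sum, ← Finset.sum_mul_sum]
    simp
    field_simp
    ring
  have hexp : ∀ z : Fin n → ℝ, s2 z * (a - b * ∑ k, z k ^ 2) =
      (a * (∑ k, z k * z k) - a / n * (∑ i, ∑ j, z i * z j) - b * (∑ i, ∑ k, z i * z i * z k ^ 2)) +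
        b / n * (∑ i, ∑ j, ∑ k, z i * z j * z k ^ 2) := by
    intro z
    rw [hs2 z]
    have e1 : (∑ i, ∑ k, z i * z i * z k ^ 2) = (∑ k, z k ^ 2) * (∑ k, z k ^ 2) := by
      rw [Finset.sum_mul_sum]
      refine Finset.sum_congr rfl fun i _ => Finset.sum_congr rfl fun j _ => by ring
    have e2 : (∑ i, ∑ j, ∑ k, z i * z j * z k ^ 2) = (∑ i, ∑ j, z i * z j) * (∑ k, z k ^ 2) := by
      rw [Finset.sum_mul]
      refine Finset.sum_congr rfl fun i _ => ?_
      rw [Finset.sum_mul]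
      refine Finset.sum_congr rfl fun j _ => ?_
      rw [Finset.mul_sum]
    have e3 : (∑ k, z k * z k) = ∑ k, z k ^ 2 := Finset.sum_congr rfl fun i _ => by ring
    rw [e1, e2, e3]
    field_simp
    ring
  simp_rw [hexp]
  have i1 : Integrable (fun z : Fin n → ℝ => a * (∑ k, z k * z k)) (j6550_cube n) :=
    j6550_int (by fun_prop)
  have i2 : Integrable (fun z : Fin n → ℝ => a / n * (∑ i, ∑ j, z i * z j)) (j6550_cube n) :=
    j6550_int (by fun_prop)
  have i3 : Integrable (fun z : Fin n → ℝ => b * (∑ i, ∑ k, z i * z i * z k ^ 2))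
      (j6550_cube n) := j6550_int (by fun_prop)
  have i4 : Integrable (fun z : Fin n → ℝ => b / n * (∑ i, ∑ j, ∑ k, z i * z j * z k ^ 2))
      (j6550_cube n) := j6550_int (by fun_prop)
  have i12 : Integrable (fun z : Fin n → ℝ => a * (∑ k, z k * z k) -
      a / n * (∑ i, ∑ j, z i * z j)) (j6550_cube n) := j6550_int (by fun_prop)
  have i123 : Integrable (fun z : Fin n → ℝ => a * (∑ k, z k * z k) -
      a / n * (∑ i, ∑ j, z i * z j) - b * (∑ i, ∑ k, z i * z i * z k ^ 2)) (j6550_cube n) :=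
    j6550_int (by fun_prop)
  rw [integral_add i123 i4, integral_sub i12 i3, integral_sub i1 i2,
    integral_const_mul, integral_const_mul, integral_const_mul, integral_const_mul]
  have A1 : ∫ z, (∑ k, z k * z k) ∂(j6550_cube n) = n * (2 ^ n / 3) := by
    rw [integral_finsetSum _ (fun i _ => j6550_int (by fun_prop))]
    simp_rw [j6550_I2]
    simp
  have A2 : ∫ z, (∑ i, ∑ j, z i * z j) ∂(j6550_cube n) = n * (2 ^ n / 3) := by
    rw [integral_finsetSum _ (fun i _ => j6550_int (by fun_prop))]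
    have : ∀ i : Fin n, ∫ z, (∑ j, z i * z j) ∂(j6550_cube n) = 2 ^ n / 3 := by
      intro i
      rw [integral_finsetSum _ (fun i _ => j6550_int (by fun_prop))]
      simp_rw [j6550_I2]
      simp
    simp_rw [this]
    simp
  have B : ∀ i : Fin n, ∫ z, (∑ k, z i * z i * z k ^ 2) ∂(j6550_cube n) =
      2 ^ n / 5 + (n - 1) * (2 ^ n / 9) := by
    intro i
    rw [integral_finsetSum _ (fun i _ => j6550_int (by fun_prop))]
    simp_rw [j6550_I3]
    simp only [if_true]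
    rw [← Finset.add_sum_erase _ _ (Finset.mem_univ i)]
    simp only [if_true]
    congr 1
    rw [Finset.sum_congr rfl (g := fun _ => (2 : ℝ) ^ n / 9)]
    · simp
      rw [Nat.cast_sub (by omega)]
      simp
    · intro j hj
      rw [if_neg (Finset.ne_of_mem_erase hj).symm]
  have A3 : ∫ z, (∑ i, ∑ k, z i * z i * z k ^ 2) ∂(j6550_cube n) =
      n * (2 ^ n / 5 + (n - 1) * (2 ^ n / 9)) := by
    rw [integral_finsetSum _ (fun i _ => j6550_int (by fun_prop))]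
    simp_rw [B]
    simp
    ring
  have A4 : ∫ z, (∑ i, ∑ j, ∑ k, z i * z j * z k ^ 2) ∂(j6550_cube n) =
      n * (2 ^ n / 5 + (n - 1) * (2 ^ n / 9)) := by
    rw [integral_finsetSum _ (fun i _ => j6550_int (by fun_prop))]
    have : ∀ i : Fin n, ∫ z, (∑ j, ∑ k, z i * z j * z k ^ 2) ∂(j6550_cube n) =
        2 ^ n / 5 + (n - 1) * (2 ^ n / 9) := by
      intro i
      rw [integral_finsetSum _ (fun i _ => j6550_int (by fun_prop))]
      rw [Finset.sum_eq_single i]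
      · exact B i
      · intro j _ hj
        rw [integral_finsetSum _ (fun i _ => j6550_int (by fun_prop))]
        simp_rw [j6550_I3, if_neg hj.symm]
        simp
      · simp
    simp_rw [this]
    simp
    ring
  rw [A1, A2, A3, A4]
  field_simp
  ring

theorem j6550_tan (k : ℕ) {v : ℝ} (hv : 0 < v) :
    1 - (k : ℝ) / 2 * (v ^ 2 - 1) ≤ (v ^ k)⁻¹ := by
  have h1 : Real.log v ≤ (v ^ 2 - 1) / 2 := by
    have h2 := Real.log_le_sub_one_of_pos (show (0 : ℝ) < v ^ 2 by positivity)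
    rw [Real.log_pow] at h2
    push_cast at h2
    linarith
  have h3 := Real.add_one_le_exp (-(k * Real.log v))
  have h4 : Real.exp (-(k * Real.log v)) = (v ^ k)⁻¹ := by
    rw [Real.exp_neg, Real.exp_nat_mul, Real.exp_log hv]
  rw [h4] at h3
  have h5 : (k : ℝ) * Real.log v ≤ k * ((v ^ 2 - 1) / 2) :=
    mul_le_mul_of_nonneg_left h1 (by positivity)
  linarith

theorem j6550_s2_nonneg {n : ℕ} (z : Fin n → ℝ) : 0 ≤ s2 z :=
  Finset.sum_nonneg fun i _ => sq_nonneg _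

theorem j6550_T {n : ℕ} (hn : 2 ≤ n) (z : Fin n → ℝ) : (∑ k, z k ^ 2) = s2 z + n * zb z ^ 2 := by
  have hn0 : (n : ℝ) ≠ 0 := by positivity
  unfold s2 zb
  have h1 : ∀ i, (z i - (∑ i, z i) / n) ^ 2 =
      z i ^ 2 - 2 * ((∑ i, z i) / n) * z i + ((∑ i, z i) / n) ^ 2 := fun i => by ring
  simp_rw [h1]
  rw [Finset.sum_add_distrib, Finset.sum_sub_distrib, ← Finset.mul_sum]
  simp
  field_simp
  ring

theorem j6550_pointwise {n : ℕ} (m : ℕ) (hn : 2 ≤ n) (z : Fin n → ℝ) :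
    s2 z * (((√(((n : ℝ) + m) / 3 + 4 / 15)) ^ (m + 2))⁻¹ *
      (1 - ((m + 2 : ℕ) : ℝ) / 2 * (((∑ k, z k ^ 2) + m / 3) / (((n : ℝ) + m) / 3 + 4 / 15) - 1))) ≤
    s2 z / (√(s2 z + m / 3 + m * n * zb z ^ 2 / (n + m))) ^ (m + 2) := by
  have hn' : (0 : ℝ) < n := by positivity
  have hs := j6550_s2_nonneg z
  rcases hs.eq_or_lt with h0 | hpos
  · rw [← h0]; simp
  set D : ℝ := ((n : ℝ) + m) / 3 + 4 / 15 with hD
  have hDpos : 0 < D := by positivity
  set Y : ℝ := (∑ k, z k ^ 2) + m / 3 with hY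
  set X : ℝ := s2 z + m / 3 + m * n * zb z ^ 2 / (n + m) with hX
  have hXpos : 0 < X := by positivity
  have hXY : X ≤ Y := by
    rw [hX, hY, j6550_T hn z]
    have : (m : ℝ) * n * zb z ^ 2 / (n + m) ≤ n * zb z ^ 2 := by
      rw [div_le_iff₀ (by positivity)]
      nlinarith [mul_nonneg (mul_nonneg hn'.le hn'.le) (sq_nonneg (zb z))]
    linarith
  have hYpos : 0 < Y := lt_of_lt_of_le hXpos hXY
  rw [div_eq_mul_inv]
  refine mul_le_mul_of_nonneg_left ?_ hs
  have hv : 0 < √(Y / D) := Real.sqrt_pos.mpr (div_pos hYpos hDpos)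
  have h1 := j6550_tan (m + 2) hv
  rw [Real.sq_sqrt (div_pos hYpos hDpos).le] at h1
  have h2 : (√D ^ (m + 2))⁻¹ * (√(Y / D) ^ (m + 2))⁻¹ = (√Y ^ (m + 2))⁻¹ := by
    rw [← mul_inv, ← mul_pow, ← Real.sqrt_mul hDpos.le, mul_div_cancel₀ _ hDpos.ne']
  calc (√D ^ (m + 2))⁻¹ * (1 - ((m + 2 : ℕ) : ℝ) / 2 * (Y / D - 1))
      ≤ (√D ^ (m + 2))⁻¹ * (√(Y / D) ^ (m + 2))⁻¹ :=
        mul_le_mul_of_nonneg_left h1 (by positivity)
    _ = (√Y ^ (m + 2))⁻¹ := h2
    _ ≤ (√X ^ (m + 2))⁻¹ := by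
        have hsx : 0 < √X := Real.sqrt_pos.mpr hXpos
        exact inv_anti₀ (by positivity)
          (pow_le_pow_left₀ hsx.le (Real.sqrt_le_sqrt hXY) _)

theorem j6550_pos {α : Type*} [MeasurableSpace α] {μ : Measure α} {f : α → ℝ}
    (hf : Integrable f μ) : ENNReal.ofReal (∫ x, f x ∂μ) ≤ ∫⁻ x, ENNReal.ofReal (f x) ∂μ := by
  rw [integral_eq_lintegral_pos_part_sub_lintegral_neg_part hf]
  refine (ENNReal.ofReal_le_ofReal (sub_le_self _ ENNReal.toReal_nonneg)).trans ?_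
  exact ENNReal.ofReal_toReal_le

theorem z_int (n m : ℕ) (hn : 2 ≤ n) :
    ENNReal.ofReal (((n : ℝ) - 1) / 3 / (√(((n : ℝ) + m) / 3 + 4 / 15)) ^ (m + 2)) ≤
    ((2 : ℝ≥0∞) ^ n)⁻¹ * ∫⁻ z in Set.pi Set.univ (fun _ : Fin n => Set.Icc (-1 : ℝ) 1),
      ENNReal.ofReal (s2 z / (√(s2 z + m / 3 + m * n * zb z ^ 2 / (n + m))) ^ (m + 2)) := by
  have hn' : (0 : ℝ) < n := by positivity
  set D : ℝ := ((n : ℝ) + m) / 3 + 4 / 15 with hD
  have hDpos : 0 < D := by positivity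
  set W : ℝ := (√D ^ (m + 2))⁻¹ with hW
  have hform : ∀ z : Fin n → ℝ,
      s2 z * (W * (1 - ((m + 2 : ℕ) : ℝ) / 2 * (((∑ k, z k ^ 2) + m / 3) / D - 1))) =
      s2 z * ((W * (1 - ((m + 2 : ℕ) : ℝ) / 2 * ((m / 3) / D - 1))) -
        (W * (((m + 2 : ℕ) : ℝ) / 2 / D)) * ∑ k, z k ^ 2) := by
    intro z; ring
  have hval : ∫ z, s2 z * (W * (1 - ((m + 2 : ℕ) : ℝ) / 2 * (((∑ k, z k ^ 2) + m / 3) / D - 1)))
      ∂(j6550_cube n) = 2 ^ n * (((n : ℝ) - 1) / 3 * W) := by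
    simp_rw [hform]
    rw [j6550_total hn]
    have hDn : (n : ℝ) / 3 + 4 / 15 = D - m / 3 := by rw [hD]; ring
    rw [hDn]
    field_simp
    ring
  have hint : Integrable (fun z : Fin n → ℝ =>
      s2 z * (W * (1 - ((m + 2 : ℕ) : ℝ) / 2 * (((∑ k, z k ^ 2) + m / 3) / D - 1))))
      (j6550_cube n) := by
    refine j6550_int ?_
    unfold s2 zb
    fun_prop
  have h1 := j6550_pos hint
  rw [hval] at h1
  have h2 : ∫⁻ z, ENNReal.ofReal (s2 z *
      (W * (1 - ((m + 2 : ℕ) : ℝ) / 2 * (((∑ k, z k ^ 2) + m / 3) / D - 1)))) ∂(j6550_cube n) ≤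
      ∫⁻ z in Set.pi Set.univ (fun _ : Fin n => Set.Icc (-1 : ℝ) 1),
      ENNReal.ofReal (s2 z / (√(s2 z + m / 3 + m * n * zb z ^ 2 / (n + m))) ^ (m + 2)) :=
    lintegral_mono fun z => ENNReal.ofReal_le_ofReal (j6550_pointwise m hn z)
  have h3 := h1.trans h2
  have h4 : ENNReal.ofReal (2 ^ n * (((n : ℝ) - 1) / 3 * W)) =
      (2 : ℝ≥0∞) ^ n * ENNReal.ofReal (((n : ℝ) - 1) / 3 * W) := by
    rw [ENNReal.ofReal_mul (by positivity), ENNReal.ofReal_pow (by norm_num)]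
    simp
  rw [h4] at h3
  rw [div_eq_mul_inv _ (√D ^ (m + 2)), ← hW]
  calc ENNReal.ofReal (((n : ℝ) - 1) / 3 * W)
      = ((2 : ℝ≥0∞) ^ n)⁻¹ * ((2 : ℝ≥0∞) ^ n * ENNReal.ofReal (((n : ℝ) - 1) / 3 * W)) := by
        rw [← mul_assoc, ENNReal.inv_mul_cancel (by simp) (by simp), one_mul]
    _ ≤ _ := by gcongr


end Pool.Agent.VP.C4
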