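import Pool.Agent.VP.Defs

set_option autoImplicit false
open MeasureTheory ProbabilityTheory
open scoped ENNReal Matrix

namespace Pool.Agent.VP.C5

open Pool.Agent.VP



theorem c5_logup {s : ℝ} (hs : 0 ≤ s) : Real.log (1 + s) ≤ s - s ^ 2 / 2 + s ^ 3 / 3 := by
  let F : ℝ → ℝ := fun y => y - y ^ 2 / 2 + y ^ 3 / 3 - Real.log (1 + y)
  have A : ∀ y ∈ Set.Ici (0:ℝ), HasDerivAt F (1 - y + y ^ 2 - 1 / (1 + y)) y := by
    intro y hy
    have hy0 : (0:ℝ) ≤ y := hy
    have h1 : HasDerivAt (fun y : ℝ => 1 + y) 1 y := by simpa using (hasDerivAt_id y).const_add 1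
    have h2 := h1.log (by positivity)
    have h3 := (((hasDerivAt_id y).fun_sub (((hasDerivAt_id y).fun_pow 2).div_const 2)).fun_add
      (((hasDerivAt_id y).fun_pow 3).div_const 3)).fun_sub h2
    refine h3.congr_deriv ?_
    simp only [id]
    push_cast
    ring
  have B : MonotoneOn F (Set.Ici 0) := by
    refine monotoneOn_of_hasDerivWithinAt_nonneg (convex_Ici 0)
      (fun y hy ↦ (A y hy).continuousAt.continuousWithinAt)
      (fun y hy ↦ (A y (interior_subset hy)).hasDerivWithinAt) ?_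
    intro y hy
    have hy0 : (0:ℝ) ≤ y := interior_subset hy
    have : 1 - y + y ^ 2 - 1 / (1 + y) = y ^ 3 / (1 + y) := by
      field_simp
      ring
    rw [this]
    positivity
  have h := B (Set.mem_Ici.2 le_rfl) (Set.mem_Ici.2 hs) hs
  simp only [F] at h
  norm_num at h
  linarith

theorem c5_loglow {t : ℝ} (ht : 0 < t) :
    2 * (t / (2 + t) + (t / (2 + t)) ^ 3 / 3) ≤ Real.log (1 + t) := by
  have h1 : t / (2 + t) < 1 := by
    rw [div_lt_one (by positivity)]; linarith
  have h := Real.sum_range_le_log_div (x := t / (2 + t)) (by positivity) h1 2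
  rw [Finset.sum_range_succ, Finset.sum_range_one] at h
  have h2 : (1 + t / (2 + t)) / (1 - t / (2 + t)) = 1 + t := by
    have : (2 + t) ≠ 0 := by positivity
    field_simp
    ring
  rw [h2] at h
  norm_num at h
  linarith

theorem c5_mid {x : ℝ} (hx : 1 / 2 < x) :
    (x + 1 / 2) * Real.log (x + 1 / 2) - (x - 1 / 2) * Real.log (x - 1 / 2) - 1 ≤ Real.log x := by
  have hx0 : 0 < x := by linarith
  have h1 : ∫ y in (x - 1 / 2)..(x + 1 / 2), Real.log y ≤
      ∫ y in (x - 1 / 2)..(x + 1 / 2), (Real.log x + (y - x) / x) := by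
    apply intervalIntegral.integral_mono_on (by linarith)
    · exact intervalIntegral.intervalIntegrable_log'
    · exact (by fun_prop : Continuous fun y : ℝ => Real.log x + (y - x) / x).intervalIntegrable _ _
    · intro y hy
      have hy0 : 0 < y := by linarith [hy.1]
      have h2 := Real.log_le_sub_one_of_pos (div_pos hy0 hx0)
      rw [Real.log_div hy0.ne' hx0.ne'] at h2
      have h3 : y / x - 1 = (y - x) / x := by field_simp
      linarith
  rw [integral_log] at h1
  have h2 : ∫ y in (x - 1 / 2)..(x + 1 / 2), (Real.log x + (y - x) / x) = Real.log x := by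
    rw [intervalIntegral.integral_add (by simp) ((by fun_prop : Continuous fun y : ℝ => (y - x) / x).intervalIntegrable _ _),
      intervalIntegral.integral_const, intervalIntegral.integral_div,
      intervalIntegral.integral_sub (by simp) (by simp), intervalIntegral.integral_const, integral_id]
    simp only [smul_eq_mul]
    field_simp
    ring
  rw [h2] at h1
  linarith

theorem c5_fact (n m : ℕ) :
    ((n:ℝ) + m + 1 / 2) * Real.log ((n:ℝ) + m + 1 / 2) - ((n:ℝ) + 1 / 2) * Real.log ((n:ℝ) + 1 / 2) - m ≤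
      Real.log ((n + m).factorial : ℝ) - Real.log (n.factorial : ℝ) := by
  induction m with
  | zero => simp
  | succ m ih =>
    have h1 := c5_mid (x := (n:ℝ) + m + 1) (by
      have : (0:ℝ) ≤ n := Nat.cast_nonneg _
      have : (0:ℝ) ≤ m := Nat.cast_nonneg _
      linarith)
    have h2 : ((n + (m + 1)).factorial : ℝ) = ((n:ℝ) + m + 1) * ((n + m).factorial : ℝ) := by
      rw [← add_assoc, Nat.factorial_succ]
      push_cast
      ring
    have h3 : Real.log ((n + (m + 1)).factorial : ℝ) = Real.log ((n:ℝ) + m + 1) + Real.log ((n + m).factorial : ℝ) := by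
      rw [h2, Real.log_mul (by positivity) (by positivity)]
    rw [h3]
    have e1 : (n:ℝ) + m + 1 - 1 / 2 = (n:ℝ) + m + 1 / 2 := by ring
    have e2 : (n:ℝ) + ((m + 1 : ℕ) : ℝ) + 1 / 2 = (n:ℝ) + m + 1 + 1 / 2 := by push_cast; ring
    rw [e1] at h1
    rw [e2]
    push_cast
    linarith

theorem c5_c0 : 95 / 1000 ≤ Real.log 2 + 1 / 2 * Real.log 3 - Real.log Real.pi := by
  have hpi := Real.pi_pos
  have h1 : Real.exp (19 / 100) * Real.pi ^ 2 ≤ 12 := by
    have h2 : (0.9525 : ℝ) ^ 4 ≤ Real.exp (-(19 / 100)) := by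
      have h3 : (0.9525 : ℝ) ≤ Real.exp (-(19 / 400)) := by
        have := Real.add_one_le_exp (-(19 / 400 : ℝ))
        norm_num at this ⊢
        linarith
      calc (0.9525 : ℝ) ^ 4 ≤ (Real.exp (-(19 / 400))) ^ 4 := pow_le_pow_left₀ (by norm_num) h3 4
        _ = Real.exp (-(19 / 100)) := by
            rw [← Real.exp_nat_mul]
            congr 1
            norm_num
    have h4 : Real.pi ^ 2 ≤ (3.1416 : ℝ) ^ 2 := pow_le_pow_left₀ hpi.le Real.pi_lt_d4.le 2
    have h5 : Real.pi ^ 2 ≤ 12 * Real.exp (-(19 / 100)) := by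
      norm_num at h2 h4
      linarith
    rw [Real.exp_neg, ← div_eq_mul_inv, le_div_iff₀ (Real.exp_pos _)] at h5
    linarith
  have h6 : Real.log (Real.exp (19 / 100) * Real.pi ^ 2) ≤ Real.log 12 :=
    Real.log_le_log (by positivity) h1
  rw [Real.log_mul (by positivity) (by positivity), Real.log_exp, Real.log_pow,
    show (12:ℝ) = 2 ^ 2 * 3 by norm_num, Real.log_mul (by norm_num) (by norm_num), Real.log_pow] at h6
  push_cast at h6
  linarith

theorem c5_core {x y : ℝ} (hx : 400 ≤ x) (hy : 1 ≤ y) (hyx : y ≤ 7 / 10 * x) :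
    0 ≤ (x + y / 2 - 1) * Real.log (1 + y / x) - (y + 1) / 2 * Real.log (1 + y / (3 * x)) -
      905 / 1000 * y - 1 / (4 * x) - 1 / (x - 1) - 2 / 5 * (y + 2) / (x + y) := by
  have hx0 : 0 < x := by linarith
  have hy0 : 0 < y := by linarith
  set t : ℝ := y / x with ht
  have ht0 : 0 < t := div_pos hy0 hx0
  have ht1 : t ≤ 7 / 10 := by
    rw [ht, div_le_iff₀ hx0]; exact hyx
  have hyt : y = t * x := by rw [ht]; field_simp
  have ht3 : y / (3 * x) = t / 3 := by rw [ht]; field_simp
  rw [ht3]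
  set L : ℝ := Real.log (1 + t) with hL
  set L3 : ℝ := Real.log (1 + t / 3) with hL3
  have a1 : 2 * (t / (2 + t) + (t / (2 + t)) ^ 3 / 3) ≤ L := c5_loglow ht0
  have a2 : L ≤ t := by
    have := Real.log_le_sub_one_of_pos (show 0 < 1 + t by linarith)
    linarith
  have a3 : L3 ≤ t / 3 := by
    have := Real.log_le_sub_one_of_pos (show 0 < 1 + t / 3 by linarith)
    linarith
  have a4 : L3 ≤ t / 3 - t ^ 2 / 18 + t ^ 3 / 81 := by
    have := c5_logup (show 0 ≤ t / 3 by linarith)
    calc L3 ≤ t / 3 - (t / 3) ^ 2 / 2 + (t / 3) ^ 3 / 3 := this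
      _ = _ := by ring
  -- (x + y/2) L
  have b1 : y * (1 + t ^ 2 / (2187 / 100)) ≤ (x + y / 2) * L := by
    have h1 : (x + y / 2) * (2 * (t / (2 + t) + (t / (2 + t)) ^ 3 / 3)) = y * (1 + (t / (2 + t)) ^ 2 / 3) := by
      rw [hyt]
      field_simp
    have h2 : y * (1 + t ^ 2 / (2187 / 100)) ≤ y * (1 + (t / (2 + t)) ^ 2 / 3) := by
      apply mul_le_mul_of_nonneg_left _ hy0.le
      have h3 : t ^ 2 / (2187 / 100) ≤ (t / (2 + t)) ^ 2 / 3 := by
        rw [div_pow t (2 + t) 2, div_div (t ^ 2) ((2 + t) ^ 2) 3]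
        apply div_le_div_of_nonneg_left (by positivity) (by positivity)
        nlinarith
      linarith
    calc y * (1 + t ^ 2 / (2187 / 100)) ≤ (x + y / 2) * (2 * (t / (2 + t) + (t / (2 + t)) ^ 3 / 3)) := by
          rw [h1]; exact h2
      _ ≤ (x + y / 2) * L := mul_le_mul_of_nonneg_left a1 (by positivity)
  have b2 : y / 2 * L3 ≤ y / 2 * (t / 3 - t ^ 2 / 18 + t ^ 3 / 81) :=
    mul_le_mul_of_nonneg_left a4 (by positivity)
  have b3 : t ≤ y / 400 := by
    rw [ht]
    exact div_le_div_of_nonneg_left hy0.le (by norm_num) hx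
  have b4 : 1 / (4 * x) ≤ y / 1600 := by
    calc 1 / (4 * x) ≤ 1 / 1600 := by
          apply div_le_div_of_nonneg_left (by norm_num) (by norm_num)
          linarith
      _ ≤ y / 1600 := by linarith
  have b5 : 1 / (x - 1) ≤ y / 399 := by
    calc 1 / (x - 1) ≤ 1 / 399 := by
          apply div_le_div_of_nonneg_left (by norm_num) (by norm_num)
          linarith
      _ ≤ y / 399 := by linarith
  have b6 : 2 / 5 * (y + 2) / (x + y) ≤ 3 / 1000 * y := by
    rw [div_le_iff₀ (by positivity)]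
    nlinarith
  have b7 : 0 ≤ y * (1 + t ^ 2 / (2187 / 100) - t / 6 + t ^ 2 / 36 - t ^ 3 / 162 - 905 / 1000 - 905 / 100000) := by
    apply mul_nonneg hy0.le
    have h1 : t ^ 3 ≤ 49 / 100 * t := by
      have : t ^ 2 ≤ (7 / 10) ^ 2 := pow_le_pow_left₀ ht0.le ht1 2
      nlinarith
    nlinarith [sq_nonneg (t - 7 / 10)]
  nlinarith

theorem c5_gamma (m : ℕ) : Real.log (Real.Gamma (((m : ℝ) + 1) / 2)) + Real.log (Real.Gamma ((m : ℝ) / 2 + 1)) =
    Real.log (m.factorial : ℝ) - m * Real.log 2 + Real.log Real.pi / 2 := by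
  have hm : (0:ℝ) ≤ m := Nat.cast_nonneg _
  have g1 : 0 < Real.Gamma (((m : ℝ) + 1) / 2) := Real.Gamma_pos_of_pos (by positivity)
  have g2 : 0 < Real.Gamma ((m : ℝ) / 2 + 1) := Real.Gamma_pos_of_pos (by positivity)
  have h := Real.Gamma_mul_Gamma_add_half (((m : ℝ) + 1) / 2)
  have e1 : ((m : ℝ) + 1) / 2 + 1 / 2 = (m : ℝ) / 2 + 1 := by ring
  have e2 : 2 * (((m : ℝ) + 1) / 2) = (m : ℝ) + 1 := by ring
  rw [e1, e2, Real.Gamma_nat_eq_factorial] at h
  rw [← Real.log_mul g1.ne' g2.ne', h]
  have e3 : (1 : ℝ) - ((m : ℝ) + 1) = -(m : ℝ) := by ring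
  have hpi := Real.pi_pos
  rw [e3, Real.log_mul (by positivity) (by positivity), Real.log_mul (by positivity) (by positivity),
    Real.log_rpow (by norm_num), Real.log_sqrt hpi.le]
  ring

theorem c5_choose (n m : ℕ) : Real.log ((n + m).choose n : ℝ) =
    Real.log ((n + m).factorial : ℝ) - Real.log (n.factorial : ℝ) - Real.log (m.factorial : ℝ) := by
  have h : ((n + m).choose n : ℝ) * (n.factorial : ℝ) * (m.factorial : ℝ) = ((n + m).factorial : ℝ) := by
    have h0 := Nat.add_choose_mul_factorial_mul_factorial n m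
    rw [← Nat.choose_symm_add] at h0
    exact_mod_cast h0
  have hc : (0:ℝ) < ((n + m).choose n : ℝ) := by
    exact_mod_cast Nat.choose_pos (by omega)
  rw [← h, Real.log_mul (by positivity) (by positivity), Real.log_mul (by positivity) (by positivity)]
  ring

theorem few_points_ineq (n m : ℕ) (hn : 400 ≤ n) (hm : 1 ≤ m) (hmn : 10 * m ≤ 7 * n) :
    1 ≤ ((n + m).choose n : ℝ) *
      ((√(2 / (Real.pi * n))) ^ m * (√2) ^ m * Real.Gamma (((m : ℝ) + 1) / 2) / √Real.pi /
        (√(1 + (m : ℝ) / (3 * n))) ^ (m + 1)) *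
      ((√(4 / Real.pi)) ^ m * √((n : ℝ) / (n + m)) * Real.Gamma ((m : ℝ) / 2 + 1)) *
      (((n : ℝ) - 1) / 3 / (√(((n : ℝ) + m) / 3 + 4 / 15)) ^ (m + 2)) := by
  have hx : (400:ℝ) ≤ n := by exact_mod_cast hn
  have hy : (1:ℝ) ≤ m := by exact_mod_cast hm
  have hyx : (m:ℝ) ≤ 7 / 10 * n := by
    have : (10:ℝ) * m ≤ 7 * n := by exact_mod_cast hmn
    linarith
  have hfact := c5_fact n m
  have hgam := c5_gamma m
  have hch := c5_choose n m
  have hcore := c5_core hx hy hyx
  have hc0 := c5_c0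
  have hcpos : (0:ℝ) < ((n + m).choose n : ℝ) := by
    exact_mod_cast Nat.choose_pos (by omega)
  set x : ℝ := (n:ℝ) with hxdef
  set y : ℝ := (m:ℝ) with hydef
  have hpi := Real.pi_pos
  have hx0 : 0 < x := by linarith
  have hy0 : 0 < y := by linarith
  have hx1 : 0 < x - 1 := by linarith
  have g1 : 0 < Real.Gamma ((y + 1) / 2) := Real.Gamma_pos_of_pos (by positivity)
  have g2 : 0 < Real.Gamma (y / 2 + 1) := Real.Gamma_pos_of_pos (by positivity)
  have s1 : 0 < √(2 / (Real.pi * x)) := Real.sqrt_pos.2 (by positivity)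
  have s2' : 0 < √(2:ℝ) := Real.sqrt_pos.2 (by positivity)
  have s3 : 0 < √Real.pi := Real.sqrt_pos.2 (by positivity)
  have s4 : 0 < √(1 + y / (3 * x)) := Real.sqrt_pos.2 (by positivity)
  have s5 : 0 < √(4 / Real.pi) := Real.sqrt_pos.2 (by positivity)
  have s6 : 0 < √(x / (x + y)) := Real.sqrt_pos.2 (by positivity)
  have s7 : 0 < √((x + y) / 3 + 4 / 15) := Real.sqrt_pos.2 (by positivity)
  have hApos : 0 < (√(2 / (Real.pi * x))) ^ m * (√2) ^ m * Real.Gamma ((y + 1) / 2) / √Real.pi /
        (√(1 + y / (3 * x))) ^ (m + 1) := by positivity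
  have hBpos : 0 < (√(4 / Real.pi)) ^ m * √(x / (x + y)) * Real.Gamma (y / 2 + 1) := by positivity
  have hDpos : 0 < (x - 1) / 3 / (√((x + y) / 3 + 4 / 15)) ^ (m + 2) := by positivity
  rw [← Real.log_nonneg_iff (mul_pos (mul_pos (mul_pos hcpos hApos) hBpos) hDpos)]
  rw [Real.log_mul (mul_pos (mul_pos hcpos hApos) hBpos).ne' hDpos.ne',
    Real.log_mul (mul_pos hcpos hApos).ne' hBpos.ne', Real.log_mul hcpos.ne' hApos.ne']
  have hA : Real.log ((√(2 / (Real.pi * x))) ^ m * (√2) ^ m * Real.Gamma ((y + 1) / 2) / √Real.pi /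
        (√(1 + y / (3 * x))) ^ (m + 1)) =
      y * ((Real.log 2 - (Real.log Real.pi + Real.log x)) / 2) + y * (Real.log 2 / 2) +
        Real.log (Real.Gamma ((y + 1) / 2)) - Real.log Real.pi / 2 - (y + 1) * (Real.log (1 + y / (3 * x)) / 2) := by
    rw [Real.log_div (by positivity) (by positivity), Real.log_div (by positivity) (by positivity),
      Real.log_mul (by positivity) (by positivity), Real.log_mul (by positivity) (by positivity),
      Real.log_pow, Real.log_pow, Real.log_pow, Real.log_sqrt (by positivity), Real.log_sqrt (by positivity),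
      Real.log_sqrt (by positivity), Real.log_sqrt (by positivity),
      Real.log_div (by positivity) (by positivity), Real.log_mul (by positivity) (by positivity)]
    push_cast
    rfl
  have hB : Real.log ((√(4 / Real.pi)) ^ m * √(x / (x + y)) * Real.Gamma (y / 2 + 1)) =
      y * ((2 * Real.log 2 - Real.log Real.pi) / 2) + (Real.log x - Real.log (x + y)) / 2 +
        Real.log (Real.Gamma (y / 2 + 1)) := by
    have h4 : Real.log 4 = 2 * Real.log 2 := by
      rw [show (4:ℝ) = 2 ^ 2 by norm_num, Real.log_pow]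
      norm_num
    rw [Real.log_mul (by positivity) (by positivity), Real.log_mul (by positivity) (by positivity),
      Real.log_pow, Real.log_sqrt (by positivity), Real.log_sqrt (by positivity),
      Real.log_div (by positivity) (by positivity), Real.log_div (by positivity) (by positivity), h4]
  have hD : Real.log ((x - 1) / 3 / (√((x + y) / 3 + 4 / 15)) ^ (m + 2)) =
      Real.log (x - 1) - Real.log 3 - (y + 2) * ((Real.log (x + y + 4 / 5) - Real.log 3) / 2) := by
    have e : (x + y) / 3 + 4 / 15 = (x + y + 4 / 5) / 3 := by ring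
    rw [Real.log_div (by positivity) (by positivity), Real.log_div (by positivity) (by positivity),
      Real.log_pow, Real.log_sqrt (by positivity), e, Real.log_div (by positivity) (by positivity)]
    push_cast
    rfl
  rw [hA, hB, hD, hch]
  -- estimates
  have p1 : (x + y + 1 / 2) * Real.log (x + y) + 1 / 2 ≤ (x + y + 1 / 2) * Real.log (x + y + 1 / 2) := by
    have h1 := Real.one_sub_inv_le_log_of_pos (show 0 < (x + y + 1 / 2) / (x + y) by positivity)
    rw [Real.log_div (by positivity) (by positivity), inv_div] at h1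
    have h2 : (x + y + 1 / 2) * (1 - (x + y) / (x + y + 1 / 2)) = 1 / 2 := by
      field_simp
      ring
    have h3 := mul_le_mul_of_nonneg_left h1 (show 0 ≤ x + y + 1 / 2 by positivity)
    rw [h2] at h3
    linarith
  have p2 : (x + 1 / 2) * Real.log (x + 1 / 2) ≤ (x + 1 / 2) * Real.log x + 1 / 2 + 1 / (4 * x) := by
    have h1 := Real.log_le_sub_one_of_pos (show 0 < (x + 1 / 2) / x by positivity)
    rw [Real.log_div (by positivity) (by positivity)] at h1
    have h2 : (x + 1 / 2) * ((x + 1 / 2) / x - 1) = 1 / 2 + 1 / (4 * x) := by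
      field_simp
      ring
    have h3 := mul_le_mul_of_nonneg_left h1 (show 0 ≤ x + 1 / 2 by positivity)
    rw [h2] at h3
    linarith
  have p3 : Real.log x - 1 / (x - 1) ≤ Real.log (x - 1) := by
    have h1 := Real.one_sub_inv_le_log_of_pos (show 0 < (x - 1) / x by positivity)
    rw [Real.log_div (by positivity) (by positivity), inv_div] at h1
    have h2 : 1 - x / (x - 1) = -(1 / (x - 1)) := by
      field_simp
      ring
    rw [h2] at h1
    linarith
  have p4 : (y + 2) * Real.log (x + y + 4 / 5) ≤ (y + 2) * Real.log (x + y) + 2 * (2 / 5 * (y + 2) / (x + y)) := by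
    have h1 := Real.log_le_sub_one_of_pos (show 0 < (x + y + 4 / 5) / (x + y) by positivity)
    rw [Real.log_div (by positivity) (by positivity)] at h1
    have h2 : (y + 2) * ((x + y + 4 / 5) / (x + y) - 1) = 2 * (2 / 5 * (y + 2) / (x + y)) := by
      field_simp
      ring
    have h3 := mul_le_mul_of_nonneg_left h1 (show 0 ≤ y + 2 by positivity)
    rw [h2] at h3
    linarith
  have p5 : Real.log (x + y) = Real.log x + Real.log (1 + y / x) := by
    rw [← Real.log_mul (by positivity) (by positivity)]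
    congr 1
    field_simp
  have p6 : y * (95 / 1000) ≤ y * (Real.log 2 + 1 / 2 * Real.log 3 - Real.log Real.pi) :=
    mul_le_mul_of_nonneg_left hc0 hy0.le
  rw [p5] at p1 p4 ⊢
  nlinarith [hfact, hgam, hcore, p1, p2, p3, p4, p6]



end Pool.Agent.VP.C5
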