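import Pool.Agent.VP.Defs

set_option autoImplicit false
open MeasureTheory ProbabilityTheory
open scoped ENNReal Matrix

namespace Pool.Agent.VP.D1

open Pool.Agent.VP



theorem gam_Icc_lower (a b c : ℝ) (hab : a ≤ b) (hc : ∀ x ∈ Set.Icc a b, x ^ 2 ≤ c ^ 2) :
    ENNReal.ofReal ((b - a) * ((√(2 * Real.pi))⁻¹ * Real.exp (-c ^ 2 / 2))) ≤
      gaussianReal 0 1 (Set.Icc a b) := by
  rw [gaussianReal_apply 0 (one_ne_zero) (Set.Icc a b)]
  have h1 : ∫⁻ _ in Set.Icc a b, ENNReal.ofReal ((√(2 * Real.pi))⁻¹ * Real.exp (-c ^ 2 / 2)) ≤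
      ∫⁻ x in Set.Icc a b, gaussianPDF 0 1 x := by
    refine setLIntegral_mono' measurableSet_Icc fun x hx => ?_
    rw [gaussianPDF]
    apply ENNReal.ofReal_le_ofReal
    rw [gaussianPDFReal]
    simp only [NNReal.coe_one, mul_one, sub_zero]
    have hx2 := hc x hx
    have : Real.exp (-c ^ 2 / 2) ≤ Real.exp (-x ^ 2 / 2) := Real.exp_le_exp.2 (by linarith)
    exact mul_le_mul_of_nonneg_left this (by positivity)
  refine le_trans ?_ h1
  rw [setLIntegral_const, Real.volume_Icc, mul_comm (b - a), ENNReal.ofReal_mul (by positivity)]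

theorem SS_mono {x y : ℝ} (h : x ≤ y) : SS x ≤ SS y := by
  unfold SS
  apply measure_mono
  intro t ht
  exact lt_of_lt_of_le ht h

theorem J1_lower' (n m : ℕ) (hn : 1 ≤ n) (h : ℝ) (hh : 0 < h) :
    ENNReal.ofReal (√(2 / Real.pi) / (Real.exp 1 * h * √(n : ℝ)) * Real.exp (-1 / (2 * n * h ^ 2)) *
      Real.exp (-(n * h ^ 2) / 2)) * SS h ^ m ≤ J1 n m := by
  have hn0 : (0 : ℝ) < n := by exact_mod_cast hn
  have hsq : 0 < √(n : ℝ) := Real.sqrt_pos.2 hn0
  set a : ℝ := √(n : ℝ) * h with ha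
  have ha0 : 0 < a := by positivity
  set δ : ℝ := 1 / a with hδ
  have hδ0 : 0 < δ := by positivity
  have haδ : a * δ = 1 := by rw [hδ]; field_simp
  have ha2 : a ^ 2 = n * h ^ 2 := by rw [ha, mul_pow, Real.sq_sqrt hn0.le]
  have hδ2 : δ ^ 2 = 1 / (n * h ^ 2) := by rw [hδ, div_pow, one_pow, ha2]
  set A : Set ℝ := Set.Icc a (a + δ) ∪ Set.Icc (-(a + δ)) (-a) with hA
  have hdisj : Disjoint (Set.Icc a (a + δ)) (Set.Icc (-(a + δ)) (-a)) := by
    rw [Set.disjoint_left]
    intro x hx hx'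
    linarith [hx.1, hx'.2]
  have hAm : MeasurableSet A := measurableSet_Icc.union measurableSet_Icc
  have hJ : gaussianReal 0 1 A * SS h ^ m ≤ J1 n m := by
    unfold J1
    calc gaussianReal 0 1 A * SS h ^ m = ∫⁻ _ in A, SS h ^ m ∂(gaussianReal 0 1) := by
          rw [setLIntegral_const, mul_comm]
      _ ≤ ∫⁻ x in A, SS (|x| / √(n : ℝ)) ^ m ∂(gaussianReal 0 1) := by
          refine setLIntegral_mono' hAm fun x hx => ?_
          gcongr
          apply SS_mono
          rw [le_div_iff₀ hsq]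
          rcases hx with hx | hx
          · have : a ≤ |x| := hx.1.trans (le_abs_self x)
            rw [mul_comm]; exact this
          · have : a ≤ |x| := by
              have := neg_le_abs x
              linarith [hx.2]
            rw [mul_comm]; exact this
      _ ≤ ∫⁻ x, SS (|x| / √(n : ℝ)) ^ m ∂(gaussianReal 0 1) := setLIntegral_le_lintegral _ _
  refine le_trans ?_ hJ
  gcongr
  rw [hA, measure_union hdisj measurableSet_Icc]
  have h1 := gam_Icc_lower a (a + δ) (a + δ) (by linarith) (fun x hx => by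
    have := hx.1; have := hx.2
    exact pow_le_pow_left₀ (by linarith) (by linarith) 2)
  have h2 := gam_Icc_lower (-(a + δ)) (-a) (a + δ) (by linarith) (fun x hx => by
    have := hx.1; have := hx.2
    nlinarith)
  refine le_trans ?_ (add_le_add h1 h2)
  rw [← ENNReal.ofReal_add (by
      have : 0 ≤ a + δ - a := by linarith
      positivity) (by
      have : 0 ≤ -a - -(a + δ) := by linarith
      positivity)]
  apply ENNReal.ofReal_le_ofReal
  apply le_of_eq
  have e1 : Real.exp (-(a + δ) ^ 2 / 2) =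
      (Real.exp 1)⁻¹ * Real.exp (-1 / (2 * n * h ^ 2)) * Real.exp (-(n * h ^ 2) / 2) := by
    rw [← Real.exp_neg, ← Real.exp_add, ← Real.exp_add]
    congr 1
    have : (a + δ) ^ 2 = a ^ 2 + 2 * (a * δ) + δ ^ 2 := by ring
    rw [this, haδ, ha2, hδ2]
    field_simp
    ring
  rw [e1]
  have e2 : √(2 / Real.pi) = 2 * (√(2 * Real.pi))⁻¹ := by
    have hpi := Real.pi_pos
    rw [Real.sqrt_div (by norm_num), Real.sqrt_mul (by norm_num)]
    have h2 : √(2:ℝ) ≠ 0 := by positivity
    have h3 : √Real.pi ≠ 0 := by positivity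
    field_simp
    rw [Real.sq_sqrt (by norm_num)]
  rw [e2]
  have e3 : a + δ - a = 1 / (√(n : ℝ) * h) := by rw [hδ, ha]; ring
  have e4 : -a - -(a + δ) = 1 / (√(n : ℝ) * h) := by rw [hδ, ha]; ring
  rw [e3, e4]
  have hexp : Real.exp 1 ≠ 0 := (Real.exp_pos 1).ne'
  field_simp
  ring


end Pool.Agent.VP.D1
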