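import Pool.Agent.VP.Defs

set_option autoImplicit false
open MeasureTheory ProbabilityTheory
open scoped ENNReal Matrix

namespace Pool.Agent.VP.D2

open Pool.Agent.VP



lemma om_meas : Measurable (fun p : ℝ × ℝ => om p.1 p.2) := by
  have hc : IsClosed {q : (ℝ × ℝ) × ℝ | |q.2 - q.1.1| ≤ q.1.2} :=
    isClosed_le (by fun_prop) (by fun_prop)
  exact measurable_measure_prodMk_left (ν := gaussianReal 0 1) hc.measurableSet

/-- density of the standard Gaussian -/
noncomputable def ph (x : ℝ) : ℝ := 1 / √(2 * Real.pi) * Real.exp (-x ^ 2 / 2)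

lemma ph_nonneg (x : ℝ) : 0 ≤ ph x := by unfold ph; positivity

lemma ph_meas : Measurable (fun x => ENNReal.ofReal (ph x)) := by
  unfold ph; fun_prop

lemma gauss_lint (F : ℝ → ℝ≥0∞) (hF : Measurable F) :
    ∫⁻ x, F x ∂(gaussianReal 0 1) = ∫⁻ x, ENNReal.ofReal (ph x) * F x := by
  rw [gaussianReal_of_var_ne_zero 0 one_ne_zero,
    lintegral_withDensity_eq_lintegral_mul _ (measurable_gaussianPDF 0 1) hF]
  refine lintegral_congr fun x => ?_
  rw [Pi.mul_apply]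
  congr 1
  rw [gaussianPDF_def, gaussianPDFReal_def]
  simp [ph]

lemma gauss2_lint (f : ℝ × ℝ → ℝ≥0∞) (hf : Measurable f) :
    ∫⁻ p, f p ∂((gaussianReal 0 1).prod (gaussianReal 0 1)) =
      ∫⁻ p : ℝ × ℝ, ENNReal.ofReal (ph p.1) * (ENNReal.ofReal (ph p.2) * f p) := by
  rw [lintegral_prod _ hf.aemeasurable, gauss_lint _ hf.lintegral_prod_right',
    Measure.volume_eq_prod, lintegral_prod]
  · refine lintegral_congr fun x => ?_
    have h1 : Measurable (fun y => f (x, y)) := hf.comp (by fun_prop)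
    rw [gauss_lint _ h1, ← lintegral_const_mul]
    exact ph_meas.mul h1
  · refine Measurable.aemeasurable ?_
    exact (ph_meas.comp measurable_fst).mul ((ph_meas.comp measurable_snd).mul hf)

lemma polar_lint (F : ℝ → ℝ≥0∞) (hF : Measurable F) :
    ∫⁻ p : ℝ × ℝ, F (√(p.1 ^ 2 + p.2 ^ 2)) ∂((gaussianReal 0 1).prod (gaussianReal 0 1)) =
      ∫⁻ r in Set.Ioi (0 : ℝ), ENNReal.ofReal (r * Real.exp (-r ^ 2 / 2)) * F r := by
  have h0 : Measurable (fun p : ℝ × ℝ => F (√(p.1 ^ 2 + p.2 ^ 2))) := hF.comp (by fun_prop)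
  rw [gauss2_lint _ h0, ← lintegral_comp_polarCoord_symm]
  have ht : polarCoord.target = Set.Ioi (0 : ℝ) ×ˢ Set.Ioo (-Real.pi) Real.pi := rfl
  rw [ht, Measure.volume_eq_prod, ← Measure.prod_restrict]
  have key : ∀ r : ℝ, 0 < r → ∀ θ : ℝ,
      ENNReal.ofReal r • (ENNReal.ofReal (ph (r * Real.cos θ)) *
        (ENNReal.ofReal (ph (r * Real.sin θ)) *
          F (√((r * Real.cos θ) ^ 2 + (r * Real.sin θ) ^ 2)))) =
      ENNReal.ofReal (1 / (2 * Real.pi) * (r * Real.exp (-r ^ 2 / 2))) * F r := by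
    intro r hr θ
    have e1 : (r * Real.cos θ) ^ 2 + (r * Real.sin θ) ^ 2 = r ^ 2 := by
      have := Real.cos_sq_add_sin_sq θ
      calc (r * Real.cos θ) ^ 2 + (r * Real.sin θ) ^ 2 =
            r ^ 2 * (Real.cos θ ^ 2 + Real.sin θ ^ 2) := by ring
        _ = r ^ 2 := by rw [this, mul_one]
    rw [e1, Real.sqrt_sq hr.le, smul_eq_mul, ← mul_assoc, ← mul_assoc,
      ← ENNReal.ofReal_mul hr.le, ← ENNReal.ofReal_mul (mul_nonneg hr.le (ph_nonneg _))]
    congr 2
    unfold ph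
    have e2 : Real.exp (-(r * Real.cos θ) ^ 2 / 2) * Real.exp (-(r * Real.sin θ) ^ 2 / 2) =
        Real.exp (-r ^ 2 / 2) := by
      rw [← Real.exp_add]
      congr 1
      rw [← e1]; ring
    have e3 : √(2 * Real.pi) * √(2 * Real.pi) = 2 * Real.pi :=
      Real.mul_self_sqrt (by positivity)
    calc r * (1 / √(2 * Real.pi) * Real.exp (-(r * Real.cos θ) ^ 2 / 2)) *
          (1 / √(2 * Real.pi) * Real.exp (-(r * Real.sin θ) ^ 2 / 2)) =
          r * (1 / (√(2 * Real.pi) * √(2 * Real.pi))) *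
          (Real.exp (-(r * Real.cos θ) ^ 2 / 2) * Real.exp (-(r * Real.sin θ) ^ 2 / 2)) := by
          have : √(2 * Real.pi) ≠ 0 := by positivity
          field_simp
      _ = 1 / (2 * Real.pi) * (r * Real.exp (-r ^ 2 / 2)) := by rw [e2, e3]; ring
  rw [lintegral_prod]
  · refine setLIntegral_congr_fun measurableSet_Ioi fun r hr => ?_
    have hr' : 0 < r := hr
    have e4 : ∀ θ : ℝ, polarCoord.symm (r, θ) = (r * Real.cos θ, r * Real.sin θ) := fun θ => rfl
    simp only [e4, key r hr']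
    rw [lintegral_const, Measure.restrict_apply_univ, Real.volume_Ioo, mul_right_comm,
      ← ENNReal.ofReal_mul (by positivity)]
    congr 2
    have := Real.pi_pos
    field_simp
    ring
  · refine Measurable.aemeasurable ?_
    have hs : Measurable (fun p : ℝ × ℝ => polarCoord.symm p) := by
      have : (fun p : ℝ × ℝ => polarCoord.symm p) = fun p => (p.1 * Real.cos p.2, p.1 * Real.sin p.2) := rfl
      rw [this]; fun_prop
    refine Measurable.mul (by fun_prop) ?_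
    refine Measurable.comp (g := fun p : ℝ × ℝ => ENNReal.ofReal (ph p.1) *
      (ENNReal.ofReal (ph p.2) * F (√(p.1 ^ 2 + p.2 ^ 2)))) ?_ hs
    exact (ph_meas.comp measurable_fst).mul ((ph_meas.comp measurable_snd).mul h0)

lemma scale_Ioi (s : ℝ) (hs : 0 < s) (H : ℝ → ℝ≥0∞) :
    ∫⁻ r in Set.Ioi (0 : ℝ), H r = ∫⁻ b in Set.Ioi (0 : ℝ), ENNReal.ofReal s * H (s * b) := by
  have h := lintegral_image_eq_lintegral_abs_deriv_mul (s := Set.Ioi (0 : ℝ)) measurableSet_Ioi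
    (f := fun b => s * b) (f' := fun _ => s)
    (fun x _ => by simpa using ((hasDerivAt_id x).const_mul s).hasDerivWithinAt)
    (fun x _ y _ hxy => mul_left_cancel₀ hs.ne' hxy) H
  have h2 : (fun b => s * b) '' Set.Ioi (0 : ℝ) = Set.Ioi 0 := by
    ext x
    constructor
    · rintro ⟨b, hb, rfl⟩
      exact mul_pos hs hb
    · intro hx
      refine ⟨x / s, div_pos hx hs, ?_⟩
      field_simp
  rw [h2, abs_of_pos hs] at h
  exact h

lemma scale_univ (s c : ℝ) (hs : 0 < s) (H : ℝ → ℝ≥0∞) :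
    ∫⁻ x, H x = ∫⁻ a, ENNReal.ofReal s * H (s * (a + c)) := by
  have h := lintegral_image_eq_lintegral_abs_deriv_mul (s := Set.univ) MeasurableSet.univ
    (f := fun b => s * (b + c)) (f' := fun _ => s)
    (fun x _ => (show HasDerivAt (fun b => s * (b + c)) s x by
      simpa using ((hasDerivAt_id x).add_const c).const_mul s).hasDerivWithinAt)
    (fun x _ y _ hxy => add_right_cancel (mul_left_cancel₀ hs.ne' hxy)) H
  have h2 : (fun b => s * (b + c)) '' Set.univ = Set.univ := by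
    rw [Set.image_univ, Set.range_eq_univ]
    intro x
    refine ⟨x / s - c, ?_⟩
    field_simp
    ring
  rw [h2, abs_of_pos hs] at h
  simpa using h

/-- The law of `(a, b)` for fixed `z`. -/
theorem J2_eq (n m : ℕ) (hn : 2 ≤ n) (z : Fin n → ℝ) (hs : 0 < s2 z) :
    J2 m z = ∫⁻ b in Set.Ioi (0 : ℝ), ∫⁻ a : ℝ, om a b ^ m *
      ENNReal.ofReal (√(n : ℝ) / √(2 * Real.pi) * s2 z * b *
        Real.exp (-(∑ i, (a + z i * b) ^ 2) / 2)) := by
  have hn0 : (0:ℝ) < n := by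
    have : 0 < n := by omega
    exact_mod_cast this
  have hN : 0 < √(n:ℝ) := Real.sqrt_pos.2 hn0
  have hs0 : 0 < √(s2 z) := Real.sqrt_pos.2 hs
  have hNN : √(n:ℝ) ^ 2 = n := Real.sq_sqrt hn0.le
  have hss : √(s2 z) ^ 2 = s2 z := Real.sq_sqrt hs.le
  unfold J2
  -- polar coordinates
  have hG : Measurable (fun q : ℝ × ℝ =>
      om (q.1 / √(n : ℝ) - zb z * q.2 / √(s2 z)) (q.2 / √(s2 z)) ^ m) := by
    refine Measurable.pow_const ?_ m
    exact om_meas.comp (g := fun p : ℝ × ℝ => om p.1 p.2)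
      (f := fun q : ℝ × ℝ => (q.1 / √(n : ℝ) - zb z * q.2 / √(s2 z), q.2 / √(s2 z))) (by fun_prop)
  have h1 : ∀ x : ℝ, ∫⁻ p : ℝ × ℝ,
      om (x / √(n : ℝ) - zb z * √(p.1 ^ 2 + p.2 ^ 2) / √(s2 z)) (√(p.1 ^ 2 + p.2 ^ 2) / √(s2 z)) ^ m
        ∂((gaussianReal 0 1).prod (gaussianReal 0 1)) =
      ∫⁻ r in Set.Ioi (0 : ℝ), ENNReal.ofReal (r * Real.exp (-r ^ 2 / 2)) *
        om (x / √(n : ℝ) - zb z * r / √(s2 z)) (r / √(s2 z)) ^ m := by
    intro x
    exact polar_lint (fun r => om (x / √(n : ℝ) - zb z * r / √(s2 z)) (r / √(s2 z)) ^ m)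
      (hG.comp (g := fun q : ℝ × ℝ =>
      om (q.1 / √(n : ℝ) - zb z * q.2 / √(s2 z)) (q.2 / √(s2 z)) ^ m) (f := fun r : ℝ => (x, r))
        (by fun_prop))
  simp only [h1]
  rw [lintegral_lintegral_swap]
  swap
  · refine Measurable.aemeasurable ?_
    refine Measurable.mul (by fun_prop) hG
  rw [scale_Ioi (√(s2 z)) hs0]
  refine setLIntegral_congr_fun measurableSet_Ioi fun b hb => ?_
  have hb' : 0 < b := hb
  have h2 : Measurable (fun x : ℝ => om (x / √(n : ℝ) - zb z * (√(s2 z) * b) / √(s2 z))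
      (√(s2 z) * b / √(s2 z)) ^ m) :=
    hG.comp (g := fun q : ℝ × ℝ =>
      om (q.1 / √(n : ℝ) - zb z * q.2 / √(s2 z)) (q.2 / √(s2 z)) ^ m)
      (f := fun x : ℝ => (x, √(s2 z) * b)) (by fun_prop)
  change ENNReal.ofReal (√(s2 z)) * ∫⁻ x, ENNReal.ofReal (√(s2 z) * b * Real.exp (-(√(s2 z) * b) ^ 2 / 2)) *
    om (x / √(n : ℝ) - zb z * (√(s2 z) * b) / √(s2 z)) (√(s2 z) * b / √(s2 z)) ^ m ∂(gaussianReal 0 1) = _
  rw [lintegral_const_mul _ h2, gauss_lint _ h2, scale_univ (√(n:ℝ)) (zb z * b) hN]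
  rw [← lintegral_const_mul', ← lintegral_const_mul']
  · refine lintegral_congr fun a => ?_
    have e1 : √(n:ℝ) * (a + zb z * b) / √(n : ℝ) - zb z * (√(s2 z) * b) / √(s2 z) = a := by
      field_simp
      ring
    have e2 : √(s2 z) * b / √(s2 z) = b := by field_simp
    rw [e1, e2]
    have e3 : ∑ i, (a + z i * b) ^ 2 = n * (a + zb z * b) ^ 2 + s2 z * b ^ 2 := by
      have e4 : ∑ i, z i = n * zb z := by unfold zb; field_simp
      have e5 : ∑ i, (z i - zb z) = 0 := by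
        rw [Finset.sum_sub_distrib, e4]; simp
      have e6 : ∀ i, (a + z i * b) ^ 2 = (a + zb z * b) ^ 2 +
          (2 * (a + zb z * b) * b) * (z i - zb z) + b ^ 2 * (z i - zb z) ^ 2 := by
        intro i; ring
      simp only [e6]
      rw [Finset.sum_add_distrib, Finset.sum_add_distrib, ← Finset.mul_sum, ← Finset.mul_sum, e5]
      unfold s2
      simp
      ring
    have e7 : ∀ u v t N' : ℝ, 0 ≤ u → 0 ≤ v → 0 ≤ t → 0 ≤ N' → ∀ w : ℝ≥0∞,
        ENNReal.ofReal t * (ENNReal.ofReal u * (ENNReal.ofReal N' * (ENNReal.ofReal v * w))) =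
        w * ENNReal.ofReal (t * u * (N' * v)) := by
      intro u v t N' hu hv ht hN' w
      rw [ENNReal.ofReal_mul (by positivity), ENNReal.ofReal_mul ht, ENNReal.ofReal_mul hN']
      ring
    rw [e7 _ _ _ _ (by positivity) (ph_nonneg _) hs0.le hN.le]
    congr 2
    rw [e3]
    unfold ph
    have e8 : Real.exp (-(n * (a + zb z * b) ^ 2 + s2 z * b ^ 2) / 2) =
        Real.exp (-(√(s2 z) * b) ^ 2 / 2) * Real.exp (-(√(n:ℝ) * (a + zb z * b)) ^ 2 / 2) := by
      rw [← Real.exp_add]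
      congr 1
      rw [mul_pow, mul_pow, hNN, hss]; ring
    rw [e8]
    calc √(s2 z) * (√(s2 z) * b * Real.exp (-(√(s2 z) * b) ^ 2 / 2)) *
          (√(n:ℝ) * (1 / √(2 * Real.pi) * Real.exp (-(√(n:ℝ) * (a + zb z * b)) ^ 2 / 2))) =
          √(n : ℝ) / √(2 * Real.pi) * (√(s2 z) ^ 2) * b *
          (Real.exp (-(√(s2 z) * b) ^ 2 / 2) * Real.exp (-(√(n:ℝ) * (a + zb z * b)) ^ 2 / 2)) := by
          ring
      _ = _ := by rw [hss]
  · exact ENNReal.ofReal_ne_top
  · exact ENNReal.ofReal_ne_top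


end Pool.Agent.VP.D2
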