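import Pool.Agent.VP.Defs

set_option autoImplicit false
open MeasureTheory ProbabilityTheory
open scoped ENNReal Matrix

namespace Pool.Agent.VP.D3

open Pool.Agent.VP



/-- the weight -/
private noncomputable def ww (a b t : ℝ) : ℝ := Real.exp (-(a + t * b) ^ 2 / 2)

private theorem ww_cont (a b : ℝ) : Continuous (ww a b) := by
  unfold ww; fun_prop

private theorem ww_pos (a b t : ℝ) : 0 < ww a b t := Real.exp_pos _

/-- moments of the weight on `[-1,1]` -/
private noncomputable def MM (a b : ℝ) (k : ℕ) : ℝ := ∫ t in (-1:ℝ)..1, t ^ k * ww a b t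

private theorem J0_eq (x : ℝ) (hx : 0 < x) :
    √(2 * Real.pi) * (SS x).toReal = ∫ u in (-x)..x, Real.exp (-u ^ 2 / 2) := by
  have hset : {t : ℝ | |t| < x} = Set.Ioo (-x) x := by
    ext t; simp [abs_lt]
  unfold SS
  rw [gaussianReal_apply_eq_integral 0 one_ne_zero, hset, ENNReal.toReal_ofReal
    (integral_nonneg fun t => gaussianPDFReal_nonneg 0 1 t), ← integral_Ioc_eq_integral_Ioo,
    ← intervalIntegral.integral_of_le (by linarith), ← intervalIntegral.integral_const_mul]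
  apply intervalIntegral.integral_congr
  intro u _
  simp only [gaussianPDFReal_def, NNReal.coe_one, mul_one, sub_zero]
  have h : √(2 * Real.pi) ≠ 0 := by positivity
  field_simp

private theorem J0_pos (x : ℝ) (hx : 0 < x) : 0 < ∫ u in (-x)..x, Real.exp (-u ^ 2 / 2) := by
  apply intervalIntegral.intervalIntegral_pos_of_pos
  · exact (by fun_prop : Continuous fun u : ℝ => Real.exp (-u ^ 2 / 2)).intervalIntegrable _ _
  · intro u; exact Real.exp_pos _
  · linarith

private theorem J1_eq (x : ℝ) : ∫ u in (-x)..x, u * Real.exp (-u ^ 2 / 2) = 0 := by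
  have h : ∀ u ∈ Set.uIcc (-x) x, HasDerivAt (fun u : ℝ => -Real.exp (-u ^ 2 / 2))
      (u * Real.exp (-u ^ 2 / 2)) u := by
    intro u _
    have h1 : HasDerivAt (fun u : ℝ => -u ^ 2 / 2) (-u) u := by
      have := ((hasDerivAt_pow 2 u).neg).div_const 2
      refine this.congr_deriv ?_
      simp; ring
    have h2 := h1.exp.neg
    refine h2.congr_deriv ?_
    ring
  rw [intervalIntegral.integral_eq_sub_of_hasDerivAt h
    ((by fun_prop : Continuous fun u : ℝ => u * Real.exp (-u ^ 2 / 2)).intervalIntegrable _ _)]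
  simp

private theorem J2_eq (x : ℝ) : ∫ u in (-x)..x, u ^ 2 * Real.exp (-u ^ 2 / 2) =
    (∫ u in (-x)..x, Real.exp (-u ^ 2 / 2)) - 2 * x * Real.exp (-x ^ 2 / 2) := by
  have h : ∀ u ∈ Set.uIcc (-x) x, HasDerivAt (fun u : ℝ => u * Real.exp (-u ^ 2 / 2))
      (Real.exp (-u ^ 2 / 2) - u ^ 2 * Real.exp (-u ^ 2 / 2)) u := by
    intro u _
    have h1 : HasDerivAt (fun u : ℝ => -u ^ 2 / 2) (-u) u := by
      have := ((hasDerivAt_pow 2 u).neg).div_const 2
      refine this.congr_deriv ?_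
      simp; ring
    have h2 := (hasDerivAt_id u).mul h1.exp
    refine h2.congr_deriv ?_
    simp only [id]
    ring
  have h3 := intervalIntegral.integral_eq_sub_of_hasDerivAt h
    ((by fun_prop : Continuous fun u : ℝ =>
      Real.exp (-u ^ 2 / 2) - u ^ 2 * Real.exp (-u ^ 2 / 2)).intervalIntegrable _ _)
  rw [intervalIntegral.integral_sub
    ((by fun_prop : Continuous fun u : ℝ => Real.exp (-u ^ 2 / 2)).intervalIntegrable _ _)
    ((by fun_prop : Continuous fun u : ℝ =>
      u ^ 2 * Real.exp (-u ^ 2 / 2)).intervalIntegrable _ _)] at h3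
  simp only [even_two, Even.neg_pow] at h3
  linarith

/-- lower bound for the integral over the larger interval -/
private theorem big_ge (f : ℝ → ℝ) (hf : Continuous f) (h0 : ∀ u, 0 ≤ f u) (x a b : ℝ)
    (hx : 0 < x) (ha : a - b ≤ -x) (hb : x ≤ a + b) :
    ∫ u in (-x)..x, f u ≤ ∫ u in (a - b)..(a + b), f u := by
  apply intervalIntegral.integral_mono_interval ha (by linarith) hb
  · filter_upwards with u using h0 u
  · exact hf.intervalIntegrable _ _

private theorem comp_int (f : ℝ → ℝ) (a b : ℝ) (hb : b ≠ 0) :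
    ∫ t in (-1:ℝ)..1, f (a + t * b) = b⁻¹ * ∫ u in (a - b)..(a + b), f u := by
  have := intervalIntegral.integral_comp_add_mul f hb a (a := -1) (b := 1)
  rw [show a + b * (-1) = a - b by ring, show a + b * 1 = a + b by ring, smul_eq_mul] at this
  rw [← this]
  apply intervalIntegral.integral_congr
  intro t _
  simp only
  rw [mul_comm t b]

private theorem M0_ge (x a b : ℝ) (hx : 0 < x) (ha : a - b ≤ -x) (hb : x ≤ a + b) :
    (∫ u in (-x)..x, Real.exp (-u ^ 2 / 2)) / b ≤ MM a b 0 := by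
  have hb0 : 0 < b := by linarith
  have h1 := comp_int (fun u => Real.exp (-u ^ 2 / 2)) a b hb0.ne'
  have h2 : MM a b 0 = b⁻¹ * ∫ u in (a - b)..(a + b), Real.exp (-u ^ 2 / 2) := by
    rw [← h1]
    unfold MM ww
    simp
  rw [h2, div_eq_inv_mul]
  apply mul_le_mul_of_nonneg_left _ (inv_nonneg.mpr hb0.le)
  exact big_ge _ (by fun_prop) (fun u => (Real.exp_pos _).le) x a b hx ha hb

private theorem MM_int (a b : ℝ) (k : ℕ) :
    IntervalIntegrable (fun t => t ^ k * ww a b t) volume (-1) 1 := by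
  have := ww_cont a b
  exact (by fun_prop : Continuous fun t : ℝ => t ^ k * ww a b t).intervalIntegrable _ _

private theorem var_ge (x a b : ℝ) (hx : 0 < x) (ha : a - b ≤ -x) (hb : x ≤ a + b) :
    (∫ u in (-x)..x, Real.exp (-u ^ 2 / 2)) * (∫ u in (-x)..x, u ^ 2 * Real.exp (-u ^ 2 / 2))
      / b ^ 4 ≤ MM a b 2 * MM a b 0 - MM a b 1 ^ 2 := by
  have hb0 : 0 < b := by linarith
  have hJ0 := J0_pos x hx
  have hM0 := M0_ge x a b hx ha hb
  have hM0pos : 0 < MM a b 0 := lt_of_lt_of_le (by positivity) hM0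
  set τ : ℝ := MM a b 1 / MM a b 0 with hτ
  set t0 : ℝ := a + b * τ with ht0
  -- the variance integral
  have h1 : ∫ t in (-1:ℝ)..1, (t - τ) ^ 2 * ww a b t =
      MM a b 2 - 2 * τ * MM a b 1 + τ ^ 2 * MM a b 0 := by
    unfold MM
    rw [← intervalIntegral.integral_const_mul, ← intervalIntegral.integral_const_mul,
      ← intervalIntegral.integral_sub (MM_int a b 2) ((MM_int a b 1).const_mul _),
      ← intervalIntegral.integral_add ((MM_int a b 2).sub ((MM_int a b 1).const_mul _))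
        ((MM_int a b 0).const_mul _)]
    apply intervalIntegral.integral_congr
    intro t _
    simp only
    ring
  have h2 : ∫ t in (-1:ℝ)..1, (t - τ) ^ 2 * ww a b t =
      b⁻¹ * ∫ u in (a - b)..(a + b), ((u - t0) ^ 2 / b ^ 2) * Real.exp (-u ^ 2 / 2) := by
    rw [← comp_int (fun u => ((u - t0) ^ 2 / b ^ 2) * Real.exp (-u ^ 2 / 2)) a b hb0.ne']
    apply intervalIntegral.integral_congr
    intro t _
    simp only [ww]
    rw [ht0]
    have : (a + t * b - (a + b * τ)) ^ 2 / b ^ 2 = (t - τ) ^ 2 := by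
      field_simp
      ring
    rw [this]
  have h3 : (∫ u in (-x)..x, u ^ 2 * Real.exp (-u ^ 2 / 2)) / b ^ 2 ≤
      ∫ u in (a - b)..(a + b), ((u - t0) ^ 2 / b ^ 2) * Real.exp (-u ^ 2 / 2) := by
    refine le_trans ?_ (big_ge (fun u => ((u - t0) ^ 2 / b ^ 2) * Real.exp (-u ^ 2 / 2))
      (by fun_prop) (fun u => mul_nonneg (by positivity) (Real.exp_pos _).le) x a b hx ha hb)
    have h4 : ∫ u in (-x)..x, ((u - t0) ^ 2 / b ^ 2) * Real.exp (-u ^ 2 / 2) =
        (1 / b ^ 2) * ((∫ u in (-x)..x, u ^ 2 * Real.exp (-u ^ 2 / 2)) -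
          2 * t0 * (∫ u in (-x)..x, u * Real.exp (-u ^ 2 / 2)) +
          t0 ^ 2 * (∫ u in (-x)..x, Real.exp (-u ^ 2 / 2))) := by
      rw [← intervalIntegral.integral_const_mul, ← intervalIntegral.integral_const_mul,
        ← intervalIntegral.integral_sub, ← intervalIntegral.integral_add,
        ← intervalIntegral.integral_const_mul]
      · apply intervalIntegral.integral_congr
        intro u _
        simp only
        ring
      all_goals
        apply Continuous.intervalIntegrable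
        fun_prop
    rw [h4, J1_eq]
    rw [div_eq_inv_mul, one_div]
    apply mul_le_mul_of_nonneg_left _ (by positivity)
    nlinarith [mul_nonneg (sq_nonneg t0) hJ0.le]
  have hJ2 : 0 ≤ ∫ u in (-x)..x, u ^ 2 * Real.exp (-u ^ 2 / 2) :=
    intervalIntegral.integral_nonneg (by linarith) fun u _ =>
      mul_nonneg (sq_nonneg _) (Real.exp_pos _).le
  have h5 : MM a b 2 * MM a b 0 - MM a b 1 ^ 2 =
      MM a b 0 * ∫ t in (-1:ℝ)..1, (t - τ) ^ 2 * ww a b t := by
    rw [h1, hτ]
    field_simp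
    ring
  rw [h5, h2]
  calc (∫ u in (-x)..x, Real.exp (-u ^ 2 / 2)) *
        (∫ u in (-x)..x, u ^ 2 * Real.exp (-u ^ 2 / 2)) / b ^ 4
      = ((∫ u in (-x)..x, Real.exp (-u ^ 2 / 2)) / b) *
        (b⁻¹ * ((∫ u in (-x)..x, u ^ 2 * Real.exp (-u ^ 2 / 2)) / b ^ 2)) := by
        field_simp
    _ ≤ _ := by
        apply mul_le_mul hM0 _ (by positivity) hM0pos.le
        exact mul_le_mul_of_nonneg_left h3 (by positivity)

/-- the restricted Lebesgue measure on `[-1,1]` -/
private noncomputable abbrev rr : Measure ℝ := volume.restrict (Set.Icc (-1:ℝ) 1)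

private theorem MM_eq (a b : ℝ) (k : ℕ) : ∫ t, t ^ k * ww a b t ∂rr = MM a b k := by
  unfold MM
  rw [intervalIntegral.integral_of_le (by norm_num), ← integral_Icc_eq_integral_Ioc]

private theorem fint (a b : ℝ) (k : ℕ) : Integrable (fun t => t ^ k * ww a b t) rr := by
  have := ww_cont a b
  exact (by fun_prop : Continuous fun t : ℝ => t ^ k * ww a b t).integrableOn_Icc

/-- exponent vector of `z_i z_j` -/
private def ee {n : ℕ} (i j k : Fin n) : ℕ := (if k = i then 1 else 0) + (if k = j then 1 else 0)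

private theorem prod_ee {n : ℕ} (a b : ℝ) (i j : Fin n) (z : Fin n → ℝ) :
    ∏ k, (z k ^ (ee i j k) * ww a b (z k)) = z i * z j * ∏ k, ww a b (z k) := by
  rw [Finset.prod_mul_distrib]
  congr 1
  unfold ee
  simp only [pow_add, Finset.prod_mul_distrib]
  congr 1
  · rw [Finset.prod_eq_single i]
    · simp
    · intro k _ hk; simp [hk]
    · intro h; exact absurd (Finset.mem_univ _) h
  · rw [Finset.prod_eq_single j]
    · simp
    · intro k _ hk; simp [hk]
    · intro h; exact absurd (Finset.mem_univ _) h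

private theorem int_ee {n : ℕ} (a b : ℝ) (i j : Fin n) :
    ∫ z : Fin n → ℝ, z i * z j * ∏ k, ww a b (z k) ∂(Measure.pi fun _ : Fin n => rr) =
      ∏ k, MM a b (ee i j k) := by
  simp_rw [← prod_ee a b i j]
  rw [integral_fintype_prod_eq_prod (μ := fun _ : Fin n => rr)
    (fun k t => t ^ (ee i j k) * ww a b t)]
  apply Finset.prod_congr rfl
  intro k _
  exact MM_eq a b _

private theorem integrable_ee {n : ℕ} (a b : ℝ) (i j : Fin n) :
    Integrable (fun z : Fin n → ℝ => z i * z j * ∏ k, ww a b (z k))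
      (Measure.pi fun _ : Fin n => rr) := by
  simp_rw [← prod_ee a b i j]
  exact Integrable.fintype_prod (μ := fun _ : Fin n => rr)
    (f := fun k t => t ^ (ee i j k) * ww a b t) fun k => fint a b _

private theorem prodMM {n : ℕ} (hn : 2 ≤ n) (a b : ℝ) (i j : Fin n) :
    ∏ k, MM a b (ee i j k) = if i = j then MM a b 2 * MM a b 0 * MM a b 0 ^ (n - 2) else
      MM a b 1 ^ 2 * MM a b 0 ^ (n - 2) := by
  split_ifs with h
  · subst h
    rw [← Finset.mul_prod_erase _ _ (Finset.mem_univ i)]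
    have h1 : ∏ k ∈ Finset.univ.erase i, MM a b (ee i i k) = MM a b 0 ^ (n - 1) := by
      rw [Finset.prod_congr rfl (g := fun _ => MM a b 0), Finset.prod_const,
        Finset.card_erase_of_mem (Finset.mem_univ _), Finset.card_univ, Fintype.card_fin]
      intro k hk
      have : k ≠ i := Finset.ne_of_mem_erase hk
      simp [ee, this]
    rw [h1]
    have h2 : ee i i i = 2 := by simp [ee]
    rw [h2, show n - 1 = (n - 2) + 1 by omega, pow_succ]
    ring
  · rw [← Finset.mul_prod_erase _ _ (Finset.mem_univ i),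
      ← Finset.mul_prod_erase _ _ (Finset.mem_erase.mpr ⟨Ne.symm h, Finset.mem_univ j⟩)]
    have h1 : ∏ k ∈ (Finset.univ.erase i).erase j, MM a b (ee i j k) = MM a b 0 ^ (n - 2) := by
      rw [Finset.prod_congr rfl (g := fun _ => MM a b 0), Finset.prod_const,
        Finset.card_erase_of_mem (Finset.mem_erase.mpr ⟨Ne.symm h, Finset.mem_univ j⟩),
        Finset.card_erase_of_mem (Finset.mem_univ _), Finset.card_univ, Fintype.card_fin]
      · congr 1
      · intro k hk
        have h3 : k ≠ j := Finset.ne_of_mem_erase hk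
        have h4 : k ≠ i := Finset.ne_of_mem_erase (Finset.mem_of_mem_erase hk)
        simp [ee, h3, h4]
    rw [h1]
    have h2 : ee i j i = 1 := by simp [ee, h]
    have h3 : ee i j j = 1 := by simp [ee, Ne.symm h]
    rw [h2, h3]
    ring

private theorem s2_eq {n : ℕ} (hn : 2 ≤ n) (z : Fin n → ℝ) :
    s2 z = ∑ i, z i * z i - (1 / (n : ℝ)) * ∑ i, ∑ j, z i * z j := by
  have hn0 : (n : ℝ) ≠ 0 := by positivity
  have h1 : ∑ i, ∑ j, z i * z j = (∑ i, z i) * (∑ i, z i) := by
    rw [Finset.sum_mul_sum]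
  rw [h1]
  unfold s2
  have h2 : ∀ i, (z i - zb z) ^ 2 = z i * z i - 2 * zb z * z i + zb z ^ 2 := by
    intro i; ring
  simp_rw [h2]
  rw [Finset.sum_add_distrib, Finset.sum_sub_distrib, ← Finset.mul_sum, Finset.sum_const,
    Finset.card_univ, Fintype.card_fin, nsmul_eq_mul]
  have h3 : ∑ i, z i = n * zb z := by
    unfold zb; field_simp
  rw [h3]
  field_simp
  ring

private theorem s2_int {n : ℕ} (hn : 2 ≤ n) (a b : ℝ) :
    Integrable (fun z : Fin n → ℝ => s2 z * ∏ k, ww a b (z k)) (Measure.pi fun _ : Fin n => rr) ∧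
    ∫ z : Fin n → ℝ, s2 z * ∏ k, ww a b (z k) ∂(Measure.pi fun _ : Fin n => rr) =
      ((n : ℝ) - 1) * (MM a b 2 * MM a b 0 - MM a b 1 ^ 2) * MM a b 0 ^ (n - 2) := by
  have hn0 : (n : ℝ) ≠ 0 := by positivity
  have h1 : (fun z : Fin n → ℝ => s2 z * ∏ k, ww a b (z k)) =
      fun z => ∑ i, z i * z i * ∏ k, ww a b (z k) -
        (1 / (n : ℝ)) * ∑ i, ∑ j, z i * z j * ∏ k, ww a b (z k) := by
    funext z
    rw [s2_eq hn, sub_mul, Finset.sum_mul, mul_assoc, Finset.sum_mul]
    congr 2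
    apply Finset.sum_congr rfl
    intro i _
    rw [Finset.sum_mul]
  have hi1 : Integrable (fun z : Fin n → ℝ => ∑ i, z i * z i * ∏ k, ww a b (z k))
      (Measure.pi fun _ : Fin n => rr) :=
    integrable_finsetSum _ fun i _ => integrable_ee a b i i
  have hi2 : Integrable (fun z : Fin n → ℝ =>
      (1 / (n : ℝ)) * ∑ i, ∑ j, z i * z j * ∏ k, ww a b (z k))
      (Measure.pi fun _ : Fin n => rr) :=
    (integrable_finsetSum _ fun i _ => integrable_finsetSum _ fun j _ =>
      integrable_ee a b i j).const_mul _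
  rw [h1]
  refine ⟨hi1.sub hi2, ?_⟩
  rw [integral_sub hi1 hi2, integral_const_mul,
    integral_finsetSum _ fun i _ => integrable_ee a b i i,
    integral_finsetSum _ fun i _ => integrable_finsetSum _ fun j _ => integrable_ee a b i j]
  have h2 : ∀ i : Fin n, ∫ z : Fin n → ℝ, ∑ j, z i * z j * ∏ k, ww a b (z k)
      ∂(Measure.pi fun _ : Fin n => rr) =
      ∑ j, ∫ z : Fin n → ℝ, z i * z j * ∏ k, ww a b (z k) ∂(Measure.pi fun _ : Fin n => rr) :=
    fun i => integral_finsetSum _ fun j _ => integrable_ee a b i j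
  simp_rw [h2, int_ee, prodMM hn]
  have h3 : ∀ i : Fin n, ∑ j : Fin n, (if i = j then MM a b 2 * MM a b 0 * MM a b 0 ^ (n - 2) else
      MM a b 1 ^ 2 * MM a b 0 ^ (n - 2)) = (MM a b 2 * MM a b 0 * MM a b 0 ^ (n - 2) -
      MM a b 1 ^ 2 * MM a b 0 ^ (n - 2)) + n * (MM a b 1 ^ 2 * MM a b 0 ^ (n - 2)) := by
    intro i
    have h4 : ∀ j : Fin n, (if i = j then MM a b 2 * MM a b 0 * MM a b 0 ^ (n - 2) else
      MM a b 1 ^ 2 * MM a b 0 ^ (n - 2)) = (if i = j then (MM a b 2 * MM a b 0 *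
        MM a b 0 ^ (n - 2) - MM a b 1 ^ 2 * MM a b 0 ^ (n - 2)) else 0) +
        MM a b 1 ^ 2 * MM a b 0 ^ (n - 2) := by
      intro j; split_ifs <;> ring
    simp_rw [h4]
    rw [Finset.sum_add_distrib, Finset.sum_ite_eq, Finset.sum_const, Finset.card_univ,
      Fintype.card_fin, nsmul_eq_mul]
    simp
  simp_rw [h3]
  simp only [if_true, Finset.sum_const, Finset.card_univ, Fintype.card_fin, nsmul_eq_mul]
  field_simp
  ring

theorem z_int' (n : ℕ) (hn : 2 ≤ n) (x a b : ℝ) (hx : 0 < x) (ha : a - b ≤ -x) (hb : x ≤ a + b) :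
    ENNReal.ofReal (((n : ℝ) - 1) * (1 - 2 * x * Real.exp (-x ^ 2 / 2) / (√(2 * Real.pi) * (SS x).toReal)) / b ^ 2 *
      (√(2 * Real.pi) * (SS x).toReal / (2 * b)) ^ n) ≤
    ((2 : ℝ≥0∞) ^ n)⁻¹ * ∫⁻ z in Set.pi Set.univ (fun _ : Fin n => Set.Icc (-1 : ℝ) 1),
      ENNReal.ofReal (s2 z * Real.exp (-(∑ i, (a + z i * b) ^ 2) / 2)) := by
  have hb0 : 0 < b := by linarith
  set J0 : ℝ := ∫ u in (-x)..x, Real.exp (-u ^ 2 / 2) with hJ0def
  set J2 : ℝ := ∫ u in (-x)..x, u ^ 2 * Real.exp (-u ^ 2 / 2) with hJ2def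
  have hJ0 : 0 < J0 := J0_pos x hx
  have hJ2 : 0 ≤ J2 := intervalIntegral.integral_nonneg (by linarith) fun u _ =>
      mul_nonneg (sq_nonneg _) (Real.exp_pos _).le
  have hJ2e : J2 = J0 - 2 * x * Real.exp (-x ^ 2 / 2) := J2_eq x
  have hn0 : (0 : ℝ) < n := by positivity
  have hn1 : (0 : ℝ) ≤ (n : ℝ) - 1 := by
    have : (2 : ℝ) ≤ n := by exact_mod_cast hn
    linarith
  rw [J0_eq x hx]
  have hM0 : J0 / b ≤ MM a b 0 := M0_ge x a b hx ha hb
  have hvar : J0 * J2 / b ^ 4 ≤ MM a b 2 * MM a b 0 - MM a b 1 ^ 2 := var_ge x a b hx ha hb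
  obtain ⟨hint, hval⟩ := s2_int (n := n) hn a b
  -- the right hand side
  have hR : ∫⁻ z in Set.pi Set.univ (fun _ : Fin n => Set.Icc (-1 : ℝ) 1),
      ENNReal.ofReal (s2 z * Real.exp (-(∑ i, (a + z i * b) ^ 2) / 2)) =
      ENNReal.ofReal (((n : ℝ) - 1) * (MM a b 2 * MM a b 0 - MM a b 1 ^ 2) *
        MM a b 0 ^ (n - 2)) := by
    rw [← hval, ofReal_integral_eq_lintegral_ofReal hint]
    · rw [volume_pi, Measure.restrict_pi_pi]
      apply lintegral_congr
      intro z
      congr 2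
      unfold ww
      rw [← Real.exp_sum]
      congr 1
      rw [← Finset.sum_neg_distrib, Finset.sum_div]
    · filter_upwards with z
      apply mul_nonneg
      · exact Finset.sum_nonneg fun i _ => sq_nonneg _
      · exact Finset.prod_nonneg fun i _ => (ww_pos a b _).le
  rw [hR]
  have h2 : ((2 : ℝ≥0∞) ^ n)⁻¹ = ENNReal.ofReal (((2 : ℝ) ^ n)⁻¹) := by
    rw [ENNReal.ofReal_inv_of_pos (by positivity), ENNReal.ofReal_pow (by norm_num)]
    simp
  rw [h2, ← ENNReal.ofReal_mul (by positivity)]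
  apply ENNReal.ofReal_le_ofReal
  have hpow : (J0 / b) ^ (n - 2) ≤ MM a b 0 ^ (n - 2) :=
    pow_le_pow_left₀ (by positivity) hM0 _
  calc ((n : ℝ) - 1) * (1 - 2 * x * Real.exp (-x ^ 2 / 2) / J0) / b ^ 2 * (J0 / (2 * b)) ^ n
      = (2 ^ n)⁻¹ * (((n : ℝ) - 1) * (J0 * J2 / b ^ 4) * (J0 / b) ^ (n - 2)) := by
        rw [hJ2e]
        obtain ⟨m, rfl⟩ : ∃ m, n = m + 2 := ⟨n - 2, by omega⟩
        rw [show m + 2 - 2 = m by omega]
        rw [show J0 / (2 * b) = (2 : ℝ)⁻¹ * (J0 / b) by field_simp]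
        rw [mul_pow, inv_pow, pow_add (J0 / b) m 2]
        field_simp
    _ ≤ _ := by
        apply mul_le_mul_of_nonneg_left _ (by positivity)
        apply mul_le_mul _ hpow (by positivity)
        · apply mul_nonneg hn1
          refine le_trans ?_ hvar
          positivity
        · exact mul_le_mul_of_nonneg_left hvar hn1


end Pool.Agent.VP.D3
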