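import Pool.Agent.VP.Defs

set_option autoImplicit false
open MeasureTheory ProbabilityTheory
open scoped ENNReal Matrix

namespace Pool.Agent.VP.D4

open Pool.Agent.VP



theorem aux_s2_nonneg {n : ℕ} (z : Fin n → ℝ) : 0 ≤ s2 z :=
  Finset.sum_nonneg (fun _ _ => sq_nonneg _)

theorem aux_om_ge {x a b : ℝ} (h : |a| ≤ b - x) : SS x ≤ om a b := by
  refine measure_mono ?_
  intro t ht
  have h1 : |t| < x := ht
  have h2 : |t - a| ≤ |t| + |a| := abs_sub t a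
  change |t - a| ≤ b
  linarith

theorem aux_meas (n : ℕ) (C : ℝ≥0∞) (c : ℝ) :
    Measurable (fun p : ((Fin n → ℝ) × ℝ) × ℝ => C * ENNReal.ofReal (c * p.1.2) *
      ENNReal.ofReal (s2 p.1.1 * Real.exp (-(∑ i, (p.2 + p.1.1 i * p.1.2) ^ 2) / 2))) := by
  have h1 : Continuous (fun p : ((Fin n → ℝ) × ℝ) × ℝ => c * p.1.2) := by fun_prop
  have h2 : Continuous (fun p : ((Fin n → ℝ) × ℝ) × ℝ =>
      s2 p.1.1 * Real.exp (-(∑ i, (p.2 + p.1.1 i * p.1.2) ^ 2) / 2)) := by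
    unfold s2 zb
    fun_prop
  exact (measurable_const.mul h1.measurable.ennreal_ofReal).mul h2.measurable.ennreal_ofReal

theorem aux_SS_ne_top (x : ℝ) : SS x ≠ ⊤ := measure_ne_top _ _

theorem aux_num {n : ℕ} (hn : 2 ≤ n) {x b J0 r c : ℝ} (hx : 0 < x) (hJ0 : 0 ≤ J0) (hr : 0 ≤ r)
    (hc : 0 ≤ c) (hb1 : x ≤ b) (hb2 : b ≤ x * (1 + 1 / (n : ℝ))) :
    c * ((n : ℝ) - 1) * r / (x * (1 + 1 / (n : ℝ))) * (J0 / (2 * x)) ^ n / (1 + 1 / (n : ℝ)) ^ n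
      ≤ (c * b) * (((n : ℝ) - 1) * r / b ^ 2 * (J0 / (2 * b)) ^ n) := by
  have hn' : (2 : ℝ) ≤ (n : ℝ) := by exact_mod_cast hn
  have hb0 : 0 < b := by linarith
  have hu : 0 < 1 + 1 / (n : ℝ) := by positivity
  have e1 : (c * b) * (((n : ℝ) - 1) * r / b ^ 2 * (J0 / (2 * b)) ^ n)
      = c * ((n : ℝ) - 1) * r / b * (J0 / (2 * b)) ^ n := by
    field_simp
  have e2 : c * ((n : ℝ) - 1) * r / (x * (1 + 1 / (n : ℝ))) * (J0 / (2 * x)) ^ n
      / (1 + 1 / (n : ℝ)) ^ n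
      = c * ((n : ℝ) - 1) * r / (x * (1 + 1 / (n : ℝ))) * (J0 / (2 * (x * (1 + 1 / (n : ℝ))))) ^ n := by
    rw [mul_div_assoc, ← div_pow, div_div]
    ring_nf
  rw [e1, e2]
  have h0 : 0 ≤ c * ((n : ℝ) - 1) * r := by
    have : 0 ≤ (n : ℝ) - 1 := by linarith
    positivity
  refine mul_le_mul ?_ ?_ (by positivity) (by positivity)
  · exact div_le_div_of_nonneg_left h0 hb0 hb2
  · refine pow_le_pow_left₀ (by positivity) ?_ n
    exact div_le_div_of_nonneg_left hJ0 (by positivity) (by linarith)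

theorem aux_num2 {n : ℕ} (hn : 2 ≤ n) {x J0 r : ℝ} (hx : 0 < x) (hJ0 : 0 ≤ J0) (hr : 0 ≤ r) :
    ((n : ℝ) - 1) * x / (2 * √(2 * Real.pi) * n * √(n : ℝ)) * r * (J0 / (2 * x)) ^ n
        / (1 + 1 / (n : ℝ)) ^ (n + 2) ≤
    ((√(n : ℝ) / √(2 * Real.pi)) * ((n : ℝ) - 1) * r / (x * (1 + 1 / (n : ℝ))) *
      (J0 / (2 * x)) ^ n / (1 + 1 / (n : ℝ)) ^ n) * (x / n) * (x / n / 2) := by
  have hn' : (2 : ℝ) ≤ (n : ℝ) := by exact_mod_cast hn
  have hn0 : (0 : ℝ) < (n : ℝ) := by linarith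
  have hs : 0 < √(n : ℝ) := Real.sqrt_pos.2 hn0
  have hp : 0 < √(2 * Real.pi) := Real.sqrt_pos.2 (by positivity)
  have hss : √(n : ℝ) * √(n : ℝ) = n := Real.mul_self_sqrt hn0.le
  obtain ⟨q, hq⟩ : ∃ q, q = √(n : ℝ) := ⟨_, rfl⟩
  obtain ⟨π', hπ⟩ : ∃ π', π' = √(2 * Real.pi) := ⟨_, rfl⟩
  obtain ⟨P, hP⟩ : ∃ P, P = (J0 / (2 * x)) ^ n := ⟨_, rfl⟩
  obtain ⟨u, hu⟩ : ∃ u, u = 1 + 1 / (n : ℝ) := ⟨_, rfl⟩
  have hP0 : 0 ≤ P := by rw [hP]; positivity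
  have hu1 : 1 ≤ u := by
    rw [hu]
    have : 0 ≤ 1 / (n : ℝ) := by positivity
    linarith
  rw [← hP, ← hu, ← hπ, ← hq]
  rw [← hq] at hs hss
  rw [← hπ] at hp
  have hu0 : 0 < u := by linarith
  have hn1 : 0 ≤ (n : ℝ) - 1 := by linarith
  have e1 : (q / π' * ((n : ℝ) - 1) * r / (x * u) * P / u ^ n) * (x / n) * (x / n / 2)
      = ((n : ℝ) - 1) * x / (2 * π' * n * q) * r * P / u ^ (n + 1) := by
    have : (n : ℝ) = q * q := hss.symm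
    rw [pow_succ]
    field_simp
    rw [this]
    ring
  rw [e1]
  refine div_le_div_of_nonneg_left ?_ (by positivity) ?_
  · positivity
  · exact pow_le_pow_right₀ hu1 (by omega)

theorem J2_lower'
    (J2_eq : ∀ (n m : ℕ), 2 ≤ n → ∀ (z : Fin n → ℝ), 0 < s2 z →
      J2 m z = ∫⁻ b in Set.Ioi (0 : ℝ), ∫⁻ a : ℝ, om a b ^ m *
        ENNReal.ofReal (√(n : ℝ) / √(2 * Real.pi) * s2 z * b *
          Real.exp (-(∑ i, (a + z i * b) ^ 2) / 2)))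
    (z_int' : ∀ (n : ℕ), 2 ≤ n → ∀ (x a b : ℝ), 0 < x → a - b ≤ -x → x ≤ a + b →
      ENNReal.ofReal (((n : ℝ) - 1) * (1 - 2 * x * Real.exp (-x ^ 2 / 2) / (√(2 * Real.pi) * (SS x).toReal)) / b ^ 2 *
        (√(2 * Real.pi) * (SS x).toReal / (2 * b)) ^ n) ≤
      ((2 : ℝ≥0∞) ^ n)⁻¹ * ∫⁻ z in Set.pi Set.univ (fun _ : Fin n => Set.Icc (-1 : ℝ) 1),
        ENNReal.ofReal (s2 z * Real.exp (-(∑ i, (a + z i * b) ^ 2) / 2)))
    (n m : ℕ) (hn : 2 ≤ n) (x : ℝ) (hx : 0 < x) :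
    ENNReal.ofReal ((n - 1) * x / (2 * √(2 * Real.pi) * n * √(n : ℝ)) *
      (1 - 2 * x * Real.exp (-x ^ 2 / 2) / (√(2 * Real.pi) * (SS x).toReal)) *
      (√(2 * Real.pi) * (SS x).toReal / (2 * x)) ^ n / (1 + 1 / (n : ℝ)) ^ (n + 2)) * SS x ^ m ≤
    ((2 : ℝ≥0∞) ^ n)⁻¹ * ∫⁻ z in Set.pi Set.univ (fun _ : Fin n => Set.Icc (-1 : ℝ) 1), J2 m z := by
  classical
  obtain ⟨J0, hJ0⟩ : ∃ J0, J0 = √(2 * Real.pi) * (SS x).toReal := ⟨_, rfl⟩
  have hJ0n : 0 ≤ J0 := by rw [hJ0]; positivity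
  obtain ⟨r, hr⟩ : ∃ r, r = 1 - 2 * x * Real.exp (-x ^ 2 / 2) / J0 := ⟨_, rfl⟩
  have hn' : (2 : ℝ) ≤ (n : ℝ) := by exact_mod_cast hn
  have hn0 : (0 : ℝ) < (n : ℝ) := by linarith
  have hz : ∀ a b : ℝ, a - b ≤ -x → x ≤ a + b →
      ENNReal.ofReal (((n : ℝ) - 1) * r / b ^ 2 * (J0 / (2 * b)) ^ n) ≤
      ((2 : ℝ≥0∞) ^ n)⁻¹ * ∫⁻ z in Set.pi Set.univ (fun _ : Fin n => Set.Icc (-1 : ℝ) 1),
        ENNReal.ofReal (s2 z * Real.exp (-(∑ i, (a + z i * b) ^ 2) / 2)) := by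
    intro a b h1 h2
    have h3 := z_int' n hn x a b hx h1 h2
    rw [← hJ0, ← hr] at h3
    exact h3
  rw [← hJ0, ← hr]
  rcases le_total r 0 with hr0 | hr0
  · have h1 : ((n : ℝ) - 1) * x / (2 * √(2 * Real.pi) * n * √(n : ℝ)) * r * (J0 / (2 * x)) ^ n
        / (1 + 1 / (n : ℝ)) ^ (n + 2) ≤ 0 := by
      refine div_nonpos_of_nonpos_of_nonneg ?_ (by positivity)
      refine mul_nonpos_of_nonpos_of_nonneg ?_ (by positivity)
      refine mul_nonpos_of_nonneg_of_nonpos ?_ hr0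
      have : 0 ≤ (n : ℝ) - 1 := by linarith
      positivity
    rw [ENNReal.ofReal_of_nonpos h1, zero_mul]
    exact bot_le
  obtain ⟨δ, hδ⟩ : ∃ δ, δ = x / n := ⟨_, rfl⟩
  have hδ0 : 0 < δ := by rw [hδ]; positivity
  obtain ⟨c, hc⟩ : ∃ c, c = √(n : ℝ) / √(2 * Real.pi) := ⟨_, rfl⟩
  have hc0 : 0 ≤ c := by rw [hc]; positivity
  have hCt : SS x ^ m ≠ ⊤ := ENNReal.pow_ne_top (aux_SS_ne_top x)
  obtain ⟨F, hF⟩ : ∃ F : (Fin n → ℝ) → ℝ → ℝ → ℝ≥0∞, F = fun z b a =>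
    SS x ^ m * ENNReal.ofReal (c * b) *
      ENNReal.ofReal (s2 z * Real.exp (-(∑ i, (a + z i * b) ^ 2) / 2)) := ⟨_, rfl⟩
  have hFm : Measurable (fun p : ((Fin n → ℝ) × ℝ) × ℝ => F p.1.1 p.1.2 p.2) := by
    rw [hF]
    exact aux_meas n _ c
  -- step 1
  have step1 : ∀ z : Fin n → ℝ, ∫⁻ b in Set.Icc (x + δ / 2) (x + δ),
      ∫⁻ a in Set.Icc (-(δ / 2)) (δ / 2), F z b a ≤ J2 m z := by
    intro z
    rcases (aux_s2_nonneg z).lt_or_eq with h0 | h0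
    · rw [J2_eq n m hn z h0]
      have hsub : Set.Icc (x + δ / 2) (x + δ) ⊆ Set.Ioi (0 : ℝ) := by
        intro b hb
        have : 0 < b := by linarith [hb.1]
        exact this
      refine le_trans ?_ (lintegral_mono_set hsub)
      refine setLIntegral_mono' measurableSet_Icc (fun b hb => ?_)
      refine le_trans ?_ (setLIntegral_le_lintegral (Set.Icc (-(δ / 2)) (δ / 2)) _)
      refine setLIntegral_mono' measurableSet_Icc (fun a ha => ?_)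
      have hb0 : 0 ≤ b := by linarith [hb.1]
      have hom : SS x ≤ om a b := aux_om_ge (by
        rw [abs_le]
        constructor
        · linarith [ha.1, hb.1]
        · linarith [ha.2, hb.1])
      have e0 : F z b a = SS x ^ m * ENNReal.ofReal (c * b) *
        ENNReal.ofReal (s2 z * Real.exp (-(∑ i, (a + z i * b) ^ 2) / 2)) := by rw [hF]
      rw [e0]
      have e1 : ENNReal.ofReal (√(n : ℝ) / √(2 * Real.pi) * s2 z * b *
          Real.exp (-(∑ i, (a + z i * b) ^ 2) / 2))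
          = ENNReal.ofReal (c * b) *
            ENNReal.ofReal (s2 z * Real.exp (-(∑ i, (a + z i * b) ^ 2) / 2)) := by
        rw [← ENNReal.ofReal_mul (by positivity), ← hc]
        congr 1
        ring
      rw [e1, ← mul_assoc]
      gcongr
    · have : ∀ b a, F z b a = 0 := by
        intro b a
        rw [hF]
        simp [← h0]
      simp [this]
  -- step 2
  have step2 : ∫⁻ z in Set.pi Set.univ (fun _ : Fin n => Set.Icc (-1 : ℝ) 1),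
      (∫⁻ b in Set.Icc (x + δ / 2) (x + δ), ∫⁻ a in Set.Icc (-(δ / 2)) (δ / 2), F z b a)
      = ∫⁻ b in Set.Icc (x + δ / 2) (x + δ), ∫⁻ a in Set.Icc (-(δ / 2)) (δ / 2),
        ∫⁻ z in Set.pi Set.univ (fun _ : Fin n => Set.Icc (-1 : ℝ) 1), F z b a := by
    rw [lintegral_lintegral_swap]
    · refine lintegral_congr (fun b => ?_)
      rw [lintegral_lintegral_swap]
      have h1 : Measurable (fun q : (Fin n → ℝ) × ℝ => (((q.1, b), q.2) : ((Fin n → ℝ) × ℝ) × ℝ)) := by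
        fun_prop
      exact (hFm.comp h1).aemeasurable
    · exact (hFm.lintegral_prod_right' (ν := volume.restrict (Set.Icc (-(δ / 2)) (δ / 2)))).aemeasurable
  -- step 3
  have h2t : ((2 : ℝ≥0∞) ^ n)⁻¹ ≠ ⊤ := by
    rw [ENNReal.inv_ne_top]
    positivity
  have step3 : ((2 : ℝ≥0∞) ^ n)⁻¹ * ∫⁻ b in Set.Icc (x + δ / 2) (x + δ),
        ∫⁻ a in Set.Icc (-(δ / 2)) (δ / 2),
        ∫⁻ z in Set.pi Set.univ (fun _ : Fin n => Set.Icc (-1 : ℝ) 1), F z b a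
      = ∫⁻ b in Set.Icc (x + δ / 2) (x + δ),
        ∫⁻ a in Set.Icc (-(δ / 2)) (δ / 2), SS x ^ m * ENNReal.ofReal (c * b) *
        (((2 : ℝ≥0∞) ^ n)⁻¹ * ∫⁻ z in Set.pi Set.univ (fun _ : Fin n => Set.Icc (-1 : ℝ) 1),
          ENNReal.ofReal (s2 z * Real.exp (-(∑ i, (a + z i * b) ^ 2) / 2))) := by
    rw [← lintegral_const_mul' _ _ h2t]
    refine lintegral_congr (fun b => ?_)
    rw [← lintegral_const_mul' _ _ h2t]
    refine lintegral_congr (fun a => ?_)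
    rw [hF]
    simp only
    rw [lintegral_const_mul' _ _ (ENNReal.mul_ne_top hCt ENNReal.ofReal_ne_top)]
    ring
  obtain ⟨K, hK⟩ : ∃ K, K = c * ((n : ℝ) - 1) * r / (x * (1 + 1 / (n : ℝ))) * (J0 / (2 * x)) ^ n
    / (1 + 1 / (n : ℝ)) ^ n := ⟨_, rfl⟩
  have hK0 : 0 ≤ K := by
    rw [hK]
    have : 0 ≤ (n : ℝ) - 1 := by linarith
    positivity
  have step4 : ∫⁻ b in Set.Icc (x + δ / 2) (x + δ), ∫⁻ a in Set.Icc (-(δ / 2)) (δ / 2),
        SS x ^ m * ENNReal.ofReal K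
      ≤ ∫⁻ b in Set.Icc (x + δ / 2) (x + δ),
        ∫⁻ a in Set.Icc (-(δ / 2)) (δ / 2), SS x ^ m * ENNReal.ofReal (c * b) *
        (((2 : ℝ≥0∞) ^ n)⁻¹ * ∫⁻ z in Set.pi Set.univ (fun _ : Fin n => Set.Icc (-1 : ℝ) 1),
          ENNReal.ofReal (s2 z * Real.exp (-(∑ i, (a + z i * b) ^ 2) / 2))) := by
    refine setLIntegral_mono' measurableSet_Icc (fun b hb => ?_)
    refine setLIntegral_mono' measurableSet_Icc (fun a ha => ?_)
    have hb0 : 0 < b := by linarith [hb.1]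
    have h1 := hz a b (by linarith [ha.2, hb.1]) (by linarith [ha.1, hb.1])
    refine le_trans ?_ (mul_le_mul_right h1 _)
    rw [mul_assoc, ← ENNReal.ofReal_mul (by positivity)]
    gcongr
    rw [hK]
    refine aux_num hn hx hJ0n hr0 hc0 (by linarith [hb.1]) ?_
    have : x * (1 + 1 / (n : ℝ)) = x + δ := by
      rw [hδ]
      ring
    rw [this]
    exact hb.2
  have step5 : ∫⁻ b in Set.Icc (x + δ / 2) (x + δ), ∫⁻ a in Set.Icc (-(δ / 2)) (δ / 2),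
        SS x ^ m * ENNReal.ofReal K
      = SS x ^ m * ENNReal.ofReal (K * δ * (δ / 2)) := by
    simp only [setLIntegral_const, Real.volume_Icc]
    have e1 : δ / 2 - -(δ / 2) = δ := by ring
    have e2 : x + δ - (x + δ / 2) = δ / 2 := by ring
    rw [e1, e2, ENNReal.ofReal_mul (by positivity), ENNReal.ofReal_mul hK0]
    ring
  calc ENNReal.ofReal (((n : ℝ) - 1) * x / (2 * √(2 * Real.pi) * n * √(n : ℝ)) * r
          * (J0 / (2 * x)) ^ n / (1 + 1 / (n : ℝ)) ^ (n + 2)) * SS x ^ m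
      ≤ ENNReal.ofReal (K * δ * (δ / 2)) * SS x ^ m := by
        gcongr
        rw [hK, hδ, hc]
        exact aux_num2 hn hx hJ0n hr0
    _ = SS x ^ m * ENNReal.ofReal (K * δ * (δ / 2)) := mul_comm _ _
    _ ≤ _ := by
        rw [← step5]
        refine step4.trans ?_
        rw [← step3, ← step2]
        gcongr with z
        exact step1 z


end Pool.Agent.VP.D4
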