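import Pool.Agent.VP.Defs

set_option autoImplicit false
open MeasureTheory ProbabilityTheory
open scoped ENNReal Matrix

namespace Pool.Agent.VP.D5

open Pool.Agent.VP



private lemma mid_log (x : ℝ) (hx : 1 ≤ x) :
    (x + 1/2) * Real.log (x + 1/2) - (x - 1/2) * Real.log (x - 1/2) - 1 ≤ Real.log x := by
  have h1 : ∫ t in (x - 1/2)..(x + 1/2), Real.log t =
      (x + 1/2) * Real.log (x + 1/2) - (x - 1/2) * Real.log (x - 1/2) - 1 := by
    rw [integral_log]; ring
  have h2 : ∫ t in (x - 1/2)..(x + 1/2), (Real.log x + (t - x) / x) = Real.log x := by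
    rw [intervalIntegral.integral_add (by simp) ?_, intervalIntegral.integral_div,
      intervalIntegral.integral_sub (by simp) (by simp), integral_id]
    · have hx0 : x ≠ 0 := by positivity
      simp only [intervalIntegral.integral_const, smul_eq_mul]
      field_simp
      ring
    · apply Continuous.intervalIntegrable
      fun_prop
  rw [← h1, ← h2]
  apply intervalIntegral.integral_mono_on (by linarith)
  · apply intervalIntegral.intervalIntegrable_log'
  · apply Continuous.intervalIntegrable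
    fun_prop
  · intro t ht
    have ht0 : 0 < t := by have := ht.1; linarith
    have hx0 : 0 < x := by linarith
    have h3 : Real.log (t / x) ≤ t / x - 1 := Real.log_le_sub_one_of_pos (by positivity)
    rw [Real.log_div ht0.ne' hx0.ne'] at h3
    have h4 : (t - x) / x = t / x - 1 := by field_simp
    rw [h4]; linarith

private lemma log_fact_diff (m n : ℕ) :
    (((m + n : ℕ) : ℝ) + 1/2) * Real.log (((m + n : ℕ) : ℝ) + 1/2) - (((m + n : ℕ) : ℝ) + 1/2)
      - ((m + 1/2) * Real.log ((m : ℝ) + 1/2) - ((m : ℝ) + 1/2)) + Real.log (m.factorial) ≤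
      Real.log ((m + n).factorial) := by
  induction n with
  | zero => simp
  | succ n ih =>
    have h1 : ((m + (n + 1)).factorial : ℝ) = ((m + n : ℕ) + 1 : ℝ) * ((m + n).factorial : ℝ) := by
      rw [← add_assoc, Nat.factorial_succ]; push_cast; ring
    rw [h1, Real.log_mul (by positivity) (by positivity)]
    have h2 := mid_log (((m + n : ℕ) : ℝ) + 1) (by have : (0:ℝ) ≤ ((m+n : ℕ) : ℝ) := by positivity
                                                   linarith)
    have h3 : ((m + (n + 1) : ℕ) : ℝ) = ((m + n : ℕ) : ℝ) + 1 := by push_cast; ring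
    rw [h3]
    have h4 : (((m + n : ℕ) : ℝ) + 1 - 1/2) = ((m + n : ℕ) : ℝ) + 1/2 := by ring
    rw [h4] at h2
    linarith

private lemma log_fact_upper (n : ℕ) (hn : 1 ≤ n) :
    Real.log (n.factorial) ≤ ((n : ℝ) + 1/2) * Real.log n - n + 1 := by
  obtain ⟨k, rfl⟩ : ∃ k, n = k + 1 := ⟨n - 1, by omega⟩
  have h1 := Stirling.log_stirlingSeq'_antitone (Nat.zero_le k)
  simp only [Function.comp] at h1
  have h2 : Real.log (Stirling.stirlingSeq (Nat.succ 0)) = 1 - Real.log 2 / 2 := by
    show Real.log (Stirling.stirlingSeq 1) = _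
    rw [Stirling.stirlingSeq_one, Real.log_div (Real.exp_pos 1).ne' (by positivity), Real.log_exp,
      Real.log_sqrt (by norm_num)]
  rw [h2, Stirling.log_stirlingSeq_formula] at h1
  have hk : (0:ℝ) < ((k + 1 : ℕ) : ℝ) := by positivity
  have h3 : Real.log (2 * ((Nat.succ k : ℕ) : ℝ)) = Real.log 2 + Real.log ((k + 1 : ℕ) : ℝ) := by
    rw [Real.log_mul (by norm_num) (by positivity)]
  have h4 : Real.log (((Nat.succ k : ℕ) : ℝ) / Real.exp 1) = Real.log ((k + 1 : ℕ) : ℝ) - 1 := by
    rw [Real.log_div (by positivity) (Real.exp_pos 1).ne', Real.log_exp]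
  rw [h3, h4] at h1
  simp only [Nat.succ_eq_add_one] at h1
  nlinarith

theorem choose_lower (n m : ℕ) (hn : 1 ≤ n) (hm : 1 ≤ m) :
    Real.exp (-1 - 1 / (4 * m)) * √(((n : ℝ) + m) / (n * m)) *
      (((n : ℝ) + m) ^ (n + m) / ((n : ℝ) ^ n * (m : ℝ) ^ m)) ≤ ((n + m).choose n : ℝ) := by
  have hn0 : (0:ℝ) < n := by exact_mod_cast hn
  have hm0 : (0:ℝ) < m := by exact_mod_cast hm
  have hN0 : (0:ℝ) < (n:ℝ) + m := by positivity
  have hC : (0:ℝ) < ((n + m).choose n : ℝ) := by
    exact_mod_cast Nat.choose_pos (Nat.le_add_right n m)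
  rw [← Real.log_le_log_iff (by positivity) hC]
  have hfac : ((n + m).choose n : ℝ) * (n.factorial : ℝ) * (m.factorial : ℝ) = ((n + m).factorial : ℝ) := by
    have := Nat.choose_mul_factorial_mul_factorial (Nat.le_add_right n m)
    rw [Nat.add_sub_cancel_left] at this
    exact_mod_cast this
  have hlog : Real.log ((n + m).choose n : ℝ) = Real.log ((n+m).factorial : ℝ)
      - Real.log (n.factorial : ℝ) - Real.log (m.factorial : ℝ) := by
    rw [← hfac, Real.log_mul (by positivity) (by positivity), Real.log_mul hC.ne' (by positivity)]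
    ring
  rw [hlog, Real.log_mul (by positivity) (by positivity), Real.log_mul (by positivity) (by positivity),
    Real.log_exp, Real.log_sqrt (by positivity), Real.log_div (by positivity) (by positivity),
    Real.log_mul (by positivity) (by positivity), Real.log_div (by positivity) (by positivity),
    Real.log_mul (by positivity) (by positivity), Real.log_pow, Real.log_pow, Real.log_pow]
  have h1 := log_fact_diff m n
  have h2 := log_fact_upper n hn
  have e1 : m + n = n + m := add_comm m n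
  rw [e1] at h1
  have e2 : (((n + m : ℕ) : ℝ)) = (n : ℝ) + m := by push_cast; ring
  rw [e2] at h1 ⊢
  -- bounds
  have h3 : ((n : ℝ) + m + 1/2) * Real.log ((n:ℝ) + m) + 1/2 ≤
      ((n : ℝ) + m + 1/2) * Real.log ((n:ℝ) + m + 1/2) := by
    have a1 : Real.log (((n:ℝ) + m) / ((n:ℝ) + m + 1/2)) ≤ ((n:ℝ) + m) / ((n:ℝ) + m + 1/2) - 1 :=
      Real.log_le_sub_one_of_pos (by positivity)
    rw [Real.log_div (by positivity) (by positivity)] at a1
    have a2 : ((n : ℝ) + m + 1/2) * (((n:ℝ) + m) / ((n:ℝ) + m + 1/2) - 1) = -1/2 := by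
      field_simp; ring
    have a3 := mul_le_mul_of_nonneg_left a1 (by positivity : (0:ℝ) ≤ (n : ℝ) + m + 1/2)
    rw [a2] at a3
    linarith
  have h4 : ((m : ℝ) + 1/2) * Real.log ((m:ℝ) + 1/2) ≤
      ((m : ℝ) + 1/2) * Real.log (m:ℝ) + 1/2 + 1/(4*m) := by
    have a1 : Real.log (((m:ℝ) + 1/2) / (m:ℝ)) ≤ ((m:ℝ) + 1/2) / (m:ℝ) - 1 :=
      Real.log_le_sub_one_of_pos (by positivity)
    rw [Real.log_div (by positivity) (by positivity)] at a1
    have a2 : ((m : ℝ) + 1/2) * (((m:ℝ) + 1/2) / (m:ℝ) - 1) = 1/2 + 1/(4*m) := by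
      field_simp; ring
    have a3 := mul_le_mul_of_nonneg_left a1 (by positivity : (0:ℝ) ≤ (m : ℝ) + 1/2)
    rw [a2] at a3
    linarith
  linarith


end Pool.Agent.VP.D5
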