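import Pool.Agent.VP.Defs

set_option autoImplicit false
open MeasureTheory ProbabilityTheory
open scoped ENNReal Matrix

namespace Pool.Agent.VP.E1

open Pool.Agent.VP



theorem vp_pdf (t : ℝ) :
    gaussianPDFReal 0 1 t = (√(2 * Real.pi))⁻¹ * Real.exp (-(t ^ 2 / 2)) := by
  simp only [gaussianPDFReal, NNReal.coe_one, mul_one, sub_zero]
  congr 2
  ring

theorem vp_SS_int (x : ℝ) : (SS x).toReal = ∫ t in Set.Ioo (-x) x, gaussianPDFReal 0 1 t := by
  have hs : {t : ℝ | |t| < x} = Set.Ioo (-x) x := by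
    ext t
    simp [abs_lt]
  unfold SS
  rw [gaussianReal_apply_eq_integral 0 one_ne_zero, hs, ENNReal.toReal_ofReal]
  exact integral_nonneg (fun t => gaussianPDFReal_nonneg 0 1 t)

theorem vp_taylor_deriv (n : ℕ) (u : ℝ) :
    HasDerivAt (fun u : ℝ => ∑ k ∈ Finset.range (n + 1), (-u) ^ k / (k.factorial : ℝ))
      (-∑ k ∈ Finset.range n, (-u) ^ k / (k.factorial : ℝ)) u := by
  induction n with
  | zero =>
    simp only [Finset.range_zero, Finset.sum_empty, neg_zero, zero_add, Finset.range_one,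
      Finset.sum_singleton, pow_zero]
    exact hasDerivAt_const _ _
  | succ n ih =>
    have h1 : (fun u : ℝ => ∑ k ∈ Finset.range (n + 1 + 1), (-u) ^ k / (k.factorial : ℝ)) =
        fun u : ℝ => (∑ k ∈ Finset.range (n + 1), (-u) ^ k / (k.factorial : ℝ)) +
          (-u) ^ (n + 1) / ((n + 1).factorial : ℝ) := by
      funext u
      rw [Finset.sum_range_succ]
    rw [h1, Finset.sum_range_succ, neg_add]
    refine ih.add ?_
    have h2 : HasDerivAt (fun u : ℝ => (-u) ^ (n + 1) / ((n + 1).factorial : ℝ))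
        ((((n + 1 : ℕ) : ℝ) * (-u) ^ n * (-1)) / ((n + 1).factorial : ℝ)) u := by
      have := ((hasDerivAt_neg u).pow (n + 1)).div_const ((n + 1).factorial : ℝ)
      simpa using this
    refine h2.congr_deriv ?_
    rw [Nat.factorial_succ]
    push_cast
    have : ((n : ℝ) + 1) ≠ 0 := by positivity
    have h3 : (n.factorial : ℝ) ≠ 0 := by positivity
    field_simp

theorem vp_taylor (n : ℕ) : ∀ u : ℝ, 0 ≤ u →
    0 ≤ (-1) ^ n * (Real.exp (-u) - ∑ k ∈ Finset.range n, (-u) ^ k / (k.factorial : ℝ)) := by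
  induction n with
  | zero => intro u _; simp; positivity
  | succ n ih =>
    intro u hu
    let F : ℝ → ℝ := fun u => (-1) ^ (n + 1) * (Real.exp (-u) -
      ∑ k ∈ Finset.range (n + 1), (-u) ^ k / (k.factorial : ℝ))
    have hF : ∀ u : ℝ, HasDerivAt F ((-1) ^ n * (Real.exp (-u) -
        ∑ k ∈ Finset.range n, (-u) ^ k / (k.factorial : ℝ))) u := by
      intro u
      have h1 : HasDerivAt (fun u : ℝ => Real.exp (-u)) (-Real.exp (-u)) u := by
        have := (hasDerivAt_neg u).exp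
        simpa using this
      have h2 := (h1.sub (vp_taylor_deriv n u)).const_mul ((-1 : ℝ) ^ (n + 1))
      refine h2.congr_deriv ?_
      ring
    have hmono : MonotoneOn F (Set.Ici 0) := by
      refine monotoneOn_of_deriv_nonneg (convex_Ici 0) ?_ ?_ ?_
      · exact fun x _ => (hF x).continuousAt.continuousWithinAt
      · exact fun x _ => (hF x).differentiableAt.differentiableWithinAt
      · intro x hx
        rw [interior_Ici] at hx
        rw [(hF x).deriv]
        exact ih x (le_of_lt hx)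
    have h3 := hmono (Set.mem_Ici.mpr le_rfl) (Set.mem_Ici.mpr hu) hu
    have h4 : F 0 = 0 := by
      simp only [F, neg_zero, Real.exp_zero]
      rw [Finset.sum_range_succ']
      simp
    rw [h4] at h3
    exact h3

/-- partial sum of the series of `∫_0^x exp(-t²/2)` -/
noncomputable def vpP (n : ℕ) (x : ℝ) : ℝ :=
  ∑ k ∈ Finset.range n, (-1) ^ k * x ^ (2 * k + 1) / (2 ^ k * (k.factorial : ℝ) * (2 * k + 1))

theorem vpP_deriv (n : ℕ) (x : ℝ) :
    HasDerivAt (vpP n) (∑ k ∈ Finset.range n, (-(x ^ 2 / 2)) ^ k / (k.factorial : ℝ)) x := by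
  unfold vpP
  refine HasDerivAt.fun_sum (fun k _ => ?_)
  have h1 := ((hasDerivAt_pow (2 * k + 1) x).const_mul ((-1 : ℝ) ^ k)).div_const
    (2 ^ k * (k.factorial : ℝ) * (2 * k + 1))
  refine h1.congr_deriv ?_
  have h2 : (k.factorial : ℝ) ≠ 0 := by positivity
  have h3 : (2 * (k : ℝ) + 1) ≠ 0 := by positivity
  have h4 : (-(x ^ 2 / 2)) ^ k = (-1) ^ k * x ^ (2 * k) / 2 ^ k := by
    rw [neg_pow, div_pow, ← pow_mul]
    ring
  rw [h4]
  simp only [Nat.add_sub_cancel]
  push_cast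
  field_simp

theorem vpP_neg (n : ℕ) (x : ℝ) : vpP n (-x) = -vpP n x := by
  unfold vpP
  rw [← Finset.sum_neg_distrib]
  refine Finset.sum_congr rfl (fun k _ => ?_)
  have : (-x) ^ (2 * k + 1) = -x ^ (2 * k + 1) := by
    rw [Odd.neg_pow ⟨k, rfl⟩]
  rw [this]
  ring

theorem vp_lower (n : ℕ) (x : ℝ) (hx : 0 ≤ x) :
    (√(2 * Real.pi))⁻¹ * (2 * vpP (2 * n) x) ≤ (SS x).toReal := by
  have hle : -x ≤ x := by linarith
  rw [vp_SS_int, ← integral_Ioc_eq_integral_Ioo, ← intervalIntegral.integral_of_le hle]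
  have h1 : (fun t => gaussianPDFReal 0 1 t) =
      fun t => (√(2 * Real.pi))⁻¹ * Real.exp (-(t ^ 2 / 2)) := funext vp_pdf
  rw [h1, intervalIntegral.integral_const_mul]
  refine mul_le_mul_of_nonneg_left ?_ (by positivity)
  have hcont : Continuous (fun t : ℝ => ∑ k ∈ Finset.range (2 * n), (-(t ^ 2 / 2)) ^ k / (k.factorial : ℝ)) := by
    fun_prop
  have h2 : ∫ t in (-x)..x, (∑ k ∈ Finset.range (2 * n), (-(t ^ 2 / 2)) ^ k / (k.factorial : ℝ)) =
      2 * vpP (2 * n) x := by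
    rw [intervalIntegral.integral_eq_sub_of_hasDerivAt (fun t _ => vpP_deriv (2 * n) t)
      (hcont.intervalIntegrable _ _), vpP_neg]
    ring
  rw [← h2]
  refine intervalIntegral.integral_mono_on hle (hcont.intervalIntegrable _ _)
    ((by fun_prop : Continuous (fun t : ℝ => Real.exp (-(t ^ 2 / 2)))).intervalIntegrable _ _) ?_
  intro t _
  have h3 := vp_taylor (2 * n) (t ^ 2 / 2) (by positivity)
  rw [Even.neg_one_pow ⟨n, by ring⟩, one_mul] at h3
  linarith

theorem vp_const : (0.79788 : ℝ) ≤ (√(2 * Real.pi))⁻¹ * 2 := by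
  have h1 : √(2 * Real.pi) ≤ 2 / 0.79788 := by
    rw [Real.sqrt_le_left (by norm_num)]
    have := Real.pi_lt_d6
    norm_num
    linarith
  have h2 : 0 < √(2 * Real.pi) := Real.sqrt_pos.mpr (by positivity)
  rw [inv_mul_eq_div, le_div_iff₀ h2]
  rw [le_div_iff₀ (by norm_num)] at h1
  linarith

theorem vp_lower2 (n : ℕ) (x : ℝ) (hx : 0 ≤ x) (hP : 0 ≤ vpP (2 * n) x) :
    0.79788 * vpP (2 * n) x ≤ (SS x).toReal := by
  refine le_trans ?_ (vp_lower n x hx)
  have := mul_le_mul_of_nonneg_right vp_const hP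
  linarith

theorem vp_num (x y : ℝ) (hx : 0 ≤ x) (hy : 0 ≤ y) (h : y ≤ 0.79788 * vpP (2 * 11) x) :
    y ≤ (SS x).toReal := by
  refine h.trans (vp_lower2 11 x hx ?_)
  by_contra hc
  push Not at hc
  nlinarith

theorem SS_num :
    0.6046 ≤ (SS 0.85).toReal ∧ 0.8229 ≤ (SS 1.35).toReal ∧
    0.7286 ≤ (SS 1.1).toReal ∧ 0.9108 ≤ (SS 1.7).toReal ∧
    0.8529 ≤ (SS 1.45).toReal ∧ 0.9596 ≤ (SS 2.05).toReal ∧
    0.9281 ≤ (SS 1.8).toReal ∧ 0.9906 ≤ (SS 2.6).toReal ∧
    0.9721 ≤ (SS 2.2).toReal ∧ 0.9968 ≤ (SS 2.95).toReal := by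
  refine ⟨?_, ?_, ?_, ?_, ?_, ?_, ?_, ?_, ?_, ?_⟩ <;>
  · refine vp_num _ _ (by norm_num) (by norm_num) ?_
    norm_num [vpP, Finset.sum_range_succ, Nat.factorial]

theorem vp_tail (h : ℝ) (hh : 0 < h) :
    ∫ t in Set.Ioi h, gaussianPDFReal 0 1 t ≤ (√(2 * Real.pi))⁻¹ * Real.exp (-(h ^ 2 / 2)) / h := by
  have hd : ∀ t ∈ Set.Ici h, HasDerivAt
      (fun t : ℝ => -((√(2 * Real.pi))⁻¹ * Real.exp (-(t ^ 2 / 2)) / h))
      (t / h * ((√(2 * Real.pi))⁻¹ * Real.exp (-(t ^ 2 / 2)))) t := by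
    intro t _
    have h1 : HasDerivAt (fun t : ℝ => -(t ^ 2 / 2)) (-t) t := by
      have := ((hasDerivAt_pow 2 t).div_const 2).neg
      refine this.congr_deriv ?_
      ring
    have h2 := (((h1.exp).const_mul (√(2 * Real.pi))⁻¹).div_const h).neg
    refine h2.congr_deriv ?_
    ring
  have hpos : ∀ t ∈ Set.Ioi h, 0 ≤ t / h * ((√(2 * Real.pi))⁻¹ * Real.exp (-(t ^ 2 / 2))) := by
    intro t ht
    have : 0 < t := hh.trans ht
    positivity
  have hlim : Filter.Tendsto (fun t : ℝ => -((√(2 * Real.pi))⁻¹ * Real.exp (-(t ^ 2 / 2)) / h))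
      Filter.atTop (nhds 0) := by
    have h1 : Filter.Tendsto (fun t : ℝ => t ^ 2 / 2) Filter.atTop Filter.atTop :=
      (Filter.tendsto_pow_atTop two_ne_zero).atTop_div_const (by norm_num)
    have h2 := Real.tendsto_exp_neg_atTop_nhds_zero.comp h1
    have h3 := ((h2.const_mul (√(2 * Real.pi))⁻¹).div_const h).neg
    simpa using h3
  have hint := integral_Ioi_of_hasDerivAt_of_nonneg' hd hpos hlim
  have hintb := integrableOn_Ioi_deriv_of_nonneg' hd hpos hlim
  rw [zero_sub, neg_neg] at hint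
  rw [← hint]
  refine setIntegral_mono_on (integrable_gaussianPDFReal 0 1).integrableOn hintb measurableSet_Ioi ?_
  intro t ht
  rw [vp_pdf]
  have ht' : h < t := ht
  have h1 : 1 ≤ t / h := by rw [le_div_iff₀ hh]; linarith
  have h2 : 0 ≤ (√(2 * Real.pi))⁻¹ * Real.exp (-(t ^ 2 / 2)) := by positivity
  nlinarith

theorem SS_mills (h : ℝ) (hh : 0 < h) :
    1 - √(2 / Real.pi) * Real.exp (-h ^ 2 / 2) / h ≤ (SS h).toReal := by
  have htot := integral_gaussianPDFReal_eq_one 0 (v := 1) one_ne_zero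
  have hI := integrable_gaussianPDFReal 0 1
  have h1 := integral_add_compl (s := Set.Ioo (-h) h) measurableSet_Ioo hI
  rw [htot] at h1
  have hc : (Set.Ioo (-h) h)ᶜ = Set.Iic (-h) ∪ Set.Ici h := by
    ext t
    simp only [Set.mem_compl_iff, Set.mem_Ioo, not_and, not_lt, Set.mem_union, Set.mem_Iic, Set.mem_Ici]
    constructor
    · intro h2
      by_cases h3 : -h < t
      · exact Or.inr (h2 h3)
      · exact Or.inl (not_lt.mp h3)
    · rintro (h2 | h2) h3
      · linarith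
      · exact h2
  have hdisj : Disjoint (Set.Iic (-h)) (Set.Ici h) := by
    rw [Set.disjoint_left]
    intro t h2 h3
    simp only [Set.mem_Iic, Set.mem_Ici] at h2 h3
    linarith
  have h2 := setIntegral_union hdisj measurableSet_Ici hI.integrableOn hI.integrableOn
  have h3 : ∫ t in Set.Iic (-h), gaussianPDFReal 0 1 t = ∫ t in Set.Ioi h, gaussianPDFReal 0 1 t := by
    have h4 := integral_comp_neg_Iic (-h) (fun t => gaussianPDFReal 0 1 t)
    rw [neg_neg] at h4
    rw [← h4]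
    refine integral_congr_ae (Filter.Eventually.of_forall (fun t => ?_))
    show gaussianPDFReal 0 1 t = gaussianPDFReal 0 1 (-t)
    rw [vp_pdf, vp_pdf, neg_sq]
  have h5 : ∫ t in Set.Ici h, gaussianPDFReal 0 1 t = ∫ t in Set.Ioi h, gaussianPDFReal 0 1 t :=
    integral_Ici_eq_integral_Ioi
  rw [hc, h2, h3, h5, ← vp_SS_int] at h1
  have h6 := vp_tail h hh
  have h7 : √(2 / Real.pi) = (√(2 * Real.pi))⁻¹ * 2 := by
    rw [Real.sqrt_eq_iff_mul_self_eq (by positivity) (by positivity)]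
    have h8 : √(2 * Real.pi) * √(2 * Real.pi) = 2 * Real.pi := Real.mul_self_sqrt (by positivity)
    have h9 : (√(2 * Real.pi))⁻¹ * 2 * ((√(2 * Real.pi))⁻¹ * 2) = 4 * (√(2 * Real.pi) * √(2 * Real.pi))⁻¹ := by
      rw [mul_inv]; ring
    rw [h9, h8]
    have := Real.pi_pos
    field_simp
    norm_num
  have h10 : -h ^ 2 / 2 = -(h ^ 2 / 2) := by ring
  rw [h7, h10]
  have h11 : (√(2 * Real.pi))⁻¹ * 2 * Real.exp (-(h ^ 2 / 2)) / h =
      2 * ((√(2 * Real.pi))⁻¹ * Real.exp (-(h ^ 2 / 2)) / h) := by ring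
  rw [h11]
  linarith


end Pool.Agent.VP.E1
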