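import Pool.Agent.VP.Defs

set_option autoImplicit false
open MeasureTheory ProbabilityTheory
open scoped ENNReal Matrix

namespace Pool.Agent.VP.E3

open Pool.Agent.VP



/-- rate function -/
noncomputable def KK (l h x a b : ℝ) : ℝ :=
  (1 + l) * Real.log (1 + l) - l * Real.log l + l * Real.log (a * b) - h ^ 2 / 2 +
    Real.log (√(2 * Real.pi) * b / (2 * x))

/-- the product of the lower bounds -/
noncomputable def EE (n m : ℕ) (h x Sh Sx : ℝ) : ℝ :=
  Real.exp (-1 - 1 / (4 * m)) * √(((n : ℝ) + m) / (n * m)) *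
      (((n : ℝ) + m) ^ (n + m) / ((n : ℝ) ^ n * (m : ℝ) ^ m)) *
      (√(2 / Real.pi) / (Real.exp 1 * h * √(n : ℝ)) * Real.exp (-1 / (2 * n * h ^ 2)) *
      Real.exp (-(n * h ^ 2) / 2) * Sh ^ m) *
      ((n - 1) * x / (2 * √(2 * Real.pi) * n * √(n : ℝ)) *
      (1 - 2 * x * Real.exp (-x ^ 2 / 2) / (√(2 * Real.pi) * Sx)) *
      (√(2 * Real.pi) * Sx / (2 * x)) ^ n / (1 + 1 / (n : ℝ)) ^ (n + 2) *
      Sx ^ m)

theorem mc_concave : ConcaveOn ℝ (Set.Ioi (0 : ℝ))
    (fun l : ℝ => (1 + l) * Real.log (1 + l) - l * Real.log l) := by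
  have hd : ∀ l ∈ Set.Ioi (0 : ℝ), HasDerivAt
      (fun l : ℝ => (1 + l) * Real.log (1 + l) - l * Real.log l)
      (Real.log (1 + l) - Real.log l) l := by
    intro l hl
    have hl' : (0 : ℝ) < l := hl
    have h1 : HasDerivAt (fun l : ℝ => (1 + l) * Real.log (1 + l)) (Real.log (1 + l) + 1) l := by
      have ha : HasDerivAt (fun l : ℝ => 1 + l) 1 l := by
        simpa using (hasDerivAt_id l).const_add 1
      have hb := ha.log (by positivity : (1 + l) ≠ 0)
      have hc := ha.mul hb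
      refine hc.congr_deriv ?_
      field_simp
    have h2 : HasDerivAt (fun l : ℝ => l * Real.log l) (Real.log l + 1) l := by
      have hb := Real.hasDerivAt_log hl'.ne'
      have hc := (hasDerivAt_id l).mul hb
      refine hc.congr_deriv ?_
      simp only [id]
      field_simp
    refine (h1.sub h2).congr_deriv ?_
    ring
  refine AntitoneOn.concaveOn_of_deriv (convex_Ioi 0)
    (fun l hl => (hd l hl).continuousAt.continuousWithinAt) ?_ ?_
  · intro l hl
    rw [interior_Ioi] at hl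
    exact (hd l hl).differentiableAt.differentiableWithinAt
  · rw [interior_Ioi]
    intro l hl l' hl' hll
    rw [(hd l hl).deriv, (hd l' hl').deriv]
    have p1 : (0 : ℝ) < l := hl
    have p2 : (0 : ℝ) < l' := hl'
    rw [← Real.log_div (by positivity) (by positivity),
      ← Real.log_div (by positivity) (by positivity)]
    apply Real.log_le_log (by positivity)
    rw [div_le_div_iff₀ p2 p1]
    nlinarith

theorem mc_KK (l l1 l2 h x a b : ℝ) (hl1 : 0 < l1) (h1 : l1 ≤ l) (h2 : l ≤ l2)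
    (hK1 : 0.03 ≤ KK l1 h x a b) (hK2 : 0.03 ≤ KK l2 h x a b) : 0.03 ≤ KK l h x a b := by
  have hlin : ConcaveOn ℝ (Set.Ioi (0 : ℝ)) (fun l : ℝ => l * Real.log (a * b) +
      (- h ^ 2 / 2 + Real.log (√(2 * Real.pi) * b / (2 * x)))) := by
    refine ⟨convex_Ioi 0, ?_⟩
    intro u _ v _ s t _ _ hst
    simp only [smul_eq_mul]
    have : t = 1 - s := by linarith
    subst this
    apply le_of_eq
    ring
  have hc : ConcaveOn ℝ (Set.Ioi (0 : ℝ)) (fun l => KK l h x a b) := by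
    have := mc_concave.add hlin
    refine this.congr ?_
    intro l _
    simp only [KK, Pi.add_apply]
    ring
  have := hc.min_le_of_mem_Icc (x := l1) (y := l2) (z := l) hl1 (lt_of_lt_of_le hl1 (h1.trans h2))
    ⟨h1, h2⟩
  exact (le_min hK1 hK2).trans this

theorem mc_fin (N : ℝ) (hN : 500 ≤ N) : N * √N ≤ 0.00581 * Real.exp (0.03 * N) := by
  have hs : √N * √N = N := Real.mul_self_sqrt (by linarith)
  have hs0 : 22.36 ≤ √N := by
    apply Real.le_sqrt_of_sq_le
    norm_num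
    linarith
  have h1 : √N ≤ N / 22.36 := by
    rw [le_div_iff₀ (by norm_num)]
    nlinarith
  have h2 : N * √N ≤ N * (N / 22.36) := by
    apply mul_le_mul_of_nonneg_left h1
    linarith
  have h3 : Real.exp (0.03 * N) = Real.exp 15 * Real.exp (15 * (N / 500 - 1)) := by
    rw [← Real.exp_add]
    congr 1
    ring
  have h4 : (1930000 : ℝ) ≤ Real.exp 15 := by
    have : Real.exp 15 = Real.exp 1 ^ 15 := by
      rw [← Real.exp_nat_mul]; norm_num
    rw [this]
    have he : (2.7 : ℝ) ≤ Real.exp 1 := by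
      have := Real.exp_one_gt_d9
      linarith
    calc (1930000 : ℝ) ≤ 2.7 ^ 15 := by norm_num
      _ ≤ Real.exp 1 ^ 15 := by gcongr
  have h5 : (N / 500) ^ 2 ≤ Real.exp (15 * (N / 500 - 1)) := by
    have h6 : N / 500 ≤ Real.exp (N / 500 - 1) := by
      have := Real.add_one_le_exp (N / 500 - 1)
      linarith
    have h7 : Real.exp (N / 500 - 1) ^ 2 ≤ Real.exp (15 * (N / 500 - 1)) := by
      rw [← Real.exp_nat_mul]
      apply Real.exp_le_exp.2
      have : 0 ≤ N / 500 - 1 := by linarith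
      push_cast
      linarith
    refine le_trans ?_ h7
    have : 0 ≤ N / 500 := by linarith
    gcongr
  rw [h3]
  have h8 : (1930000 : ℝ) * (N / 500) ^ 2 ≤ Real.exp 15 * Real.exp (15 * (N / 500 - 1)) := by
    gcongr
  have h9 : N * (N / 22.36) ≤ 0.00581 * (1930000 * (N / 500) ^ 2) := by
    have : N * (N / 22.36) = N ^ 2 * (1 / 22.36) := by ring
    rw [this]
    have h10 : 0.00581 * (1930000 * (N / 500) ^ 2) = N ^ 2 * (0.00581 * 1930000 / 250000) := by
      ring
    rw [h10]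
    apply mul_le_mul_of_nonneg_left _ (sq_nonneg N)
    norm_num
  calc N * √N ≤ N * (N / 22.36) := h2
    _ ≤ 0.00581 * (1930000 * (N / 500) ^ 2) := h9
    _ ≤ _ := by gcongr

theorem mc_exp3 (N M h : ℝ) (hN : 500 ≤ N) (hM : 350 ≤ M) (hh : 0.84 ≤ h) :
    0.04967 ≤ Real.exp (-1 - 1 / (4 * M)) * Real.exp (-1 / (2 * N * h ^ 2)) * (Real.exp 1)⁻¹ *
      (Real.exp 1)⁻¹ := by
  have e1 : Real.exp (-1 - 1 / (4 * M)) * Real.exp (-1 / (2 * N * h ^ 2)) * (Real.exp 1)⁻¹ *
      (Real.exp 1)⁻¹ = Real.exp (-(1 / (4 * M)) - 1 / (2 * N * h ^ 2)) * (Real.exp 1)⁻¹ ^ 3 := by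
    have : Real.exp (-1 - 1 / (4 * M)) = (Real.exp 1)⁻¹ * Real.exp (-(1 / (4 * M))) := by
      rw [← Real.exp_neg, ← Real.exp_add]
      congr 1
    rw [this, show (-1 / (2 * N * h ^ 2)) = -(1 / (2 * N * h ^ 2)) by ring,
      sub_eq_add_neg (-(1 / (4 * M))), Real.exp_add]
    ring
  rw [e1]
  have h1 : 1 / (4 * M) ≤ 1 / 1400 := by
    apply one_div_le_one_div_of_le (by norm_num)
    linarith
  have h2 : 1 / (2 * N * h ^ 2) ≤ 1 / 705.6 := by
    apply one_div_le_one_div_of_le (by norm_num)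
    have : (0.7056 : ℝ) ≤ h ^ 2 := by nlinarith
    nlinarith
  have h3 : (0.9978 : ℝ) ≤ Real.exp (-(1 / (4 * M)) - 1 / (2 * N * h ^ 2)) := by
    have := Real.add_one_le_exp (-(1 / (4 * M)) - 1 / (2 * N * h ^ 2))
    have h4 : (1 : ℝ) / 1400 + 1 / 705.6 ≤ 0.0022 := by norm_num
    linarith
  have h5 : (0.36787944 : ℝ) ≤ (Real.exp 1)⁻¹ := by
    rw [le_inv_comm₀ (by norm_num) (Real.exp_pos 1)]
    have := Real.exp_one_lt_d9
    refine this.le.trans ?_
    norm_num
  calc (0.04967 : ℝ) ≤ 0.9978 * 0.36787944 ^ 3 := by norm_num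
    _ ≤ _ := by gcongr

theorem mc_pref (n : ℕ) (N M h x rb : ℝ) (hNn : N = n) (hN : 500 ≤ N) (hM : 350 ≤ M)
    (hh : 0.84 ≤ h) (hx : 0 < x) (hr : 0.74 ≤ x / h * rb) (hrb : 0 < rb) :
    0.00581 / (N * √N) ≤ Real.exp (-1 - 1 / (4 * M)) * √((N + M) / (N * M)) *
      (√(2 / Real.pi) / (Real.exp 1 * h * √N) * Real.exp (-1 / (2 * N * h ^ 2))) *
      ((N - 1) * x / (2 * √(2 * Real.pi) * N * √N) * rb / (1 + 1 / N) ^ (n + 2)) := by
  have hN0 : 0 < N := by linarith
  have hM0 : 0 < M := by linarith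
  have hh0 : 0 < h := by linarith
  have hsN : 0 < √N := Real.sqrt_pos.2 hN0
  have hss : √N * √N = N := Real.mul_self_sqrt hN0.le
  have hpi := Real.pi_pos
  have hsp : 0 < √(2 * Real.pi) := Real.sqrt_pos.2 (by positivity)
  have he0 := Real.exp_pos 1
  -- the square root
  have g1 : 1 / √N ≤ √((N + M) / (N * M)) := by
    apply Real.le_sqrt_of_sq_le
    rw [div_pow, one_pow, Real.sq_sqrt hN0.le, div_le_div_iff₀ hN0 (by positivity)]
    nlinarith [sq_nonneg N]
  -- the power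
  have g2 : (1 + 1 / N) ^ (n + 2) ≤ Real.exp 1 * 1.004004 := by
    rw [pow_add]
    have h1 : (1 + 1 / N) ^ n ≤ Real.exp 1 := by
      have h2 : 1 + 1 / N ≤ Real.exp (1 / N) := by
        have := Real.add_one_le_exp (1 / N)
        linarith
      calc (1 + 1 / N) ^ n ≤ Real.exp (1 / N) ^ n := by gcongr
        _ = Real.exp 1 := by
          rw [← Real.exp_nat_mul, ← hNn]
          congr 1
          field_simp
    have h3 : (1 + 1 / N) ^ 2 ≤ 1.004004 := by
      have h4 : 1 / N ≤ 0.002 := by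
        rw [div_le_iff₀ hN0]
        linarith
      have h5 : 0 ≤ 1 / N := by positivity
      nlinarith
    gcongr
  have g3 : 0.998 ≤ (N - 1) / N := by
    rw [le_div_iff₀ hN0]
    linarith
  have g4 : √(2 / Real.pi) / √(2 * Real.pi) = 1 / Real.pi := by
    rw [← Real.sqrt_div (by positivity)]
    have : 2 / Real.pi / (2 * Real.pi) = (1 / Real.pi) ^ 2 := by
      field_simp
    rw [this, Real.sqrt_sq (by positivity)]
  have hexp := mc_exp3 N M h hN hM hh
  have hN1 : 0 < N - 1 := by linarith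
  have hsp2 : 0 < √(2 / Real.pi) := Real.sqrt_pos.2 (by positivity)
  calc 0.00581 / (N * √N) ≤ (0.04967 * 0.74 * 0.998 / (1.004004 * (2 * 3.1416))) / (N * √N) := by
        gcongr
        norm_num
    _ ≤ ((Real.exp (-1 - 1 / (4 * M)) * Real.exp (-1 / (2 * N * h ^ 2)) * (Real.exp 1)⁻¹ *
          (Real.exp 1)⁻¹) * (x / h * rb) * ((N - 1) / N) / (1.004004 * (2 * Real.pi))) /
          (N * √N) := by
        have := Real.pi_lt_d4
        gcongr
    _ = Real.exp (-1 - 1 / (4 * M)) * (1 / √N) *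
      (√(2 / Real.pi) / (Real.exp 1 * h * √N) * Real.exp (-1 / (2 * N * h ^ 2))) *
      ((N - 1) * x / (2 * √(2 * Real.pi) * N * √N) * rb / (Real.exp 1 * 1.004004)) := by
        have e1 : Real.exp (-1 - 1 / (4 * M)) * (1 / √N) *
          (√(2 / Real.pi) / (Real.exp 1 * h * √N) * Real.exp (-1 / (2 * N * h ^ 2))) *
          ((N - 1) * x / (2 * √(2 * Real.pi) * N * √N) * rb / (Real.exp 1 * 1.004004)) =
          ((Real.exp (-1 - 1 / (4 * M)) * Real.exp (-1 / (2 * N * h ^ 2)) * (Real.exp 1)⁻¹ *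
          (Real.exp 1)⁻¹) * (x / h * rb) * ((N - 1) / N)) *
          (√(2 / Real.pi) / √(2 * Real.pi)) / (1.004004 * 2) / ((√N * √N) * √N) := by
          field_simp
        rw [e1, g4, hss]
        field_simp
    _ ≤ _ := by
        gcongr

theorem mc_B (n m : ℕ) (hn : 0 < n) (hm : 0 < m) (h x a b : ℝ) (hx : 0 < x) (ha : 0 < a)
    (hb : 0 < b) :
    (((n : ℝ) + m) ^ (n + m) / ((n : ℝ) ^ n * (m : ℝ) ^ m)) * Real.exp (-(n * h ^ 2) / 2) * a ^ m *
      (√(2 * Real.pi) * b / (2 * x)) ^ n * b ^ m =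
    Real.exp (n * KK ((m : ℝ) / n) h x a b) := by
  have hN0 : (0 : ℝ) < n := by exact_mod_cast hn
  have hM0 : (0 : ℝ) < m := by exact_mod_cast hm
  have hpi := Real.pi_pos
  have hsp : 0 < √(2 * Real.pi) := Real.sqrt_pos.2 (by positivity)
  have hpos : 0 < (((n : ℝ) + m) ^ (n + m) / ((n : ℝ) ^ n * (m : ℝ) ^ m)) *
      Real.exp (-(n * h ^ 2) / 2) * a ^ m *
      (√(2 * Real.pi) * b / (2 * x)) ^ n * b ^ m := by positivity
  rw [← Real.exp_log hpos]
  congr 1
  rw [Real.log_mul (by positivity) (by positivity), Real.log_mul (by positivity) (by positivity),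
    Real.log_mul (by positivity) (by positivity), Real.log_mul (by positivity) (by positivity),
    Real.log_div (by positivity) (by positivity), Real.log_mul (by positivity) (by positivity),
    Real.log_exp, Real.log_pow, Real.log_pow, Real.log_pow, Real.log_pow, Real.log_pow,
    Real.log_pow]
  unfold KK
  have e1 : Real.log (1 + (m : ℝ) / n) = Real.log (n + m) - Real.log n := by
    rw [← Real.log_div (by positivity) (by positivity)]
    congr 1
    field_simp
  have e2 : Real.log ((m : ℝ) / n) = Real.log m - Real.log n := by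
    rw [Real.log_div (by positivity) (by positivity)]
  have e3 : Real.log (a * b) = Real.log a + Real.log b := Real.log_mul ha.ne' hb.ne'
  rw [e1, e2, e3]
  push_cast
  field_simp
  ring

theorem many_core (n m : ℕ) (hn : 500 ≤ n) (h x a b Sh Sx l1 l2 : ℝ)
    (hh : 0.84 ≤ h) (hx : 0 < x) (ha : 0 < a) (hb : 0 < b) (haS : a ≤ Sh) (hbS : b ≤ Sx)
    (hl : 0.7 ≤ l1) (h1 : l1 * n ≤ m) (h2 : m ≤ l2 * n)
    (hK1 : 0.03 ≤ KK l1 h x a b) (hK2 : 0.03 ≤ KK l2 h x a b)
    (hr : 0.74 ≤ x / h * (1 - 2 * x * Real.exp (-x ^ 2 / 2) / (√(2 * Real.pi) * b))) :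
    1 ≤ EE n m h x Sh Sx := by
  have hNr : (500 : ℝ) ≤ n := by exact_mod_cast hn
  have hN0 : (0 : ℝ) < n := by linarith
  have hMr : (350 : ℝ) ≤ m := by
    have : 0.7 * (500 : ℝ) ≤ l1 * n := by
      apply mul_le_mul hl hNr (by norm_num) (by linarith)
    linarith
  have hM0 : (0 : ℝ) < m := by linarith
  have hn0 : 0 < n := by omega
  have hm0 : 0 < m := by exact_mod_cast hM0
  have hh0 : 0 < h := by linarith
  have hpi := Real.pi_pos
  have hsp : 0 < √(2 * Real.pi) := Real.sqrt_pos.2 (by positivity)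
  set rb : ℝ := 1 - 2 * x * Real.exp (-x ^ 2 / 2) / (√(2 * Real.pi) * b) with hrb
  have hrb0 : 0 < rb := by
    by_contra hneg
    have h3 : x / h * rb ≤ 0 := mul_nonpos_of_nonneg_of_nonpos (by positivity) (not_lt.1 hneg)
    linarith
  have hSx : 0 < Sx := hb.trans_le hbS
  have hrle : rb ≤ 1 - 2 * x * Real.exp (-x ^ 2 / 2) / (√(2 * Real.pi) * Sx) := by
    rw [hrb]
    gcongr
  have hlam1 : l1 ≤ (m : ℝ) / n := by
    rw [le_div_iff₀ hN0]; exact h1
  have hlam2 : (m : ℝ) / n ≤ l2 := by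
    rw [div_le_iff₀ hN0]; exact h2
  have hKK := mc_KK ((m : ℝ) / n) l1 l2 h x a b (by linarith) hlam1 hlam2 hK1 hK2
  have hB := mc_B n m hn0 hm0 h x a b hx ha hb
  have hP := mc_pref n n m h x rb rfl hNr hMr hh hx hr hrb0
  have hF := mc_fin n hNr
  have hN1 : (0 : ℝ) ≤ (n : ℝ) - 1 := by linarith
  have hSh : 0 < Sh := ha.trans_le haS
  have hmono : EE n m h x a b ≤ EE n m h x Sh Sx := by
    unfold EE
    rw [← hrb]
    generalize (1 - 2 * x * Real.exp (-x ^ 2 / 2) / (√(2 * Real.pi) * Sx)) = rS at hrle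
    have hrS0 : 0 < rS := hrb0.trans_le hrle
    generalize ((n : ℝ) - 1) = N1 at hN1
    clear_value rb
    gcongr
  refine le_trans ?_ hmono
  have hfac : EE n m h x a b = (Real.exp (-1 - 1 / (4 * (m : ℝ))) * √(((n : ℝ) + m) / (n * m)) *
      (√(2 / Real.pi) / (Real.exp 1 * h * √(n : ℝ)) * Real.exp (-1 / (2 * n * h ^ 2))) *
      (((n : ℝ) - 1) * x / (2 * √(2 * Real.pi) * n * √(n : ℝ)) * rb /
        (1 + 1 / (n : ℝ)) ^ (n + 2))) *
      ((((n : ℝ) + m) ^ (n + m) / ((n : ℝ) ^ n * (m : ℝ) ^ m)) * Real.exp (-(n * h ^ 2) / 2) *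
        a ^ m * (√(2 * Real.pi) * b / (2 * x)) ^ n * b ^ m) := by
    unfold EE
    rw [← hrb]
    ring
  rw [hfac, hB]
  have hsN : 0 < √(n : ℝ) := Real.sqrt_pos.2 hN0
  have hexp : Real.exp (0.03 * n) ≤ Real.exp (n * KK ((m : ℝ) / n) h x a b) := by
    apply Real.exp_le_exp.2
    nlinarith
  calc (1 : ℝ) ≤ 0.00581 / ((n : ℝ) * √(n : ℝ)) * Real.exp (0.03 * n) := by
        rw [div_mul_eq_mul_div, le_div_iff₀ (by positivity), one_mul]
        exact hF
    _ ≤ _ := by gcongr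


end Pool.Agent.VP.E3
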