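import Pool.Agent.VP.Defs

set_option autoImplicit false
open MeasureTheory ProbabilityTheory
open scoped ENNReal Matrix

namespace Pool.Agent.VP.E3b

open Pool.Agent.VP



/-- rate function -/
noncomputable def KK (l h x a b : ℝ) : ℝ :=
  (1 + l) * Real.log (1 + l) - l * Real.log l + l * Real.log (a * b) - h ^ 2 / 2 +
    Real.log (√(2 * Real.pi) * b / (2 * x))

/-- the product of the lower bounds -/
noncomputable def EE (n m : ℕ) (h x Sh Sx : ℝ) : ℝ :=
  Real.exp (-1 - 1 / (4 * m)) * √(((n : ℝ) + m) / (n * m)) *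
      (((n : ℝ) + m) ^ (n + m) / ((n : ℝ) ^ n * (m : ℝ) ^ m)) *
      (√(2 / Real.pi) / (Real.exp 1 * h * √(n : ℝ)) * Real.exp (-1 / (2 * n * h ^ 2)) *
      Real.exp (-(n * h ^ 2) / 2) * Sh ^ m) *
      ((n - 1) * x / (2 * √(2 * Real.pi) * n * √(n : ℝ)) *
      (1 - 2 * x * Real.exp (-x ^ 2 / 2) / (√(2 * Real.pi) * Sx)) *
      (√(2 * Real.pi) * Sx / (2 * x)) ^ n / (1 + 1 / (n : ℝ)) ^ (n + 2) *
      Sx ^ m)

lemma E3_gen (p q : ℕ) (hp : 0 < p) (hq : 0 < q) {l h x a b : ℝ} (E : ℝ) (ha : 0 < a) (hb : 0 < b)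
    (hx : 0 < x) (hl : l = (p:ℝ) / q) (hE : q * h ^ 2 + 0.06 * q = E)
    (hP : Real.exp E ≤ (((p:ℝ) + q) / q) ^ (2 * (p + q)) * ((q:ℝ) / p) ^ (2 * p) *
      (a * b) ^ (2 * p) * (2 * 3.1415 * (b / (2 * x)) ^ 2) ^ q) :
    0.03 ≤ KK l h x a b := by
  have hp' : (0:ℝ) < p := by exact_mod_cast hp
  have hq' : (0:ℝ) < q := by exact_mod_cast hq
  have hpi : (3.1415:ℝ) < Real.pi := Real.pi_gt_d4
  have hpi0 := Real.pi_pos
  have h1 : Real.exp E ≤ (((p:ℝ) + q) / q) ^ (2 * (p + q)) * ((q:ℝ) / p) ^ (2 * p) *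
      (a * b) ^ (2 * p) * (2 * Real.pi * (b / (2 * x)) ^ 2) ^ q := by
    refine hP.trans ?_
    gcongr
  have h2 := Real.log_le_log (Real.exp_pos _) h1
  rw [Real.log_exp, Real.log_mul (by positivity) (by positivity),
    Real.log_mul (by positivity) (by positivity), Real.log_mul (by positivity) (by positivity),
    Real.log_pow, Real.log_pow, Real.log_pow, Real.log_pow] at h2
  have h3 : Real.log (√(2 * Real.pi) * b / (2 * x)) =
      1 / 2 * Real.log (2 * Real.pi * (b / (2 * x)) ^ 2) := by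
    have h4 : √(2 * Real.pi) * b / (2 * x) = √(2 * Real.pi * (b / (2 * x)) ^ 2) := by
      rw [Real.sqrt_mul (show (0:ℝ) ≤ 2 * Real.pi by positivity) ((b / (2 * x)) ^ 2),
        Real.sqrt_sq (by positivity), mul_div_assoc]
    rw [h4, Real.log_sqrt (by positivity)]
    ring
  have h5 : Real.log l = - Real.log ((q:ℝ) / p) := by
    rw [hl, ← Real.log_inv, inv_div]
  have h6 : 1 + l = ((p:ℝ) + q) / q := by
    rw [hl]
    field_simp
    ring
  unfold KK
  rw [h3, h5, h6, hl]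
  set L1 := Real.log (((p:ℝ) + q) / q)
  set L2 := Real.log ((q:ℝ) / p)
  set L3 := Real.log (a * b)
  set L4 := Real.log (2 * Real.pi * (b / (2 * x)) ^ 2)
  have h7 : ((p:ℝ) + q) / q * L1 - (p:ℝ) / q * -L2 + (p:ℝ) / q * L3 - h ^ 2 / 2 + 1 / 2 * L4 =
      (2 * ((p:ℝ) + q) * L1 + 2 * p * L2 + 2 * p * L3 + q * L4 - q * h ^ 2) / (2 * q) := by
    field_simp
    ring
  rw [h7, le_div_iff₀ (by positivity)]
  push_cast at h2
  linarith

lemma E3_exp (n : ℕ) (f : ℝ) (hf0 : 0 ≤ f) (hf1 : f ≤ 1) {E B : ℝ} (hE : E = n + f)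
    (hB : (2.7182818286:ℝ) ^ n * ((∑ m ∈ Finset.range 8, f ^ m / m.factorial) +
      f ^ 8 * (8 + 1) / (Nat.factorial 8 * 8)) ≤ B) : Real.exp E ≤ B := by
  rw [hE, Real.exp_add]
  refine le_trans ?_ hB
  have h1 : Real.exp (n:ℝ) ≤ (2.7182818286:ℝ) ^ n := by
    rw [← mul_one (n:ℝ), Real.exp_nat_mul]
    exact pow_le_pow_left₀ (Real.exp_pos _).le Real.exp_one_lt_d9.le n
  have h2 := Real.exp_bound' hf0 hf1 (n := 8) (by norm_num)
  push_cast at h2
  exact mul_le_mul h1 h2 (Real.exp_pos _).le (by positivity)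

theorem rates :
    (0.03 ≤ KK 0.7 0.85 1.35 0.6046 0.8229 ∧ 0.03 ≤ KK 1.3 0.85 1.35 0.6046 0.8229) ∧
    (0.03 ≤ KK 1.3 1.1 1.7 0.7286 0.9108 ∧ 0.03 ≤ KK 2.8 1.1 1.7 0.7286 0.9108) ∧
    (0.03 ≤ KK 2.8 1.45 2.05 0.8529 0.9596 ∧ 0.03 ≤ KK 6.5 1.45 2.05 0.8529 0.9596) ∧
    (0.03 ≤ KK 6.5 1.8 2.6 0.9281 0.9906 ∧ 0.03 ≤ KK 18 1.8 2.6 0.9281 0.9906) ∧
    (0.03 ≤ KK 18 2.2 2.95 0.9721 0.9968 ∧ 0.03 ≤ KK 50 2.2 2.95 0.9721 0.9968) := by
  refine ⟨⟨?_, ?_⟩, ⟨?_, ?_⟩, ⟨?_, ?_⟩, ⟨?_, ?_⟩, ⟨?_, ?_⟩⟩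
  · refine E3_gen 7 10 (by norm_num) (by norm_num) 7.825 (by norm_num) (by norm_num) (by norm_num)
      (by norm_num) (by norm_num) ?_
    refine E3_exp 7 0.825 (by norm_num) (by norm_num) (by norm_num) ?_
    norm_num [Finset.sum_range_succ, Nat.factorial]
  · refine E3_gen 13 10 (by norm_num) (by norm_num) 7.825 (by norm_num) (by norm_num) (by norm_num)
      (by norm_num) (by norm_num) ?_
    refine E3_exp 7 0.825 (by norm_num) (by norm_num) (by norm_num) ?_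
    norm_num [Finset.sum_range_succ, Nat.factorial]
  · refine E3_gen 13 10 (by norm_num) (by norm_num) 12.7 (by norm_num) (by norm_num) (by norm_num)
      (by norm_num) (by norm_num) ?_
    refine E3_exp 12 0.7 (by norm_num) (by norm_num) (by norm_num) ?_
    norm_num [Finset.sum_range_succ, Nat.factorial]
  · refine E3_gen 14 5 (by norm_num) (by norm_num) 6.35 (by norm_num) (by norm_num) (by norm_num)
      (by norm_num) (by norm_num) ?_
    refine E3_exp 6 0.35 (by norm_num) (by norm_num) (by norm_num) ?_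
    norm_num [Finset.sum_range_succ, Nat.factorial]
  · refine E3_gen 14 5 (by norm_num) (by norm_num) 10.8125 (by norm_num) (by norm_num)
      (by norm_num) (by norm_num) (by norm_num) ?_
    refine E3_exp 10 0.8125 (by norm_num) (by norm_num) (by norm_num) ?_
    norm_num [Finset.sum_range_succ, Nat.factorial]
  · refine E3_gen 13 2 (by norm_num) (by norm_num) 4.325 (by norm_num) (by norm_num) (by norm_num)
      (by norm_num) (by norm_num) ?_
    refine E3_exp 4 0.325 (by norm_num) (by norm_num) (by norm_num) ?_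
    norm_num [Finset.sum_range_succ, Nat.factorial]
  · refine E3_gen 13 2 (by norm_num) (by norm_num) 6.6 (by norm_num) (by norm_num) (by norm_num)
      (by norm_num) (by norm_num) ?_
    refine E3_exp 6 0.6 (by norm_num) (by norm_num) (by norm_num) ?_
    norm_num [Finset.sum_range_succ, Nat.factorial]
  · refine E3_gen 18 1 (by norm_num) (by norm_num) 3.3 (by norm_num) (by norm_num) (by norm_num)
      (by norm_num) (by norm_num) ?_
    refine E3_exp 3 0.3 (by norm_num) (by norm_num) (by norm_num) ?_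
    norm_num [Finset.sum_range_succ, Nat.factorial]
  · refine E3_gen 18 1 (by norm_num) (by norm_num) 4.9 (by norm_num) (by norm_num) (by norm_num)
      (by norm_num) (by norm_num) ?_
    refine E3_exp 4 0.9 (by norm_num) (by norm_num) (by norm_num) ?_
    norm_num [Finset.sum_range_succ, Nat.factorial]
  · refine E3_gen 50 1 (by norm_num) (by norm_num) 4.9 (by norm_num) (by norm_num) (by norm_num)
      (by norm_num) (by norm_num) ?_
    refine E3_exp 4 0.9 (by norm_num) (by norm_num) (by norm_num) ?_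
    norm_num [Finset.sum_range_succ, Nat.factorial]

lemma E3_pref {h x S y : ℝ} (hh : 0 < h) (hx : 0 < x) (hS : 0 < S) (hy : x ^ 2 / 2 = y) (T : ℝ)
    (hT : T = ∑ i ∈ Finset.range 8, y ^ i / i.factorial)
    (hnum : 0.74 ≤ x / h * (1 - 2 * x * T⁻¹ / (2.506 * S))) :
    0.74 ≤ x / h * (1 - 2 * x * Real.exp (-x ^ 2 / 2) / (√(2 * Real.pi) * S)) := by
  have hy0 : 0 ≤ y := by rw [← hy]; positivity
  have hT0 : 0 < T := by
    rw [hT]
    have : (0:ℝ) < y ^ 0 / (Nat.factorial 0 : ℝ) := by norm_num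
    refine Finset.sum_pos' (fun i _ => by positivity) ⟨0, by simp, this⟩
  have h1 : T ≤ Real.exp y := by
    rw [hT]
    exact Real.sum_le_exp_of_nonneg hy0 8
  have h2 : Real.exp (-x ^ 2 / 2) ≤ T⁻¹ := by
    rw [show -x ^ 2 / 2 = -y by rw [← hy]; ring, Real.exp_neg]
    exact inv_anti₀ hT0 h1
  have h3 : (2.506:ℝ) ≤ √(2 * Real.pi) := by
    apply Real.le_sqrt_of_sq_le
    have : (3.1415:ℝ) < Real.pi := Real.pi_gt_d4
    norm_num
    linarith
  refine hnum.trans ?_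
  gcongr

theorem prefs :
    0.74 ≤ (1.35 : ℝ) / 0.85 * (1 - 2 * 1.35 * Real.exp (-1.35 ^ 2 / 2) / (√(2 * Real.pi) * 0.8229)) ∧
    0.74 ≤ (1.7 : ℝ) / 1.1 * (1 - 2 * 1.7 * Real.exp (-1.7 ^ 2 / 2) / (√(2 * Real.pi) * 0.9108)) ∧
    0.74 ≤ (2.05 : ℝ) / 1.45 * (1 - 2 * 2.05 * Real.exp (-2.05 ^ 2 / 2) / (√(2 * Real.pi) * 0.9596)) ∧
    0.74 ≤ (2.6 : ℝ) / 1.8 * (1 - 2 * 2.6 * Real.exp (-2.6 ^ 2 / 2) / (√(2 * Real.pi) * 0.9906)) ∧
    0.74 ≤ (2.95 : ℝ) / 2.2 * (1 - 2 * 2.95 * Real.exp (-2.95 ^ 2 / 2) / (√(2 * Real.pi) * 0.9968)) := by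
  refine ⟨?_, ?_, ?_, ?_, ?_⟩
  · refine E3_pref (by norm_num) (by norm_num) (by norm_num) (y := 0.91125) (by norm_num) _ rfl ?_
    norm_num [Finset.sum_range_succ, Nat.factorial]
  · refine E3_pref (by norm_num) (by norm_num) (by norm_num) (y := 1.445) (by norm_num) _ rfl ?_
    norm_num [Finset.sum_range_succ, Nat.factorial]
  · refine E3_pref (by norm_num) (by norm_num) (by norm_num) (y := 2.10125) (by norm_num) _ rfl ?_
    norm_num [Finset.sum_range_succ, Nat.factorial]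
  · refine E3_pref (by norm_num) (by norm_num) (by norm_num) (y := 3.38) (by norm_num) _ rfl ?_
    norm_num [Finset.sum_range_succ, Nat.factorial]
  · refine E3_pref (by norm_num) (by norm_num) (by norm_num) (y := 4.35125) (by norm_num) _ rfl ?_
    norm_num [Finset.sum_range_succ, Nat.factorial]


end Pool.Agent.VP.E3b
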