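import Pool.Agent.VP.Defs

set_option autoImplicit false
open MeasureTheory ProbabilityTheory
open scoped ENNReal Matrix

namespace Pool.Agent.VP.E4

open Pool.Agent.VP



/-- rate function -/
noncomputable def KK (l h x a b : ℝ) : ℝ :=
  (1 + l) * Real.log (1 + l) - l * Real.log l + l * Real.log (a * b) - h ^ 2 / 2 +
    Real.log (√(2 * Real.pi) * b / (2 * x))

/-- the product of the lower bounds -/
noncomputable def EE (n m : ℕ) (h x Sh Sx : ℝ) : ℝ :=
  Real.exp (-1 - 1 / (4 * m)) * √(((n : ℝ) + m) / (n * m)) *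
      (((n : ℝ) + m) ^ (n + m) / ((n : ℝ) ^ n * (m : ℝ) ^ m)) *
      (√(2 / Real.pi) / (Real.exp 1 * h * √(n : ℝ)) * Real.exp (-1 / (2 * n * h ^ 2)) *
      Real.exp (-(n * h ^ 2) / 2) * Sh ^ m) *
      ((n - 1) * x / (2 * √(2 * Real.pi) * n * √(n : ℝ)) *
      (1 - 2 * x * Real.exp (-x ^ 2 / 2) / (√(2 * Real.pi) * Sx)) *
      (√(2 * Real.pi) * Sx / (2 * x)) ^ n / (1 + 1 / (n : ℝ)) ^ (n + 2) *
      Sx ^ m)


theorem one_sub_ge_exp (u : ℝ) (h1 : u < 1) :
    Real.exp (-(u / (1 - u))) ≤ 1 - u := by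
  have h2 : 0 < 1 - u := by linarith
  have h3 : 1 / (1 - u) ≤ Real.exp (u / (1 - u)) := by
    have := Real.add_one_le_exp (u / (1 - u))
    have h4 : u / (1 - u) + 1 = 1 / (1 - u) := by field_simp; ring
    linarith
  rw [Real.exp_neg]
  calc (Real.exp (u / (1 - u)))⁻¹ ≤ (1 / (1 - u))⁻¹ :=
        inv_anti₀ (by positivity) h3
    _ = 1 - u := by rw [one_div, inv_inv]

theorem exists_h (l : ℝ) (hl : 50 ≤ l) : ∃ h : ℝ, 0 < h ∧
    √(Real.pi / 2) * h * Real.exp (h ^ 2 / 2) = l := by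
  have hs : 1 ≤ √(Real.pi / 2) := by
    rw [Real.one_le_sqrt]
    have := Real.pi_gt_three
    linarith
  have hc : ContinuousOn (fun h : ℝ => √(Real.pi / 2) * h * Real.exp (h ^ 2 / 2)) (Set.Icc 0 l) := by
    fun_prop
  have hmem : l ∈ Set.Icc ((fun h : ℝ => √(Real.pi / 2) * h * Real.exp (h ^ 2 / 2)) 0)
      ((fun h : ℝ => √(Real.pi / 2) * h * Real.exp (h ^ 2 / 2)) l) := by
    constructor
    · simp; linarith
    · simp only
      have h1 : 1 ≤ Real.exp (l ^ 2 / 2) := Real.one_le_exp (by positivity)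
      have h2 : l ≤ √(Real.pi / 2) * l := by nlinarith
      have h3 : 0 ≤ √(Real.pi / 2) * l := by linarith
      nlinarith
  obtain ⟨h, hh, hv⟩ := intermediate_value_Icc (by linarith) hc hmem
  simp only at hv
  refine ⟨h, ?_, hv⟩
  rcases eq_or_lt_of_le hh.1 with h0 | h0
  · rw [← h0] at hv; simp at hv; linarith
  · exact h0

theorem exp_h_ge (l h : ℝ) (hl : 50 ≤ l) (hh : 0 < h)
    (hv : √(Real.pi / 2) * h * Real.exp (h ^ 2 / 2) = l) : 16 ≤ Real.exp (h ^ 2 / 2) := by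
  by_contra hcon
  push Not at hcon
  have h16 : Real.log 16 < 2.7727 := by
    have : (16 : ℝ) = 2 ^ 4 := by norm_num
    rw [this, Real.log_pow]
    have := Real.log_two_lt_d9
    norm_num
    linarith
  have h1 : h ^ 2 / 2 < 2.7727 := by
    have : h ^ 2 / 2 < Real.log 16 := (Real.lt_log_iff_exp_lt (by norm_num)).mpr hcon
    linarith
  have h2 : h < 2.355 := by nlinarith
  have hs : √(Real.pi / 2) ≤ 1.2534 := by
    rw [Real.sqrt_le_left (by norm_num)]
    have := Real.pi_lt_d6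
    norm_num at this ⊢
    linarith
  have hs0 : 0 ≤ √(Real.pi / 2) := Real.sqrt_nonneg _
  have h3 : √(Real.pi / 2) * h ≤ 1.2534 * 2.355 := by
    apply mul_le_mul hs h2.le hh.le (by norm_num)
  have h4 : √(Real.pi / 2) * h * Real.exp (h ^ 2 / 2) ≤ 1.2534 * 2.355 * 16 := by
    apply mul_le_mul h3 hcon.le (Real.exp_pos _).le (by norm_num)
  rw [hv] at h4
  norm_num at h4
  linarith


theorem B_lower (n m : ℕ) (hn : 0 < n) (hm : 0 < m) :
    ((m : ℝ) / n) ^ n * Real.exp n ≤ ((n : ℝ) + m) ^ (n + m) / ((n : ℝ) ^ n * (m : ℝ) ^ m) := by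
  have hn' : (0 : ℝ) < n := by exact_mod_cast hn
  have hm' : (0 : ℝ) < m := by exact_mod_cast hm
  have h1 : Real.exp ((n : ℝ) / (n + m)) ≤ ((n : ℝ) + m) / m := by
    have h2 := Real.add_one_le_exp (-((n : ℝ) / (n + m)))
    have h3 : -((n : ℝ) / (n + m)) + 1 = m / (n + m) := by field_simp; ring
    rw [h3, Real.exp_neg] at h2
    have h4 : ((m : ℝ) / (n + m))⁻¹ = ((n : ℝ) + m) / m := by rw [inv_div]
    rw [← h4]
    exact (le_inv_comm₀ (by positivity) (Real.exp_pos _)).mp h2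
  have h5 : Real.exp (n : ℝ) ≤ (((n : ℝ) + m) / m) ^ (n + m) := by
    calc Real.exp (n : ℝ) = Real.exp ((n : ℝ) / (n + m)) ^ (n + m) := by
          rw [← Real.exp_nat_mul]
          congr 1
          push_cast
          field_simp
      _ ≤ _ := by gcongr
  calc ((m : ℝ) / n) ^ n * Real.exp n ≤ ((m : ℝ) / n) ^ n * (((n : ℝ) + m) / m) ^ (n + m) := by
        gcongr
    _ = _ := by
        rw [div_pow, div_pow, pow_add (m : ℝ) n m]
        field_simp

theorem pow_lower (s u : ℝ) (k : ℕ) (h1 : u < 1) (hs : 1 - u ≤ s) :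
    Real.exp (-(k * (u / (1 - u)))) ≤ s ^ k := by
  have h2 := one_sub_ge_exp u h1
  calc Real.exp (-(k * (u / (1 - u)))) = Real.exp (-(u / (1 - u))) ^ k := by
        rw [← Real.exp_nat_mul]; congr 1; ring
    _ ≤ s ^ k := by
        have : Real.exp (-(u / (1 - u))) ≤ s := h2.trans hs
        gcongr

theorem pi_const : Real.exp 0.1007 ≤ Real.pi / (2 * √2) := by
  have h1 : Real.exp 0.05035 ≤ 1.0529 := by
    have := Real.abs_exp_sub_one_sub_id_le (x := 0.05035) (by rw [abs_le]; constructor <;> norm_num)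
    rw [abs_le] at this
    norm_num at this ⊢
    linarith [this.2]
  have h2 : Real.exp 0.1007 = Real.exp 0.05035 * Real.exp 0.05035 := by
    rw [← Real.exp_add]; norm_num
  have h3 : Real.exp 0.1007 ≤ 1.0529 * 1.0529 := by
    rw [h2]
    exact mul_le_mul h1 h1 (Real.exp_pos _).le (by norm_num)
  have h4 : √2 ≤ 1.41422 := by
    rw [Real.sqrt_le_left (by norm_num)]; norm_num
  have h5 : (0:ℝ) < √2 := by positivity
  rw [le_div_iff₀ (by positivity)]
  have := Real.pi_gt_d6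
  calc Real.exp 0.1007 * (2 * √2) ≤ (1.0529 * 1.0529) * (2 * 1.41422) := by gcongr
    _ ≤ 3.141592 := by norm_num
    _ ≤ Real.pi := by norm_num at this ⊢; linarith

theorem G_lower (n m : ℕ) (hn : 0 < n) (hm : 50 * n ≤ m) (h Sh Sx : ℝ) (hh : 0 < h)
    (hv : √(Real.pi / 2) * h * Real.exp (h ^ 2 / 2) = (m : ℝ) / n)
    (h16 : 16 ≤ Real.exp (h ^ 2 / 2))
    (hSh : 1 - (n : ℝ) / m ≤ Sh)
    (hSx : 1 - (n : ℝ) / m * ((Real.exp (h ^ 2 / 2))⁻¹ / √2) ≤ Sx) :
    Real.exp (0.035 * n) ≤ ((n : ℝ) + m) ^ (n + m) / ((n : ℝ) ^ n * (m : ℝ) ^ m) *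
      Real.exp (-(n * h ^ 2) / 2) * Sh ^ m * (√(2 * Real.pi) * Sx / (2 * (√2 * h))) ^ n * Sx ^ m := by
  have hn' : (0 : ℝ) < n := by exact_mod_cast hn
  have hm0 : 0 < m := by omega
  have hm' : (0 : ℝ) < m := by exact_mod_cast hm0
  have hmn : 50 * (n : ℝ) ≤ m := by exact_mod_cast hm
  have hy : (n : ℝ) / m ≤ 1 / 50 := by
    rw [div_le_div_iff₀ hm' (by norm_num)]; linarith
  have hy0 : 0 < (n : ℝ) / m := by positivity
  set y : ℝ := (n : ℝ) / m with hydef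
  set E := Real.exp (h ^ 2 / 2) with hE
  have hE0 : 0 < E := Real.exp_pos _
  have hEi : E⁻¹ ≤ 1 / 16 := by
    rw [one_div]; exact inv_anti₀ (by norm_num) h16
  have hs2 : 1.4142 ≤ √2 := by
    apply Real.le_sqrt_of_sq_le; norm_num
  have hw : E⁻¹ / √2 ≤ 0.0442 := by
    rw [div_le_iff₀ (by positivity)]
    calc E⁻¹ ≤ 1 / 16 := hEi
      _ ≤ 0.0442 * 1.4142 := by norm_num
      _ ≤ 0.0442 * √2 := by gcongr
  have hw0 : 0 < E⁻¹ / √2 := by positivity
  have hu2 : y * (E⁻¹ / √2) ≤ y * 0.0442 := by gcongr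
  -- Sh
  have e1 : Real.exp (-(50 / 49 * (n : ℝ))) ≤ Sh ^ m := by
    refine le_trans ?_ (pow_lower Sh y m (by linarith) hSh)
    rw [Real.exp_le_exp, neg_le_neg_iff]
    have h3 : (m : ℝ) * (y / (1 - y)) = n / (1 - y) := by
      rw [hydef]; field_simp
    rw [h3, div_le_iff₀ (by linarith)]
    nlinarith
  -- Sx
  have e2 : Real.exp (-(0.0452 * (n : ℝ))) ≤ Sx ^ (n + m) := by
    refine le_trans ?_ (pow_lower Sx (y * (E⁻¹ / √2)) (n + m) (by nlinarith) hSx)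
    rw [Real.exp_le_exp, neg_le_neg_iff]
    have h4 : (0:ℝ) < 1 - y * (E⁻¹ / √2) := by nlinarith
    rw [← mul_div_assoc, div_le_iff₀ h4]
    have h5 : ((n + m : ℕ) : ℝ) * (y * (E⁻¹ / √2)) ≤ 0.04509 * n := by
      have h6 : ((n + m : ℕ) : ℝ) * y = n * (1 + y) := by
        rw [hydef]; push_cast; field_simp; ring
      rw [← mul_assoc, h6]
      have h7 : (1 + y) * (E⁻¹ / √2) ≤ 1.02 * 0.0442 := by
        apply mul_le_mul (by linarith) hw hw0.le (by norm_num)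
      nlinarith
    have h8 : y * (E⁻¹ / √2) ≤ 0.001 := by nlinarith
    nlinarith
  have hSx0 : 0 < Sx := by
    have : y * (E⁻¹ / √2) < 1 := by nlinarith
    linarith
  have hSh0 : 0 < Sh := by linarith
  -- algebra
  have hpp : √(Real.pi / 2) * √(2 * Real.pi) = Real.pi := by
    rw [← Real.sqrt_mul (by positivity)]
    have : Real.pi / 2 * (2 * Real.pi) = Real.pi ^ 2 := by ring
    rw [this, Real.sqrt_sq Real.pi_pos.le]
  have hexp : Real.exp (-(n * h ^ 2) / 2) = (E⁻¹) ^ n := by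
    rw [hE, ← Real.exp_neg, ← Real.exp_nat_mul]
    congr 1; ring
  have hsplit : (√(2 * Real.pi) * Sx / (2 * (√2 * h))) ^ n = (√(2 * Real.pi) / (2 * (√2 * h))) ^ n * Sx ^ n := by
    rw [← mul_pow]; congr 1; ring
  have hB := B_lower n m hn hm0
  have hmain : ((m : ℝ) / n) ^ n * (E⁻¹) ^ n * (√(2 * Real.pi) / (2 * (√2 * h))) ^ n =
      (Real.pi / (2 * √2)) ^ n := by
    rw [← mul_pow, ← mul_pow]
    congr 1
    rw [← hv]
    have : √(Real.pi / 2) * h * E * E⁻¹ * (√(2 * Real.pi) / (2 * (√2 * h))) =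
        (√(Real.pi / 2) * √(2 * Real.pi)) / (2 * √2) := by
      field_simp
    rw [this, hpp]
  rw [hexp, hsplit]
  calc Real.exp (0.035 * n) ≤ Real.exp (0.1007 * n) * Real.exp n * Real.exp (-(50 / 49 * (n : ℝ))) *
        Real.exp (-(0.0452 * (n : ℝ))) := by
        rw [← Real.exp_add, ← Real.exp_add, ← Real.exp_add, Real.exp_le_exp]
        nlinarith
    _ ≤ (Real.pi / (2 * √2)) ^ n * Real.exp n * Sh ^ m * Sx ^ (n + m) := by
        have : Real.exp (0.1007 * n) ≤ (Real.pi / (2 * √2)) ^ n := by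
          rw [mul_comm, Real.exp_nat_mul]
          have := pi_const
          gcongr
        gcongr
    _ = (((m : ℝ) / n) ^ n * Real.exp n) * (E⁻¹) ^ n * Sh ^ m *
        ((√(2 * Real.pi) / (2 * (√2 * h))) ^ n * Sx ^ n) * Sx ^ m := by
        rw [← hmain, pow_add]; ring
    _ ≤ _ := by
        gcongr


theorem final_growth (n : ℕ) (hn : 500 ≤ n) : 200 * ((n : ℝ) * √(n : ℝ)) ≤ Real.exp (0.035 * n) := by
  have hn' : (500 : ℝ) ≤ n := by exact_mod_cast hn
  have h1 : 22 ≤ √(n : ℝ) := by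
    apply Real.le_sqrt_of_sq_le; linarith
  have h2 : √(n : ℝ) * 22 ≤ n := by
    have := Real.mul_self_sqrt (show (0:ℝ) ≤ n by linarith)
    nlinarith
  have h3 : 3.02 * (n : ℝ) ≤ Real.exp (0.0175 * n) := by
    have e1 : Real.exp (0.0175 * n) = Real.exp 8.75 * Real.exp (0.0175 * (n - 500)) := by
      rw [← Real.exp_add]; congr 1; ring
    have e2 : (2980 : ℝ) ≤ Real.exp 8.75 := by
      have e3 : Real.exp 8 ≤ Real.exp 8.75 := Real.exp_le_exp.mpr (by norm_num)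
      have e4 : Real.exp 8 = Real.exp 1 ^ 8 := by
        rw [← Real.exp_nat_mul]; norm_num
      have e5 : (2.718 : ℝ) < Real.exp 1 := by
        have := Real.exp_one_gt_d9; linarith
      have e6 : (2.718 : ℝ) ^ 8 ≤ Real.exp 1 ^ 8 := by gcongr
      have e7 : (2978 : ℝ) ≤ 2.718 ^ 8 := by norm_num
      have e8 : Real.exp 8.75 = Real.exp 8 * Real.exp 0.75 := by
        rw [← Real.exp_add]; norm_num
      have e9 := Real.add_one_le_exp (0.75 : ℝ)
      rw [e8, e4]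
      nlinarith
    have e3 := Real.add_one_le_exp (0.0175 * ((n : ℝ) - 500))
    rw [e1]
    calc 3.02 * (n : ℝ) ≤ 2980 * (0.0175 * ((n : ℝ) - 500) + 1) := by nlinarith
      _ ≤ _ := by
        apply mul_le_mul e2 e3 (by nlinarith) (Real.exp_pos _).le
  have h4 : Real.exp (0.035 * n) = Real.exp (0.0175 * n) * Real.exp (0.0175 * n) := by
    rw [← Real.exp_add]; congr 1; ring
  rw [h4]
  have h5 : 3.02 * (n : ℝ) * (3.02 * (n : ℝ)) ≤ Real.exp (0.0175 * n) * Real.exp (0.0175 * n) :=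
    mul_le_mul h3 h3 (by positivity) (Real.exp_pos _).le
  refine le_trans ?_ h5
  nlinarith

theorem exp_101 : Real.exp 1.01 ≤ 2.746 := by
  have h1 : Real.exp 1.01 = Real.exp 1 * Real.exp 0.01 := by
    rw [← Real.exp_add]; norm_num
  have h2 : Real.exp 0.01 ≤ 1.0101 := by
    have := Real.abs_exp_sub_one_sub_id_le (x := 0.01) (by rw [abs_le]; constructor <;> norm_num)
    rw [abs_le] at this
    norm_num at this ⊢
    linarith [this.2]
  have h3 := Real.exp_one_lt_d9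
  rw [h1]
  calc Real.exp 1 * Real.exp 0.01 ≤ 2.7182818286 * 1.0101 := by gcongr
    _ ≤ 2.746 := by norm_num

theorem many_large (S : ℝ → ℝ) (hS1 : ∀ h : ℝ, 0 < h → S h ≤ 1)
    (hS : ∀ h : ℝ, 0 < h → 1 - √(2 / Real.pi) * Real.exp (-h ^ 2 / 2) / h ≤ S h)
    (n m : ℕ) (hn : 500 ≤ n) (hm : 50 * n ≤ m) :
    ∃ h x : ℝ, 0 < h ∧ 0 < x ∧ 1 ≤ EE n m h x (S h) (S x) := by
  have hn' : (500 : ℝ) ≤ n := by exact_mod_cast hn
  have hn0 : (0 : ℝ) < n := by linarith
  have hmn : 50 * (n : ℝ) ≤ m := by exact_mod_cast hm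
  have hm' : (0 : ℝ) < m := by linarith
  have hl : (50 : ℝ) ≤ (m : ℝ) / n := by
    rw [le_div_iff₀ hn0]; linarith
  obtain ⟨h, hh, hv⟩ := exists_h _ hl
  have h16 := exp_h_ge _ h hl hh hv
  set E := Real.exp (h ^ 2 / 2) with hE
  have hE0 : 0 < E := Real.exp_pos _
  have hs2 : 0 < √(2:ℝ) := by positivity
  have hs2' : √(2:ℝ) * √(2:ℝ) = 2 := Real.mul_self_sqrt (by norm_num)
  have hs2u : √(2:ℝ) ≤ 1.41422 := by
    rw [Real.sqrt_le_left (by norm_num)]; norm_num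
  have hx0 : 0 < √2 * h := by positivity
  have hpi2 : √(2 / Real.pi) = (√(Real.pi / 2))⁻¹ := by
    rw [← Real.sqrt_inv, inv_div]
  have hsp : 0 < √(Real.pi / 2) := Real.sqrt_pos.mpr (by positivity)
  -- bounds for S
  have hSh : 1 - (n : ℝ) / m ≤ S h := by
    refine le_trans (le_of_eq ?_) (hS h hh)
    congr 1
    have h1 : Real.exp (-h ^ 2 / 2) = E⁻¹ := by
      rw [hE, ← Real.exp_neg]; congr 1; ring
    rw [h1, hpi2]
    have h2 : (n : ℝ) / m = ((m : ℝ) / n)⁻¹ := by rw [inv_div]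
    rw [h2, ← hv]
    field_simp
  have hSx : 1 - (n : ℝ) / m * (E⁻¹ / √2) ≤ S (√2 * h) := by
    refine le_trans (le_of_eq ?_) (hS (√2 * h) hx0)
    congr 1
    have h1 : Real.exp (-(√2 * h) ^ 2 / 2) = E⁻¹ * E⁻¹ := by
      rw [hE, ← Real.exp_neg, ← Real.exp_add]; congr 1
      rw [mul_pow, Real.sq_sqrt (by norm_num)]; ring
    rw [h1, hpi2]
    have h2 : (n : ℝ) / m = ((m : ℝ) / n)⁻¹ := by rw [inv_div]
    rw [h2, ← hv]
    field_simp
  have hG := G_lower n m (by omega) hm h (S h) (S (√2 * h)) hh hv h16 hSh hSx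
  refine ⟨h, √2 * h, hh, hx0, ?_⟩
  set Sh := S h
  set Sx := S (√2 * h)
  set G : ℝ := ((n : ℝ) + m) ^ (n + m) / ((n : ℝ) ^ n * (m : ℝ) ^ m) *
      Real.exp (-(n * h ^ 2) / 2) * Sh ^ m * (√(2 * Real.pi) * Sx / (2 * (√2 * h))) ^ n * Sx ^ m
    with hGdef
  have hEE : EE n m h (√2 * h) Sh Sx =
      Real.exp (-1 - 1 / (4 * m)) * √(((n : ℝ) + m) / (n * m)) *
      ((√(2 / Real.pi) / (Real.exp 1 * h * √(n : ℝ))) *
        ((n - 1) * (√2 * h) / (2 * √(2 * Real.pi) * n * √(n : ℝ)))) *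
      Real.exp (-1 / (2 * n * h ^ 2)) *
      (1 - 2 * (√2 * h) * Real.exp (-(√2 * h) ^ 2 / 2) / (√(2 * Real.pi) * Sx)) *
      ((1 + 1 / (n : ℝ)) ^ (n + 2))⁻¹ * G := by
    rw [hGdef]; unfold EE; ring
  rw [hEE]
  have hsn : √(n : ℝ) * √(n : ℝ) = n := Real.mul_self_sqrt hn0.le
  have hsn0 : 0 < √(n : ℝ) := Real.sqrt_pos.mpr hn0
  have hh2 : 2 ≤ h ^ 2 := by
    by_contra hcon
    push Not at hcon
    have h1 : Real.exp (h ^ 2 / 2) < Real.exp 1 := Real.exp_lt_exp.mpr (by linarith)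
    have h2 := Real.exp_one_lt_d9
    rw [← hE] at h1
    linarith
  have hhE : h ≤ E := by
    have := Real.add_one_le_exp (h ^ 2 / 2)
    rw [← hE] at this
    nlinarith [sq_nonneg (h - 1)]
  -- P1
  have P1 : (0.36 : ℝ) ≤ Real.exp (-1 - 1 / (4 * m)) := by
    have h1 : Real.exp (-1.01) ≤ Real.exp (-1 - 1 / (4 * m)) := by
      rw [Real.exp_le_exp]
      have : 1 / (4 * (m : ℝ)) ≤ 0.01 := by
        rw [div_le_iff₀ (by positivity)]; linarith
      linarith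
    refine le_trans ?_ h1
    rw [Real.exp_neg, le_inv_comm₀ (by norm_num) (Real.exp_pos _)]
    refine exp_101.trans (by norm_num)
  -- P2
  have P2 : (√(n : ℝ))⁻¹ ≤ √(((n : ℝ) + m) / (n * m)) := by
    rw [← Real.sqrt_inv]
    apply Real.sqrt_le_sqrt
    rw [inv_eq_one_div, div_le_div_iff₀ hn0 (by positivity)]
    nlinarith
  -- P3
  have P3 : (0.998 : ℝ) / (12.1 * n) ≤ (√(2 / Real.pi) / (Real.exp 1 * h * √(n : ℝ))) *
        ((n - 1) * (√2 * h) / (2 * √(2 * Real.pi) * n * √(n : ℝ))) := by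
    have e1 : (√(2 / Real.pi) / (Real.exp 1 * h * √(n : ℝ))) *
        ((n - 1) * (√2 * h) / (2 * √(2 * Real.pi) * n * √(n : ℝ))) =
        (n - 1) / (√2 * Real.pi * Real.exp 1 * (n * n)) := by
      have a1 : √(2 / Real.pi) = √2 / √Real.pi := Real.sqrt_div (by norm_num) _
      have a2 : √(2 * Real.pi) = √2 * √Real.pi := Real.sqrt_mul (by norm_num) _
      have a3 : √Real.pi * √Real.pi = Real.pi := Real.mul_self_sqrt Real.pi_pos.le
      have a4 : 0 < √Real.pi := Real.sqrt_pos.mpr Real.pi_pos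
      rw [a1, a2]
      have a5 : √2 / √Real.pi / (Real.exp 1 * h * √(n : ℝ)) *
          ((n - 1) * (√2 * h) / (2 * (√2 * √Real.pi) * n * √(n : ℝ))) =
          (√2 * √2) * (n - 1) / (2 * √2 * (√Real.pi * √Real.pi) * Real.exp 1 * (n * (√(n : ℝ) * √(n : ℝ)))) := by
        field_simp
      rw [a5, hs2', a3, hsn]
      field_simp
    rw [e1, div_le_div_iff₀ (by positivity) (by positivity)]
    have e2 : √2 * Real.pi * Real.exp 1 ≤ 12.1 := by
      have b1 := Real.pi_lt_d6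
      have b2 := Real.exp_one_lt_d9
      calc √2 * Real.pi * Real.exp 1 ≤ 1.41422 * 3.141593 * 2.7182818286 := by
            gcongr
        _ ≤ 12.1 := by norm_num
    have e3 : 0.998 * (n : ℝ) ≤ n - 1 := by linarith
    calc 0.998 * (√2 * Real.pi * Real.exp 1 * (n * n)) = (√2 * Real.pi * Real.exp 1) * (0.998 * n) * n := by ring
      _ ≤ 12.1 * (n - 1) * n := by
          gcongr
      _ = _ := by ring
  -- P4
  have P4 : (0.99 : ℝ) ≤ Real.exp (-1 / (2 * n * h ^ 2)) := by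
    have h1 := Real.add_one_le_exp (-1 / (2 * n * h ^ 2))
    refine le_trans ?_ h1
    have h2 : 1 / (2 * (n : ℝ) * h ^ 2) ≤ 0.01 := by
      rw [div_le_iff₀ (by positivity)]
      nlinarith
    have h3 : -1 / (2 * (n : ℝ) * h ^ 2) = -(1 / (2 * (n : ℝ) * h ^ 2)) := by ring
    rw [h3]; linarith
  -- P5
  have hEi : E⁻¹ ≤ 1 / 16 := by
    rw [one_div]; exact inv_anti₀ (by norm_num) h16
  have hEi0 : 0 < E⁻¹ := by positivity
  have hSx1 : 0.99 ≤ Sx := by
    refine le_trans ?_ hSx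
    have h1 : (n : ℝ) / m ≤ 1 / 50 := by
      rw [div_le_div_iff₀ hm' (by norm_num)]; linarith
    have h2 : E⁻¹ / √2 ≤ 1 / 16 := by
      rw [div_le_iff₀ hs2]
      have : 1 ≤ √(2:ℝ) := by rw [Real.one_le_sqrt]; norm_num
      nlinarith
    have h3 : (n : ℝ) / m * (E⁻¹ / √2) ≤ 1 / 50 * (1 / 16) := by
      apply mul_le_mul h1 h2 (by positivity) (by norm_num)
    norm_num at h3 ⊢
    linarith
  have P5 : (0.5 : ℝ) ≤ 1 - 2 * (√2 * h) * Real.exp (-(√2 * h) ^ 2 / 2) / (√(2 * Real.pi) * Sx) := by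
    have h1 : Real.exp (-(√2 * h) ^ 2 / 2) = E⁻¹ * E⁻¹ := by
      rw [hE, ← Real.exp_neg, ← Real.exp_add]; congr 1
      rw [mul_pow, Real.sq_sqrt (by norm_num)]; ring
    rw [h1]
    have h2 : h * E⁻¹ ≤ 1 := by
      rw [← div_eq_mul_inv, div_le_one hE0]; exact hhE
    have h3 : 2 * (√2 * h) * (E⁻¹ * E⁻¹) ≤ 2 * 1.41422 * (1 / 16) := by
      calc 2 * (√2 * h) * (E⁻¹ * E⁻¹) = (2 * √2) * ((h * E⁻¹) * E⁻¹) := by ring
        _ ≤ (2 * 1.41422) * (1 * (1 / 16)) := by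
            gcongr
        _ = _ := by ring
    have h4 : (2 : ℝ) ≤ √(2 * Real.pi) := by
      apply Real.le_sqrt_of_sq_le
      have := Real.pi_gt_three
      linarith
    have h5 : (1.98 : ℝ) ≤ √(2 * Real.pi) * Sx := by nlinarith
    have h6 : 2 * (√2 * h) * (E⁻¹ * E⁻¹) / (√(2 * Real.pi) * Sx) ≤ 0.5 := by
      rw [div_le_iff₀ (by linarith)]
      linarith
    linarith
  -- P6
  have P6 : (0.36 : ℝ) ≤ ((1 + 1 / (n : ℝ)) ^ (n + 2))⁻¹ := by
    rw [le_inv_comm₀ (by norm_num) (by positivity)]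
    have h1 : 1 + 1 / (n : ℝ) ≤ Real.exp (1 / (n : ℝ)) := by
      have := Real.add_one_le_exp (1 / (n : ℝ)); linarith
    calc (1 + 1 / (n : ℝ)) ^ (n + 2) ≤ Real.exp (1 / (n : ℝ)) ^ (n + 2) := by gcongr
      _ = Real.exp ((n + 2) / (n : ℝ)) := by
          rw [← Real.exp_nat_mul]; congr 1; push_cast; ring
      _ ≤ Real.exp 1.01 := by
          rw [Real.exp_le_exp, div_le_iff₀ hn0]; linarith
      _ ≤ _ := exp_101.trans (by norm_num)
  have hfg := final_growth n hn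
  have hG2 : 200 * ((n : ℝ) * √(n : ℝ)) ≤ G := hfg.trans hG
  have hG0 : 0 ≤ G := le_trans (by positivity) hG2
  calc (1 : ℝ) ≤ 0.36 * (√(n : ℝ))⁻¹ * (0.998 / (12.1 * n)) * 0.99 * 0.5 * 0.36 * (200 * ((n : ℝ) * √(n : ℝ))) := by
        have : 0.36 * (√(n : ℝ))⁻¹ * (0.998 / (12.1 * n)) * 0.99 * 0.5 * 0.36 * (200 * ((n : ℝ) * √(n : ℝ))) =
            0.36 * 0.998 * 0.99 * 0.5 * 0.36 * 200 / 12.1 := by
          field_simp
        rw [this]; norm_num
    _ ≤ _ := by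
        have mm : ∀ {a b c d : ℝ}, a ≤ b → c ≤ d → 0 ≤ a → 0 ≤ c → a * c ≤ b * d :=
          fun h1 h2 ha hc => mul_le_mul h1 h2 hc (ha.trans h1)
        exact mm (mm (mm (mm (mm (mm P1 P2 (by positivity) (by positivity)) P3 (by positivity)
          (by positivity)) P4 (by positivity) (by positivity)) P5 (by positivity) (by positivity))
          P6 (by positivity) (by positivity)) hG2 (by positivity) (by positivity)


end Pool.Agent.VP.E4
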