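import Pool.Agent.VP.Defs2

set_option autoImplicit false
open MeasureTheory ProbabilityTheory
open scoped ENNReal Matrix

namespace Pool.Agent.VP.F4

open Pool.Agent.VP



/-- the weight -/
private noncomputable def ww (a b t : ℝ) : ℝ := Real.exp (-(a + t * b) ^ 2 / 2)

private theorem ww_cont (a b : ℝ) : Continuous (ww a b) := by
  unfold ww; fun_prop

private theorem ww_pos (a b t : ℝ) : 0 < ww a b t := Real.exp_pos _

/-- moments of the weight on `[-1,1]` -/
private noncomputable def MM (a b : ℝ) (k : ℕ) : ℝ := ∫ t in (-1:ℝ)..1, t ^ k * ww a b t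

private theorem MM_int (a b : ℝ) (k : ℕ) :
    IntervalIntegrable (fun t => t ^ k * ww a b t) volume (-1) 1 := by
  have := ww_cont a b
  exact (by fun_prop : Continuous fun t : ℝ => t ^ k * ww a b t).intervalIntegrable _ _

/-- the restricted Lebesgue measure on `[-1,1]` -/
private noncomputable abbrev rr : Measure ℝ := volume.restrict (Set.Icc (-1:ℝ) 1)

private theorem MM_eq (a b : ℝ) (k : ℕ) : ∫ t, t ^ k * ww a b t ∂rr = MM a b k := by
  unfold MM
  rw [intervalIntegral.integral_of_le (by norm_num), ← integral_Icc_eq_integral_Ioc]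

private theorem fint (a b : ℝ) (k : ℕ) : Integrable (fun t => t ^ k * ww a b t) rr := by
  have := ww_cont a b
  exact (by fun_prop : Continuous fun t : ℝ => t ^ k * ww a b t).integrableOn_Icc

/-- exponent vector of `z_i z_j` -/
private def ee {n : ℕ} (i j k : Fin n) : ℕ := (if k = i then 1 else 0) + (if k = j then 1 else 0)

private theorem prod_ee {n : ℕ} (a b : ℝ) (i j : Fin n) (z : Fin n → ℝ) :
    ∏ k, (z k ^ (ee i j k) * ww a b (z k)) = z i * z j * ∏ k, ww a b (z k) := by
  rw [Finset.prod_mul_distrib]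
  congr 1
  unfold ee
  simp only [pow_add, Finset.prod_mul_distrib]
  congr 1
  · rw [Finset.prod_eq_single i]
    · simp
    · intro k _ hk; simp [hk]
    · intro h; exact absurd (Finset.mem_univ _) h
  · rw [Finset.prod_eq_single j]
    · simp
    · intro k _ hk; simp [hk]
    · intro h; exact absurd (Finset.mem_univ _) h

private theorem int_ee {n : ℕ} (a b : ℝ) (i j : Fin n) :
    ∫ z : Fin n → ℝ, z i * z j * ∏ k, ww a b (z k) ∂(Measure.pi fun _ : Fin n => rr) =
      ∏ k, MM a b (ee i j k) := by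
  simp_rw [← prod_ee a b i j]
  rw [integral_fintype_prod_eq_prod (μ := fun _ : Fin n => rr)
    (fun k t => t ^ (ee i j k) * ww a b t)]
  apply Finset.prod_congr rfl
  intro k _
  exact MM_eq a b _

private theorem integrable_ee {n : ℕ} (a b : ℝ) (i j : Fin n) :
    Integrable (fun z : Fin n → ℝ => z i * z j * ∏ k, ww a b (z k))
      (Measure.pi fun _ : Fin n => rr) := by
  simp_rw [← prod_ee a b i j]
  exact Integrable.fintype_prod (μ := fun _ : Fin n => rr)
    (f := fun k t => t ^ (ee i j k) * ww a b t) fun k => fint a b _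

private theorem prodMM {n : ℕ} (hn : 2 ≤ n) (a b : ℝ) (i j : Fin n) :
    ∏ k, MM a b (ee i j k) = if i = j then MM a b 2 * MM a b 0 * MM a b 0 ^ (n - 2) else
      MM a b 1 ^ 2 * MM a b 0 ^ (n - 2) := by
  split_ifs with h
  · subst h
    rw [← Finset.mul_prod_erase _ _ (Finset.mem_univ i)]
    have h1 : ∏ k ∈ Finset.univ.erase i, MM a b (ee i i k) = MM a b 0 ^ (n - 1) := by
      rw [Finset.prod_congr rfl (g := fun _ => MM a b 0), Finset.prod_const,
        Finset.card_erase_of_mem (Finset.mem_univ _), Finset.card_univ, Fintype.card_fin]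
      intro k hk
      have : k ≠ i := Finset.ne_of_mem_erase hk
      simp [ee, this]
    rw [h1]
    have h2 : ee i i i = 2 := by simp [ee]
    rw [h2, show n - 1 = (n - 2) + 1 by omega, pow_succ]
    ring
  · rw [← Finset.mul_prod_erase _ _ (Finset.mem_univ i),
      ← Finset.mul_prod_erase _ _ (Finset.mem_erase.mpr ⟨Ne.symm h, Finset.mem_univ j⟩)]
    have h1 : ∏ k ∈ (Finset.univ.erase i).erase j, MM a b (ee i j k) = MM a b 0 ^ (n - 2) := by
      rw [Finset.prod_congr rfl (g := fun _ => MM a b 0), Finset.prod_const,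
        Finset.card_erase_of_mem (Finset.mem_erase.mpr ⟨Ne.symm h, Finset.mem_univ j⟩),
        Finset.card_erase_of_mem (Finset.mem_univ _), Finset.card_univ, Fintype.card_fin]
      · congr 1
      · intro k hk
        have h3 : k ≠ j := Finset.ne_of_mem_erase hk
        have h4 : k ≠ i := Finset.ne_of_mem_erase (Finset.mem_of_mem_erase hk)
        simp [ee, h3, h4]
    rw [h1]
    have h2 : ee i j i = 1 := by simp [ee, h]
    have h3 : ee i j j = 1 := by simp [ee, Ne.symm h]
    rw [h2, h3]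
    ring

private theorem s2_eq {n : ℕ} (hn : 2 ≤ n) (z : Fin n → ℝ) :
    s2 z = ∑ i, z i * z i - (1 / (n : ℝ)) * ∑ i, ∑ j, z i * z j := by
  have hn0 : (n : ℝ) ≠ 0 := by positivity
  have h1 : ∑ i, ∑ j, z i * z j = (∑ i, z i) * (∑ i, z i) := by
    rw [Finset.sum_mul_sum]
  rw [h1]
  unfold s2
  have h2 : ∀ i, (z i - zb z) ^ 2 = z i * z i - 2 * zb z * z i + zb z ^ 2 := by
    intro i; ring
  simp_rw [h2]
  rw [Finset.sum_add_distrib, Finset.sum_sub_distrib, ← Finset.mul_sum, Finset.sum_const,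
    Finset.card_univ, Fintype.card_fin, nsmul_eq_mul]
  have h3 : ∑ i, z i = n * zb z := by
    unfold zb; field_simp
  rw [h3]
  field_simp
  ring

private theorem s2_int {n : ℕ} (hn : 2 ≤ n) (a b : ℝ) :
    Integrable (fun z : Fin n → ℝ => s2 z * ∏ k, ww a b (z k)) (Measure.pi fun _ : Fin n => rr) ∧
    ∫ z : Fin n → ℝ, s2 z * ∏ k, ww a b (z k) ∂(Measure.pi fun _ : Fin n => rr) =
      ((n : ℝ) - 1) * (MM a b 2 * MM a b 0 - MM a b 1 ^ 2) * MM a b 0 ^ (n - 2) := by
  have hn0 : (n : ℝ) ≠ 0 := by positivity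
  have h1 : (fun z : Fin n → ℝ => s2 z * ∏ k, ww a b (z k)) =
      fun z => ∑ i, z i * z i * ∏ k, ww a b (z k) -
        (1 / (n : ℝ)) * ∑ i, ∑ j, z i * z j * ∏ k, ww a b (z k) := by
    funext z
    rw [s2_eq hn, sub_mul, Finset.sum_mul, mul_assoc, Finset.sum_mul]
    congr 2
    apply Finset.sum_congr rfl
    intro i _
    rw [Finset.sum_mul]
  have hi1 : Integrable (fun z : Fin n → ℝ => ∑ i, z i * z i * ∏ k, ww a b (z k))
      (Measure.pi fun _ : Fin n => rr) :=
    integrable_finsetSum _ fun i _ => integrable_ee a b i i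
  have hi2 : Integrable (fun z : Fin n → ℝ =>
      (1 / (n : ℝ)) * ∑ i, ∑ j, z i * z j * ∏ k, ww a b (z k))
      (Measure.pi fun _ : Fin n => rr) :=
    (integrable_finsetSum _ fun i _ => integrable_finsetSum _ fun j _ =>
      integrable_ee a b i j).const_mul _
  rw [h1]
  refine ⟨hi1.sub hi2, ?_⟩
  rw [integral_sub hi1 hi2, integral_const_mul,
    integral_finsetSum _ fun i _ => integrable_ee a b i i,
    integral_finsetSum _ fun i _ => integrable_finsetSum _ fun j _ => integrable_ee a b i j]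
  have h2 : ∀ i : Fin n, ∫ z : Fin n → ℝ, ∑ j, z i * z j * ∏ k, ww a b (z k)
      ∂(Measure.pi fun _ : Fin n => rr) =
      ∑ j, ∫ z : Fin n → ℝ, z i * z j * ∏ k, ww a b (z k) ∂(Measure.pi fun _ : Fin n => rr) :=
    fun i => integral_finsetSum _ fun j _ => integrable_ee a b i j
  simp_rw [h2, int_ee, prodMM hn]
  have h3 : ∀ i : Fin n, ∑ j : Fin n, (if i = j then MM a b 2 * MM a b 0 * MM a b 0 ^ (n - 2) else
      MM a b 1 ^ 2 * MM a b 0 ^ (n - 2)) = (MM a b 2 * MM a b 0 * MM a b 0 ^ (n - 2) -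
      MM a b 1 ^ 2 * MM a b 0 ^ (n - 2)) + n * (MM a b 1 ^ 2 * MM a b 0 ^ (n - 2)) := by
    intro i
    have h4 : ∀ j : Fin n, (if i = j then MM a b 2 * MM a b 0 * MM a b 0 ^ (n - 2) else
      MM a b 1 ^ 2 * MM a b 0 ^ (n - 2)) = (if i = j then (MM a b 2 * MM a b 0 *
        MM a b 0 ^ (n - 2) - MM a b 1 ^ 2 * MM a b 0 ^ (n - 2)) else 0) +
        MM a b 1 ^ 2 * MM a b 0 ^ (n - 2) := by
      intro j; split_ifs <;> ring
    simp_rw [h4]
    rw [Finset.sum_add_distrib, Finset.sum_ite_eq, Finset.sum_const, Finset.card_univ,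
      Fintype.card_fin, nsmul_eq_mul]
    simp
  simp_rw [h3]
  simp only [if_true, Finset.sum_const, Finset.card_univ, Fintype.card_fin, nsmul_eq_mul]
  field_simp
  ring


private theorem MM_mu (a b : ℝ) (k : ℕ) : MM a b k = mu k a b := by
  unfold MM mu ww
  apply intervalIntegral.integral_congr
  intro t _
  simp only
  rw [mul_comm t b]

private theorem MM0_pos (a b : ℝ) : 0 < MM a b 0 := by
  unfold MM
  apply intervalIntegral.intervalIntegral_pos_of_pos
  · exact MM_int a b 0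
  · intro u
    simp only [pow_zero, one_mul]
    exact ww_pos a b u
  · norm_num

theorem z_avg (n : ℕ) (hn : 2 ≤ n) (a b : ℝ) :
    ((2 : ℝ≥0∞) ^ n)⁻¹ * ∫⁻ z in Set.pi Set.univ (fun _ : Fin n => Set.Icc (-1 : ℝ) 1),
      ENNReal.ofReal (s2 z * Real.exp (-(∑ i, (a + z i * b) ^ 2) / 2)) =
    ENNReal.ofReal (((n : ℝ) - 1) * (mu 0 a b * mu 2 a b - mu 1 a b ^ 2) * mu 0 a b ^ (n - 2) / 2 ^ n) := by
  obtain ⟨hint, hval⟩ := s2_int (n := n) hn a b
  have hR : ∫⁻ z in Set.pi Set.univ (fun _ : Fin n => Set.Icc (-1 : ℝ) 1),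
      ENNReal.ofReal (s2 z * Real.exp (-(∑ i, (a + z i * b) ^ 2) / 2)) =
      ENNReal.ofReal (((n : ℝ) - 1) * (MM a b 2 * MM a b 0 - MM a b 1 ^ 2) *
        MM a b 0 ^ (n - 2)) := by
    rw [← hval, ofReal_integral_eq_lintegral_ofReal hint]
    · rw [volume_pi, Measure.restrict_pi_pi]
      apply lintegral_congr
      intro z
      congr 2
      unfold ww
      rw [← Real.exp_sum]
      congr 1
      rw [← Finset.sum_neg_distrib, Finset.sum_div]
    · filter_upwards with z
      apply mul_nonneg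
      · exact Finset.sum_nonneg fun i _ => sq_nonneg _
      · exact Finset.prod_nonneg fun i _ => (ww_pos a b _).le
  rw [hR]
  have h2 : ((2 : ℝ≥0∞) ^ n)⁻¹ = ENNReal.ofReal (((2 : ℝ) ^ n)⁻¹) := by
    rw [ENNReal.ofReal_inv_of_pos (by positivity), ENNReal.ofReal_pow (by norm_num)]
    simp
  rw [h2, ← ENNReal.ofReal_mul (by positivity), MM_mu, MM_mu, MM_mu]
  congr 1
  ring

theorem mu_det_nonneg (a b : ℝ) : 0 ≤ mu 0 a b * mu 2 a b - mu 1 a b ^ 2 := by
  rw [← MM_mu, ← MM_mu, ← MM_mu]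
  have hM0pos := MM0_pos a b
  set τ : ℝ := MM a b 1 / MM a b 0 with hτ
  have h1 : ∫ t in (-1:ℝ)..1, (t - τ) ^ 2 * ww a b t =
      MM a b 2 - 2 * τ * MM a b 1 + τ ^ 2 * MM a b 0 := by
    unfold MM
    rw [← intervalIntegral.integral_const_mul, ← intervalIntegral.integral_const_mul,
      ← intervalIntegral.integral_sub (MM_int a b 2) ((MM_int a b 1).const_mul _),
      ← intervalIntegral.integral_add ((MM_int a b 2).sub ((MM_int a b 1).const_mul _))
        ((MM_int a b 0).const_mul _)]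
    apply intervalIntegral.integral_congr
    intro t _
    simp only
    ring
  have h5 : MM a b 0 * MM a b 2 - MM a b 1 ^ 2 =
      MM a b 0 * ∫ t in (-1:ℝ)..1, (t - τ) ^ 2 * ww a b t := by
    rw [h1, hτ]
    field_simp
    ring
  rw [h5]
  apply mul_nonneg hM0pos.le
  exact intervalIntegral.integral_nonneg (by norm_num) fun u _ =>
      mul_nonneg (sq_nonneg _) (ww_pos a b u).le

theorem s2_pos_ae (n : ℕ) (hn : 2 ≤ n) :
    ∀ᵐ z : Fin n → ℝ ∂(volume.restrict (Set.pi Set.univ (fun _ : Fin n => Set.Icc (-1 : ℝ) 1))), 0 < s2 z := by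
  apply ae_restrict_of_ae
  let i0 : Fin n := ⟨0, by omega⟩
  let i1 : Fin n := ⟨1, by omega⟩
  have hne : i0 ≠ i1 := by
    intro h
    have := congrArg Fin.val h
    simp [i0, i1] at this
  let L : (Fin n → ℝ) →ₗ[ℝ] ℝ :=
    (LinearMap.proj (R := ℝ) (φ := fun _ : Fin n => ℝ) i0) -
      (LinearMap.proj (R := ℝ) (φ := fun _ : Fin n => ℝ) i1)
  have hker : (LinearMap.ker L) ≠ ⊤ := by
    intro h
    have h1 : (Pi.single i0 (1 : ℝ) : Fin n → ℝ) ∈ LinearMap.ker L := by
      rw [h]; exact Submodule.mem_top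
    rw [LinearMap.mem_ker] at h1
    simp [L, hne.symm] at h1
  have h0 : volume ((LinearMap.ker L : Submodule ℝ (Fin n → ℝ)) : Set (Fin n → ℝ)) = 0 :=
    Measure.addHaar_submodule _ _ hker
  rw [ae_iff]
  refine measure_mono_null ?_ h0
  intro z hz
  have hz' : ¬ 0 < s2 z := hz
  have hnn : 0 ≤ s2 z := Finset.sum_nonneg fun i _ => sq_nonneg _
  have hz0 : s2 z = 0 := le_antisymm (not_lt.1 hz') hnn
  unfold s2 at hz0
  rw [Finset.sum_eq_zero_iff_of_nonneg (fun i _ => sq_nonneg _)] at hz0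
  have e0 := hz0 i0 (Finset.mem_univ _)
  have e1 := hz0 i1 (Finset.mem_univ _)
  have e0' : z i0 - zb z = 0 := by simpa using e0
  have e1' : z i1 - zb z = 0 := by simpa using e1
  show z ∈ LinearMap.ker L
  rw [LinearMap.mem_ker]
  show z i0 - z i1 = 0
  linarith


end Pool.Agent.VP.F4
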