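import Pool.Agent.VP.T1
import Pool.Agent.VP.JA1
import Pool.Agent.VP.JA4
import Pool.Agent.VP.JB1
import Pool.Agent.VP.JB2
import Pool.Agent.VP.JB3
import Pool.Agent.VP.JB4
import Pool.Agent.VP.JB5a
import Pool.Agent.VP.JB5b
import Pool.Agent.VP.JB5c
import Pool.Agent.VP.JC1
import Pool.Agent.VP.JC2
import Pool.Agent.VP.JC3
import Pool.Agent.VP.JC4
import Pool.Agent.VP.JC5
import Pool.Agent.VP.JD1
import Pool.Agent.VP.JD2
import Pool.Agent.VP.JD3
import Pool.Agent.VP.JD4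
import Pool.Agent.VP.JD5
import Pool.Agent.VP.JE1
import Pool.Agent.VP.JE3
import Pool.Agent.VP.JE3b
import Pool.Agent.VP.JE4
import Pool.Agent.VP.JA5

set_option autoImplicit false
open MeasureTheory ProbabilityTheory
open scoped ENNReal Matrix

namespace Pool.Agent.VP

theorem T2' (k m : ℕ) (z : Fin (k + 2) → ℝ) (hs : 0 < s2 z) :
    J1 (k + 2) m * J2 m z ≤
      ∫⁻ G : Fin (k + 2) → Fin (k + 2) → ℝ,
        qq ((Matrix.of G)⁻¹ *ᵥ 1) ((Matrix.of G)⁻¹ *ᵥ z) ^ m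
          ∂(Measure.pi (fun _ : Fin (k + 2) => gam (k + 2))) :=
  B5c.T2 B1.rot_rows B2.exists_orth
    (B5a.T2_fixed B3.law_pair (B4.qq_lower B3.law_pair) B5b.planar_law) k m z hs

lemma J2_zero {n m : ℕ} (hm : 1 ≤ m) (z : Fin n → ℝ) (hs : s2 z = 0) : J2 m z = 0 := by
  unfold J2
  have h : ∀ a : ℝ, om a 0 = 0 := by
    intro a
    unfold om
    have : {t : ℝ | |t - a| ≤ 0} = {a} := by
      ext t
      simp only [Set.mem_ofPred_eq, Set.mem_singleton_iff, abs_nonpos_iff]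
      exact sub_eq_zero
    rw [this]
    have : NullSingletonClass (gaussianReal 0 (1 : NNReal)) :=
      ProbabilityTheory.nullSingletonClass_gaussianReal one_ne_zero
    exact measure_singleton a
  simp [hs, h, show m ≠ 0 by omega]

lemma s2_nonneg {n : ℕ} (z : Fin n → ℝ) : 0 ≤ s2 z := by
  unfold s2; positivity

theorem T2 (n m : ℕ) (hn : 2 ≤ n) (hm : 1 ≤ m) (z : Fin n → ℝ) :
    J1 n m * J2 m z ≤
      ∫⁻ G : Fin n → Fin n → ℝ,
        qq ((Matrix.of G)⁻¹ *ᵥ 1) ((Matrix.of G)⁻¹ *ᵥ z) ^ m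
          ∂(Measure.pi (fun _ : Fin n => gam n)) := by
  obtain ⟨k, rfl⟩ : ∃ k, n = k + 2 := ⟨n - 2, by omega⟩
  rcases (s2_nonneg z).eq_or_lt with h | h
  · rw [J2_zero hm z h.symm]; simp
  · exact T2' k m z h

/-- the averaged lower bound -/
theorem avg_lower (n m : ℕ) (hn : 2 ≤ n) (hm : 1 ≤ m) :
    J1 n m * (((2 : ℝ≥0∞) ^ n)⁻¹ * ∫⁻ z in Set.pi Set.univ (fun _ : Fin n => Set.Icc (-1 : ℝ) 1),
        J2 m z) ≤
    ((2 : ℝ≥0∞) ^ n)⁻¹ * ∫⁻ z in Set.pi Set.univ (fun _ : Fin n => Set.Icc (-1 : ℝ) 1),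
        ∫⁻ G : Fin n → Fin n → ℝ, qq ((Matrix.of G)⁻¹ *ᵥ 1) ((Matrix.of G)⁻¹ *ᵥ z) ^ m
          ∂(Measure.pi (fun _ : Fin n => gam n)) := by
  have hJ1 : J1 n m ≠ ∞ := by
    unfold J1
    apply ne_of_lt
    calc ∫⁻ x, SS (|x| / √(n : ℝ)) ^ m ∂(gaussianReal 0 1) ≤ ∫⁻ _x, 1 ∂(gaussianReal 0 1) := by
          apply lintegral_mono
          intro x
          exact pow_le_one' (prob_le_one) m
      _ = 1 := by simp
      _ < ∞ := ENNReal.one_lt_top
  rw [mul_left_comm]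
  gcongr
  rw [← lintegral_const_mul' _ _ hJ1]
  exact lintegral_mono (fun z => T2 n m hn hm z)

theorem few (n m : ℕ) (hn : 400 ≤ n) (hm : 1 ≤ m) (hmn : 10 * m ≤ 7 * n) :
    1 ≤ ((n + m).choose n : ℝ≥0∞) *
      (J1 n m * (((2 : ℝ≥0∞) ^ n)⁻¹ * ∫⁻ z in Set.pi Set.univ (fun _ : Fin n => Set.Icc (-1 : ℝ) 1),
        J2 m z)) := by
  have h1 := C2.J1_lower C1.SS_lower n m (by omega)
  set a : ℝ := (√(2 / (Real.pi * n))) ^ m * (√2) ^ m * Real.Gamma (((m : ℝ) + 1) / 2) / √Real.pi /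
        (√(1 + (m : ℝ) / (3 * n))) ^ (m + 1) with ha
  set b : ℝ := (√(4 / Real.pi)) ^ m * √((n : ℝ) / (n + m)) * Real.Gamma ((m : ℝ) / 2 + 1) with hb
  set c : ℝ := ((n : ℝ) - 1) / 3 / (√(((n : ℝ) + m) / 3 + 4 / 15)) ^ (m + 2) with hc
  have ha0 : 0 ≤ a := by
    have : 0 < Real.Gamma (((m : ℝ) + 1) / 2) := Real.Gamma_pos_of_pos (by positivity)
    positivity
  have hb0 : 0 ≤ b := by
    have : 0 < Real.Gamma ((m : ℝ) / 2 + 1) := Real.Gamma_pos_of_pos (by positivity)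
    positivity
  have hn1 : (1 : ℝ) ≤ n := by exact_mod_cast (by omega : 1 ≤ n)
  have hc0 : 0 ≤ c := by
    have : 0 ≤ (n : ℝ) - 1 := by linarith
    positivity
  have h2 : ENNReal.ofReal (b * c) ≤ ((2 : ℝ≥0∞) ^ n)⁻¹ *
      ∫⁻ z in Set.pi Set.univ (fun _ : Fin n => Set.Icc (-1 : ℝ) 1), J2 m z := by
    rw [ENNReal.ofReal_mul hb0]
    calc ENNReal.ofReal b * ENNReal.ofReal c ≤ ENNReal.ofReal b * (((2 : ℝ≥0∞) ^ n)⁻¹ *
          ∫⁻ z in Set.pi Set.univ (fun _ : Fin n => Set.Icc (-1 : ℝ) 1),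
            ENNReal.ofReal (s2 z / (√(s2 z + m / 3 + m * n * zb z ^ 2 / (n + m))) ^ (m + 2))) := by
          gcongr
          exact C4.z_int n m (by omega)
      _ = ((2 : ℝ≥0∞) ^ n)⁻¹ *
          ∫⁻ z in Set.pi Set.univ (fun _ : Fin n => Set.Icc (-1 : ℝ) 1),
            ENNReal.ofReal b * ENNReal.ofReal (s2 z / (√(s2 z + m / 3 + m * n * zb z ^ 2 / (n + m))) ^ (m + 2)) := by
          rw [mul_left_comm, lintegral_const_mul' _ _ ENNReal.ofReal_ne_top]
      _ ≤ _ := by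
          gcongr with z
          rcases (s2_nonneg z).eq_or_lt with h | h
          · rw [← h]; simp
          · rw [← ENNReal.ofReal_mul hb0]
            have := C3.J2_lower C1.om_lower n m (by omega) z h
            refine le_trans (le_of_eq ?_) this
            congr 1
            rw [hb]
            ring
  have h3 := C5.few_points_ineq n m hn hm hmn
  calc (1 : ℝ≥0∞) = ENNReal.ofReal 1 := by simp
    _ ≤ ENNReal.ofReal (((n + m).choose n : ℝ) * a * b * c) := ENNReal.ofReal_le_ofReal h3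
    _ = ((n + m).choose n : ℝ≥0∞) * (ENNReal.ofReal a * ENNReal.ofReal (b * c)) := by
        rw [← ENNReal.ofReal_mul ha0, ← ENNReal.ofReal_natCast ((n + m).choose n),
          ← ENNReal.ofReal_mul (by positivity)]
        congr 1
        ring
    _ ≤ _ := by gcongr

theorem SS_le_one (x : ℝ) : SS x ≤ 1 := prob_le_one

lemma SS_ne_top (x : ℝ) : SS x ≠ ∞ := ne_top_of_le_ne_top ENNReal.one_ne_top (SS_le_one x)

theorem many_of (n m : ℕ) (hn : 2 ≤ n) (hm : 1 ≤ m) (h x : ℝ) (hh : 0 < h) (hx : 0 < x)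
    (hE : 1 ≤ E3.EE n m h x (SS h).toReal (SS x).toReal) :
    1 ≤ ((n + m).choose n : ℝ≥0∞) *
      (J1 n m * (((2 : ℝ≥0∞) ^ n)⁻¹ * ∫⁻ z in Set.pi Set.univ (fun _ : Fin n => Set.Icc (-1 : ℝ) 1),
        J2 m z)) := by
  have h1 := D1.J1_lower' n m (by omega) h hh
  have h2 := D4.J2_lower' D2.J2_eq D3.z_int' n m hn x hx
  have h3 := D5.choose_lower n m (by omega) hm
  unfold E3.EE at hE
  set A : ℝ := Real.exp (-1 - 1 / (4 * m)) * √(((n : ℝ) + m) / (n * m)) *
      (((n : ℝ) + m) ^ (n + m) / ((n : ℝ) ^ n * (m : ℝ) ^ m)) with hA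
  set B : ℝ := √(2 / Real.pi) / (Real.exp 1 * h * √(n : ℝ)) * Real.exp (-1 / (2 * n * h ^ 2)) *
      Real.exp (-(n * h ^ 2) / 2) with hB
  set C : ℝ := (n - 1) * x / (2 * √(2 * Real.pi) * n * √(n : ℝ)) *
      (1 - 2 * x * Real.exp (-x ^ 2 / 2) / (√(2 * Real.pi) * (SS x).toReal)) *
      (√(2 * Real.pi) * (SS x).toReal / (2 * x)) ^ n / (1 + 1 / (n : ℝ)) ^ (n + 2) with hC
  have hB0 : 0 ≤ B := by positivity
  have hA0 : 0 ≤ A := by positivity
  have hBS : ENNReal.ofReal B * SS h ^ m = ENNReal.ofReal (B * (SS h).toReal ^ m) := by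
    rw [ENNReal.ofReal_mul hB0, ENNReal.ofReal_pow ENNReal.toReal_nonneg,
      ENNReal.ofReal_toReal (SS_ne_top h)]
  have hABS : 0 ≤ A * (B * (SS h).toReal ^ m) := by positivity
  have hCS0 : 0 ≤ C * (SS x).toReal ^ m := by
    by_contra hcon
    push Not at hcon
    have : A * (B * (SS h).toReal ^ m) * (C * (SS x).toReal ^ m) ≤ 0 :=
      mul_nonpos_of_nonneg_of_nonpos hABS hcon.le
    linarith
  have hCS : ENNReal.ofReal (C * (SS x).toReal ^ m) ≤ ENNReal.ofReal C * SS x ^ m := by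
    rcases le_or_gt 0 C with hC0 | hC0
    · rw [ENNReal.ofReal_mul hC0, ENNReal.ofReal_pow ENNReal.toReal_nonneg,
        ENNReal.ofReal_toReal (SS_ne_top x)]
    · have : C * (SS x).toReal ^ m ≤ 0 :=
        mul_nonpos_of_nonpos_of_nonneg hC0.le (by positivity)
      rw [ENNReal.ofReal_of_nonpos this]
      exact zero_le
  calc (1 : ℝ≥0∞) = ENNReal.ofReal 1 := by simp
    _ ≤ ENNReal.ofReal (A * (B * (SS h).toReal ^ m) * (C * (SS x).toReal ^ m)) :=
        ENNReal.ofReal_le_ofReal hE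
    _ = ENNReal.ofReal A * ENNReal.ofReal (B * (SS h).toReal ^ m) *
          ENNReal.ofReal (C * (SS x).toReal ^ m) := by
        rw [ENNReal.ofReal_mul hABS, ENNReal.ofReal_mul hA0]
    _ ≤ ((n + m).choose n : ℝ≥0∞) * J1 n m * (((2 : ℝ≥0∞) ^ n)⁻¹ *
          ∫⁻ z in Set.pi Set.univ (fun _ : Fin n => Set.Icc (-1 : ℝ) 1), J2 m z) := by
        rw [← hBS]
        gcongr
        · calc ENNReal.ofReal A ≤ ENNReal.ofReal ((n + m).choose n : ℝ) :=
                ENNReal.ofReal_le_ofReal h3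
            _ = _ := ENNReal.ofReal_natCast _
        · exact hCS.trans h2
    _ = _ := by rw [mul_assoc]

theorem many (n m : ℕ) (hn : 500 ≤ n) (hmn : 7 * n ≤ 10 * m) :
    1 ≤ ((n + m).choose n : ℝ≥0∞) *
      (J1 n m * (((2 : ℝ≥0∞) ^ n)⁻¹ * ∫⁻ z in Set.pi Set.univ (fun _ : Fin n => Set.Icc (-1 : ℝ) 1),
        J2 m z)) := by
  have hm : 1 ≤ m := by omega
  obtain ⟨s1, s2', s3, s4, s5, s6, s7, s8, s9, s10⟩ := E1.SS_num
  obtain ⟨⟨k1, k2⟩, ⟨k3, k4⟩, ⟨k5, k6⟩, ⟨k7, k8⟩, ⟨k9, k10⟩⟩ := E3b.rates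
  obtain ⟨p1, p2, p3, p4, p5⟩ := E3b.prefs
  have hmn' : (7 : ℝ) * n ≤ 10 * m := by exact_mod_cast hmn
  rcases le_or_gt (50 * n) m with h50 | h50
  · obtain ⟨h, x, hh, hx, hE⟩ := E4.many_large (fun t => (SS t).toReal)
      (fun h _ => by
        have := ENNReal.toReal_mono ENNReal.one_ne_top (SS_le_one h)
        simpa using this)
      (fun h hh => E1.SS_mills h hh) n m hn h50
    exact many_of n m (by omega) hm h x hh hx hE
  · have h50' : (m : ℝ) ≤ 50 * n := by exact_mod_cast h50.le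
    rcases le_or_gt (m : ℝ) (1.3 * n) with c1 | c1
    · exact many_of n m (by omega) hm 0.85 1.35 (by norm_num) (by norm_num)
        (E3.many_core n m hn 0.85 1.35 0.6046 0.8229 _ _ 0.7 1.3 (by norm_num) (by norm_num)
          (by norm_num) (by norm_num) s1 s2' (by norm_num) (by linarith) c1 k1 k2 p1)
    rcases le_or_gt (m : ℝ) (2.8 * n) with c2 | c2
    · exact many_of n m (by omega) hm 1.1 1.7 (by norm_num) (by norm_num)
        (E3.many_core n m hn 1.1 1.7 0.7286 0.9108 _ _ 1.3 2.8 (by norm_num) (by norm_num)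
          (by norm_num) (by norm_num) s3 s4 (by norm_num) c1.le c2 k3 k4 p2)
    rcases le_or_gt (m : ℝ) (6.5 * n) with c3 | c3
    · exact many_of n m (by omega) hm 1.45 2.05 (by norm_num) (by norm_num)
        (E3.many_core n m hn 1.45 2.05 0.8529 0.9596 _ _ 2.8 6.5 (by norm_num) (by norm_num)
          (by norm_num) (by norm_num) s5 s6 (by norm_num) c2.le c3 k5 k6 p3)
    rcases le_or_gt (m : ℝ) (18 * n) with c4 | c4
    · exact many_of n m (by omega) hm 1.8 2.6 (by norm_num) (by norm_num)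
        (E3.many_core n m hn 1.8 2.6 0.9281 0.9906 _ _ 6.5 18 (by norm_num) (by norm_num)
          (by norm_num) (by norm_num) s7 s8 (by norm_num) c3.le c4 k7 k8 p4)
    · exact many_of n m (by omega) hm 2.2 2.95 (by norm_num) (by norm_num)
        (E3.many_core n m hn 2.2 2.95 0.9721 0.9968 _ _ 18 50 (by norm_num) (by norm_num)
          (by norm_num) (by norm_num) s9 s10 (by norm_num) c4.le h50' k9 k10 p5)

theorem main_large (n N : ℕ) (hn : 500 ≤ n) (hN : n ≤ N) :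
      (4 : ENNReal) ^ n / (n.factorial : ENNReal) ≤
        ∫⁻ ω : Fin N → (Fin n → ℝ),
          volume (convexHull ℝ (Set.range ω ∪ Set.range (fun i => -ω i))) *
          volume {y : Fin n → ℝ | ∀ x ∈ convexHull ℝ (Set.range ω ∪ Set.range (fun i => -ω i)),
                    ∑ j, x j * y j ≤ 1}
        ∂(Measure.pi (fun _ : Fin N => Measure.pi (fun _ : Fin n => gaussianReal 0 1))) := by
  obtain ⟨m, rfl⟩ : ∃ m, N = n + m := ⟨N - n, by omega⟩
  have hT1 := T1_of A1.vol_simplex (A5.facet_integral A4.det_ne_zero_ae) n m (by omega)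
  refine le_trans ?_ hT1
  rw [mul_assoc]
  conv_lhs => rw [← mul_one ((4 : ENNReal) ^ n / (n.factorial : ENNReal))]
  gcongr
  rcases Nat.eq_zero_or_pos m with rfl | hm
  · simp only [pow_zero, lintegral_one, measure_univ, add_zero, Nat.choose_self, Nat.cast_one, one_mul,
      MeasureTheory.lintegral_const, Measure.restrict_apply, MeasurableSet.univ, Set.univ_inter]
    rw [volume_pi_pi]
    simp only [Real.volume_Icc, Finset.prod_const, Finset.card_univ, Fintype.card_fin]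
    rw [show (1 - -1 : ℝ) = 2 by norm_num, ENNReal.ofReal_ofNat]
    rw [ENNReal.inv_mul_cancel (by positivity) (by simp)]
  · have h1 := avg_lower n m (by omega) hm
    rcases le_or_gt (10 * m) (7 * n) with hc | hc
    · refine (few n m (by omega) hm hc).trans ?_
      gcongr
    · refine (many n m hn hc.le).trans ?_
      gcongr

end Pool.Agent.VP
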