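import Pool.Agent.VP.Defs

set_option autoImplicit false
open MeasureTheory ProbabilityTheory
open scoped ENNReal Matrix

namespace Pool.Agent.VP

/-! ### A: geometry -/

theorem vol_simplex (n : ℕ) :
    volume {c : Fin n → ℝ | (∀ i, 0 < c i) ∧ ∑ i, c i < 1} =
      ENNReal.ofReal (1 / (n.factorial : ℝ)) := by
  sorry

theorem T1 (n m : ℕ) (hn : 1 ≤ n) :
    (4 : ℝ≥0∞) ^ n / (n.factorial : ℝ≥0∞) * ((n + m).choose n : ℝ≥0∞) *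
      (((2 : ℝ≥0∞) ^ n)⁻¹ * ∫⁻ z in Set.pi Set.univ (fun _ : Fin n => Set.Icc (-1 : ℝ) 1),
        ∫⁻ G : Fin n → Fin n → ℝ, qq ((Matrix.of G)⁻¹ *ᵥ 1) ((Matrix.of G)⁻¹ *ᵥ z) ^ m
          ∂(Measure.pi (fun _ : Fin n => gam n))) ≤
    ∫⁻ ω : Fin (n + m) → (Fin n → ℝ),
          volume (convexHull ℝ (Set.range ω ∪ Set.range (fun i => -ω i))) *
          volume {y : Fin n → ℝ | ∀ x ∈ convexHull ℝ (Set.range ω ∪ Set.range (fun i => -ω i)),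
                    ∑ j, x j * y j ≤ 1}
        ∂(Measure.pi (fun _ : Fin (n + m) => gam n)) := by
  sorry

/-! ### B: the law -/

theorem rot (n : ℕ) (O : Matrix (Fin n) (Fin n) ℝ) (hO : O ∈ Matrix.orthogonalGroup (Fin n) ℝ) :
    MeasurePreserving (fun x : Fin n → ℝ => O *ᵥ x) (gam n) (gam n) := by
  sorry

theorem rot_rows (n k : ℕ) (O : Matrix (Fin n) (Fin n) ℝ)
    (hO : O ∈ Matrix.orthogonalGroup (Fin n) ℝ) :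
    MeasurePreserving (fun (G : Fin n → Fin k → ℝ) (i : Fin n) (j : Fin k) => ∑ l, O i l * G l j)
      (Measure.pi (fun _ : Fin n => gam k)) (Measure.pi (fun _ : Fin n => gam k)) := by
  sorry

theorem exists_orth (k : ℕ) (z : Fin (k + 2) → ℝ) (hs : 0 < s2 z) :
    ∃ O ∈ Matrix.orthogonalGroup (Fin (k + 2)) ℝ,
      O *ᵥ (1 : Fin (k + 2) → ℝ) = Pi.single 0 (√((k + 2 : ℕ) : ℝ)) ∧
      O *ᵥ z = Pi.single 0 (√((k + 2 : ℕ) : ℝ) * zb z) + Pi.single 1 (√(s2 z)) := by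
  sorry

theorem law_pair (n : ℕ) (w₁ w₂ : Fin n → ℝ) (h11 : ∑ j, w₁ j * w₁ j = 1)
    (h22 : ∑ j, w₂ j * w₂ j = 1) (h12 : ∑ j, w₁ j * w₂ j = 0) :
    MeasurePreserving (fun h : Fin n → ℝ => (∑ j, h j * w₁ j, ∑ j, h j * w₂ j)) (gam n)
      ((gaussianReal 0 1).prod (gaussianReal 0 1)) := by
  sorry

theorem om_mono_abs (c c' b : ℝ) (h : |c| ≤ |c'|) : om c' b ≤ om c b := by
  sorry

theorem qq_lower (n : ℕ) (w₁ w₂ : Fin n → ℝ) (h11 : ∑ j, w₁ j * w₁ j = 1)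
    (h22 : ∑ j, w₂ j * w₂ j = 1) (h12 : ∑ j, w₁ j * w₂ j = 0)
    (α β c : ℝ) (hα : α ≠ 0) (hc : 0 < c) :
    SS (1 / |α|) * om (β / (α * c)) (1 / c) ≤
      qq (fun j => α * w₁ j) (fun j => β * w₁ j + c * w₂ j) := by
  sorry

theorem T2 (k m : ℕ) (z : Fin (k + 2) → ℝ) (hs : 0 < s2 z) :
    J1 (k + 2) m * J2 m z ≤
      ∫⁻ G : Fin (k + 2) → Fin (k + 2) → ℝ,
        qq ((Matrix.of G)⁻¹ *ᵥ 1) ((Matrix.of G)⁻¹ *ᵥ z) ^ m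
          ∂(Measure.pi (fun _ : Fin (k + 2) => gam (k + 2))) := by
  sorry

/-! ### C: the regime of few points -/

theorem om_lower (a b : ℝ) (hb : 0 ≤ b) :
    ENNReal.ofReal (√(2 / Real.pi) * b * Real.exp (-(a ^ 2 + b ^ 2 / 3) / 2)) ≤ om a b := by
  sorry

theorem SS_lower (x : ℝ) (hx : 0 ≤ x) :
    ENNReal.ofReal (√(2 / Real.pi) * x * Real.exp (-x ^ 2 / 6)) ≤ SS x := by
  sorry

theorem J1_lower (n m : ℕ) (hn : 1 ≤ n) :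
    ENNReal.ofReal ((√(2 / (Real.pi * n))) ^ m * (√2) ^ m * Real.Gamma (((m : ℝ) + 1) / 2) / √Real.pi /
      (√(1 + (m : ℝ) / (3 * n))) ^ (m + 1)) ≤ J1 n m := by
  sorry

theorem J2_lower (n m : ℕ) (hn : 2 ≤ n) (z : Fin n → ℝ) (hs : 0 < s2 z) :
    ENNReal.ofReal ((√(4 / Real.pi)) ^ m * √((n : ℝ) / (n + m)) * Real.Gamma ((m : ℝ) / 2 + 1) *
      s2 z / (√(s2 z + m / 3 + m * n * zb z ^ 2 / (n + m))) ^ (m + 2)) ≤ J2 m z := by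
  sorry

theorem z_int (n m : ℕ) (hn : 2 ≤ n) :
    ENNReal.ofReal (((n : ℝ) - 1) / 3 / (√(((n : ℝ) + m) / 3 + 4 / 15)) ^ (m + 2)) ≤
    ((2 : ℝ≥0∞) ^ n)⁻¹ * ∫⁻ z in Set.pi Set.univ (fun _ : Fin n => Set.Icc (-1 : ℝ) 1),
      ENNReal.ofReal (s2 z / (√(s2 z + m / 3 + m * n * zb z ^ 2 / (n + m))) ^ (m + 2)) := by
  sorry

theorem few_points_ineq (n m : ℕ) (hn : 400 ≤ n) (hm : 1 ≤ m) (hmn : 10 * m ≤ 7 * n) :
    1 ≤ ((n + m).choose n : ℝ) *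
      ((√(2 / (Real.pi * n))) ^ m * (√2) ^ m * Real.Gamma (((m : ℝ) + 1) / 2) / √Real.pi /
        (√(1 + (m : ℝ) / (3 * n))) ^ (m + 1)) *
      ((√(4 / Real.pi)) ^ m * √((n : ℝ) / (n + m)) * Real.Gamma ((m : ℝ) / 2 + 1)) *
      (((n : ℝ) - 1) / 3 / (√(((n : ℝ) + m) / 3 + 4 / 15)) ^ (m + 2)) := by
  sorry

/-! ### D: the regime of many points -/

theorem J1_lower' (n m : ℕ) (hn : 1 ≤ n) (h : ℝ) (hh : 0 < h) :
    ENNReal.ofReal (√(2 / Real.pi) / (Real.exp 1 * h * √(n : ℝ)) * Real.exp (-1 / (2 * n * h ^ 2)) *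
      Real.exp (-(n * h ^ 2) / 2)) * SS h ^ m ≤ J1 n m := by
  sorry

/-- The law of `(a, b)` for fixed `z`. -/
theorem J2_eq (n m : ℕ) (hn : 2 ≤ n) (z : Fin n → ℝ) (hs : 0 < s2 z) :
    J2 m z = ∫⁻ b in Set.Ioi (0 : ℝ), ∫⁻ a : ℝ, om a b ^ m *
      ENNReal.ofReal (√(n : ℝ) / √(2 * Real.pi) * s2 z * b *
        Real.exp (-(∑ i, (a + z i * b) ^ 2) / 2)) := by
  sorry

theorem z_int' (n : ℕ) (hn : 2 ≤ n) (x a b : ℝ) (hx : 0 < x) (ha : a - b ≤ -x) (hb : x ≤ a + b) :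
    ENNReal.ofReal (((n : ℝ) - 1) * (1 - 2 * x * Real.exp (-x ^ 2 / 2) / (√(2 * Real.pi) * (SS x).toReal)) / b ^ 2 *
      (√(2 * Real.pi) * (SS x).toReal / (2 * b)) ^ n) ≤
    ((2 : ℝ≥0∞) ^ n)⁻¹ * ∫⁻ z in Set.pi Set.univ (fun _ : Fin n => Set.Icc (-1 : ℝ) 1),
      ENNReal.ofReal (s2 z * Real.exp (-(∑ i, (a + z i * b) ^ 2) / 2)) := by
  sorry

theorem J2_lower' (n m : ℕ) (hn : 2 ≤ n) (x : ℝ) (hx : 0 < x) :
    ENNReal.ofReal ((n - 1) * x / (2 * √(2 * Real.pi) * n * √(n : ℝ)) *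
      (1 - 2 * x * Real.exp (-x ^ 2 / 2) / (√(2 * Real.pi) * (SS x).toReal)) *
      (√(2 * Real.pi) * (SS x).toReal / (2 * x)) ^ n / (1 + 1 / (n : ℝ)) ^ (n + 2)) * SS x ^ m ≤
    ((2 : ℝ≥0∞) ^ n)⁻¹ * ∫⁻ z in Set.pi Set.univ (fun _ : Fin n => Set.Icc (-1 : ℝ) 1), J2 m z := by
  sorry

theorem choose_lower (n m : ℕ) (hn : 1 ≤ n) (hm : 1 ≤ m) :
    Real.exp (-1 - 1 / (4 * m)) * √(((n : ℝ) + m) / (n * m)) *
      (((n : ℝ) + m) ^ (n + m) / ((n : ℝ) ^ n * (m : ℝ) ^ m)) ≤ ((n + m).choose n : ℝ) := by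
  sorry

theorem many_points_ineq (n m : ℕ) (hn : 500 ≤ n) (hmn : 7 * n ≤ 10 * m) :
    ∃ h x : ℝ, 0 < h ∧ 0 < x ∧
    1 ≤ Real.exp (-1 - 1 / (4 * m)) * √(((n : ℝ) + m) / (n * m)) *
      (((n : ℝ) + m) ^ (n + m) / ((n : ℝ) ^ n * (m : ℝ) ^ m)) *
      (√(2 / Real.pi) / (Real.exp 1 * h * √(n : ℝ)) * Real.exp (-1 / (2 * n * h ^ 2)) *
      Real.exp (-(n * h ^ 2) / 2) * (SS h).toReal ^ m) *
      ((n - 1) * x / (2 * √(2 * Real.pi) * n * √(n : ℝ)) *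
      (1 - 2 * x * Real.exp (-x ^ 2 / 2) / (√(2 * Real.pi) * (SS x).toReal)) *
      (√(2 * Real.pi) * (SS x).toReal / (2 * x)) ^ n / (1 + 1 / (n : ℝ)) ^ (n + 2) *
      (SS x).toReal ^ m) := by
  sorry

end Pool.Agent.VP
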