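import Pool.Agent.VP.Facets

set_option autoImplicit false
open MeasureTheory ProbabilityTheory
open scoped ENNReal Matrix

namespace Pool.Agent.VP

lemma sum_lintegral_le {α ι : Type*} [MeasurableSpace α] (μ : Measure α) (s : Finset ι)
    (f : ι → α → ℝ≥0∞) : ∑ i ∈ s, ∫⁻ a, f i a ∂μ ≤ ∫⁻ a, ∑ i ∈ s, f i a ∂μ := by
  classical
  induction s using Finset.induction_on with
  | empty => simp
  | insert i s hi ih =>
    rw [Finset.sum_insert hi]
    calc ∫⁻ a, f i a ∂μ + ∑ j ∈ s, ∫⁻ a, f j a ∂μ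
        ≤ ∫⁻ a, f i a ∂μ + ∫⁻ a, ∑ j ∈ s, f j a ∂μ := by gcongr
      _ ≤ ∫⁻ a, (f i a + ∑ j ∈ s, f j a) ∂μ := le_lintegral_add _ _
      _ = ∫⁻ a, ∑ j ∈ insert i s, f j a ∂μ := by
        congr 1; ext a; rw [Finset.sum_insert hi]

theorem T1_of
    (vol_simplex : ∀ n : ℕ, volume {c : Fin n → ℝ | (∀ i, 0 < c i) ∧ ∑ i, c i < 1} =
      ENNReal.ofReal (1 / (n.factorial : ℝ)))
    (facet_integral : ∀ (n m : ℕ) (F : Sub n (n + m)) (ε : Fin n → Bool),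
      ∫⁻ z in Set.pi Set.univ (fun _ : Fin n => Set.Icc (-1 : ℝ) 1),
        ∫⁻ G : Fin n → Fin n → ℝ, qq ((Matrix.of G)⁻¹ *ᵥ 1) ((Matrix.of G)⁻¹ *ᵥ z) ^ m
          ∂(Measure.pi (fun _ : Fin n => gam n)) ≤
      ∫⁻ ω : Fin (n + m) → (Fin n → ℝ),
        Set.indicator {ω | Facet ω F ε} (fun ω => ENNReal.ofReal |(MF ω F ε).det|) ω *
        volume {y : Fin n → ℝ | ∀ x ∈ KK ω, ∑ j, x j * y j ≤ 1}
          ∂(Measure.pi (fun _ : Fin (n + m) => gam n)))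
    (n m : ℕ) (hn : 1 ≤ n) :
    (4 : ℝ≥0∞) ^ n / (n.factorial : ℝ≥0∞) * ((n + m).choose n : ℝ≥0∞) *
      (((2 : ℝ≥0∞) ^ n)⁻¹ * ∫⁻ z in Set.pi Set.univ (fun _ : Fin n => Set.Icc (-1 : ℝ) 1),
        ∫⁻ G : Fin n → Fin n → ℝ, qq ((Matrix.of G)⁻¹ *ᵥ 1) ((Matrix.of G)⁻¹ *ᵥ z) ^ m
          ∂(Measure.pi (fun _ : Fin n => gam n))) ≤
    ∫⁻ ω : Fin (n + m) → (Fin n → ℝ),
          volume (convexHull ℝ (Set.range ω ∪ Set.range (fun i => -ω i))) *
          volume {y : Fin n → ℝ | ∀ x ∈ convexHull ℝ (Set.range ω ∪ Set.range (fun i => -ω i)),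
                    ∑ j, x j * y j ≤ 1}
        ∂(Measure.pi (fun _ : Fin (n + m) => gam n)) := by
  classical
  set I := ∫⁻ z in Set.pi Set.univ (fun _ : Fin n => Set.Icc (-1 : ℝ) 1),
        ∫⁻ G : Fin n → Fin n → ℝ, qq ((Matrix.of G)⁻¹ *ᵥ 1) ((Matrix.of G)⁻¹ *ᵥ z) ^ m
          ∂(Measure.pi (fun _ : Fin n => gam n)) with hI
  have hfac : ENNReal.ofReal (1 / (n.factorial : ℝ)) = (n.factorial : ℝ≥0∞)⁻¹ := by
    rw [one_div, ENNReal.ofReal_inv_of_pos (by positivity), ENNReal.ofReal_natCast]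
  have hfac0 : (n.factorial : ℝ≥0∞) ≠ 0 := by
    exact_mod_cast n.factorial_ne_zero
  have h1 : ∀ ω : Fin (n + m) → (Fin n → ℝ),
      ∑ P : Sub n (n + m) × (Fin n → Bool), (n.factorial : ℝ≥0∞)⁻¹ *
        (Set.indicator {ω | Facet ω P.1 P.2} (fun ω => ENNReal.ofReal |(MF ω P.1 P.2).det|) ω *
        volume {y : Fin n → ℝ | ∀ x ∈ KK ω, ∑ j, x j * y j ≤ 1}) ≤
      volume (KK ω) * volume {y : Fin n → ℝ | ∀ x ∈ KK ω, ∑ j, x j * y j ≤ 1} := by
    intro ω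
    have h2 := facets_volume hn ω
    rw [vol_simplex n, hfac] at h2
    calc ∑ P : Sub n (n + m) × (Fin n → Bool), (n.factorial : ℝ≥0∞)⁻¹ *
        (Set.indicator {ω | Facet ω P.1 P.2} (fun ω => ENNReal.ofReal |(MF ω P.1 P.2).det|) ω *
        volume {y : Fin n → ℝ | ∀ x ∈ KK ω, ∑ j, x j * y j ≤ 1})
        = (∑ P : Sub n (n + m) × (Fin n → Bool),
      Set.indicator {P : Sub n (n + m) × (Fin n → Bool) | Facet ω P.1 P.2}
        (fun P => ENNReal.ofReal |(MF ω P.1 P.2).det|) P * (n.factorial : ℝ≥0∞)⁻¹) *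
          volume {y : Fin n → ℝ | ∀ x ∈ KK ω, ∑ j, x j * y j ≤ 1} := by
          rw [Finset.sum_mul]
          apply Finset.sum_congr rfl
          intro P _
          have : Set.indicator {ω | Facet ω P.1 P.2}
              (fun ω => ENNReal.ofReal |(MF ω P.1 P.2).det|) ω =
              Set.indicator {P : Sub n (n + m) × (Fin n → Bool) | Facet ω P.1 P.2}
                (fun P => ENNReal.ofReal |(MF ω P.1 P.2).det|) P := by
            by_cases hP : Facet ω P.1 P.2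
            · rw [Set.indicator_of_mem (by exact hP), Set.indicator_of_mem (by exact hP)]
            · rw [Set.indicator_of_notMem (by exact hP), Set.indicator_of_notMem (by exact hP)]
          rw [this]
          ring
      _ ≤ _ := by gcongr
  have hcard : Fintype.card (Sub n (n + m) × (Fin n → Bool)) = (n + m).choose n * 2 ^ n := by
    rw [Fintype.card_prod]
    congr 1
    · rw [Fintype.card_finset_len]
      simp
    · simp
  calc (4 : ℝ≥0∞) ^ n / (n.factorial : ℝ≥0∞) * ((n + m).choose n : ℝ≥0∞) * (((2 : ℝ≥0∞) ^ n)⁻¹ * I)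
      = ∑ P : Sub n (n + m) × (Fin n → Bool), (n.factorial : ℝ≥0∞)⁻¹ * I := by
        rw [Finset.sum_const, Finset.card_univ, hcard, nsmul_eq_mul]
        push_cast
        have h4 : (4 : ℝ≥0∞) ^ n = 2 ^ n * 2 ^ n := by rw [← mul_pow]; norm_num
        have h2 : (2 : ℝ≥0∞) ^ n * ((2 : ℝ≥0∞) ^ n)⁻¹ = 1 :=
          ENNReal.mul_inv_cancel (by positivity) (by simp)
        rw [h4, div_eq_mul_inv]
        calc 2 ^ n * 2 ^ n * (n.factorial : ℝ≥0∞)⁻¹ * ((n + m).choose n : ℝ≥0∞) * (((2 : ℝ≥0∞) ^ n)⁻¹ * I)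
            = (2 ^ n * ((2 : ℝ≥0∞) ^ n)⁻¹) * (((n + m).choose n : ℝ≥0∞) * 2 ^ n * ((n.factorial : ℝ≥0∞)⁻¹ * I)) := by ring
          _ = _ := by rw [h2, one_mul]
    _ ≤ ∑ P : Sub n (n + m) × (Fin n → Bool), ∫⁻ ω : Fin (n + m) → (Fin n → ℝ),
          (n.factorial : ℝ≥0∞)⁻¹ *
        (Set.indicator {ω | Facet ω P.1 P.2} (fun ω => ENNReal.ofReal |(MF ω P.1 P.2).det|) ω *
        volume {y : Fin n → ℝ | ∀ x ∈ KK ω, ∑ j, x j * y j ≤ 1})
          ∂(Measure.pi (fun _ : Fin (n + m) => gam n)) := by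
        apply Finset.sum_le_sum
        intro P _
        rw [lintegral_const_mul' _ _ (ENNReal.inv_ne_top.mpr hfac0)]
        gcongr
        exact facet_integral n m P.1 P.2
    _ ≤ ∫⁻ ω : Fin (n + m) → (Fin n → ℝ), ∑ P : Sub n (n + m) × (Fin n → Bool),
          (n.factorial : ℝ≥0∞)⁻¹ *
        (Set.indicator {ω | Facet ω P.1 P.2} (fun ω => ENNReal.ofReal |(MF ω P.1 P.2).det|) ω *
        volume {y : Fin n → ℝ | ∀ x ∈ KK ω, ∑ j, x j * y j ≤ 1})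
          ∂(Measure.pi (fun _ : Fin (n + m) => gam n)) := sum_lintegral_le _ _ _
    _ ≤ _ := lintegral_mono h1

end Pool.Agent.VP
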